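import Mathlib

/-!
# DEC-R: shift equivalence over the integers, blocks (helper78)
-/

set_option autoImplicit false

namespace Pool.Agent.DEC.R

open Matrix Finset

variable {d : ℕ}

/-- Shift equivalence over the integers of two square integer matrices of the same size. -/
def SE (T S : Matrix (Fin d) (Fin d) ℤ) : Prop :=
  ∃ (l : ℕ) (R U : Matrix (Fin d) (Fin d) ℤ),
    T * R = R * S ∧ U * T = S * U ∧ R * U = T ^ l ∧ U * R = S ^ l

theorem SE.refl (T : Matrix (Fin d) (Fin d) ℤ) : SE T T :=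
  ⟨0, 1, 1, by simp, by simp, by simp, by simp⟩

theorem SE.symm {T S : Matrix (Fin d) (Fin d) ℤ} (h : SE T S) : SE S T := by
  obtain ⟨l, R, U, h1, h2, h3, h4⟩ := h
  exact ⟨l, U, R, h2.symm, h1.symm, h4, h3⟩

theorem mul_pow_of_intertwine {T S R : Matrix (Fin d) (Fin d) ℤ} (h : T * R = R * S) (n : ℕ) :
    T ^ n * R = R * S ^ n := by
  induction n with
  | zero => simp
  | succ n ih =>
    rw [pow_succ, Matrix.mul_assoc, h, ← Matrix.mul_assoc, ih, Matrix.mul_assoc, ← pow_succ]

theorem SE.trans {T S Q : Matrix (Fin d) (Fin d) ℤ} (h : SE T S) (h' : SE S Q) : SE T Q := by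
  obtain ⟨l, R, U, h1, h2, h3, h4⟩ := h
  obtain ⟨l', R', U', h1', h2', h3', h4'⟩ := h'
  refine ⟨l + l', R * R', U' * U, ?_, ?_, ?_, ?_⟩
  · rw [← Matrix.mul_assoc, h1, Matrix.mul_assoc, h1', Matrix.mul_assoc]
  · rw [Matrix.mul_assoc, h2, ← Matrix.mul_assoc, h2', Matrix.mul_assoc]
  · calc R * R' * (U' * U) = R * (R' * U') * U := by simp only [Matrix.mul_assoc]
      _ = R * (S ^ l' * U) := by rw [h3', Matrix.mul_assoc]
      _ = R * (U * T ^ l') := by rw [← mul_pow_of_intertwine h2.symm l']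
      _ = T ^ (l + l') := by rw [← Matrix.mul_assoc, h3, pow_add]
  · calc U' * U * (R * R') = U' * (U * R) * R' := by simp only [Matrix.mul_assoc]
      _ = U' * (S ^ l * R') := by rw [h4, Matrix.mul_assoc]
      _ = U' * (R' * Q ^ l) := by rw [mul_pow_of_intertwine h1' l]
      _ = Q ^ (l + l') := by rw [← Matrix.mul_assoc, h4', add_comm, pow_add]

/-- Unimodular conjugation. -/
theorem SE.of_conj {T S g g' : Matrix (Fin d) (Fin d) ℤ} (hg : g * g' = 1) (hg' : g' * g = 1)
    (h : g * T = S * g) : SE T S := by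
  refine ⟨0, g', g, ?_, h, by simpa using hg', by simpa using hg⟩
  calc T * g' = g' * g * T * g' := by rw [hg', Matrix.one_mul]
    _ = g' * (g * T) * g' := by simp only [Matrix.mul_assoc]
    _ = g' * S * (g * g') := by rw [h]; simp only [Matrix.mul_assoc]
    _ = g' * S := by rw [hg, Matrix.mul_one]

/-- Elementary equivalence. -/
theorem SE.of_elem {T S C D : Matrix (Fin d) (Fin d) ℤ} (hT : T = D * C) (hS : S = C * D) :
    SE T S := by
  refine ⟨1, D, C, ?_, ?_, ?_, ?_⟩
  · rw [hT, hS, Matrix.mul_assoc]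
  · rw [hT, hS, Matrix.mul_assoc]
  · rw [hT, pow_one]
  · rw [hS, pow_one]

/-- Polynomial relations are transported by shift equivalence when `T` is nonsingular. -/
theorem SE.aeval_eq_zero {T S : Matrix (Fin d) (Fin d) ℤ} (h : SE T S) (hS : S.det ≠ 0)
    (m : Polynomial ℤ) (hm : Polynomial.aeval T m = 0) : Polynomial.aeval S m = 0 := by
  obtain ⟨l, R, U, h1, h2, h3, h4⟩ := h
  have hpoly : ∀ q : Polynomial ℤ, U * Polynomial.aeval T q = Polynomial.aeval S q * U := by
    intro q
    induction q using Polynomial.induction_on' with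
    | add p q hp hq => rw [map_add, map_add, Matrix.mul_add, Matrix.add_mul, hp, hq]
    | monomial n a =>
      have h5 : U * T ^ n = S ^ n * U := (mul_pow_of_intertwine h2.symm n).symm
      rw [Polynomial.aeval_monomial, Polynomial.aeval_monomial,
        Algebra.algebraMap_eq_smul_one (R := ℤ) (A := Matrix (Fin d) (Fin d) ℤ), Matrix.smul_mul,
        Matrix.smul_mul, Matrix.one_mul, Matrix.one_mul, Matrix.mul_smul, Matrix.smul_mul, h5]
  have h6 : Polynomial.aeval S m * S ^ l = 0 := by
    rw [← h4, ← Matrix.mul_assoc, ← hpoly, hm, Matrix.mul_zero, Matrix.zero_mul]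
  have h7 : Polynomial.aeval S m * (S ^ l * (S ^ l).adjugate) = 0 := by
    rw [← Matrix.mul_assoc, h6, Matrix.zero_mul]
  rw [mul_adjugate, Matrix.mul_smul, Matrix.mul_one] at h7
  exact (smul_eq_zero.mp h7).resolve_left (by rw [det_pow]; exact pow_ne_zero _ hS)

/-- The diagonal block of `T` on the indices `n, ..., n + e - 1`. -/
def blk (T : Matrix (Fin d) (Fin d) ℤ) (n e : ℕ) (h : n + e ≤ d) : Matrix (Fin e) (Fin e) ℤ :=
  fun i j => T ⟨n + i.1, by have := i.2; omega⟩ ⟨n + j.1, by have := j.2; omega⟩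

/-- `T` is block lower triangular at `n`: the first `n` coordinates are stable. -/
def LT (T : Matrix (Fin d) (Fin d) ℤ) (n : ℕ) : Prop :=
  ∀ l m : Fin d, l.1 < n → n ≤ m.1 → T l m = 0

theorem LT.mul {A B : Matrix (Fin d) (Fin d) ℤ} {n : ℕ} (hA : LT A n) (hB : LT B n) :
    LT (A * B) n := by
  intro l m hl hm
  rw [mul_apply]
  apply Finset.sum_eq_zero
  intro k _
  by_cases hk : k.1 < n
  · rw [hB k m hk hm, mul_zero]
  · rw [hA l k hl (not_lt.mp hk), zero_mul]

theorem LT.one (n : ℕ) : LT (1 : Matrix (Fin d) (Fin d) ℤ) n := by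
  intro l m hl hm
  rw [one_apply_ne]
  rintro rfl
  omega

/-- Middle blocks multiply. -/
theorem blk_mul {A B : Matrix (Fin d) (Fin d) ℤ} {n e : ℕ} (h : n + e ≤ d)
    (hB1 : LT B n) (hA2 : LT A (n + e)) :
    blk (A * B) n e h = blk A n e h * blk B n e h := by
  ext i j
  have hi := i.2
  have hj := j.2
  simp only [blk, mul_apply]
  symm
  apply Finset.sum_of_injOn (fun k : Fin e => (⟨n + k.1, by have := k.2; omega⟩ : Fin d))
  · intro a _ b _ hab
    have := congrArg Fin.val hab
    simp only at this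
    apply Fin.ext
    omega
  · intro a _
    exact Finset.mem_coe.mpr (Finset.mem_univ _)
  · intro k _ hk
    by_cases hk1 : k.1 < n
    · rw [hB1 k _ hk1 (by simp), mul_zero]
    · by_cases hk2 : k.1 < n + e
      · exfalso
        apply hk
        refine ⟨⟨k.1 - n, by omega⟩, by simp, ?_⟩
        apply Fin.ext
        simp only
        omega
      · rw [hA2 _ k (by simp only; omega) (not_lt.mp hk2), zero_mul]
  · intro a _
    rfl

theorem blk_one (n e : ℕ) (h : n + e ≤ d) : blk (1 : Matrix (Fin d) (Fin d) ℤ) n e h = 1 := by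
  ext i j
  simp only [blk, one_apply, Fin.ext_iff]
  by_cases hij : i.1 = j.1
  · rw [if_pos (by omega), if_pos hij]
  · rw [if_neg (by omega), if_neg hij]

theorem blk_add (A B : Matrix (Fin d) (Fin d) ℤ) (n e : ℕ) (h : n + e ≤ d) :
    blk (A + B) n e h = blk A n e h + blk B n e h := rfl

theorem blk_smul (a : ℤ) (A : Matrix (Fin d) (Fin d) ℤ) (n e : ℕ) (h : n + e ≤ d) :
    blk (a • A) n e h = a • blk A n e h := rfl

theorem LT.pow {A : Matrix (Fin d) (Fin d) ℤ} {n : ℕ} (hA : LT A n) (k : ℕ) : LT (A ^ k) n := by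
  induction k with
  | zero => rw [pow_zero]; exact LT.one n
  | succ k ih => rw [pow_succ]; exact ih.mul hA

theorem blk_pow {A : Matrix (Fin d) (Fin d) ℤ} {n e : ℕ} (h : n + e ≤ d) (h1 : LT A n)
    (h2 : LT A (n + e)) (k : ℕ) : blk (A ^ k) n e h = blk A n e h ^ k := by
  induction k with
  | zero => rw [pow_zero, pow_zero, blk_one]
  | succ k ih => rw [pow_succ, pow_succ, blk_mul h h1 (h2.pow k), ih]

/-- Polynomial identities pass to the middle block. -/
theorem blk_aeval {A : Matrix (Fin d) (Fin d) ℤ} {n e : ℕ} (h : n + e ≤ d) (h1 : LT A n)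
    (h2 : LT A (n + e)) (m : Polynomial ℤ) :
    Polynomial.aeval (blk A n e h) m = blk (Polynomial.aeval A m) n e h := by
  induction m using Polynomial.induction_on' with
  | add p q hp hq => rw [map_add, map_add, blk_add, hp, hq]
  | monomial k a =>
    rw [Polynomial.aeval_monomial, Polynomial.aeval_monomial,
      Algebra.algebraMap_eq_smul_one (R := ℤ) (A := Matrix (Fin d) (Fin d) ℤ),
      Algebra.algebraMap_eq_smul_one (R := ℤ) (A := Matrix (Fin e) (Fin e) ℤ), Matrix.smul_mul,
      Matrix.smul_mul, Matrix.one_mul, Matrix.one_mul, blk_smul, blk_pow h h1 h2]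

end Pool.Agent.DEC.R
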