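import Pool.Agent.DEC.R.Step
import Pool.Agent.DEC.R.SEq

/-!
# DEC-R: the condition in terms of shift equivalence and the bounded condition (helper78)
-/

set_option autoImplicit false

namespace Pool.Agent.DEC.R

open Matrix

variable {d : ℕ}

/-- The condition: `T` is shift equivalent to a block triangular matrix whose middle block is
shift equivalent to `S` and whose first block has vanishing traces. -/
def Cond (T : Matrix (Fin d) (Fin d) ℤ) {e : ℕ} (S : Matrix (Fin e) (Fin e) ℤ) (Nz : ℕ → Prop) :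
    Prop :=
  ∃ (n : ℕ) (h : n + e ≤ d) (T' : Matrix (Fin d) (Fin d) ℤ), SE T T' ∧ LT T' n ∧ LT T' (n + e) ∧
    SE (blk T' n e h) S ∧
    ∀ k, 0 < k → Nz k → (blk (T' ^ k) 0 n (by omega)).trace = 0

/-- The bounded condition: the shift equivalences are chains of bounded elementary equivalences. -/
def BCond (K : ℕ) (T : Matrix (Fin d) (Fin d) ℤ) {e : ℕ} (S : Matrix (Fin e) (Fin e) ℤ)
    (Nz : ℕ → Prop) : Prop :=
  ∃ (n : ℕ) (h : n + e ≤ d) (T' : Matrix (Fin d) (Fin d) ℤ),
    Relation.ReflTransGen (Step K) T T' ∧ LT T' n ∧ LT T' (n + e) ∧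
    Relation.ReflTransGen (Step K) (blk T' n e h) S ∧
    ∀ k, 0 < k → Nz k → (blk (T' ^ k) 0 n (by omega)).trace = 0

end Pool.Agent.DEC.R
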