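import Pool.Agent.DEC.R.TDC
import Pool.Agent.DEC.R.BC

/-!
# DEC-R: the trace and dimension condition in terms of integral block matrices
-/

set_option autoImplicit false

open Matrix

namespace Pool.Agent.DEC.R

namespace Blk

theorem qM_mul {l m n : Type} [Fintype m] (A : Matrix l m ℤ) (B : Matrix m n ℤ) :
    qM (A * B) = qM A * qM B := Matrix.map_mul (f := Int.castRingHom ℚ)

theorem qM_one {n : Type} [DecidableEq n] : qM (1 : Matrix n n ℤ) = 1 := by
  ext i j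
  simp only [qM, Matrix.map_apply, Matrix.one_apply]
  split_ifs <;> simp

theorem qM_pow {n : Type} [Fintype n] [DecidableEq n] (A : Matrix n n ℤ) (k : ℕ) :
    qM (A ^ k) = qM A ^ k := by
  have := map_pow ((Int.castRingHom ℚ).mapMatrix (m := n)) A k
  simpa [RingHom.mapMatrix_apply, qM] using this

theorem qM_inj {m n : Type} {A B : Matrix m n ℤ} (h : qM A = qM B) : A = B := by
  ext i j
  have := congrFun (congrFun h i) j
  simpa [qM] using this

theorem qM_det {n : Type} [Fintype n] [DecidableEq n] (A : Matrix n n ℤ) :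
    (qM A).det = (A.det : ℚ) := by
  have := (Int.castRingHom ℚ).map_det A
  simpa [qM, RingHom.mapMatrix_apply] using this.symm

theorem qM_unit {n : Type} [Fintype n] [DecidableEq n] {A : Matrix n n ℤ} (h : A.det ≠ 0) :
    IsUnit (qM A).det := by
  rw [qM_det, isUnit_iff_ne_zero]
  exact_mod_cast h

/-- an integral vector -/
def qv {n : ℕ} (z : Fin n → ℤ) : Fin n → ℚ := fun j => (z j : ℚ)

theorem qv_vecMul {n m : ℕ} (z : Fin n → ℤ) (A : Matrix (Fin n) (Fin m) ℤ) :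
    qv z ᵥ* qM A = qv (z ᵥ* A) := by
  funext j
  simp only [qv, qM, Matrix.vecMul, dotProduct, Matrix.map_apply]
  push_cast
  rfl

theorem mem_DG {d : ℕ} {T : Matrix (Fin d) (Fin d) ℤ} {v : Fin d → ℚ} :
    v ∈ DG T ↔ ∃ (k : ℕ) (z : Fin d → ℤ), v ᵥ* qM T ^ k = qv z := by
  constructor
  · rintro ⟨k, z, h⟩
    exact ⟨k, z, funext h⟩
  · rintro ⟨k, z, h⟩
    exact ⟨k, z, fun j => congrFun h j⟩

theorem qv_mem {d : ℕ} (T : Matrix (Fin d) (Fin d) ℤ) (z : Fin d → ℤ) : qv z ∈ DG T :=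
  mem_DG.2 ⟨0, z, by rw [pow_zero, Matrix.vecMul_one]⟩

theorem mono {d : ℕ} {T : Matrix (Fin d) (Fin d) ℤ} {v : Fin d → ℚ} {k K : ℕ} {z : Fin d → ℤ}
    (h : v ᵥ* qM T ^ k = qv z) (hk : k ≤ K) : ∃ z' : Fin d → ℤ, v ᵥ* qM T ^ K = qv z' := by
  obtain ⟨j, rfl⟩ := Nat.exists_eq_add_of_le hk
  refine ⟨z ᵥ* T ^ j, ?_⟩
  rw [pow_add, ← Matrix.vecMul_vecMul, h, ← qM_pow, qv_vecMul]

/-! ### adapted bases -/

/-- the integral points of a subspace -/
def lat {d : ℕ} (W : Submodule ℚ (Fin d → ℚ)) : Submodule ℤ (Fin d → ℤ) where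
  carrier := {z | qv z ∈ W}
  add_mem' := by
    intro z w hz hw
    have h : qv (z + w) = qv z + qv w := by
      funext j; simp [qv]
    show qv (z + w) ∈ W
    rw [h]
    exact W.add_mem hz hw
  zero_mem' := by
    have h : qv (0 : Fin d → ℤ) = 0 := by
      funext j; simp [qv]
    show qv (0 : Fin d → ℤ) ∈ W
    rw [h]
    exact W.zero_mem
  smul_mem' := by
    intro c z hz
    have h : qv (c • z) = (c : ℚ) • qv z := by
      funext j; simp [qv]
    show qv (c • z) ∈ W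
    rw [h]
    exact W.smul_mem _ hz

theorem mem_lat {d : ℕ} {W : Submodule ℚ (Fin d → ℚ)} {z : Fin d → ℤ} : z ∈ lat W ↔ qv z ∈ W :=
  Iff.rfl

theorem lat_pure {d : ℕ} {W : Submodule ℚ (Fin d → ℚ)} {c : ℤ} {z : Fin d → ℤ} (hc : c ≠ 0)
    (h : c • z ∈ lat W) : z ∈ lat W := by
  rw [mem_lat] at h ⊢
  have h2 : qv (c • z) = (c : ℚ) • qv z := by
    funext j; simp [qv]
  rw [h2] at h
  have h3 := W.smul_mem (c : ℚ)⁻¹ h
  rwa [smul_smul, inv_mul_cancel₀ (by exact_mod_cast hc), one_smul] at h3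

theorem tf_quot {M : Type} [AddCommGroup M] (N : Submodule ℤ M)
    (h : ∀ (c : ℤ) (z : M), c ≠ 0 → c • z ∈ N → z ∈ N) : Module.IsTorsionFree ℤ (M ⧸ N) := by
  rw [Module.isTorsionFree_iff_smul_eq_zero]
  intro c z hz
  obtain ⟨z, rfl⟩ := Submodule.mkQ_surjective N z
  by_cases hc : c = 0
  · exact Or.inl hc
  right
  rw [Submodule.mkQ_apply, ← Submodule.Quotient.mk_smul, Submodule.Quotient.mk_eq_zero] at hz
  rw [Submodule.mkQ_apply, Submodule.Quotient.mk_eq_zero]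
  exact h c z hc hz

theorem exists_basis {d : ℕ} (U W : Submodule ℚ (Fin d → ℚ)) (hUW : U ≤ W) :
    ∃ (n e : ℕ) (_ : n + e ≤ d) (b : Module.Basis (Fin d) ℤ (Fin d → ℤ)),
      (∀ z, z ∈ lat W ↔ ∀ j : Fin d, n + e ≤ j.1 → b.repr z j = 0) ∧
      (∀ z, z ∈ lat U ↔ ∀ j : Fin d, n ≤ j.1 → b.repr z j = 0) := by
  classical
  let N : Submodule ℤ (lat W) := (lat U).comap (lat W).subtype
  have hle : lat U ≤ lat W := fun z hz => hUW hz
  have t1 : Module.IsTorsionFree ℤ (lat W ⧸ N) := tf_quot N fun c z hc hz => by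
    show ((z : lat W) : Fin d → ℤ) ∈ lat U
    exact lat_pure hc hz
  have t2 : Module.IsTorsionFree ℤ ((Fin d → ℤ) ⧸ lat W) :=
    tf_quot (lat W) fun c z hc hz => lat_pure hc hz
  let b1 := Module.finBasis ℤ N
  let b2 := Module.finBasis ℤ (lat W ⧸ N)
  let b3 := Module.finBasis ℤ ((Fin d → ℤ) ⧸ lat W)
  let b12 := b1.sumQuot b2
  let b0 := b12.sumQuot b3
  obtain ⟨n, hn⟩ : ∃ n, n = Module.finrank ℤ N := ⟨_, rfl⟩
  obtain ⟨e, he⟩ : ∃ e, e = Module.finrank ℤ (lat W ⧸ N) := ⟨_, rfl⟩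
  obtain ⟨m, hm⟩ : ∃ m, m = Module.finrank ℤ ((Fin d → ℤ) ⧸ lat W) := ⟨_, rfl⟩
  have hcard : Module.finrank ℤ N + Module.finrank ℤ (lat W ⧸ N)
      + Module.finrank ℤ ((Fin d → ℤ) ⧸ lat W) = d := by
    have h1 := Module.finrank_eq_card_basis b0
    rw [Module.finrank_fin_fun] at h1
    simp only [Fintype.card_sum, Fintype.card_fin] at h1
    exact h1.symm
  let σ : (Fin (Module.finrank ℤ N) ⊕ Fin (Module.finrank ℤ (lat W ⧸ N))) ⊕
      Fin (Module.finrank ℤ ((Fin d → ℤ) ⧸ lat W)) ≃ Fin d :=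
    ((Equiv.sumCongr finSumFinEquiv (Equiv.refl _)).trans finSumFinEquiv).trans (finCongr hcard)
  have s1 : ∀ i, (σ (Sum.inl (Sum.inl i))).1 = i.1 := fun i => by simp [σ]
  have s2 : ∀ i, (σ (Sum.inl (Sum.inr i))).1 = n + i.1 := fun i => by simp [σ, hn]
  have s3 : ∀ i, (σ (Sum.inr i)).1 = n + e + i.1 := fun i => by simp [σ, hn, he]
  have hr : ∀ (z : Fin d → ℤ) x, (b0.reindex σ).repr z (σ x) = b0.repr z x := fun z x => by
    rw [Module.Basis.repr_reindex_apply, Equiv.symm_apply_apply]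
  have hW : ∀ z, z ∈ lat W ↔ ∀ j, b0.repr z (Sum.inr j) = 0 := by
    intro z
    constructor
    · intro hz j
      exact Module.Basis.sumQuot_repr_inr_of_mem b12 b3 z hz j
    · intro hz
      have h1 : b3.repr ((lat W).mkQ z) = 0 := by
        ext j
        rw [← Module.Basis.sumQuot_repr_inr b12 b3 z j]
        exact hz j
      have h2 : (lat W).mkQ z = 0 := by simpa using h1
      rwa [Submodule.mkQ_apply, Submodule.Quotient.mk_eq_zero] at h2
  have hU : ∀ z (hz : z ∈ lat W), z ∈ lat U ↔ ∀ j, b0.repr z (Sum.inl (Sum.inr j)) = 0 := by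
    intro z hz
    have h0 : ∀ j, b0.repr z (Sum.inl (Sum.inr j)) = b2.repr (N.mkQ ⟨z, hz⟩) j := fun j => by
      rw [← Module.Basis.sumQuot_repr_inr b1 b2 ⟨z, hz⟩ j]
      exact Module.Basis.sumQuot_repr_inl_of_mem b12 b3 z hz (Sum.inr j)
    have h1 : z ∈ lat U ↔ N.mkQ ⟨z, hz⟩ = 0 := by
      rw [Submodule.mkQ_apply, Submodule.Quotient.mk_eq_zero]
      rfl
    rw [h1]
    constructor
    · intro h j
      rw [h0, h, map_zero]; rfl
    · intro h
      have h2 : b2.repr (N.mkQ ⟨z, hz⟩) = 0 := by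
        ext j
        rw [← h0]
        exact h j
      simpa using h2
  refine ⟨n, e, by omega, b0.reindex σ, fun z => ?_, fun z => ?_⟩
  · rw [hW]
    constructor
    · intro h j hj
      obtain ⟨x, rfl⟩ := σ.surjective j
      rw [hr]
      rcases x with (i | i) | i
      · rw [s1] at hj
        have := i.2
        omega
      · rw [s2] at hj
        have := i.2
        omega
      · exact h i
    · intro h j
      rw [← hr]
      exact h _ (by rw [s3]; omega)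
  · constructor
    · intro hz j hj
      have hzW := hle hz
      obtain ⟨x, rfl⟩ := σ.surjective j
      rw [hr]
      rcases x with (i | i) | i
      · rw [s1] at hj
        have := i.2
        omega
      · exact (hU z hzW).1 hz i
      · exact (hW z).1 hzW i
    · intro h
      have hzW : z ∈ lat W := (hW z).2 fun j => by
        rw [← hr]
        exact h _ (by rw [s3]; omega)
      refine (hU z hzW).2 fun j => ?_
      rw [← hr]
      exact h _ (by rw [s2]; omega)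

/-- common denominators -/
theorem exists_den {d : ℕ} (v : Fin d → ℚ) :
    ∃ (N : ℤ) (z : Fin d → ℤ), N ≠ 0 ∧ (N : ℚ) • v = qv z := by
  classical
  have hdiv : ∀ i, ∃ m : ℤ, (∏ j, ((v j).den : ℤ)) = m * ((v i).den : ℤ) := fun i => by
    obtain ⟨m, hm⟩ := Finset.dvd_prod_of_mem (fun j => ((v j).den : ℤ)) (Finset.mem_univ i)
    exact ⟨m, by rw [hm, mul_comm]⟩
  choose m hm using hdiv
  refine ⟨∏ j, ((v j).den : ℤ), fun i => m i * (v i).num, ?_, ?_⟩
  · exact Finset.prod_ne_zero_iff.2 fun j _ => by exact_mod_cast (v j).den_ne_zero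
  · funext i
    have h1 : (((∏ j, ((v j).den : ℤ) : ℤ)) : ℚ) = (m i : ℚ) * ((v i).den : ℚ) := by
      rw [hm i]; push_cast; rfl
    have h2 : ((v i).den : ℚ) * v i = ((v i).num : ℚ) := Rat.den_mul_eq_num (v i)
    show (((∏ j, ((v j).den : ℤ) : ℤ)) : ℚ) * v i = ((m i * (v i).num : ℤ) : ℚ)
    rw [h1, mul_assoc, h2]
    push_cast
    rfl

theorem exists_adapted {d : ℕ} (U W : Submodule ℚ (Fin d → ℚ)) (hUW : U ≤ W) :
    ∃ (n e : ℕ) (_ : n + e ≤ d) (g g' : Matrix (Fin d) (Fin d) ℤ), g * g' = 1 ∧ g' * g = 1 ∧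
      (∀ v, v ∈ W ↔ ∀ j : Fin d, n + e ≤ j.1 → (v ᵥ* qM g') j = 0) ∧
      (∀ v, v ∈ U ↔ ∀ j : Fin d, n ≤ j.1 → (v ᵥ* qM g') j = 0) := by
  classical
  obtain ⟨n, e, h, b, hW, hU⟩ := exists_basis U W hUW
  let g : Matrix (Fin d) (Fin d) ℤ := Matrix.of fun i => b i
  let g' : Matrix (Fin d) (Fin d) ℤ := Matrix.of fun i j => b.repr (Pi.single i 1) j
  have hrep : ∀ z : Fin d → ℤ, z ᵥ* g' = fun j => b.repr z j := by
    intro z
    funext j
    have h1 : z = ∑ i, z i • (Pi.single i (1 : ℤ) : Fin d → ℤ) := by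
      funext k
      simp [Finset.sum_apply, Pi.single_apply]
    conv_rhs => rw [h1]
    rw [map_sum, Finsupp.finsetSum_apply]
    simp only [map_smul, Finsupp.smul_apply, smul_eq_mul]
    rfl
  have hgg' : g * g' = 1 := by
    ext i j
    have h1 : (g * g') i j = (b i ᵥ* g') j := rfl
    rw [h1, hrep]
    show b.repr (b i) j = (1 : Matrix (Fin d) (Fin d) ℤ) i j
    rw [b.repr_self, Finsupp.single_apply, Matrix.one_apply]
  have key : ∀ (X : Submodule ℚ (Fin d → ℚ)) (p : ℕ),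
      (∀ z, z ∈ lat X ↔ ∀ j : Fin d, p ≤ j.1 → b.repr z j = 0) →
      ∀ v, v ∈ X ↔ ∀ j : Fin d, p ≤ j.1 → (v ᵥ* qM g') j = 0 := by
    intro X p hX v
    obtain ⟨N, z, hN, hz⟩ := exists_den v
    have hNq : (N : ℚ) ≠ 0 := by exact_mod_cast hN
    have h1 : v ∈ X ↔ z ∈ lat X := by
      rw [mem_lat, ← hz]
      exact (X.smul_mem_iff hNq).symm
    rw [h1, hX]
    have h2 : ∀ j, (N : ℚ) * (v ᵥ* qM g') j = ((b.repr z j : ℤ) : ℚ) := by
      intro j
      have h3 : ((N : ℚ) • v) ᵥ* qM g' = qv (z ᵥ* g') := by rw [hz, qv_vecMul]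
      rw [Matrix.smul_vecMul, hrep] at h3
      exact congrFun h3 j
    refine forall_congr' fun j => forall_congr' fun _ => ?_
    constructor
    · intro h4
      have h5 := h2 j
      rw [h4, Int.cast_zero] at h5
      exact (mul_eq_zero.1 h5).resolve_left hNq
    · intro h4
      have h5 := h2 j
      rw [h4, mul_zero] at h5
      exact_mod_cast h5.symm
  exact ⟨n, e, h, g, g', hgg', mul_eq_one_comm.1 hgg', key W _ hW, key U _ hU⟩

/-! ### middle coordinates -/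

/-- the coordinates `n, …, n + e - 1` -/
def mid {R : Type} {d : ℕ} (n e : ℕ) (h : n + e ≤ d) (v : Fin d → R) : Fin e → R :=
  fun i => v ⟨n + i.1, by have := i.2; omega⟩

/-- extension by zero -/
def ext {R : Type} [Zero R] {d : ℕ} (n e : ℕ) (c : Fin e → R) : Fin d → R :=
  fun j => if hj : n ≤ j.1 ∧ j.1 < n + e then c ⟨j.1 - n, by omega⟩ else 0

/-- support in the coordinates below `p` -/
def Su {R : Type} [Zero R] {d : ℕ} (p : ℕ) (v : Fin d → R) : Prop := ∀ j : Fin d, p ≤ j.1 → v j = 0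

theorem mid_ext {R : Type} [Zero R] {d n e : ℕ} (h : n + e ≤ d) (c : Fin e → R) :
    mid n e h (ext n e c) = c := by
  funext i
  have hi := i.2
  show (if hj : n ≤ n + i.1 ∧ n + i.1 < n + e then c ⟨n + i.1 - n, by omega⟩ else 0) = c i
  rw [dif_pos (by omega)]
  congr 1
  apply Fin.ext
  simp

theorem Su_ext {R : Type} [Zero R] {d n e : ℕ} (c : Fin e → R) :
    Su (n + e) (ext n e c : Fin d → R) := by
  intro j hj
  show (if hj : n ≤ j.1 ∧ j.1 < n + e then c ⟨j.1 - n, by omega⟩ else 0) = 0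
  rw [dif_neg (by omega)]

theorem ext_qv {d n e : ℕ} (z : Fin e → ℤ) :
    (ext n e (qv z) : Fin d → ℚ) = qv (ext n e z) := by
  funext j
  simp only [ext, qv]
  split_ifs <;> simp

theorem mid_qv {d n e : ℕ} (h : n + e ≤ d) (z : Fin d → ℤ) :
    mid n e h (qv z) = qv (mid n e h z) := rfl

theorem mid_add {d n e : ℕ} (h : n + e ≤ d) (v w : Fin d → ℚ) :
    mid n e h (v + w) = mid n e h v + mid n e h w := rfl

theorem mid_smul {d n e : ℕ} (h : n + e ≤ d) (a : ℚ) (v : Fin d → ℚ) :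
    mid n e h (a • v) = a • mid n e h v := rfl

theorem mid_zero {d n e : ℕ} (h : n + e ≤ d) : mid n e h (0 : Fin d → ℚ) = 0 := rfl

theorem ext_add {d n e : ℕ} (v w : Fin e → ℚ) :
    (ext n e (v + w) : Fin d → ℚ) = ext n e v + ext n e w := by
  funext j
  simp only [ext, Pi.add_apply]
  split_ifs <;> simp

theorem ext_smul {d n e : ℕ} (a : ℚ) (v : Fin e → ℚ) :
    (ext n e (a • v) : Fin d → ℚ) = a • ext n e v := by
  funext j
  simp only [ext, Pi.smul_apply, smul_eq_mul]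
  split_ifs <;> simp

theorem Su_sub_ext_mid {d n e : ℕ} (h : n + e ≤ d) {v : Fin d → ℚ} (hv : Su (n + e) v) :
    Su n (v - ext n e (mid n e h v)) := by
  intro j hj
  show v j - (if hj : n ≤ j.1 ∧ j.1 < n + e then v ⟨n + (j.1 - n), by omega⟩ else 0) = 0
  by_cases h2 : j.1 < n + e
  · rw [dif_pos ⟨hj, h2⟩]
    have h3 : (⟨n + (j.1 - n), by omega⟩ : Fin d) = j := by
      apply Fin.ext
      show n + (j.1 - n) = j.1
      omega
    rw [h3, sub_self]
  · rw [dif_neg (by omega), hv j (by omega), sub_zero]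

theorem Su_of_mid {d n e : ℕ} (h : n + e ≤ d) {v : Fin d → ℚ} (hv : Su (n + e) v)
    (h0 : mid n e h v = 0) : Su n v := by
  have h1 := Su_sub_ext_mid h hv
  rw [h0] at h1
  intro j hj
  have h2 := h1 j hj
  have h3 : (ext n e (0 : Fin e → ℚ) : Fin d → ℚ) j = 0 := by
    simp only [ext, Pi.zero_apply]
    split_ifs <;> rfl
  rw [Pi.sub_apply, h3, sub_zero] at h2
  exact h2

theorem mid_of_Su {d n e : ℕ} (h : n + e ≤ d) {v : Fin d → ℚ} (hv : Su n v) :
    mid n e h v = 0 := by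
  funext i
  exact hv _ (by simp)

theorem Su_mono {d p q : ℕ} {v : Fin d → ℚ} (hv : Su p v) (h : p ≤ q) : Su q v :=
  fun j hj => hv j (h.trans hj)

theorem sum_mid {d n e : ℕ} (h : n + e ≤ d) (f : Fin d → ℚ) (h1 : ∀ l : Fin d, l.1 < n → f l = 0)
    (h2 : ∀ l : Fin d, n + e ≤ l.1 → f l = 0) :
    ∑ l, f l = ∑ i : Fin e, f ⟨n + i.1, by have := i.2; omega⟩ := by
  symm
  apply Finset.sum_of_injOn (fun k : Fin e => (⟨n + k.1, by have := k.2; omega⟩ : Fin d))
  · intro a _ b _ hab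
    have := congrArg Fin.val hab
    simp only at this
    apply Fin.ext
    omega
  · intro a _
    exact Finset.mem_coe.mpr (Finset.mem_univ _)
  · intro k _ hk
    by_cases hk1 : k.1 < n
    · exact h1 k hk1
    · by_cases hk2 : k.1 < n + e
      · exfalso
        apply hk
        refine ⟨⟨k.1 - n, by omega⟩, by simp, ?_⟩
        apply Fin.ext
        simp only
        omega
      · exact h2 k (not_lt.mp hk2)
  · intro a _
    rfl

theorem mid_vecMul {d n e : ℕ} (h : n + e ≤ d) {A : Matrix (Fin d) (Fin d) ℤ} (hA : LT A n)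
    {v : Fin d → ℚ} (hv : Su (n + e) v) :
    mid n e h (v ᵥ* qM A) = mid n e h v ᵥ* qM (blk A n e h) := by
  funext i
  show ∑ l : Fin d, v l * qM A l _ = ∑ l : Fin e, mid n e h v l * qM (blk A n e h) l i
  rw [sum_mid h]
  · rfl
  · intro l hl
    have h1 : A l ⟨n + i.1, by have := i.2; omega⟩ = 0 := hA _ _ hl (by simp)
    show v l * ((A l _ : ℤ) : ℚ) = 0
    rw [h1, Int.cast_zero, mul_zero]
  · intro l hl
    rw [hv l hl, zero_mul]

theorem Su_vecMul {d p : ℕ} {A : Matrix (Fin d) (Fin d) ℤ} (hA : LT A p)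
    {v : Fin d → ℚ} (hv : Su p v) : Su p (v ᵥ* qM A) := by
  intro j hj
  show ∑ l, v l * qM A l j = 0
  refine Finset.sum_eq_zero fun l _ => ?_
  by_cases hl : l.1 < p
  · show v l * ((A l j : ℤ) : ℚ) = 0
    rw [hA l j hl hj, Int.cast_zero, mul_zero]
  · rw [hv l (not_lt.1 hl), zero_mul]

theorem Su_vecMul_pow {d p : ℕ} {A : Matrix (Fin d) (Fin d) ℤ} (hA : LT A p)
    {v : Fin d → ℚ} (hv : Su p v) (k : ℕ) : Su p (v ᵥ* qM A ^ k) := by
  rw [← qM_pow]
  exact Su_vecMul (hA.pow k) hv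

theorem mid_vecMul_pow {d n e : ℕ} (h : n + e ≤ d) {A : Matrix (Fin d) (Fin d) ℤ} (hA : LT A n)
    (hA2 : LT A (n + e)) {v : Fin d → ℚ} (hv : Su (n + e) v) (k : ℕ) :
    mid n e h (v ᵥ* qM A ^ k) = mid n e h v ᵥ* qM (blk A n e h) ^ k := by
  rw [← qM_pow, mid_vecMul h (hA.pow k) hv, blk_pow h hA hA2, qM_pow]

/-! ### traces -/

theorem trace_vecMulLinear {n : Type} [Fintype n] [DecidableEq n] (M : Matrix n n ℚ) :
    LinearMap.trace ℚ (n → ℚ) M.vecMulLinear = M.trace := by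
  rw [← Matrix.mulVecLin_transpose, ← Matrix.toLin'_apply', Matrix.trace_toLin'_eq,
    Matrix.trace_transpose]

theorem res_pow {d : ℕ} {T : Matrix (Fin d) (Fin d) ℤ} {W : Submodule ℚ (Fin d → ℚ)}
    (hW : ∀ w ∈ W, w ᵥ* qM T ∈ W) (k : ℕ) (w : W) :
    ((((res T W hW) ^ k) w : W) : Fin d → ℚ) = w.1 ᵥ* qM T ^ k := by
  induction k generalizing w with
  | zero => simp
  | succ k ih =>
    rw [pow_succ, Module.End.mul_apply, ih]
    show (w.1 ᵥ* qM T) ᵥ* qM T ^ k = _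
    rw [Matrix.vecMul_vecMul, pow_succ']

theorem comm_pow {d m : ℕ} {A : Matrix (Fin d) (Fin d) ℚ} {B : Matrix (Fin m) (Fin m) ℚ}
    {R : Matrix (Fin d) (Fin m) ℚ} (h : A * R = R * B) (k : ℕ) : A ^ k * R = R * B ^ k := by
  induction k with
  | zero => simp
  | succ n ih =>
    rw [pow_succ, Matrix.mul_assoc, h, ← Matrix.mul_assoc, ih, Matrix.mul_assoc, ← pow_succ]

theorem trace_res {d n : ℕ} (hn : n ≤ d) {T T' : Matrix (Fin d) (Fin d) ℤ}
    {G G' : Matrix (Fin d) (Fin d) ℚ} (h1 : G * G' = 1) (h2 : G' * G = 1)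
    (h3 : qM T * G' = G' * qM T') {U : Submodule ℚ (Fin d → ℚ)}
    (hU : ∀ w ∈ U, w ᵥ* qM T ∈ U) (hm : ∀ v, v ∈ U ↔ Su n (v ᵥ* G')) (k : ℕ) :
    LinearMap.trace ℚ U ((res T U hU) ^ k) = ((blk (T' ^ k) 0 n (by omega)).trace : ℚ) := by
  have hn0 : 0 + n ≤ d := by omega
  have hL0 : LT T' 0 := fun l m hl _ => absurd hl (Nat.not_lt_zero _)
  let φ : (Fin n → ℚ) ≃ₗ[ℚ] U :=
    { toFun := fun c => ⟨ext 0 n c ᵥ* G, (hm _).2 (by
        rw [Matrix.vecMul_vecMul, h1, Matrix.vecMul_one]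
        have := Su_ext (d := d) (n := 0) c
        rwa [zero_add] at this)⟩
      map_add' := fun c c' => Subtype.ext (by
        show ext 0 n (c + c') ᵥ* G = ext 0 n c ᵥ* G + ext 0 n c' ᵥ* G
        rw [ext_add, Matrix.add_vecMul])
      map_smul' := fun a c => Subtype.ext (by
        show ext 0 n (a • c) ᵥ* G = a • (ext 0 n c ᵥ* G)
        rw [ext_smul, Matrix.smul_vecMul])
      invFun := fun u => mid 0 n hn0 (u.1 ᵥ* G')
      left_inv := fun c => by
        show mid 0 n hn0 ((ext 0 n c ᵥ* G) ᵥ* G') = c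
        rw [Matrix.vecMul_vecMul, h1, Matrix.vecMul_one, mid_ext]
      right_inv := fun u => Subtype.ext (by
        show ext 0 n (mid 0 n hn0 (u.1 ᵥ* G')) ᵥ* G = u.1
        have h4 : Su (0 + n) (u.1 ᵥ* G') := by
          rw [zero_add]; exact (hm _).1 u.2
        have h5 : u.1 ᵥ* G' - ext 0 n (mid 0 n hn0 (u.1 ᵥ* G')) = 0 := by
          funext j
          exact Su_sub_ext_mid hn0 h4 j (Nat.zero_le _)
        rw [← sub_eq_zero.1 h5, Matrix.vecMul_vecMul, h2, Matrix.vecMul_one]) }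
  have h6 : (res T U hU) ^ k
      = φ.conj (qM (blk (T' ^ k) 0 n hn0)).vecMulLinear := by
    apply LinearMap.ext
    intro u
    obtain ⟨c, rfl⟩ := φ.surjective u
    apply φ.symm.injective
    rw [LinearEquiv.conj_apply_apply, LinearEquiv.symm_apply_apply, LinearEquiv.symm_apply_apply]
    show mid 0 n hn0 ((((res T U hU) ^ k) (φ c) : U).1 ᵥ* G') = c ᵥ* _
    rw [res_pow]
    show mid 0 n hn0 (((ext 0 n c ᵥ* G) ᵥ* qM T ^ k) ᵥ* G') = c ᵥ* _
    rw [Matrix.vecMul_vecMul, comm_pow h3, ← Matrix.vecMul_vecMul,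
      Matrix.vecMul_vecMul (ext 0 n c) G G', h1, Matrix.vecMul_one, ← qM_pow, mid_vecMul hn0 (hL0.pow k) (Su_ext c), mid_ext]
  rw [h6, LinearMap.trace_conj', trace_vecMulLinear]
  simp only [Matrix.trace, qM, Matrix.diag_apply, Matrix.map_apply]
  push_cast
  rfl

/-! ### the equivalence -/

/-- matrices agreeing on all vectors -/
theorem ext_vecMul {m n : Type} [Fintype m] [DecidableEq m] {A B : Matrix m n ℚ}
    (h : ∀ c : m → ℚ, c ᵥ* A = c ᵥ* B) : A = B := by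
  ext i j
  have := congrFun (h (Pi.single i 1)) j
  simpa using this

theorem single_qv {e : ℕ} (i : Fin e) :
    (Pi.single i 1 : Fin e → ℚ) = qv (Pi.single i 1) := by
  funext j
  simp only [qv, Pi.single_apply]
  split_ifs <;> simp

/-- a linear map whose values on the basis are integral after multiplying by powers of `S` -/
theorem exists_int {e m : ℕ} {S : Matrix (Fin e) (Fin e) ℤ} (f : (Fin m → ℚ) →ₗ[ℚ] (Fin e → ℚ))
    (h : ∀ i : Fin m, f (Pi.single i 1) ∈ DG S) :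
    ∃ (K : ℕ) (R : Matrix (Fin m) (Fin e) ℤ), ∀ c, f c ᵥ* qM S ^ K = c ᵥ* qM R := by
  classical
  choose k z hk using fun i => mem_DG.1 (h i)
  let K := Finset.univ.sup k
  have h2 : ∀ i, ∃ z' : Fin e → ℤ, f (Pi.single i 1) ᵥ* qM S ^ K = qv z' := fun i =>
    mono (hk i) (Finset.le_sup (f := k) (Finset.mem_univ i))
  choose R hR using h2
  refine ⟨K, Matrix.of R, fun c => ?_⟩
  have h3 : (qM S ^ K).vecMulLinear ∘ₗ f = (qM (Matrix.of R)).vecMulLinear := by
    apply LinearMap.pi_ext'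
    intro i
    apply LinearMap.ext_ring
    show f (Pi.single i 1) ᵥ* qM S ^ K = Pi.single i 1 ᵥ* qM (Matrix.of R)
    rw [hR]
    funext j
    simp [qv, qM]
  exact LinearMap.congr_fun h3 c

theorem vecMul_inj {n : Type} [Fintype n] [DecidableEq n] {A : Matrix n n ℚ} (hA : IsUnit A.det)
    {v w : n → ℚ} (h : v ᵥ* A = w ᵥ* A) : v = w := by
  have h1 := congrArg (fun u => u ᵥ* A⁻¹) h
  simpa only [Matrix.vecMul_vecMul, Matrix.mul_nonsing_inv A hA, Matrix.vecMul_one] using h1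

theorem forward {d e : ℕ} {T : Matrix (Fin d) (Fin d) ℤ} {S : Matrix (Fin e) (Fin e) ℤ}
    {Nz : ℕ → Prop} (hS : S.det ≠ 0) (hH : TDC T S Nz) : Cond T S Nz := by
  classical
  obtain ⟨W, U, hW, hU, ψ, hUW, hψ, hψ0, hDG, htr⟩ := hH
  obtain ⟨n, e', h, g, g', hg, hg', mW, mU⟩ := exists_adapted U W hUW
  have hqg : qM g * qM g' = 1 := by rw [← qM_mul, hg, qM_one]
  have hqg' : qM g' * qM g = 1 := by rw [← qM_mul, hg', qM_one]
  obtain ⟨T', hT'⟩ : ∃ T', T' = g * T * g' := ⟨_, rfl⟩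
  have c1 : g * T = T' * g := by
    rw [hT', Matrix.mul_assoc, hg', Matrix.mul_one]
  have c2 : T * g' = g' * T' := by
    rw [hT', ← Matrix.mul_assoc, ← Matrix.mul_assoc, hg', Matrix.one_mul]
  have q1 : qM g * qM T = qM T' * qM g := by rw [← qM_mul, c1, qM_mul]
  have q2 : qM T * qM g' = qM g' * qM T' := by rw [← qM_mul, c2, qM_mul]
  -- membership
  have eW : ∀ c : Fin d → ℚ, Su (n + e') c → c ᵥ* qM g ∈ W := fun c hc => (mW _).2 (by
    rw [Matrix.vecMul_vecMul, hqg, Matrix.vecMul_one]; exact hc)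
  have eU : ∀ c : Fin d → ℚ, Su n c → c ᵥ* qM g ∈ U := fun c hc => (mU _).2 (by
    rw [Matrix.vecMul_vecMul, hqg, Matrix.vecMul_one]; exact hc)
  have hLT : ∀ (p : ℕ) (X : Submodule ℚ (Fin d → ℚ)), (∀ w ∈ X, w ᵥ* qM T ∈ X) →
      (∀ v, v ∈ X ↔ ∀ j : Fin d, p ≤ j.1 → (v ᵥ* qM g') j = 0) → LT T' p := by
    intro p X hX hmX l m hl hm
    have h1 : (Pi.single l 1 : Fin d → ℚ) ᵥ* qM g ∈ X := (hmX _).2 (by
      intro j hj
      rw [Matrix.vecMul_vecMul, hqg, Matrix.vecMul_one, Pi.single_apply, if_neg]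
      rintro rfl
      omega)
    have h2 := (hmX _).1 (hX _ h1) m hm
    rw [Matrix.vecMul_vecMul, Matrix.vecMul_vecMul, q2, ← Matrix.mul_assoc, hqg,
      Matrix.one_mul] at h2
    have h3 : ((T' l m : ℤ) : ℚ) = 0 := by simpa [qM] using h2
    exact_mod_cast h3
  have L1 : LT T' n := hLT n U hU mU
  have L2 : LT T' (n + e') := hLT (n + e') W hW mW
  obtain ⟨M, hM⟩ : ∃ M, M = blk T' n e' h := ⟨_, rfl⟩
  -- the comparison map
  let Φ : (Fin e' → ℚ) →ₗ[ℚ] (Fin e → ℚ) :=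
    { toFun := fun c => ψ (ext n e' c ᵥ* qM g)
      map_add' := fun c c' => by rw [ext_add, Matrix.add_vecMul, map_add]
      map_smul' := fun a c => by rw [ext_smul, Matrix.smul_vecMul, map_smul]; rfl }
  have hΦ : ∀ c, Φ c = ψ (ext n e' c ᵥ* qM g) := fun c => rfl
  have P1 : Function.Injective Φ := by
    rw [← LinearMap.ker_eq_bot, LinearMap.ker_eq_bot']
    intro c hc
    have h1 : ext n e' c ᵥ* qM g ∈ U := (hψ0 _ (eW _ (Su_ext c))).1 hc
    have h2 : Su n (ext n e' c : Fin d → ℚ) := by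
      have := (mU _).1 h1
      rwa [Matrix.vecMul_vecMul, hqg, Matrix.vecMul_one] at this
    rw [← mid_ext h c]
    exact mid_of_Su h h2
  have P2 : ∀ v : Fin d → ℚ, Su (n + e') v → ψ (v ᵥ* qM g) = Φ (mid n e' h v) := by
    intro v hv
    have h1 := eU _ (Su_sub_ext_mid h hv)
    have h2 := (hψ0 _ (hUW h1)).2 h1
    rw [Matrix.sub_vecMul, map_sub] at h2
    exact sub_eq_zero.1 h2
  have P3 : ∀ c, Φ (c ᵥ* qM M) = Φ c ᵥ* qM S := by
    intro c
    rw [hΦ c, ← hψ _ (eW _ (Su_ext c)), Matrix.vecMul_vecMul, q1, ← Matrix.vecMul_vecMul,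
      P2 _ (Su_vecMul L2 (Su_ext c)), mid_vecMul h L1 (Su_ext c), mid_ext, hM]
  have P3' : ∀ (k : ℕ) c, Φ (c ᵥ* qM M ^ k) = Φ c ᵥ* qM S ^ k := by
    intro k
    induction k with
    | zero => intro c; simp
    | succ k ih =>
      intro c
      rw [pow_succ, ← Matrix.vecMul_vecMul, P3, ih, Matrix.vecMul_vecMul, ← pow_succ]
  -- integrality
  have I1 : ∀ i : Fin e', Φ (Pi.single i 1) ∈ DG S := by
    intro i
    rw [single_qv, hDG]
    refine ⟨_, eW _ (Su_ext _), ?_, hΦ _ |>.symm⟩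
    rw [ext_qv, qv_vecMul]
    exact qv_mem _ _
  obtain ⟨K, R, hR⟩ := exists_int Φ I1
  have I2 : ∀ i : Fin e, ∃ (k : ℕ) (z : Fin e' → ℤ),
      (Pi.single i 1 : Fin e → ℚ) ᵥ* qM S ^ k = Φ (qv z) := by
    intro i
    have h1 : (Pi.single i 1 : Fin e → ℚ) ∈ DG S := by
      rw [single_qv]; exact qv_mem _ _
    obtain ⟨w, hw, hwT, hwe⟩ := (hDG _).1 h1
    obtain ⟨k, z, hk⟩ := mem_DG.1 hwT
    refine ⟨k, mid n e' h (z ᵥ* g'), ?_⟩
    have h2 : Su (n + e') (w ᵥ* qM g') := (mW _).1 hw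
    have h3 : w = (w ᵥ* qM g') ᵥ* qM g := by
      rw [Matrix.vecMul_vecMul, hqg', Matrix.vecMul_one]
    rw [← hwe]
    conv_lhs => rw [h3, P2 _ h2]
    rw [← P3' k, hM, ← mid_vecMul_pow h L1 L2 h2, Matrix.vecMul_vecMul, ← comm_pow q2,
      ← Matrix.vecMul_vecMul, hk, qv_vecMul, mid_qv]
  obtain ⟨K', V, hV⟩ : ∃ (K' : ℕ) (V : Matrix (Fin e) (Fin e') ℤ),
      ∀ y, y ᵥ* qM S ^ K' = Φ (y ᵥ* qM V) := by
    choose k z hk using I2
    let K' := Finset.univ.sup k
    have h2 : ∀ i, ∃ z' : Fin e' → ℤ, (Pi.single i 1 : Fin e → ℚ) ᵥ* qM S ^ K' = Φ (qv z') := by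
      intro i
      obtain ⟨j, hj⟩ := Nat.exists_eq_add_of_le (Finset.le_sup (f := k) (Finset.mem_univ i))
      refine ⟨z i ᵥ* M ^ j, ?_⟩
      show (Pi.single i 1 : Fin e → ℚ) ᵥ* qM S ^ K' = _
      rw [show K' = k i + j from hj, pow_add, ← Matrix.vecMul_vecMul, hk, ← P3', ← qM_pow,
        qv_vecMul]
    choose V hV using h2
    refine ⟨K', Matrix.of V, fun y => ?_⟩
    have h3 : (qM S ^ K').vecMulLinear = Φ ∘ₗ (qM (Matrix.of V)).vecMulLinear := by
      apply LinearMap.pi_ext'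
      intro i
      apply LinearMap.ext_ring
      show Pi.single i 1 ᵥ* qM S ^ K' = Φ (Pi.single i 1 ᵥ* qM (Matrix.of V))
      rw [hV]
      congr 1
      funext j
      simp [qv, qM]
    exact LinearMap.congr_fun h3 y
  -- the sizes agree
  have hSu : IsUnit (qM S ^ K').det := by
    rw [Matrix.det_pow]
    exact (qM_unit hS).pow _
  have e1 : e' ≤ e := by
    have := LinearMap.finrank_le_finrank_of_injective P1
    simpa using this
  have e2 : e ≤ e' := by
    have hinj : Function.Injective (qM V).vecMulLinear := by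
      intro y y' hy
      have h1 : Φ (y ᵥ* qM V) = Φ (y' ᵥ* qM V) := congrArg Φ hy
      rw [← hV, ← hV] at h1
      exact vecMul_inj hSu h1
    have := LinearMap.finrank_le_finrank_of_injective hinj
    simpa using this
  obtain rfl : e' = e := le_antisymm e1 e2
  refine ⟨n, h, T', SE.of_conj hg hg' c1, L1, L2, ?_, ?_⟩
  · rw [← hM]
    refine ⟨K + K', R, V, ?_, ?_, ?_, ?_⟩
    · apply qM_inj
      rw [qM_mul, qM_mul]
      apply ext_vecMul
      intro c
      rw [← Matrix.vecMul_vecMul, ← hR, P3, Matrix.vecMul_vecMul, ← pow_succ', pow_succ,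
        ← Matrix.vecMul_vecMul, hR, Matrix.vecMul_vecMul]
    · apply qM_inj
      rw [qM_mul, qM_mul]
      apply ext_vecMul
      intro c
      apply P1
      rw [← Matrix.vecMul_vecMul, P3, ← hV, Matrix.vecMul_vecMul, ← pow_succ, pow_succ',
        ← Matrix.vecMul_vecMul, hV, Matrix.vecMul_vecMul]
    · apply qM_inj
      rw [qM_mul, qM_pow]
      apply ext_vecMul
      intro c
      apply P1
      rw [← Matrix.vecMul_vecMul, ← hV, ← hR, Matrix.vecMul_vecMul, ← pow_add, P3']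
    · apply qM_inj
      rw [qM_mul, qM_pow]
      apply ext_vecMul
      intro c
      rw [← Matrix.vecMul_vecMul, ← hR, ← hV, Matrix.vecMul_vecMul, ← pow_add, add_comm K' K]
  · intro k hk hNk
    have h1 := htr k hk hNk
    rw [trace_res (by omega) hqg hqg' q2 hU mU k] at h1
    exact_mod_cast h1

theorem backward {d e : ℕ} {T : Matrix (Fin d) (Fin d) ℤ} {S : Matrix (Fin e) (Fin e) ℤ}
    {Nz : ℕ → Prop} (hT : T.det ≠ 0) (hS : S.det ≠ 0) (hC : Cond T S Nz) : TDC T S Nz := by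
  classical
  obtain ⟨n, h, T', ⟨l, R, V, r1, r2, r3, r4⟩, L1, L2, ⟨l1, R1, V1, s1, s2, s3, s4⟩, htr⟩ := hC
  obtain ⟨M, hM⟩ : ∃ M, M = blk T' n e h := ⟨_, rfl⟩
  rw [← hM] at s1 s2 s3
  have dR : R.det ≠ 0 := by
    intro h0
    have h1 := congrArg Matrix.det r3
    rw [Matrix.det_mul, h0, zero_mul, Matrix.det_pow] at h1
    exact pow_ne_zero _ hT h1.symm
  have dR1 : R1.det ≠ 0 := by
    intro h0
    have h1 := congrArg Matrix.det s4
    rw [Matrix.det_mul, h0, mul_zero, Matrix.det_pow] at h1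
    exact pow_ne_zero _ hS h1.symm
  have uR := qM_unit dR
  have uR1 := qM_unit dR1
  have uT := qM_unit hT
  have uS := qM_unit hS
  have q1 : qM T * qM R = qM R * qM T' := by rw [← qM_mul, r1, qM_mul]
  have q4 : qM V * qM R = qM T' ^ l := by rw [← qM_mul, r4, qM_pow]
  have p1 : qM M * qM R1 = qM R1 * qM S := by rw [← qM_mul, s1, qM_mul]
  have p4 : qM V1 * qM R1 = qM S ^ l1 := by rw [← qM_mul, s4, qM_pow]
  -- the subspaces
  let Sub : ℕ → Submodule ℚ (Fin d → ℚ) := fun p =>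
    { carrier := {v | Su p (v ᵥ* qM R)}
      add_mem' := by
        intro v w hv hw j hj
        rw [Matrix.add_vecMul, Pi.add_apply, hv j hj, hw j hj, add_zero]
      zero_mem' := by
        intro j hj
        rw [Matrix.zero_vecMul, Pi.zero_apply]
      smul_mem' := by
        intro a v hv j hj
        rw [Matrix.smul_vecMul, Pi.smul_apply, hv j hj, smul_zero] }
  have hSub : ∀ p v, v ∈ Sub p ↔ Su p (v ᵥ* qM R) := fun p v => Iff.rfl
  have hinv : ∀ p, LT T' p → ∀ w ∈ Sub p, w ᵥ* qM T ∈ Sub p := by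
    intro p hp w hw
    rw [hSub, Matrix.vecMul_vecMul, q1, ← Matrix.vecMul_vecMul]
    exact Su_vecMul hp hw
  let ψ : (Fin d → ℚ) →ₗ[ℚ] (Fin e → ℚ) :=
    { toFun := fun v => mid n e h (v ᵥ* qM R) ᵥ* qM R1
      map_add' := fun v w => by rw [Matrix.add_vecMul, mid_add, Matrix.add_vecMul]
      map_smul' := fun a v => by
        rw [Matrix.smul_vecMul, mid_smul, Matrix.smul_vecMul]; rfl }
  have hψ : ∀ v, ψ v = mid n e h (v ᵥ* qM R) ᵥ* qM R1 := fun v => rfl
  have e1 : ∀ w ∈ Sub (n + e), ψ (w ᵥ* qM T) = ψ w ᵥ* qM S := by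
    intro w hw
    rw [hψ, hψ, Matrix.vecMul_vecMul, q1, ← Matrix.vecMul_vecMul, mid_vecMul h L1 hw, ← hM,
      Matrix.vecMul_vecMul, p1, Matrix.vecMul_vecMul]
  have einv : ∀ (k : ℕ), ∀ w ∈ Sub (n + e), w ᵥ* qM T ^ k ∈ Sub (n + e) := by
    intro k
    induction k with
    | zero => intro w hw; simpa using hw
    | succ k ih =>
      intro w hw
      rw [pow_succ, ← Matrix.vecMul_vecMul]
      exact hinv _ L2 _ (ih w hw)
  have e1' : ∀ (k : ℕ), ∀ w ∈ Sub (n + e), ψ (w ᵥ* qM T ^ k) = ψ w ᵥ* qM S ^ k := by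
    intro k
    induction k with
    | zero => intro w hw; simp
    | succ k ih =>
      intro w hw
      rw [pow_succ, ← Matrix.vecMul_vecMul, e1 _ (einv k w hw), ih w hw, Matrix.vecMul_vecMul,
        ← pow_succ]
  refine ⟨Sub (n + e), Sub n, hinv _ L2, hinv _ L1, ψ, ?_, e1, ?_, ?_, ?_⟩
  · intro v hv
    exact Su_mono hv (by omega)
  · intro w hw
    constructor
    · intro h0
      have h1 : mid n e h (w ᵥ* qM R) = 0 := vecMul_inj uR1 (by
        rw [Matrix.zero_vecMul]; exact h0)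
      exact Su_of_mid h hw h1
    · intro h0
      rw [hψ, mid_of_Su h h0, Matrix.zero_vecMul]
  · intro y
    constructor
    · intro hy
      obtain ⟨k, z, hk⟩ := mem_DG.1 hy
      obtain ⟨w0, hw0⟩ : ∃ w0 : Fin d → ℚ, w0 = ext n e (qv z ᵥ* qM V1) ᵥ* qM V := ⟨_, rfl⟩
      have a1 : w0 ᵥ* qM R = ext n e (qv z ᵥ* qM V1) ᵥ* qM T' ^ l := by
        rw [hw0, Matrix.vecMul_vecMul, q4]
      have a2 : w0 ∈ Sub (n + e) := by
        rw [hSub, a1]
        exact Su_vecMul_pow L2 (Su_ext _) l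
      have a3 : ψ w0 = y ᵥ* qM S ^ (k + l + l1) := by
        rw [hψ, a1, mid_vecMul_pow h L1 L2 (Su_ext _), mid_ext, ← hM, Matrix.vecMul_vecMul,
          comm_pow p1, ← Matrix.vecMul_vecMul, Matrix.vecMul_vecMul (qv z), p4, ← hk,
          Matrix.vecMul_vecMul, Matrix.vecMul_vecMul, ← pow_add, ← pow_add]
        congr 2
        omega
      have a4 : ∃ w ∈ Sub (n + e), w ᵥ* qM T ^ (k + l + l1) = w0 := by
        have hinj : Function.Injective
            ((res T (Sub (n + e)) (hinv _ L2)) ^ (k + l + l1) : Module.End ℚ (Sub (n + e))) := by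
          intro u v huv
          have h1 := congrArg (fun x : Sub (n + e) => (x : Fin d → ℚ)) huv
          simp only [res_pow] at h1
          apply Subtype.ext
          refine vecMul_inj ?_ h1
          rw [Matrix.det_pow]
          exact uT.pow _
        obtain ⟨w, hw⟩ := (LinearMap.injective_iff_surjective.1 hinj) ⟨w0, a2⟩
        refine ⟨w.1, w.2, ?_⟩
        rw [← res_pow (hinv _ L2), hw]
      obtain ⟨w, hw, hwe⟩ := a4
      refine ⟨w, hw, mem_DG.2 ⟨k + l + l1, ext n e (z ᵥ* V1) ᵥ* V, ?_⟩, ?_⟩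
      · rw [hwe, hw0, qv_vecMul, ext_qv, qv_vecMul]
      · apply vecMul_inj (A := qM S ^ (k + l + l1))
        · rw [Matrix.det_pow]
          exact uS.pow _
        · rw [← e1' _ w hw, hwe, a3]
    · rintro ⟨w, hw, hwT, rfl⟩
      obtain ⟨k, z, hk⟩ := mem_DG.1 hwT
      refine mem_DG.2 ⟨k, mid n e h (z ᵥ* R) ᵥ* R1, ?_⟩
      rw [← e1' k w hw, hk, hψ, qv_vecMul, mid_qv, qv_vecMul]
  · intro k hk hNk
    rw [trace_res (by omega) (Matrix.nonsing_inv_mul _ uR) (Matrix.mul_nonsing_inv _ uR) q1 _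
      (fun v => hSub n v) k]
    exact_mod_cast htr k hk hNk

end Blk

/-- **the trace and dimension condition is a condition on integral block matrices** -/
theorem TDC_iff_Cond {d e : ℕ} {T : Matrix (Fin d) (Fin d) ℤ} {S : Matrix (Fin e) (Fin e) ℤ}
    {Nz : ℕ → Prop} (hT : T.det ≠ 0) (hS : S.det ≠ 0) : TDC T S Nz ↔ Cond T S Nz :=
  ⟨Blk.forward hS, Blk.backward hT hS⟩

end Pool.Agent.DEC.R
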