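import Pool.Agent.DEC.R.Gap

/-!
# MP_59dda0_an, block DEC-R: boundedness in reduced bases

`bound_N`: a matrix with a compatible metric is bounded in a reduced basis (Jordan-Zassenhaus);
`bound_S`: the change of two reduced bases is bounded (Siegel).
-/

set_option autoImplicit false

namespace Pool.Agent.DEC.R

open Matrix Finset

variable {d : ℕ}

theorem ip_vconj (C M : Matrix (Fin d) (Fin d) ℝ) (u v : Fin d → ℝ) :
    ip (C * M * Cᵀ) u v = ip M (u ᵥ* C) (v ᵥ* C) := by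
  simp only [ip, ← mulVec_mulVec, Matrix.dotProduct_mulVec, Matrix.mulVec_transpose]

theorem nrm_vconj (C M : Matrix (Fin d) (Fin d) ℝ) (u : Fin d → ℝ) :
    nrm (C * M * Cᵀ) u = nrm M (u ᵥ* C) := by
  rw [nrm, nrm, ip_vconj]

theorem nrm_smul {M : Matrix (Fin d) (Fin d) ℝ} (r : ℝ) (u : Fin d → ℝ) :
    nrm M (r • u) = |r| * nrm M u := by
  rw [nrm, nrm, ip_smul_left, ip_smul_right, ← mul_assoc, Real.sqrt_mul (mul_self_nonneg r),
    Real.sqrt_mul_self_eq_abs]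

theorem row_eq (C : Matrix (Fin d) (Fin d) ℤ) (j : Fin d) :
    (fun m => (C j m : ℝ)) = (Pi.single j (1 : ℝ) : Fin d → ℝ) ᵥ* toR C := by
  funext m
  simp [toR]

theorem toR_mul (C D : Matrix (Fin d) (Fin d) ℤ) : toR (C * D) = toR C * toR D := by
  unfold toR
  exact Matrix.map_mul (f := Int.castRingHom ℝ)

theorem toR_det (C : Matrix (Fin d) (Fin d) ℤ) : (toR C).det = (C.det : ℝ) := by
  have := RingHom.map_det (Int.castRingHom ℝ) C
  simpa [toR, RingHom.mapMatrix_apply] using this.symm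

theorem toR_one : toR (1 : Matrix (Fin d) (Fin d) ℤ) = 1 := by
  unfold toR
  rw [Matrix.map_one _ Int.cast_zero Int.cast_one]

theorem toR_smul (r : ℤ) (C : Matrix (Fin d) (Fin d) ℤ) : toR (r • C) = (r : ℝ) • toR C := by
  ext i j
  rw [toR_apply, Matrix.smul_apply, Matrix.smul_apply, toR_apply, smul_eq_mul, smul_eq_mul,
    Int.cast_mul]

/-- vectors with support in `{0, .., i}` are stable under block triangular matrices -/
theorem supp_vecMul {P : Matrix (Fin d) (Fin d) ℝ} {i : Fin d}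
    (hP : ∀ l m, l ≤ i → i < m → P l m = 0) {u : Fin d → ℝ} (hu : ∀ l, i < l → u l = 0)
    (m : Fin d) (hm : i < m) : (u ᵥ* P) m = 0 := by
  rw [Matrix.vecMul, dotProduct]
  refine Finset.sum_eq_zero fun l _ => ?_
  rcases le_or_gt l i with hl | hl
  · rw [hP l m hl hm, mul_zero]
  · rw [hu l hl, zero_mul]

/-- **(N)**: boundedness of a matrix with adjoint `P` and norm at most `ρ` in a reduced basis -/
theorem bound_N' {κ ρ : ℝ} {M : Matrix (Fin d) (Fin d) ℝ} {a : Fin d → ℝ} (hM : PD M)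
    (hκ : 1 ≤ κ) (hρ : 1 ≤ ρ) (h : RB κ M a) (T : Matrix (Fin d) (Fin d) ℤ)
    (P : Matrix (Fin d) (Fin d) ℝ)
    (adj : ∀ u v, ip M (u ᵥ* toR T) v = ip M u (v ᵥ* P))
    (blk : ∀ i, (∀ l m, l ≤ i → i < m → T l m = 0) → ∀ l m, l ≤ i → i < m → P l m = 0)
    (hN : ∀ u, nrm M (u ᵥ* toR T) ≤ ρ * nrm M u) (hN' : ∀ u, nrm M (u ᵥ* P) ≤ ρ * nrm M u)
    (j k : Fin d) : |(T j k : ℝ)| ≤ tauG d κ (κ ^ 2 * ρ) d := by
  have hκ2 : 1 ≤ κ ^ 2 := one_le_pow₀ hκ
  have hθ : 1 ≤ κ ^ 2 * ρ := by nlinarith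
  refine gap_bound hM hκ hθ h T (fun j k => ?_) (fun i hi j hij u hu => ?_) j k
  · have e1 := h.coef (fun m => (T j m : ℝ)) k
    rw [row_eq] at e1
    have e2 := hN (Pi.single j 1)
    have e3 := h.diag j
    have hρ0 : 0 ≤ ρ := by linarith
    have e4 : nrm M ((Pi.single j (1 : ℝ) : Fin d → ℝ) ᵥ* toR T) ≤ ρ * (κ * a j) :=
      e2.trans (mul_le_mul_of_nonneg_left e3 hρ0)
    calc |(T j k : ℝ)| * a k ≤ κ * nrm M ((Pi.single j (1 : ℝ) : Fin d → ℝ) ᵥ* toR T) := e1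
      _ ≤ κ * (ρ * (κ * a j)) := mul_le_mul_of_nonneg_left e4 (by linarith)
      _ = κ ^ 2 * ρ * a j := by ring
  · rw [row_eq, adj]
    have e1 := h.proj i j hij (u ᵥ* P) (supp_vecMul (blk i hi) hu)
    have e2 := hN' u
    have hai := h.pos i
    have hn := nrm_nonneg M u
    have hρ0 : 0 ≤ ρ := by linarith
    calc |ip M (Pi.single j 1) (u ᵥ* P)| ≤ κ * a i * nrm M (u ᵥ* P) := e1
      _ ≤ κ * a i * (ρ * nrm M u) := by gcongr
      _ ≤ κ ^ 2 * a i * (ρ * nrm M u) := by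
          have h5 : κ ≤ κ ^ 2 := by nlinarith
          gcongr
      _ = κ ^ 2 * ρ * a i * nrm M u := by ring

/-- a nonsingular matrix has a nonzero entry in the upper right corner at every `j` -/
theorem exists_corner {C : Matrix (Fin d) (Fin d) ℤ} (hC : C.det ≠ 0) (j : Fin d) :
    ∃ l k, l ≤ j ∧ j ≤ k ∧ C l k ≠ 0 := by
  by_contra hcon
  push Not at hcon
  refine hC ?_
  rw [Matrix.det_apply]
  refine Finset.sum_eq_zero fun σ _ => ?_
  have hex : ∃ i, σ i ≤ j ∧ j ≤ i := by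
    by_contra h2
    push Not at h2
    have h3 : (Finset.Iic j).card ≤ (Finset.Iio j).card := by
      refine Finset.card_le_card_of_injOn (fun x => σ.symm x) (fun x hx => ?_)
        (fun x _ y _ hxy => σ.symm.injective hxy)
      rw [Finset.mem_coe, Finset.mem_Iio]
      refine h2 _ ?_
      rw [Equiv.apply_symm_apply]
      exact Finset.mem_Iic.1 hx
    rw [Fin.card_Iic, Fin.card_Iio] at h3
    omega
  obtain ⟨i, h1, h2⟩ := hex
  have h3 : ∏ i, C (σ i) i = 0 := Finset.prod_eq_zero (Finset.mem_univ i) (hcon _ _ h1 h2)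
  rw [h3, smul_zero]

/-- solving `c ᵥ* C = u` inside the vectors with support in `{0, .., i}` -/
theorem exists_supp {C : Matrix (Fin d) (Fin d) ℝ} (hC : C.det ≠ 0) {i : Fin d}
    (hP : ∀ l m, l ≤ i → i < m → C l m = 0) {u : Fin d → ℝ} (hu : ∀ l, i < l → u l = 0) :
    ∃ c : Fin d → ℝ, (∀ l, i < l → c l = 0) ∧ c ᵥ* C = u := by
  let W : Submodule ℝ (Fin d → ℝ) :=
    { carrier := {c | ∀ l, i < l → c l = 0}
      add_mem' := fun {x y} hx hy l hl => by rw [Pi.add_apply, hx l hl, hy l hl, add_zero]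
      zero_mem' := fun _ _ => rfl
      smul_mem' := fun r x hx l hl => by rw [Pi.smul_apply, hx l hl, smul_zero] }
  have hmap : ∀ c ∈ W, Matrix.vecMulLinear C c ∈ W := fun c hc l hl => supp_vecMul hP hc l hl
  let f : W →ₗ[ℝ] W := (Matrix.vecMulLinear C).restrict hmap
  have hinj : Function.Injective f := by
    intro x y hxy
    apply Subtype.ext
    have h1 : (x : Fin d → ℝ) ᵥ* C = (y : Fin d → ℝ) ᵥ* C := congrArg Subtype.val hxy
    have h2 : IsUnit C.det := isUnit_iff_ne_zero.2 hC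
    have h3 : ((x : Fin d → ℝ) ᵥ* C) ᵥ* C⁻¹ = ((y : Fin d → ℝ) ᵥ* C) ᵥ* C⁻¹ := by rw [h1]
    rw [Matrix.vecMul_vecMul, Matrix.vecMul_vecMul, Matrix.mul_nonsing_inv _ h2,
      Matrix.vecMul_one, Matrix.vecMul_one] at h3
    exact h3
  have hsurj : Function.Surjective f := LinearMap.surjective_of_injective hinj
  obtain ⟨c, hc⟩ := hsurj ⟨u, hu⟩
  exact ⟨c, c.2, congrArg Subtype.val hc⟩

section siegel

variable {κ δ : ℝ} {M : Matrix (Fin d) (Fin d) ℝ} {a a' : Fin d → ℝ}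
  {C : Matrix (Fin d) (Fin d) ℤ}

/-- the profile of the second basis dominates -/
theorem profile_le (hκ : 1 ≤ κ) (h : RB κ M a) (h' : RB κ (toR C * M * (toR C)ᵀ) a')
    (hC : C.det ≠ 0) (j : Fin d) : a j ≤ κ ^ 4 * a' j := by
  obtain ⟨l, k, hl, hk, hne⟩ := exists_corner hC j
  have hone : (1 : ℝ) ≤ |(C l k : ℝ)| := by
    rw [← Int.cast_abs]
    exact_mod_cast Int.one_le_abs hne
  have e1 := h.coef (fun m => (C l m : ℝ)) k
  have e2 : nrm M (fun m => (C l m : ℝ)) ≤ κ * a' l := by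
    rw [row_eq, ← nrm_vconj]
    exact h'.diag l
  have e3 := h.mono j k hk
  have e4 := h'.mono l j hl
  have e5 := h.pos k
  have e6 := h'.pos l
  have hκ0 : 0 ≤ κ := by linarith
  have e7 : a k ≤ κ * (κ * a' l) := (le_mul_of_one_le_left e5.le hone).trans
    (e1.trans (mul_le_mul_of_nonneg_left e2 hκ0))
  calc a j ≤ κ * a k := e3
    _ ≤ κ * (κ * (κ * a' l)) := mul_le_mul_of_nonneg_left e7 hκ0
    _ ≤ κ * (κ * (κ * (κ * a' j))) := by gcongr
    _ = κ ^ 4 * a' j := by ring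

/-- the profile of the first basis dominates up to the determinant -/
theorem profile_ge (hκ : 1 ≤ κ) (h : RB κ M a) (h' : RB κ (toR C * M * (toR C)ᵀ) a')
    (hC : C.det ≠ 0) (hd : |(C.det : ℝ)| ≤ δ) (j : Fin d) : a' j ≤ κ ^ 4 * δ * a j := by
  have hD : C.adjugate.det ≠ 0 := by
    rw [Matrix.det_adjugate]
    exact pow_ne_zero _ hC
  obtain ⟨l, k, hl, hk, hne⟩ := exists_corner hD j
  have hone : (1 : ℝ) ≤ |(C.adjugate l k : ℝ)| := by
    rw [← Int.cast_abs]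
    exact_mod_cast Int.one_le_abs hne
  have hδ0 : 0 ≤ δ := (abs_nonneg _).trans hd
  have e1 := h'.coef (fun m => (C.adjugate l m : ℝ)) k
  have e2 : nrm (toR C * M * (toR C)ᵀ) (fun m => (C.adjugate l m : ℝ)) ≤ δ * (κ * a l) := by
    rw [row_eq, nrm_vconj, Matrix.vecMul_vecMul, ← toR_mul, Matrix.adjugate_mul, toR_smul,
      toR_one, Matrix.vecMul_smul, Matrix.vecMul_one, nrm_smul]
    have e3 := h.diag l
    have e4 := nrm_nonneg M (Pi.single l (1 : ℝ))
    gcongr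
  have e3 := h'.mono j k hk
  have e4 := h.mono l j hl
  have e5 := h'.pos k
  have e6 := h.pos l
  have hκ0 : 0 ≤ κ := by linarith
  have e7 : a' k ≤ κ * (δ * (κ * a l)) := (le_mul_of_one_le_left e5.le hone).trans
    (e1.trans (mul_le_mul_of_nonneg_left e2 hκ0))
  calc a' j ≤ κ * a' k := e3
    _ ≤ κ * (κ * (δ * (κ * a l))) := mul_le_mul_of_nonneg_left e7 hκ0
    _ ≤ κ * (κ * (δ * (κ * (κ * a j)))) := by gcongr
    _ = κ ^ 4 * δ * a j := by ring

/-- **(S)**: the change between two reduced bases is bounded -/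
theorem bound_S (hM : PD M) (hκ : 1 ≤ κ) (h : RB κ M a) (h' : RB κ (toR C * M * (toR C)ᵀ) a')
    (hC : C.det ≠ 0) (hd : |(C.det : ℝ)| ≤ δ) (j k : Fin d) :
    |(C j k : ℝ)| ≤ tauG d κ (κ ^ 6 * δ) d := by
  have hδ : 1 ≤ δ := by
    refine le_trans ?_ hd
    rw [← Int.cast_abs]
    exact_mod_cast Int.one_le_abs hC
  have hδ0 : 0 ≤ δ := by linarith
  have hκ6 : 1 ≤ κ ^ 6 := one_le_pow₀ hκ
  have hθ : 1 ≤ κ ^ 6 * δ := by nlinarith
  refine gap_bound hM hκ hθ h C (fun j k => ?_) (fun i hi j hij u hu => ?_) j k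
  · have e1 := h.coef (fun m => (C j m : ℝ)) k
    have e2 : nrm M (fun m => (C j m : ℝ)) ≤ κ * a' j := by
      rw [row_eq, ← nrm_vconj]
      exact h'.diag j
    have e3 := profile_ge hκ h h' hC hd j
    have hκ0 : 0 ≤ κ := by linarith
    have e4 : nrm M (fun m => (C j m : ℝ)) ≤ κ * (κ ^ 4 * δ * a j) :=
      e2.trans (mul_le_mul_of_nonneg_left e3 hκ0)
    calc |(C j k : ℝ)| * a k ≤ κ * nrm M (fun m => (C j m : ℝ)) := e1
      _ ≤ κ * (κ * (κ ^ 4 * δ * a j)) := mul_le_mul_of_nonneg_left e4 hκ0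
      _ = κ ^ 6 * δ * a j := by ring
  · have hC' : (toR C).det ≠ 0 := by
      rw [toR_det]
      exact_mod_cast hC
    obtain ⟨c, hc1, hc2⟩ := exists_supp hC' (i := i)
      (fun l m hl hm => by rw [toR_apply, hi l m hl hm, Int.cast_zero]) hu
    have e1 := h'.proj i j hij c hc1
    rw [ip_vconj, nrm_vconj, hc2, ← row_eq] at e1
    have e3 := profile_ge hκ h h' hC hd i
    have hn := nrm_nonneg M u
    have hai := h.pos i
    calc |ip M (fun m => (C j m : ℝ)) u| ≤ κ * a' i * nrm M u := e1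
      _ ≤ κ * (κ ^ 4 * δ * a i) * nrm M u := by gcongr
      _ = κ ^ 5 * (δ * a i * nrm M u) := by ring
      _ ≤ κ ^ 6 * (δ * a i * nrm M u) := by
          have h5 : κ ^ 5 ≤ κ ^ 6 := pow_le_pow_right₀ hκ (by norm_num)
          have h6 : 0 ≤ δ * a i * nrm M u := by positivity
          gcongr
      _ = κ ^ 6 * δ * a i * nrm M u := by ring

end siegel

end Pool.Agent.DEC.R
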