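import Pool.Agent.DEC.R.BC
import Pool.Agent.DEC.PPred

/-!
# DEC-R: failure of the bounded condition is recursively enumerable (helper46)
-/

set_option autoImplicit false

namespace Pool.Agent.DEC.R

open Matrix Pool.Agent.DEC Pool.Agent.DEC.PPred

/-- A list of codes which contains the code `T` and is closed under bounded steps. -/
def Cert (d K : ℕ) (T : IM) (L : List IM) : Prop :=
  T ∈ L ∧ ∀ X ∈ L, ∀ Y ∈ mats d d K, ¬ Step K (toMat d d X) (toMat d d Y) ∨ Y ∈ L

theorem Cert.mem {d K : ℕ} {T : IM} {L : List IM} (h : Cert d K T L)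
    {X : Matrix (Fin d) (Fin d) ℤ} (hX : Relation.ReflTransGen (Step K) (toMat d d T) X) :
    ∃ Y ∈ L, toMat d d Y = X := by
  induction hX with
  | refl => exact ⟨T, h.1, rfl⟩
  | @tail b c _ h2 ih =>
    obtain ⟨Y, hY, rfl⟩ := ih
    obtain ⟨C, D, h3, h4, h5, h6, h7, h8⟩ := h2
    refine ⟨ofMat c, ?_, toMat_ofMat c⟩
    rcases h.2 Y hY (ofMat c) (ofMat_mem_mats c h8) with h9 | h9
    · exact absurd (by rw [toMat_ofMat]; exact ⟨C, D, h3, h4, h5, h6, h7, h8⟩) h9
    · exact h9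

theorem exists_cert (d K : ℕ) (T : IM) : ∃ L : List IM, Cert d K T L ∧
    ∀ X ∈ L, Relation.ReflTransGen (Step K) (toMat d d T) (toMat d d X) := by
  classical
  refine ⟨T :: (mats d d K).filter fun Y =>
    Relation.ReflTransGen (Step K) (toMat d d T) (toMat d d Y), ⟨List.mem_cons_self, ?_⟩, ?_⟩
  · intro X hX Y hY
    by_cases hs : Step K (toMat d d X) (toMat d d Y)
    · right
      refine List.mem_cons_of_mem _ (List.mem_filter.mpr ⟨hY, ?_⟩)
      rcases List.mem_cons.1 hX with rfl | hX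
      · simpa using Relation.ReflTransGen.single hs
      · have h1 := (List.mem_filter.1 hX).2
        have h2 : Relation.ReflTransGen (Step K) (toMat d d T) (toMat d d X) := by simpa using h1
        simpa using h2.tail hs
    · left; exact hs
  · intro X hX
    rcases List.mem_cons.1 hX with rfl | hX
    · exact Relation.ReflTransGen.refl
    · have h1 := (List.mem_filter.1 hX).2
      simpa using h1

/-- the code of a diagonal block -/
def cblk (n e : ℕ) (X : IM) : IM := mk e e fun i j => ent X (n + i) (n + j)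

theorem toMat_cblk {d n e : ℕ} (h : n + e ≤ d) (X : IM) :
    toMat e e (cblk n e X) = blk (toMat d d X) n e h := by
  unfold cblk
  rw [toMat_mk]
  rfl

theorem mtrace_blk {d n : ℕ} (h : 0 + n ≤ d) (X : IM) (k : ℕ) :
    (blk (toMat d d X ^ k) 0 n h).trace = mtrace n (mpow d X k) := by
  rw [mtrace_eq, ← toMat_mpow, ← toMat_cblk h]
  congr 1
  ext i j
  rw [toMat_apply, toMat_apply]
  unfold cblk
  rw [ent_mk _ i.2 j.2, Nat.zero_add, Nat.zero_add]

theorem not_bcond_iff (d e K : ℕ) (T S : IM) (Nz : ℕ → Prop) :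
    (¬ BCond K (toMat d d T) (toMat e e S) Nz) ↔ ∃ L : List IM, Cert d K T L ∧
      ∀ X ∈ L, ∀ n < d + 1, d < n + e ∨ ¬ LT (toMat d d X) n ∨ ¬ LT (toMat d d X) (n + e) ∨
        (∃ k : ℕ, 0 < k ∧ Nz k ∧ mtrace n (mpow d X k) ≠ 0) ∨
        ∃ L' : List IM, Cert e K (cblk n e X) L' ∧ ∀ Y ∈ L', toMat e e Y ≠ toMat e e S := by
  constructor
  · intro hB
    obtain ⟨L, hL, hL2⟩ := exists_cert d K T
    refine ⟨L, hL, fun X hX n hn => ?_⟩
    by_contra hcon
    push Not at hcon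
    obtain ⟨h1, h2, h3, h4, h5⟩ := hcon
    obtain ⟨L', hL', hL2'⟩ := exists_cert e K (cblk n e X)
    obtain ⟨Y, hY, hYS⟩ := h5 L' hL'
    refine hB ⟨n, h1, toMat d d X, hL2 X hX, h2, h3, ?_, fun k hk hNk => ?_⟩
    · rw [← toMat_cblk h1, ← hYS]
      exact hL2' Y hY
    · rw [mtrace_blk]
      exact h4 k hk hNk
  · rintro ⟨L, hL, hL2⟩ ⟨n, h, T', h1, h2, h3, h4, h5⟩
    obtain ⟨X, hX, rfl⟩ := hL.mem h1
    rcases hL2 X hX n (by omega) with h6 | h6 | h6 | ⟨k, hk, hNk, h6⟩ | ⟨L', hL', h6⟩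
    · omega
    · exact h6 h2
    · exact h6 h3
    · apply h6
      rw [← mtrace_blk (d := d) (by omega)]
      exact h5 k hk hNk
    · rw [← toMat_cblk h] at h4
      obtain ⟨Y, hY, hYS⟩ := hL'.mem h4
      exact h6 Y hY hYS

/-! ### recursive enumerability -/

section re
variable {α : Type*} [Primcodable α]

/-- the entries of the matrix of a code are bounded -/
theorem re_not_bdd {d K : α → ℕ} {T : α → IM} (hd : Primrec d) (hK : Primrec K)
    (hT : Primrec T) :
    REPred fun a => ¬ ∀ i j, |toMat (d a) (d a) (T a) i j| ≤ (K a : ℤ) := by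
  have h1 : PrimrecPred fun a => norm (d a) (d a) (T a) ∈ mats (d a) (d a) (K a) := by
    have h2 : PrimrecPred fun a => ∃ b ∈ mats (d a) (d a) (K a), b = norm (d a) (d a) (T a) := by
      refine pEx (R := fun (a : α) (b : IM) => b = norm (d a) (d a) (T a))
        (f := fun a => mats (d a) (d a) (K a)) ?_ ?_
      · exact pEq Primrec.snd ((pNorm hd hd hT).comp Primrec.fst)
      · exact primrec_mats.comp (Primrec.pair hd (Primrec.pair hd hK))
    exact h2.of_eq fun a => by simp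
  refine (re_of_primrec (pNot h1)).of_eq fun a => not_congr ?_
  constructor
  · intro h i j
    rw [← toMat_norm]
    exact abs_ent_le_of_mem_mats h i j
  · intro h
    have h3 := ofMat_mem_mats (toMat (d a) (d a) (T a)) h
    have h4 : ofMat (toMat (d a) (d a) (T a)) = norm (d a) (d a) (T a) := by
      unfold ofMat norm
      refine mk_congr fun i hi j hj => ?_
      rw [dif_pos ⟨hi, hj⟩]
      rfl
    rwa [h4] at h3

theorem re_not_step {d K : α → ℕ} {T T' : α → IM} (hd : Primrec d) (hK : Primrec K)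
    (hT : Primrec T) (hT' : Primrec T') :
    REPred fun a => ¬ Step (K a) (toMat (d a) (d a) (T a)) (toMat (d a) (d a) (T' a)) := by
  have h1 : REPred fun a => ∀ C : Matrix (Fin (d a)) (Fin (d a)) ℤ, (∀ i j, |C i j| ≤ (K a : ℤ)) →
      ∀ D : Matrix (Fin (d a)) (Fin (d a)) ℤ, (∀ i j, |D i j| ≤ (K a : ℤ)) →
      (toMat (d a) (d a) (T a) ≠ D * C ∨ toMat (d a) (d a) (T' a) ≠ C * D ∨
        (¬ ∀ i j, |toMat (d a) (d a) (T a) i j| ≤ (K a : ℤ)) ∨
        ¬ ∀ i j, |toMat (d a) (d a) (T' a) i j| ≤ (K a : ℤ)) := by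
    refine re_forall_mats (Q := fun a C => ∀ D : Matrix (Fin (d a)) (Fin (d a)) ℤ,
      (∀ i j, |D i j| ≤ (K a : ℤ)) →
      (toMat (d a) (d a) (T a) ≠ D * C ∨ toMat (d a) (d a) (T' a) ≠ C * D ∨
        (¬ ∀ i j, |toMat (d a) (d a) (T a) i j| ≤ (K a : ℤ)) ∨
        ¬ ∀ i j, |toMat (d a) (d a) (T' a) i j| ≤ (K a : ℤ))) hd.to_comp hd.to_comp hK.to_comp ?_
    refine re_forall_mats (α := α × IM) (n := fun q => d q.1) (m := fun q => d q.1)
      (F := fun q => K q.1) (Q := fun q D =>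
      (toMat (d q.1) (d q.1) (T q.1) ≠ D * toMat (d q.1) (d q.1) q.2 ∨
        toMat (d q.1) (d q.1) (T' q.1) ≠ toMat (d q.1) (d q.1) q.2 * D ∨
        (¬ ∀ i j, |toMat (d q.1) (d q.1) (T q.1) i j| ≤ (K q.1 : ℤ)) ∨
        ¬ ∀ i j, |toMat (d q.1) (d q.1) (T' q.1) i j| ≤ (K q.1 : ℤ)))
      (hd.comp Primrec.fst).to_comp (hd.comp Primrec.fst).to_comp (hK.comp Primrec.fst).to_comp ?_
    have hd2 : Primrec fun p : (α × IM) × IM => d p.1.1 :=
      hd.comp (Primrec.fst.comp Primrec.fst)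
    have hK2 : Primrec fun p : (α × IM) × IM => K p.1.1 :=
      hK.comp (Primrec.fst.comp Primrec.fst)
    have hT2 : Primrec fun p : (α × IM) × IM => T p.1.1 :=
      hT.comp (Primrec.fst.comp Primrec.fst)
    have hT2' : Primrec fun p : (α × IM) × IM => T' p.1.1 :=
      hT'.comp (Primrec.fst.comp Primrec.fst)
    have hC : Primrec fun p : (α × IM) × IM => p.1.2 := Primrec.snd.comp Primrec.fst
    have hD : Primrec fun p : (α × IM) × IM => p.2 := Primrec.snd
    refine re_or ?_ (re_or ?_ (re_or ?_ ?_))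
    · exact (re_matNe hd2.to_comp hd2.to_comp hT2.to_comp
        (pMmul hd2 hd2 hd2 hD hC).to_comp).of_eq fun p => by rw [toMat_mmul]
    · exact (re_matNe hd2.to_comp hd2.to_comp hT2'.to_comp
        (pMmul hd2 hd2 hd2 hC hD).to_comp).of_eq fun p => by rw [toMat_mmul]
    · exact re_not_bdd hd2 hK2 hT2
    · exact re_not_bdd hd2 hK2 hT2'
  refine h1.of_eq fun a => ?_
  constructor
  · rintro h ⟨C, D, h3, h4, h5, h6, h7, h8⟩
    rcases h C h5 D h6 with h9 | h9 | h9 | h9
    · exact h9 h3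
    · exact h9 h4
    · exact h9 h7
    · exact h9 h8
  · intro h C hC D hD
    by_contra hcon
    push Not at hcon
    exact h ⟨C, D, hcon.1, hcon.2.1, hC, hD, hcon.2.2.1, hcon.2.2.2⟩

theorem pMem {β : Type*} [Primcodable β] {f : α → β} {g : α → List β} (hf : Primrec f)
    (hg : Primrec g) : PrimrecPred fun a => f a ∈ g a :=
  (pEx (R := fun (a : α) (b : β) => b = f a) (f := g) (pEq Primrec.snd (hf.comp Primrec.fst))
    hg).of_eq fun a => by simp

theorem re_cert {d K : α → ℕ} {T : α → IM} {L : α → List IM} (hd : Primrec d)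
    (hK : Primrec K) (hT : Primrec T) (hL : Primrec L) :
    REPred fun a => Cert (d a) (K a) (T a) (L a) := by
  refine re_and (re_of_primrec (pMem hT hL)) ?_
  refine re_forall_mem (R := fun (a : α) (X : IM) => ∀ Y ∈ mats (d a) (d a) (K a),
    ¬ Step (K a) (toMat (d a) (d a) X) (toMat (d a) (d a) Y) ∨ Y ∈ L a) ?_ hL.to_comp
  refine re_forall_mem (R := fun (q : α × IM) (Y : IM) =>
    ¬ Step (K q.1) (toMat (d q.1) (d q.1) q.2) (toMat (d q.1) (d q.1) Y) ∨ Y ∈ L q.1)
    (f := fun q : α × IM => mats (d q.1) (d q.1) (K q.1)) ?_ ?_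
  · refine re_or ?_ (re_of_primrec (pMem Primrec.snd (hL.comp (Primrec.fst.comp Primrec.fst))))
    exact re_not_step (hd.comp (Primrec.fst.comp Primrec.fst))
      (hK.comp (Primrec.fst.comp Primrec.fst)) (Primrec.snd.comp Primrec.fst) Primrec.snd
  · exact (primrec_mats.comp (Primrec.pair (hd.comp Primrec.fst)
      (Primrec.pair (hd.comp Primrec.fst) (hK.comp Primrec.fst)))).to_comp

theorem pLT {d n : α → ℕ} {X : α → IM} (hd : Primrec d) (hn : Primrec n) (hX : Primrec X) :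
    PrimrecPred fun a => LT (toMat (d a) (d a) (X a)) (n a) := by
  have h1 : PrimrecPred fun a => ∀ l < d a, ∀ m < d a, l < n a → n a ≤ m → ent (X a) l m = 0 := by
    refine pAllLt (R := fun (a : α) (l : ℕ) => ∀ m < d a, l < n a → n a ≤ m → ent (X a) l m = 0)
      ?_ hd
    refine pAllLt (R := fun (q : α × ℕ) (m : ℕ) => q.2 < n q.1 → n q.1 ≤ m →
      ent (X q.1) q.2 m = 0) (f := fun q : α × ℕ => d q.1) ?_ (hd.comp Primrec.fst)
    have h2 : Primrec fun p : (α × ℕ) × ℕ => n p.1.1 := hn.comp (Primrec.fst.comp Primrec.fst)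
    have h3 : Primrec fun p : (α × ℕ) × ℕ => p.1.2 := Primrec.snd.comp Primrec.fst
    have h4 : Primrec fun p : (α × ℕ) × ℕ => p.2 := Primrec.snd
    exact pImp (pNatLt h3 h2) (pImp (pNatLe h2 h4)
      (pEq (pEnt (hX.comp (Primrec.fst.comp Primrec.fst)) h3 h4) (Primrec.const 0)))
  refine h1.of_eq fun a => ?_
  constructor
  · intro h l m hl hm
    exact h l.1 l.2 m.1 m.2 hl hm
  · intro h l hl m hm h5 h6
    exact h ⟨l, hl⟩ ⟨m, hm⟩ h5 h6

theorem pCblk {n e : α → ℕ} {X : α → IM} (hn : Primrec n) (he : Primrec e) (hX : Primrec X) :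
    Primrec fun a => cblk (n a) (e a) (X a) := by
  refine pMk he he ?_
  exact pEnt (hX.comp Primrec.fst)
    (Primrec.nat_add.comp (hn.comp Primrec.fst) (Primrec.fst.comp Primrec.snd))
    (Primrec.nat_add.comp (hn.comp Primrec.fst) (Primrec.snd.comp Primrec.snd))

theorem re_notB_prim {d e K : α → ℕ} {T S : α → IM} {Nz : α → ℕ → Prop}
    (hd : Primrec d) (he : Primrec e) (hK : Primrec K) (hT : Primrec T) (hS : Primrec S)
    (hNz : REPred fun q : α × ℕ => Nz q.1 q.2) :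
    REPred fun a => ¬ BCond (K a) (toMat (d a) (d a) (T a)) (toMat (e a) (e a) (S a)) (Nz a) := by
  refine REPred.of_eq ?_ fun a => (not_bcond_iff (d a) (e a) (K a) (T a) (S a) (Nz a)).symm
  refine re_exists (R := fun (a : α) (L : List IM) => Cert (d a) (K a) (T a) L ∧
      ∀ X ∈ L, ∀ n < d a + 1, d a < n + e a ∨ ¬ LT (toMat (d a) (d a) X) n ∨
        ¬ LT (toMat (d a) (d a) X) (n + e a) ∨
        (∃ k : ℕ, 0 < k ∧ Nz a k ∧ mtrace n (mpow (d a) X k) ≠ 0) ∨
        ∃ L' : List IM, Cert (e a) (K a) (cblk n (e a) X) L' ∧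
          ∀ Y ∈ L', toMat (e a) (e a) Y ≠ toMat (e a) (e a) (S a)) ?_
  refine re_and (re_cert (hd.comp Primrec.fst) (hK.comp Primrec.fst) (hT.comp Primrec.fst)
    Primrec.snd) ?_
  refine re_forall_mem (α := α × List IM) (R := fun (q : α × List IM) (X : IM) =>
      ∀ n < d q.1 + 1, d q.1 < n + e q.1 ∨ ¬ LT (toMat (d q.1) (d q.1) X) n ∨
        ¬ LT (toMat (d q.1) (d q.1) X) (n + e q.1) ∨
        (∃ k : ℕ, 0 < k ∧ Nz q.1 k ∧ mtrace n (mpow (d q.1) X k) ≠ 0) ∨
        ∃ L' : List IM, Cert (e q.1) (K q.1) (cblk n (e q.1) X) L' ∧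
          ∀ Y ∈ L', toMat (e q.1) (e q.1) Y ≠ toMat (e q.1) (e q.1) (S q.1))
    (f := fun q => q.2) ?_ Primrec.snd.to_comp
  have hd1 : Primrec fun r : (α × List IM) × IM => d r.1.1 := hd.comp (Primrec.fst.comp Primrec.fst)
  refine re_forall_lt (α := (α × List IM) × IM) (R := fun (r : (α × List IM) × IM) (n : ℕ) =>
      d r.1.1 < n + e r.1.1 ∨ ¬ LT (toMat (d r.1.1) (d r.1.1) r.2) n ∨
        ¬ LT (toMat (d r.1.1) (d r.1.1) r.2) (n + e r.1.1) ∨
        (∃ k : ℕ, 0 < k ∧ Nz r.1.1 k ∧ mtrace n (mpow (d r.1.1) r.2 k) ≠ 0) ∨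
        ∃ L' : List IM, Cert (e r.1.1) (K r.1.1) (cblk n (e r.1.1) r.2) L' ∧
          ∀ Y ∈ L', toMat (e r.1.1) (e r.1.1) Y ≠ toMat (e r.1.1) (e r.1.1) (S r.1.1))
    (f := fun r => d r.1.1 + 1) ?_ (Primrec.succ.comp hd1).to_comp
  have pa : Primrec fun t : ((α × List IM) × IM) × ℕ => t.1.1.1 :=
    Primrec.fst.comp (Primrec.fst.comp Primrec.fst)
  have pX : Primrec fun t : ((α × List IM) × IM) × ℕ => t.1.2 := Primrec.snd.comp Primrec.fst
  have pn : Primrec fun t : ((α × List IM) × IM) × ℕ => t.2 := Primrec.snd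
  have pd := hd.comp pa
  have pe := he.comp pa
  have pK := hK.comp pa
  have pne : Primrec fun t : ((α × List IM) × IM) × ℕ => t.2 + e t.1.1.1 :=
    Primrec.nat_add.comp pn pe
  refine re_or (re_of_primrec (pNatLt pd pne)) (re_or (re_of_primrec (pNot (pLT pd pn pX)))
    (re_or (re_of_primrec (pNot (pLT pd pne pX))) (re_or ?_ ?_)))
  · refine re_exists (R := fun (t : ((α × List IM) × IM) × ℕ) (k : ℕ) =>
      0 < k ∧ Nz t.1.1.1 k ∧ mtrace t.2 (mpow (d t.1.1.1) t.1.2 k) ≠ 0) ?_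
    refine re_and (re_of_primrec (pNatLt (Primrec.const 0) Primrec.snd)) (re_and ?_ ?_)
    · exact re_comp (f := fun u : (((α × List IM) × IM) × ℕ) × ℕ => (u.1.1.1.1, u.2)) hNz
        (Primrec.pair (pa.comp Primrec.fst) Primrec.snd).to_comp
    · exact re_of_primrec (pNe (pMtrace (pn.comp Primrec.fst)
        (pMpow (pd.comp Primrec.fst) (pX.comp Primrec.fst) Primrec.snd)) (Primrec.const 0))
  · refine re_exists (R := fun (t : ((α × List IM) × IM) × ℕ) (L' : List IM) =>
      Cert (e t.1.1.1) (K t.1.1.1) (cblk t.2 (e t.1.1.1) t.1.2) L' ∧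
          ∀ Y ∈ L', toMat (e t.1.1.1) (e t.1.1.1) Y ≠ toMat (e t.1.1.1) (e t.1.1.1) (S t.1.1.1)) ?_
    refine re_and (re_cert (pe.comp Primrec.fst) (pK.comp Primrec.fst)
      ((pCblk pn pe pX).comp Primrec.fst) Primrec.snd) ?_
    refine re_forall_mem (α := (((α × List IM) × IM) × ℕ) × List IM)
      (R := fun (u : (((α × List IM) × IM) × ℕ) × List IM) (Y : IM) =>
        toMat (e u.1.1.1.1) (e u.1.1.1.1) Y ≠ toMat (e u.1.1.1.1) (e u.1.1.1.1) (S u.1.1.1.1))
      (f := fun u => u.2) ?_ Primrec.snd.to_comp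
    have pe2 := pe.comp (Primrec.fst (α := ((α × List IM) × IM) × ℕ) (β := List IM))
    have pe3 := pe2.comp (Primrec.fst (α := (((α × List IM) × IM) × ℕ) × List IM) (β := IM))
    have pS2 := (hS.comp pa).comp (Primrec.fst (α := ((α × List IM) × IM) × ℕ) (β := List IM))
    have pS3 := pS2.comp (Primrec.fst (α := (((α × List IM) × IM) × ℕ) × List IM) (β := IM))
    exact re_matNe pe3.to_comp pe3.to_comp Primrec.snd.to_comp pS3.to_comp

/-- **Failure of the bounded condition is recursively enumerable.** -/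
theorem re_notB {d e K : α → ℕ} {T S : α → IM} {Nz : α → ℕ → Prop}
    (hd : Computable d) (he : Computable e) (hK : Computable K) (hT : Computable T)
    (hS : Computable S) (hNz : REPred fun q : α × ℕ => Nz q.1 q.2) :
    REPred fun a => ¬ BCond (K a) (toMat (d a) (d a) (T a)) (toMat (e a) (e a) (S a)) (Nz a) := by
  have h := re_notB_prim (α := α × ℕ × ℕ × ℕ × IM × IM) (d := fun a => a.2.1)
    (e := fun a => a.2.2.1) (K := fun a => a.2.2.2.1) (T := fun a => a.2.2.2.2.1)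
    (S := fun a => a.2.2.2.2.2) (Nz := fun a => Nz a.1)
    (Primrec.fst.comp Primrec.snd) (Primrec.fst.comp (Primrec.snd.comp Primrec.snd))
    (Primrec.fst.comp (Primrec.snd.comp (Primrec.snd.comp Primrec.snd)))
    (Primrec.fst.comp (Primrec.snd.comp (Primrec.snd.comp (Primrec.snd.comp Primrec.snd))))
    (Primrec.snd.comp (Primrec.snd.comp (Primrec.snd.comp (Primrec.snd.comp Primrec.snd))))
    (re_comp (f := fun q : (α × ℕ × ℕ × ℕ × IM × IM) × ℕ => (q.1.1, q.2)) hNz
      (Primrec.pair (Primrec.fst.comp Primrec.fst) Primrec.snd).to_comp)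
  exact re_comp (f := fun a => (a, d a, e a, K a, T a, S a)) h
    (Computable.pair Computable.id (Computable.pair hd (Computable.pair he
      (Computable.pair hK (Computable.pair hT hS)))))

end re

end Pool.Agent.DEC.R
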