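import Pool.Agent.DEC.R.Bound

/-!
# MP_59dda0_an, block DEC-R: chains of bounded changes of basis (abstract form of Theorem C)

`chain_path`: along a continuous path of metrics two reduced bases are joined by a chain of bounded
changes of basis through bounded matrices.
-/

set_option autoImplicit false

namespace Pool.Agent.DEC.R

open Matrix Finset Filter Topology

variable {d : ℕ}

/-- `GL_d(ℤ)` -/
abbrev GZ (d : ℕ) := (Matrix (Fin d) (Fin d) ℤ)ˣ

/-- all entries at most `K` in absolute value -/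
def bd (K : ℝ) (C : Matrix (Fin d) (Fin d) ℤ) : Prop := ∀ j k, |(C j k : ℝ)| ≤ K

theorem bd.mono {K K' : ℝ} {C : Matrix (Fin d) (Fin d) ℤ} (h : bd K C) (hK : K ≤ K') : bd K' C :=
  fun j k => (h j k).trans hK

/-- a bounded step between two bases -/
structure Stp (K : ℝ) (T : Matrix (Fin d) (Fin d) ℤ) (b b' : GZ d) : Prop where
  fwd : bd K (b' * b⁻¹ : GZ d).val
  bwd : bd K (b * b'⁻¹ : GZ d).val
  left : bd K (b.val * T * (b⁻¹ : GZ d).val)
  right : bd K (b'.val * T * (b'⁻¹ : GZ d).val)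

theorem Stp.symm {K : ℝ} {T : Matrix (Fin d) (Fin d) ℤ} {b b' : GZ d} (h : Stp K T b b') :
    Stp K T b' b := ⟨h.bwd, h.fwd, h.right, h.left⟩

theorem Stp.mono {K K' : ℝ} {T : Matrix (Fin d) (Fin d) ℤ} {b b' : GZ d} (h : Stp K T b b')
    (hK : K ≤ K') : Stp K' T b b' :=
  ⟨h.fwd.mono hK, h.bwd.mono hK, h.left.mono hK, h.right.mono hK⟩

/-- the basis `b` is reduced for the metric `H` -/
def Rd (κ : ℝ) (H : Matrix (Fin d) (Fin d) ℝ) (b : GZ d) : Prop :=
  ∃ a, RB κ (toR b.val * H * (toR b.val)ᵀ) a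

theorem RB.weaken {κ κ' : ℝ} {M : Matrix (Fin d) (Fin d) ℝ} {a : Fin d → ℝ} (h : RB κ M a)
    (hκ : κ ≤ κ') : RB κ' M a where
  pos := h.pos
  mono i j hij := (h.mono i j hij).trans (mul_le_mul_of_nonneg_right hκ (h.pos j).le)
  diag j := (h.diag j).trans (mul_le_mul_of_nonneg_right hκ (h.pos j).le)
  coef c k := (h.coef c k).trans (mul_le_mul_of_nonneg_right hκ (nrm_nonneg M c))
  proj i j hij c hc := (h.proj i j hij c hc).trans (by
    have := h.pos i
    have := nrm_nonneg M c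
    gcongr)

theorem Rd.weaken {κ κ' : ℝ} {H : Matrix (Fin d) (Fin d) ℝ} {b : GZ d} (h : Rd κ H b)
    (hκ : κ ≤ κ') : Rd κ' H b := by
  obtain ⟨a, ha⟩ := h
  exact ⟨a, ha.weaken hκ⟩

theorem pd_conj {M C : Matrix (Fin d) (Fin d) ℝ} (h : PD M) (hC : IsUnit C.det) :
    PD (C * M * Cᵀ) := by
  refine ⟨?_, fun c hc => ?_⟩
  · rw [Matrix.transpose_mul, Matrix.transpose_mul, Matrix.transpose_transpose, h.symm,
      Matrix.mul_assoc]
  · rw [ip_vconj]
    refine h.pos _ fun h0 => hc ?_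
    have h1 : (c ᵥ* C) ᵥ* C⁻¹ = 0 := by rw [h0, Matrix.zero_vecMul]
    rwa [Matrix.vecMul_vecMul, Matrix.mul_nonsing_inv _ hC, Matrix.vecMul_one] at h1

theorem det_toR_unit (b : GZ d) : IsUnit (toR b.val).det := by
  rw [toR_det]
  have h1 : IsUnit (b.val).det := (Matrix.isUnit_iff_isUnit_det _).1 b.isUnit
  rcases Int.isUnit_iff.1 h1 with h | h
  · rw [h]; simp
  · rw [h]; simp

theorem toR_mul_inv (b : GZ d) : toR b.val * toR (b⁻¹ : GZ d).val = 1 := by
  rw [← toR_mul, ← Units.val_mul, mul_inv_cancel, Units.val_one, toR_one]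

theorem toR_inv_mul (b : GZ d) : toR (b⁻¹ : GZ d).val * toR b.val = 1 := by
  rw [← toR_mul, ← Units.val_mul, inv_mul_cancel, Units.val_one, toR_one]

/-- the change between two reduced bases of one metric is bounded -/
theorem bd_change {κ : ℝ} (hκ : 1 ≤ κ) {H : Matrix (Fin d) (Fin d) ℝ} (hH : PD H) {b b' : GZ d}
    (h : Rd κ H b) (h' : Rd κ H b') : bd (tauG d κ (κ ^ 6 * 1) d) (b' * b⁻¹ : GZ d).val := by
  obtain ⟨a, ha⟩ := h
  obtain ⟨a', ha'⟩ := h'
  have e1 : toR (b' * b⁻¹ : GZ d).val * (toR b.val * H * (toR b.val)ᵀ) *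
      (toR (b' * b⁻¹ : GZ d).val)ᵀ = toR b'.val * H * (toR b'.val)ᵀ := by
    have e2 : toR (b' * b⁻¹ : GZ d).val * toR b.val = toR b'.val := by
      rw [← toR_mul, ← Units.val_mul, inv_mul_cancel_right]
    calc toR (b' * b⁻¹ : GZ d).val * (toR b.val * H * (toR b.val)ᵀ) *
        (toR (b' * b⁻¹ : GZ d).val)ᵀ
        = (toR (b' * b⁻¹ : GZ d).val * toR b.val) * H *
          (toR (b' * b⁻¹ : GZ d).val * toR b.val)ᵀ := by
          rw [Matrix.transpose_mul]
          simp only [Matrix.mul_assoc]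
      _ = _ := by rw [e2]
  have hdet : IsUnit ((b' * b⁻¹ : GZ d).val).det :=
    (Matrix.isUnit_iff_isUnit_det _).1 (b' * b⁻¹ : GZ d).isUnit
  intro j k
  refine bound_S (pd_conj hH (det_toR_unit b)) hκ ha (by rw [e1]; exact ha') hdet.ne_zero ?_ j k
  rcases Int.isUnit_iff.1 hdet with h | h
  · rw [h]; simp
  · rw [h]; simp

/-- the robustness of reduced bases, as a statement -/
def Robust (d : ℕ) : Prop := ∀ (κ : ℝ) (M : Matrix (Fin d) (Fin d) ℝ) (a : Fin d → ℝ), PD M →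
  1 ≤ κ → RB κ M a → ∃ ε > 0, ∀ M', PD M' → (∀ i j, |M' i j - M i j| < ε) → RB (2 * κ) M' a

/-- the existence of reduced bases, as a statement -/
def ExistRd (d : ℕ) (κ : ℝ) : Prop := ∀ H : Matrix (Fin d) (Fin d) ℝ, PD H → ∃ b : GZ d, Rd κ H b

/-- **chains along a path of metrics** -/
theorem chain_path (hR : Robust d) {κ : ℝ} (hκ : 1 ≤ κ) (hE : ExistRd d κ)
    {T : Matrix (Fin d) (Fin d) ℤ} {H : ℝ → Matrix (Fin d) (Fin d) ℝ} (hc : Continuous H)
    (hp : ∀ t ∈ Set.Icc (0 : ℝ) 1, PD (H t)) {K : ℝ}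
    (hN : ∀ t ∈ Set.Icc (0 : ℝ) 1, ∀ b : GZ d, Rd κ (H t) b →
      bd K (b.val * T * (b⁻¹ : GZ d).val))
    (hK : tauG d (2 * κ) ((2 * κ) ^ 6 * 1) d ≤ K)
    {g0 g1 : GZ d} (h0 : Rd κ (H 0) g0) (h1 : Rd κ (H 1) g1) :
    Relation.ReflTransGen (Stp K T) g0 g1 := by
  have h2κ : κ ≤ 2 * κ := by linarith
  have h2κ' : 1 ≤ 2 * κ := by linarith
  let P : ℝ → ℝ → Prop := fun s t => ∀ b b' : GZ d, Rd κ (H s) b → Rd κ (H t) b' →
    Relation.ReflTransGen (Stp K T) b b'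
  have hsym : ∀ x y, x ∈ Set.Icc (0 : ℝ) 1 → y ∈ Set.Icc (0 : ℝ) 1 → P x y → P y x := by
    intro x y _ _ hxy b b' hb hb'
    have : Std.Symm (Stp K T) := ⟨fun _ _ h => Stp.symm h⟩
    exact (Relation.ReflTransGen.stdSymm (r := Stp K T)).symm _ _ (hxy b' b hb' hb)
  have htr : ∀ x y z, x ∈ Set.Icc (0 : ℝ) 1 → y ∈ Set.Icc (0 : ℝ) 1 → z ∈ Set.Icc (0 : ℝ) 1 →
      P x y → P y z → P x z := by
    intro x y z _ hy _ hxy hyz b b' hb hb'
    obtain ⟨c, hcc⟩ := hE (H y) (hp y hy)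
    exact (hxy b c hb hcc).trans (hyz c b' hcc hb')
  -- one step inside one metric
  have hone : ∀ t ∈ Set.Icc (0 : ℝ) 1, ∀ b b' : GZ d, Rd (2 * κ) (H t) b → Rd (2 * κ) (H t) b' →
      bd K (b.val * T * (b⁻¹ : GZ d).val) → bd K (b'.val * T * (b'⁻¹ : GZ d).val) →
      Stp K T b b' := fun t ht b b' hb hb' hl hr =>
    ⟨(bd_change h2κ' (hp t ht) hb hb').mono hK, (bd_change h2κ' (hp t ht) hb' hb).mono hK, hl, hr⟩
  have hloc : ∀ s ∈ Set.Icc (0 : ℝ) 1, ∀ᶠ t in 𝓝[Set.Icc 0 1] s, P s t := by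
    intro s hs
    obtain ⟨c, a, hca⟩ := hE (H s) (hp s hs)
    obtain ⟨ε, hε, hrob⟩ := hR κ _ a (pd_conj (hp s hs) (det_toR_unit c)) hκ hca
    have hcont : Continuous fun t => toR c.val * H t * (toR c.val)ᵀ := by fun_prop
    have hev : ∀ᶠ t in 𝓝 s, ∀ i j, |(toR c.val * H t * (toR c.val)ᵀ) i j -
        (toR c.val * H s * (toR c.val)ᵀ) i j| < ε := by
      rw [eventually_all]
      intro i
      rw [eventually_all]
      intro j
      have h3 : Continuous fun t => (toR c.val * H t * (toR c.val)ᵀ) i j :=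
        (continuous_apply j).comp ((continuous_apply i).comp hcont)
      exact (Metric.continuous_iff'.1 h3 s ε hε).mono fun t ht => by rwa [Real.dist_eq] at ht
    filter_upwards [mem_nhdsWithin_of_mem_nhds hev, self_mem_nhdsWithin] with t ht htI
    intro b b' hb hb'
    have hcK : bd K (c.val * T * (c⁻¹ : GZ d).val) := hN s hs c ⟨a, hca⟩
    have hct : Rd (2 * κ) (H t) c := ⟨a, hrob _ (pd_conj (hp t htI) (det_toR_unit c)) ht⟩
    have s1 : Stp K T b c := hone s hs b c (hb.weaken h2κ) (Rd.weaken ⟨a, hca⟩ h2κ)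
      (hN s hs b hb) hcK
    have s2 : Stp K T c b' := hone t htI c b' hct (hb'.weaken h2κ) hcK (hN t htI b' hb')
    exact (Relation.ReflTransGen.single s1).tail s2
  exact isPreconnected_Icc.induction₂ P hloc htr hsym (Set.left_mem_Icc.2 zero_le_one)
    (Set.right_mem_Icc.2 zero_le_one) g0 g1 h0 h1

/-- the standard basis is reduced for a metric close to the standard one -/
theorem rb_std {κ K₀ : ℝ} {M : Matrix (Fin d) (Fin d) ℝ} (hM : PD M) (hκ : 1 ≤ κ)
    (hK : K₀ ≤ κ) (hlow : ∀ c : Fin d → ℝ, ∀ k, |c k| ≤ K₀ * nrm M c)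
    (hup : ∀ j, nrm M (Pi.single j 1) ≤ K₀) : RB κ M (fun _ => 1) where
  pos _ := one_pos
  mono _ _ _ := by simpa using hκ
  diag j := by
    rw [mul_one]
    exact (hup j).trans hK
  coef c k := by
    rw [mul_one]
    exact (hlow c k).trans (mul_le_mul_of_nonneg_right hK (nrm_nonneg M c))
  proj i j _ c _ := by
    rw [mul_one]
    exact (hM.cs _ _).trans (mul_le_mul_of_nonneg_right ((hup j).trans hK) (nrm_nonneg M c))

end Pool.Agent.DEC.R
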