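import Mathlib

/-!
# Reduction theory for diagonalizable integer matrices (DEC-R, MP_59dda0_an; helper78)

Definitions: positive definite forms, the robust notion of a reduced basis, the generic gap lemma.
-/

set_option autoImplicit false

namespace Pool.Agent.DEC.R

open Matrix Finset

variable {d : ℕ}

/-- The bilinear form `u M vᵀ`. -/
def ip (M : Matrix (Fin d) (Fin d) ℝ) (u v : Fin d → ℝ) : ℝ := u ⬝ᵥ (M *ᵥ v)

/-- Real symmetric positive definite matrices. -/
structure PD (M : Matrix (Fin d) (Fin d) ℝ) : Prop where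
  symm : Mᵀ = M
  pos : ∀ c : Fin d → ℝ, c ≠ 0 → 0 < ip M c c

/-- The norm of `c` for the form `M`. -/
noncomputable def nrm (M : Matrix (Fin d) (Fin d) ℝ) (c : Fin d → ℝ) : ℝ := Real.sqrt (ip M c c)

theorem ip_add_left (M : Matrix (Fin d) (Fin d) ℝ) (u u' v : Fin d → ℝ) :
    ip M (u + u') v = ip M u v + ip M u' v := by
  simp [ip, add_dotProduct]

theorem ip_add_right (M : Matrix (Fin d) (Fin d) ℝ) (u v v' : Fin d → ℝ) :
    ip M u (v + v') = ip M u v + ip M u v' := by
  simp [ip, mulVec_add, dotProduct_add]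

theorem ip_smul_left (M : Matrix (Fin d) (Fin d) ℝ) (r : ℝ) (u v : Fin d → ℝ) :
    ip M (r • u) v = r * ip M u v := by
  simp [ip, smul_dotProduct]

theorem ip_smul_right (M : Matrix (Fin d) (Fin d) ℝ) (r : ℝ) (u v : Fin d → ℝ) :
    ip M u (r • v) = r * ip M u v := by
  simp [ip, mulVec_smul, dotProduct_smul]

theorem ip_sum_left {ι : Type*} (M : Matrix (Fin d) (Fin d) ℝ) (s : Finset ι)
    (f : ι → Fin d → ℝ) (v : Fin d → ℝ) :
    ip M (∑ i ∈ s, f i) v = ∑ i ∈ s, ip M (f i) v := by
  simp [ip, sum_dotProduct]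

theorem PD.comm {M : Matrix (Fin d) (Fin d) ℝ} (h : PD M) (u v : Fin d → ℝ) :
    ip M u v = ip M v u := by
  unfold ip
  rw [dotProduct_mulVec, dotProduct_comm, ← mulVec_transpose, h.symm]

theorem PD.nonneg {M : Matrix (Fin d) (Fin d) ℝ} (h : PD M) (u : Fin d → ℝ) : 0 ≤ ip M u u := by
  by_cases hu : u = 0
  · simp [ip, hu]
  · exact (h.pos u hu).le

theorem nrm_nonneg (M : Matrix (Fin d) (Fin d) ℝ) (u : Fin d → ℝ) : 0 ≤ nrm M u :=
  Real.sqrt_nonneg _

theorem PD.sq_nrm {M : Matrix (Fin d) (Fin d) ℝ} (h : PD M) (u : Fin d → ℝ) :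
    nrm M u ^ 2 = ip M u u := Real.sq_sqrt (h.nonneg u)

/-- Cauchy-Schwarz. -/
theorem PD.cs {M : Matrix (Fin d) (Fin d) ℝ} (h : PD M) (u v : Fin d → ℝ) :
    |ip M u v| ≤ nrm M u * nrm M v := by
  by_cases hv : v = 0
  · subst hv
    simp [ip, nrm]
  · have hvv := h.pos v hv
    have key : 0 ≤ ip M (u + (-(ip M u v / ip M v v)) • v) (u + (-(ip M u v / ip M v v)) • v) :=
      h.nonneg _
    rw [ip_add_left, ip_add_right, ip_add_right, ip_smul_left, ip_smul_left, ip_smul_right,
      ip_smul_right, h.comm v u] at key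
    have h2 : ip M u v ^ 2 ≤ ip M u u * ip M v v := by
      have h3 : ip M u u - ip M u v ^ 2 / ip M v v ≥ 0 := by
        have : ip M u u - ip M u v ^ 2 / ip M v v =
            ip M u u + -(ip M u v / ip M v v) * ip M u v +
              (-(ip M u v / ip M v v) * ip M u v +
                -(ip M u v / ip M v v) * (-(ip M u v / ip M v v) * ip M v v)) := by
          field_simp
          ring
        linarith
      have h4 : ip M u v ^ 2 / ip M v v ≤ ip M u u := by linarith
      rwa [div_le_iff₀ hvv] at h4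
    rw [nrm, nrm, ← Real.sqrt_mul (h.nonneg u)]
    exact Real.abs_le_sqrt h2

/-- Robustly reduced basis (the standard basis for the Gram matrix `M`). -/
structure RB (κ : ℝ) (M : Matrix (Fin d) (Fin d) ℝ) (a : Fin d → ℝ) : Prop where
  pos : ∀ i, 0 < a i
  mono : ∀ i j, i ≤ j → a i ≤ κ * a j
  diag : ∀ j, nrm M (Pi.single j 1) ≤ κ * a j
  coef : ∀ (c : Fin d → ℝ) (k : Fin d), |c k| * a k ≤ κ * nrm M c
  proj : ∀ i j, i < j → ∀ c : Fin d → ℝ, (∀ l, i < l → c l = 0) →
    |ip M (Pi.single j 1) c| ≤ κ * a i * nrm M c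

/-- Recursive constants of the gap lemma. -/
noncomputable def tauG (d : ℕ) (κ θ : ℝ) : ℕ → ℝ
  | 0 => 0
  | (n + 1) => (κ * θ + κ * (θ + d * κ * tauG d κ θ n)) * (κ ^ 2 * θ) ^ d

theorem tauG_nonneg (d : ℕ) {κ θ : ℝ} (hκ : 1 ≤ κ) (hθ : 1 ≤ θ) (n : ℕ) : 0 ≤ tauG d κ θ n := by
  induction n with
  | zero => simp [tauG]
  | succ n ih =>
    have : (0 : ℝ) ≤ d := Nat.cast_nonneg d
    rw [tauG]
    positivity

/-- Real version of an integer matrix. -/
def toR (C : Matrix (Fin d) (Fin d) ℤ) : Matrix (Fin d) (Fin d) ℝ := C.map (Int.cast)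

theorem toR_apply (C : Matrix (Fin d) (Fin d) ℤ) (i j : Fin d) : toR C i j = (C i j : ℝ) := rfl

theorem gap_chain {κ θ : ℝ} {M : Matrix (Fin d) (Fin d) ℝ} {a : Fin d → ℝ} (hκ : 1 ≤ κ)
    (hθ : 1 ≤ θ) (h : RB κ M a) (k : Fin d) (n : ℕ) (hn : k.1 + n < d)
    (hng : ∀ l : Fin d, k ≤ l → l.1 < k.1 + n → ¬ ∀ m, l < m → κ * θ * a l < a m) :
    a ⟨k.1 + n, hn⟩ ≤ (κ ^ 2 * θ) ^ n * a k := by
  induction n with
  | zero => simp
  | succ n ih =>
    have hn' : k.1 + n < d := by omega
    have h1 := ih hn' (fun l hl hl' => hng l hl (by omega))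
    have h2 := hng ⟨k.1 + n, hn'⟩ (by simp [Fin.le_def]) (by simp)
    push Not at h2
    obtain ⟨m, hm, hm'⟩ := h2
    have h3 : a ⟨k.1 + (n + 1), hn⟩ ≤ κ * a m := by
      apply h.mono
      simp only [Fin.le_def, Fin.lt_def] at hm ⊢
      omega
    calc a ⟨k.1 + (n + 1), hn⟩ ≤ κ * a m := h3
      _ ≤ κ * (κ * θ * a ⟨k.1 + n, hn'⟩) := by gcongr
      _ = (κ ^ 2 * θ) * a ⟨k.1 + n, hn'⟩ := by ring
      _ ≤ (κ ^ 2 * θ) * ((κ ^ 2 * θ) ^ n * a k) := by gcongr
      _ = (κ ^ 2 * θ) ^ (n + 1) * a k := by ring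

theorem first_gap {κ θ : ℝ} {M : Matrix (Fin d) (Fin d) ℝ} {a : Fin d → ℝ} (hκ : 1 ≤ κ)
    (hθ : 1 ≤ θ) (h : RB κ M a) (k : Fin d) :
    ∃ i : Fin d, k ≤ i ∧ (∀ m, i < m → κ * θ * a i < a m) ∧ a i ≤ (κ ^ 2 * θ) ^ d * a k := by
  classical
  have hex : ∃ n : ℕ, ∃ hn : k.1 + n < d, ∀ m, (⟨k.1 + n, hn⟩ : Fin d) < m →
      κ * θ * a ⟨k.1 + n, hn⟩ < a m := by
    refine ⟨d - 1 - k.1, by have := k.2; omega, fun m hm => ?_⟩
    exfalso
    have := m.2
    have := k.2
    simp only [Fin.lt_def] at hm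
    omega
  obtain ⟨hn, hgap⟩ := Nat.find_spec hex
  have hmin := fun {m : ℕ} (hm : m < Nat.find hex) => Nat.find_min hex hm
  refine ⟨⟨k.1 + Nat.find hex, hn⟩, by simp [Fin.le_def], hgap, ?_⟩
  have h1 := gap_chain hκ hθ h k (Nat.find hex) hn (by
    intro l hl hl' hg
    simp only [Fin.le_def] at hl
    refine hmin (m := l.1 - k.1) (by omega) ⟨by have := l.2; omega, ?_⟩
    have e : (⟨k.1 + (l.1 - k.1), by have := l.2; omega⟩ : Fin d) = l := by
      apply Fin.ext
      simp only
      omega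
    rw [e]
    exact hg)
  refine h1.trans ?_
  have hk := (h.pos k).le
  have h3 : 1 ≤ κ ^ 2 * θ := by
    have : 1 ≤ κ ^ 2 := one_le_pow₀ hκ
    nlinarith
  have h4 : Nat.find hex ≤ d := by omega
  gcongr

/-- The generic gap lemma. -/
theorem gap_bound {κ θ : ℝ} {M : Matrix (Fin d) (Fin d) ℝ} {a : Fin d → ℝ} (hM : PD M)
    (hκ : 1 ≤ κ) (hθ : 1 ≤ θ) (h : RB κ M a) (C : Matrix (Fin d) (Fin d) ℤ)
    (g1 : ∀ j k, |(C j k : ℝ)| * a k ≤ θ * a j)
    (g2 : ∀ i, (∀ l m, l ≤ i → i < m → C l m = 0) → ∀ j, i < j → ∀ u : Fin d → ℝ,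
      (∀ l, i < l → u l = 0) → |ip M (fun m => (C j m : ℝ)) u| ≤ θ * a i * nrm M u)
    (j k : Fin d) : |(C j k : ℝ)| ≤ tauG d κ θ d := by
  have main : ∀ n : ℕ, ∀ k : Fin d, d ≤ k.1 + n → ∀ j : Fin d,
      |(C j k : ℝ)| ≤ tauG d κ θ n := by
    intro n
    induction n with
    | zero => intro k hk; have := k.2; omega
    | succ n ih =>
      intro k hk j
      have hτ := tauG_nonneg d hκ hθ n
      have hd0 : (0 : ℝ) ≤ d := Nat.cast_nonneg d
      obtain ⟨i, hki, hgap, hai⟩ := first_gap hκ hθ h k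
      have hak := h.pos k
      have hai0 := h.pos i
      have hzero : ∀ l m, l ≤ i → i < m → C l m = 0 := by
        intro l m hl hm
        by_contra hne
        have h1 : (1 : ℝ) ≤ |(C l m : ℝ)| := by
          have : 1 ≤ |C l m| := Int.one_le_abs hne
          exact_mod_cast this
        have h2 := g1 l m
        have h3 := h.mono l i hl
        have h4 := hgap m hm
        have h5 := h.pos m
        have : a m ≤ θ * (κ * a i) := by
          calc a m = 1 * a m := (one_mul _).symm
            _ ≤ |(C l m : ℝ)| * a m := by gcongr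
            _ ≤ θ * a l := h2
            _ ≤ θ * (κ * a i) := by gcongr
        nlinarith
      have hB : (0 : ℝ) ≤ (κ ^ 2 * θ) ^ d := by positivity
      rcases le_or_gt j i with hji | hji
      · have h1 := g1 j k
        have h2 := h.mono j i hji
        have h3 : |(C j k : ℝ)| * a k ≤ (κ * θ * (κ ^ 2 * θ) ^ d) * a k := by
          calc |(C j k : ℝ)| * a k ≤ θ * a j := h1
            _ ≤ θ * (κ * a i) := by gcongr
            _ ≤ θ * (κ * ((κ ^ 2 * θ) ^ d * a k)) := by gcongr
            _ = (κ * θ * (κ ^ 2 * θ) ^ d) * a k := by ring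
        have h4 := le_of_mul_le_mul_right h3 hak
        refine h4.trans ?_
        rw [tauG]
        have : 0 ≤ κ * (θ + d * κ * tauG d κ θ n) * (κ ^ 2 * θ) ^ d := by positivity
        nlinarith
      · set z : Fin d → ℝ := fun m => if m ≤ i then (C j m : ℝ) else 0 with hz
        have hzs : ∀ l, i < l → z l = 0 := by
          intro l hl
          simp [hz, not_le.mpr hl]
        have hsplit : (fun m => (C j m : ℝ)) = z +
            ∑ m ∈ univ.filter (fun m => i < m), (C j m : ℝ) • (Pi.single m (1 : ℝ) : Fin d → ℝ) := by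
          funext m
          simp only [Pi.add_apply, Finset.sum_apply, Pi.smul_apply, smul_eq_mul, hz]
          rcases le_or_gt m i with hm | hm
          · rw [if_pos hm, Finset.sum_eq_zero, add_zero]
            intro x hx
            rw [Finset.mem_filter] at hx
            have : m ≠ x := fun e => by subst e; exact absurd hx.2 (not_lt.mpr hm)
            simp [this]
          · rw [if_neg (not_le.mpr hm), zero_add, Finset.sum_eq_single m]
            · simp
            · intro b _ hb
              simp [hb.symm]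
            · intro hm'
              exact absurd (Finset.mem_filter.mpr ⟨Finset.mem_univ _, hm⟩) hm'
        have hrow := g2 i hzero j hji z hzs
        have hcol : ∀ m, i < m → |(C j m : ℝ) * ip M (Pi.single m 1) z| ≤
            tauG d κ θ n * (κ * a i * nrm M z) := by
          intro m hm
          rw [abs_mul]
          have h1 := ih m (by
            simp only [Fin.le_def, Fin.lt_def] at hki hm
            omega) j
          have h2 := h.proj i m hm z hzs
          have := nrm_nonneg M z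
          gcongr
        have hip : ip M z z = ip M (fun m => (C j m : ℝ)) z -
            ∑ m ∈ univ.filter (fun m => i < m), (C j m : ℝ) * ip M (Pi.single m 1) z := by
          rw [hsplit, ip_add_left, ip_sum_left]
          simp_rw [ip_smul_left]
          ring
        have hnz := nrm_nonneg M z
        have hsum : |∑ m ∈ univ.filter (fun m => i < m), (C j m : ℝ) * ip M (Pi.single m 1) z| ≤
            d * (tauG d κ θ n * (κ * a i * nrm M z)) := by
          refine (Finset.abs_sum_le_sum_abs _ _).trans ?_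
          refine (Finset.sum_le_card_nsmul _ _ _ (fun m hm => hcol m (Finset.mem_filter.mp hm).2)).trans ?_
          rw [nsmul_eq_mul]
          have hc : ((univ.filter (fun m : Fin d => i < m)).card : ℝ) ≤ d := by
            have := Finset.card_filter_le (univ : Finset (Fin d)) (fun m => i < m)
            rw [Finset.card_univ, Fintype.card_fin] at this
            exact_mod_cast this
          have : 0 ≤ tauG d κ θ n * (κ * a i * nrm M z) := by positivity
          gcongr
        have hzz : nrm M z ^ 2 ≤ ((θ + d * κ * tauG d κ θ n) * a i) * nrm M z := by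
          rw [hM.sq_nrm, hip]
          have h1 := abs_le.mp hrow
          have h2 := abs_le.mp hsum
          nlinarith
        have hzn : nrm M z ≤ (θ + d * κ * tauG d κ θ n) * a i := by
          rcases eq_or_lt_of_le hnz with h0 | h0
          · rw [← h0]
            positivity
          · have : nrm M z * nrm M z ≤ ((θ + d * κ * tauG d κ θ n) * a i) * nrm M z := by
              rw [← sq]; exact hzz
            exact le_of_mul_le_mul_right this h0
        have h5 := h.coef z k
        have hzk : z k = (C j k : ℝ) := by simp [hz, hki]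
        rw [hzk] at h5
        have h6 : |(C j k : ℝ)| * a k ≤
            (κ * (θ + d * κ * tauG d κ θ n) * (κ ^ 2 * θ) ^ d) * a k := by
          calc |(C j k : ℝ)| * a k ≤ κ * nrm M z := h5
            _ ≤ κ * ((θ + d * κ * tauG d κ θ n) * a i) := by gcongr
            _ ≤ κ * ((θ + d * κ * tauG d κ θ n) * ((κ ^ 2 * θ) ^ d * a k)) := by gcongr
            _ = _ := by ring
        have h7 := le_of_mul_le_mul_right h6 hak
        refine h7.trans ?_
        rw [tauG]
        have : 0 ≤ κ * θ * (κ ^ 2 * θ) ^ d := by positivity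
        nlinarith
  exact main d k (by omega) j

end Pool.Agent.DEC.R
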