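import Mathlib
import Pool.Agent.DEC.R.Gap

/-!
# Metrics for which a given matrix is normal (DEC-R, MP_59dda0_an; helper36)

`Met p T H`: `H` is a real symmetric positive definite form and the adjoint of `T` for `H` (acting
on row vectors) is `p(T)`.
-/

set_option autoImplicit false

namespace Pool.Agent.DEC.R

open Matrix Finset Polynomial

variable {d : ℕ}

/-- `H` is positive definite and the adjoint of `T` for `H` is `p(T)` (on row vectors). -/
structure Met (p : ℝ[X]) (T H : Matrix (Fin d) (Fin d) ℝ) : Prop where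
  pd : PD H
  adj : T * H = H * (aeval T p)ᵀ

theorem ip_vecMul_left (H A : Matrix (Fin d) (Fin d) ℝ) (u v : Fin d → ℝ) :
    ip H (u ᵥ* A) v = u ⬝ᵥ ((A * H) *ᵥ v) := by
  rw [ip, ← dotProduct_mulVec, mulVec_mulVec]

theorem ip_vecMul_right (H A : Matrix (Fin d) (Fin d) ℝ) (u v : Fin d → ℝ) :
    ip H u (v ᵥ* A) = u ⬝ᵥ ((H * Aᵀ) *ᵥ v) := by
  rw [ip, ← mulVec_mulVec, mulVec_transpose]

theorem Met.ip_adj {p : ℝ[X]} {T H : Matrix (Fin d) (Fin d) ℝ} (h : Met p T H)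
    (u v : Fin d → ℝ) : ip H (u ᵥ* T) v = ip H u (v ᵥ* aeval T p) := by
  rw [ip_vecMul_left, ip_vecMul_right, h.adj]

theorem PD.add {H H' : Matrix (Fin d) (Fin d) ℝ} (h : PD H) (h' : PD H') : PD (H + H') := by
  refine ⟨by rw [transpose_add, h.symm, h'.symm], fun c hc => ?_⟩
  have : ip (H + H') c c = ip H c c + ip H' c c := by
    simp [ip, add_mulVec, dotProduct_add]
  rw [this]
  exact add_pos (h.pos c hc) (h'.pos c hc)

theorem PD.smul {H : Matrix (Fin d) (Fin d) ℝ} (h : PD H) {r : ℝ} (hr : 0 < r) :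
    PD (r • H) := by
  refine ⟨by rw [transpose_smul, h.symm], fun c hc => ?_⟩
  have : ip (r • H) c c = r * ip H c c := by
    simp [ip, smul_mulVec, dotProduct_smul]
  rw [this]
  exact mul_pos hr (h.pos c hc)

theorem Met.add {p : ℝ[X]} {T H H' : Matrix (Fin d) (Fin d) ℝ} (h : Met p T H)
    (h' : Met p T H') : Met p T (H + H') :=
  ⟨h.pd.add h'.pd, by rw [mul_add, add_mul, h.adj, h'.adj]⟩

theorem Met.smul {p : ℝ[X]} {T H : Matrix (Fin d) (Fin d) ℝ} (h : Met p T H) {r : ℝ}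
    (hr : 0 < r) : Met p T (r • H) :=
  ⟨h.pd.smul hr, by rw [mul_smul_comm, smul_mul_assoc, h.adj]⟩

/-- The set of metrics for `T` is convex. -/
theorem Met.seg {p : ℝ[X]} {T H H' : Matrix (Fin d) (Fin d) ℝ} (h : Met p T H)
    (h' : Met p T H') {s : ℝ} (hs0 : 0 ≤ s) (hs1 : s ≤ 1) :
    Met p T ((1 - s) • H + s • H') := by
  rcases hs0.eq_or_lt with h0 | h0
  · subst h0
    simpa using h
  · rcases hs1.eq_or_lt with h1 | h1
    · subst h1
      simpa using h'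
    · exact (h.smul (by linarith)).add (h'.smul h0)

/-- Intertwining passes to polynomials. -/
theorem mul_aeval_of_mul {R : Type*} [CommRing R] {A : Type*} [Ring A] [Algebra R A]
    {g T T' : A} (h : g * T = T' * g) (p : R[X]) : g * aeval T p = aeval T' p * g := by
  induction p using Polynomial.induction_on' with
  | add p q hp hq => rw [map_add, map_add, mul_add, add_mul, hp, hq]
  | monomial n a =>
    rw [aeval_monomial, aeval_monomial, ← mul_assoc, ← Algebra.commutes, mul_assoc, mul_assoc]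
    congr 1
    exact (SemiconjBy.pow_right (show SemiconjBy g T T' from h) n)

private theorem ip_conj_aux (g H : Matrix (Fin d) (Fin d) ℝ) (u v : Fin d → ℝ) :
    ip (g * H * gᵀ) u v = ip H (u ᵥ* g) (v ᵥ* g) := by
  rw [ip_vecMul_left, ip, ← mulVec_mulVec, mulVec_transpose]

theorem PD.conj {H : Matrix (Fin d) (Fin d) ℝ} (h : PD H) {g : Matrix (Fin d) (Fin d) ℝ}
    (hg : IsUnit g.det) : PD (g * H * gᵀ) := by
  refine ⟨by simp [transpose_mul, h.symm, mul_assoc], fun c hc => ?_⟩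
  rw [ip_conj_aux]
  refine h.pos _ fun h0 => hc ?_
  have : c ᵥ* g ᵥ* g⁻¹ = 0 := by rw [h0, zero_vecMul]
  rwa [vecMul_vecMul, mul_nonsing_inv _ hg, vecMul_one] at this

/-- Change of basis: `g T = T' g`. -/
theorem Met.conj' {p : ℝ[X]} {T T' H g : Matrix (Fin d) (Fin d) ℝ} (h : Met p T H)
    (hg : IsUnit g.det) (hT : g * T = T' * g) : Met p T' (g * H * gᵀ) := by
  refine ⟨h.pd.conj hg, ?_⟩
  calc T' * (g * H * gᵀ) = (T' * g) * H * gᵀ := by simp only [mul_assoc]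
    _ = g * (T * H) * gᵀ := by rw [← hT]; simp only [mul_assoc]
    _ = g * H * ((aeval T p)ᵀ * gᵀ) := by rw [h.adj]; simp only [mul_assoc]
    _ = g * H * ((aeval T' p * g)ᵀ) := by rw [← transpose_mul, mul_aeval_of_mul hT]
    _ = g * H * gᵀ * (aeval T' p)ᵀ := by rw [transpose_mul]; simp only [mul_assoc]

theorem Met.conj {p : ℝ[X]} {T H g : Matrix (Fin d) (Fin d) ℝ} (h : Met p T H)
    (hg : IsUnit g.det) : Met p (g * T * g⁻¹) (g * H * gᵀ) :=
  h.conj' hg (by rw [mul_assoc (g * T), nonsing_inv_mul _ hg, mul_one])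

/-- Block structure passes to polynomials in `T`: if `T l m = 0` for all `l ≤ i < m`, the same
holds for `p(T)`. -/
theorem aeval_block {R : Type*} [CommRing R] {T : Matrix (Fin d) (Fin d) R} {i : ℕ}
    (hT : ∀ l m : Fin d, (l : ℕ) ≤ i → i < (m : ℕ) → T l m = 0) (p : R[X]) :
    ∀ l m : Fin d, (l : ℕ) ≤ i → i < (m : ℕ) → (aeval T p) l m = 0 := by
  induction p using Polynomial.induction_on' with
  | add p q hp hq =>
    intro l m hl hm
    rw [map_add, Matrix.add_apply, hp l m hl hm, hq l m hl hm, add_zero]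
  | monomial n a =>
    have hpow : ∀ n : ℕ, ∀ l m : Fin d, (l : ℕ) ≤ i → i < (m : ℕ) → (T ^ n) l m = 0 := by
      intro n
      induction n with
      | zero =>
        intro l m hl hm
        rw [pow_zero, Matrix.one_apply_ne]
        intro h
        rw [h] at hl
        omega
      | succ n ih =>
        intro l m hl hm
        rw [pow_succ, Matrix.mul_apply]
        refine Finset.sum_eq_zero fun k _ => ?_
        by_cases hk : (k : ℕ) ≤ i
        · rw [hT k m hk hm, mul_zero]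
        · rw [ih l k hl (by omega), zero_mul]
    intro l m hl hm
    rw [aeval_monomial, Algebra.algebraMap_eq_smul_one, smul_mul_assoc, one_mul,
      Matrix.smul_apply, hpow n l m hl hm, smul_zero]

/-- `T` is normal for `H`. -/
theorem Met.ip_norm_adj {p : ℝ[X]} {T H : Matrix (Fin d) (Fin d) ℝ} (h : Met p T H)
    (u : Fin d → ℝ) :
    ip H (u ᵥ* aeval T p) (u ᵥ* aeval T p) = ip H (u ᵥ* T) (u ᵥ* T) := by
  have hc : aeval T p * T = T * aeval T p :=
    (mul_aeval_of_mul (g := T) (T := T) (T' := T) rfl p).symm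
  rw [← h.ip_adj (u ᵥ* aeval T p) u, vecMul_vecMul, hc, h.ip_adj u (u ᵥ* T), vecMul_vecMul,
    h.pd.comm]

theorem Met.nrm_adj {p : ℝ[X]} {T H : Matrix (Fin d) (Fin d) ℝ} (h : Met p T H)
    (u : Fin d → ℝ) : nrm H (u ᵥ* aeval T p) = nrm H (u ᵥ* T) := by
  rw [nrm, nrm, h.ip_norm_adj]

section Spectral

open scoped Matrix.Norms.L2Operator MatrixOrder ComplexOrder

theorem PD.exists_sqrt {H : Matrix (Fin d) (Fin d) ℝ} (h : PD H) :
    ∃ B : Matrix (Fin d) (Fin d) ℝ, IsUnit B.det ∧ H = B * Bᵀ := by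
  have hpd : H.PosDef := by
    refine PosDef.of_dotProduct_mulVec_pos ?_ fun x hx => ?_
    · rw [IsHermitian, conjTranspose_eq_transpose_of_trivial]
      exact h.symm
    · simpa [ip] using h.pos x hx
  obtain ⟨B, hB⟩ := CStarAlgebra.nonneg_iff_eq_mul_star_self.mp hpd.posSemidef.nonneg
  rw [star_eq_conjTranspose, conjTranspose_eq_transpose_of_trivial] at hB
  refine ⟨B, ?_, hB⟩
  have hu : IsUnit H.det := (isUnit_iff_isUnit_det H).mp hpd.isUnit
  rw [hB, det_mul] at hu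
  exact isUnit_of_mul_isUnit_left hu

theorem norm_le_of_normal (S : Matrix (Fin d) (Fin d) ℂ) (hS : star S * S = S * star S)
    {ρ : ℝ} (hρ : 0 ≤ ρ) (h : ∀ z ∈ spectrum ℂ S, ‖z‖ ≤ ρ) : ‖S‖ ≤ ρ := by
  have : IsStarNormal S := ⟨hS⟩
  have h1 := IsStarNormal.spectralRadius_eq_nnnorm S
  have h2 : spectralRadius ℂ S ≤ ENNReal.ofNNReal ⟨ρ, hρ⟩ := by
    unfold spectralRadius
    refine iSup₂_le fun z hz => ENNReal.coe_le_coe.mpr ?_
    exact h z hz
  rw [h1] at h2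
  exact ENNReal.coe_le_coe.mp h2

theorem dot_mulVec_le (S : Matrix (Fin d) (Fin d) ℝ) {ρ : ℝ}
    (h : ‖S.map (Complex.ofRealHom)‖ ≤ ρ) (w : Fin d → ℝ) :
    (S *ᵥ w) ⬝ᵥ (S *ᵥ w) ≤ ρ ^ 2 * (w ⬝ᵥ w) := by
  have h1 := l2_opNorm_mulVec (S.map (Complex.ofRealHom))
    (WithLp.toLp 2 (fun i => (w i : ℂ)))
  have h2 : ‖(EuclideanSpace.equiv (Fin d) ℂ).symm ((S.map (Complex.ofRealHom)) *ᵥ
      (fun i => (w i : ℂ)))‖ ≤ ρ * ‖WithLp.toLp 2 (fun i => (w i : ℂ))‖ :=
    h1.trans (mul_le_mul_of_nonneg_right h (norm_nonneg _))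
  have h3 : ‖(EuclideanSpace.equiv (Fin d) ℂ).symm ((S.map (Complex.ofRealHom)) *ᵥ
      (fun i => (w i : ℂ)))‖ ^ 2 = (S *ᵥ w) ⬝ᵥ (S *ᵥ w) := by
    rw [EuclideanSpace.norm_sq_eq, dotProduct]
    refine Finset.sum_congr rfl fun i _ => ?_
    have : ((EuclideanSpace.equiv (Fin d) ℂ).symm ((S.map (Complex.ofRealHom)) *ᵥ
      (fun i => (w i : ℂ)))).ofLp i = (((S *ᵥ w) i : ℝ) : ℂ) := by
      simp [mulVec, dotProduct]
    rw [this, Complex.norm_real, Real.norm_eq_abs, sq_abs, sq]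
  have h4 : ‖WithLp.toLp 2 (fun i => (w i : ℂ))‖ ^ 2 = w ⬝ᵥ w := by
    rw [EuclideanSpace.norm_sq_eq, dotProduct]
    refine Finset.sum_congr rfl fun i _ => ?_
    simp [sq]
  rw [← h3, ← h4, ← mul_pow]
  exact pow_le_pow_left₀ (norm_nonneg _) h2 2

/-- The norm of `T` for a metric is bounded by the moduli of its eigenvalues. -/
theorem Met.norm {p : ℝ[X]} {T H : Matrix (Fin d) (Fin d) ℝ} (h : Met p T H) {ρ : ℝ}
    (hρ : 0 ≤ ρ) (hs : ∀ z ∈ spectrum ℂ (T.map (Complex.ofRealHom)), ‖z‖ ≤ ρ)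
    (u : Fin d → ℝ) : nrm H (u ᵥ* T) ≤ ρ * nrm H u := by
  obtain ⟨B, hB, hH⟩ := h.pd.exists_sqrt
  have hipH : ∀ u : Fin d → ℝ, ip H u u = (u ᵥ* B) ⬝ᵥ (u ᵥ* B) := by
    intro u
    have := ip_conj_aux B 1 u u
    rw [mul_one, ← hH] at this
    rw [this, ip, one_mulVec]
  set S := B⁻¹ * T * B with hSdef
  have hBS : B * S = T * B := by
    rw [hSdef, ← mul_assoc, ← mul_assoc, mul_nonsing_inv _ hB, one_mul]
  have hSp : Sᵀ = aeval S p := by
    have h1 := mul_aeval_of_mul hBS p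
    have h2 := h.adj
    rw [hH] at h2
    have h3 : B * (S * Bᵀ) = B * (aeval S p)ᵀ * Bᵀ := by
      calc B * (S * Bᵀ) = T * (B * Bᵀ) := by rw [← mul_assoc, hBS, mul_assoc]
        _ = B * (Bᵀ * (aeval T p)ᵀ) := by rw [h2, mul_assoc]
        _ = B * (aeval S p)ᵀ * Bᵀ := by
          rw [← transpose_mul, ← h1, transpose_mul, mul_assoc]
    have h4 : S = (aeval S p)ᵀ := by
      have h5 : B⁻¹ * (B * (S * Bᵀ)) = B⁻¹ * (B * (aeval S p)ᵀ * Bᵀ) := by rw [h3]
      rw [← mul_assoc, nonsing_inv_mul _ hB, one_mul, ← mul_assoc, ← mul_assoc,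
        nonsing_inv_mul _ hB, one_mul] at h5
      have hBt : IsUnit (Bᵀ).det := by rwa [det_transpose]
      have h6 : S * Bᵀ * (Bᵀ)⁻¹ = (aeval S p)ᵀ * Bᵀ * (Bᵀ)⁻¹ := by rw [h5]
      rwa [mul_assoc, mul_nonsing_inv _ hBt, mul_one, mul_assoc, mul_nonsing_inv _ hBt,
        mul_one] at h6
    have := congrArg Matrix.transpose h4
    rwa [transpose_transpose] at this
  have hnormal : Sᵀ * S = S * Sᵀ := by
    rw [hSp]
    exact (mul_aeval_of_mul (g := S) (T := S) (T' := S) rfl p).symm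
  set Sc := S.map (Complex.ofRealHom) with hSc
  have hstar : star Sc = (Sᵀ).map (Complex.ofRealHom) := by
    ext i j
    simp [hSc]
  have hn : ‖Sc‖ ≤ ρ := by
    refine norm_le_of_normal Sc ?_ hρ fun z hz => hs z ?_
    · rw [hstar, hSc, ← Matrix.map_mul, ← Matrix.map_mul, hnormal]
    · have hBc : IsUnit (B.map (Complex.ofRealHom)).det := by
        have : (B.map (Complex.ofRealHom)).det = Complex.ofRealHom B.det := by
          rw [RingHom.map_det, RingHom.mapMatrix_apply]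
        rw [this]
        exact hB.map _
      obtain ⟨U, hU⟩ := (isUnit_iff_isUnit_det _).mpr hBc
      have hcomm : (U : Matrix (Fin d) (Fin d) ℂ) * Sc = T.map (Complex.ofRealHom) * U := by
        rw [hU, hSc, ← Matrix.map_mul, ← Matrix.map_mul, hBS]
      have hSc2 : Sc = (U⁻¹ : (Matrix (Fin d) (Fin d) ℂ)ˣ) * T.map (Complex.ofRealHom) * U := by
        rw [mul_assoc, ← hcomm, ← mul_assoc, Units.inv_mul, one_mul]
      rw [hSc2, spectrum.units_conjugate'] at hz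
      exact hz
  have hn2 : ‖(Sᵀ).map (Complex.ofRealHom)‖ ≤ ρ := by
    rw [← hstar, star_eq_conjTranspose, l2_opNorm_conjTranspose]
    exact hn
  have hfin := dot_mulVec_le Sᵀ hn2 (u ᵥ* B)
  rw [mulVec_transpose, vecMul_vecMul, hBS, ← vecMul_vecMul, ← hipH, ← hipH] at hfin
  rw [nrm, nrm]
  calc Real.sqrt (ip H (u ᵥ* T) (u ᵥ* T)) ≤ Real.sqrt (ρ ^ 2 * ip H u u) :=
        Real.sqrt_le_sqrt hfin
    _ = ρ * Real.sqrt (ip H u u) := by
        rw [Real.sqrt_mul (sq_nonneg ρ), Real.sqrt_sq hρ]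

theorem Met.norm_adj {p : ℝ[X]} {T H : Matrix (Fin d) (Fin d) ℝ} (h : Met p T H) {ρ : ℝ}
    (hρ : 0 ≤ ρ) (hs : ∀ z ∈ spectrum ℂ (T.map (Complex.ofRealHom)), ‖z‖ ≤ ρ)
    (u : Fin d → ℝ) : nrm H (u ᵥ* aeval T p) ≤ ρ * nrm H u := by
  rw [h.nrm_adj]
  exact h.norm hρ hs u

end Spectral

end Pool.Agent.DEC.R
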