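import Pool.Agent.DEC.R.Chain
import Pool.Agent.DEC.R.Met

/-!
# MP_59dda0_an, block DEC-R: Theorem C (chains for conjugate matrices)
-/

set_option autoImplicit false

namespace Pool.Agent.DEC.R

open Matrix Finset Polynomial

variable {d : ℕ}

/-- a matrix with a metric is bounded in a reduced basis -/
theorem bd_of_met {κ ρ : ℝ} (hκ : 1 ≤ κ) (hρ : 1 ≤ ρ) {p : ℝ[X]} {T : Matrix (Fin d) (Fin d) ℤ}
    {H : Matrix (Fin d) (Fin d) ℝ} (hH : Met p (toR T) H)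
    (hn : ∀ u, nrm H (u ᵥ* toR T) ≤ ρ * nrm H u)
    (hn' : ∀ u, nrm H (u ᵥ* aeval (toR T) p) ≤ ρ * nrm H u) {B Tb : Matrix (Fin d) (Fin d) ℤ}
    (hB : IsUnit (toR B).det) (hT : B * T = Tb * B) {a : Fin d → ℝ}
    (hr : RB κ (toR B * H * (toR B)ᵀ) a) : bd (tauG d κ (κ ^ 2 * ρ) d) Tb := by
  have hT' : toR B * toR T = toR Tb * toR B := by rw [← toR_mul, hT, toR_mul]
  have hM := hH.conj' hB hT'
  have hP := mul_aeval_of_mul hT' p
  intro j k
  refine bound_N' hM.pd hκ hρ hr Tb (aeval (toR Tb) p) hM.ip_adj ?_ ?_ ?_ j k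
  · intro i hi l m hl hm
    refine aeval_block (T := toR Tb) (i := (i : ℕ)) ?_ p l m hl hm
    intro l m hl hm
    rw [toR_apply, hi l m hl hm, Int.cast_zero]
  · intro u
    rw [nrm_vconj, nrm_vconj, vecMul_vecMul, ← hT', ← vecMul_vecMul]
    exact hn _
  · intro u
    rw [nrm_vconj, nrm_vconj, vecMul_vecMul, ← hP, ← vecMul_vecMul]
    exact hn' _

/-- **Theorem C**, with the metrics as hypotheses -/
theorem chain_conj' (hR : Robust d) {κ : ℝ} (hκ : 1 ≤ κ) (hE : ExistRd d κ) {p : ℝ[X]}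
    {T T' : Matrix (Fin d) (Fin d) ℤ} {g : GZ d} (hT : g.val * T = T' * g.val)
    {H H' : Matrix (Fin d) (Fin d) ℝ} (hH : Met p (toR T) H) (hH' : Met p (toR T') H') {K₀ : ℝ}
    (hK₀ : K₀ ≤ κ) (hl : ∀ c : Fin d → ℝ, ∀ k, |c k| ≤ K₀ * nrm H c)
    (hu : ∀ j, nrm H (Pi.single j 1) ≤ K₀) (hl' : ∀ c : Fin d → ℝ, ∀ k, |c k| ≤ K₀ * nrm H' c)
    (hu' : ∀ j, nrm H' (Pi.single j 1) ≤ K₀) {ρ : ℝ} (hρ : 1 ≤ ρ)
    (hn : ∀ H, Met p (toR T) H → ∀ u, nrm H (u ᵥ* toR T) ≤ ρ * nrm H u)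
    (hn' : ∀ H, Met p (toR T) H → ∀ u, nrm H (u ᵥ* aeval (toR T) p) ≤ ρ * nrm H u) {K : ℝ}
    (hK1 : tauG d κ (κ ^ 2 * ρ) d ≤ K) (hK2 : tauG d (2 * κ) ((2 * κ) ^ 6 * 1) d ≤ K) :
    Relation.ReflTransGen (Stp K T) 1 g := by
  have hg := det_toR_unit g
  have hgi := det_toR_unit g⁻¹
  set H1 : Matrix (Fin d) (Fin d) ℝ :=
    toR (g⁻¹ : GZ d).val * H' * (toR (g⁻¹ : GZ d).val)ᵀ with hH1
  have hTi : (g⁻¹ : GZ d).val * T' = T * (g⁻¹ : GZ d).val := by
    have h1 : T' = g.val * T * (g⁻¹ : GZ d).val := by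
      rw [hT, mul_assoc, ← Units.val_mul, mul_inv_cancel, Units.val_one, mul_one]
    rw [h1, ← mul_assoc, ← mul_assoc, ← Units.val_mul, inv_mul_cancel, Units.val_one, one_mul]
  have hmet1 : Met p (toR T) H1 := hH'.conj' hgi (by rw [← toR_mul, hTi, toR_mul])
  have hback : toR g.val * H1 * (toR g.val)ᵀ = H' := by
    calc toR g.val * H1 * (toR g.val)ᵀ
        = (toR g.val * toR (g⁻¹ : GZ d).val) * H' *
          (toR g.val * toR (g⁻¹ : GZ d).val)ᵀ := by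
          rw [hH1, Matrix.transpose_mul]
          simp only [Matrix.mul_assoc]
      _ = H' := by rw [toR_mul_inv]; simp
  have hseg : ∀ t ∈ Set.Icc (0 : ℝ) 1, Met p (toR T) ((1 - t) • H + t • H1) :=
    fun t ht => hH.seg hmet1 ht.1 ht.2
  refine chain_path hR hκ hE (H := fun t => (1 - t) • H + t • H1) (by fun_prop)
    (fun t ht => (hseg t ht).pd) (fun t ht b hb => ?_) hK2 ?_ ?_
  · obtain ⟨a, ha⟩ := hb
    refine (bd_of_met hκ hρ (hseg t ht) (hn _ (hseg t ht)) (hn' _ (hseg t ht))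
      (det_toR_unit b) ?_ ha).mono hK1
    rw [mul_assoc (b.val * T), ← Units.val_mul, inv_mul_cancel, Units.val_one, mul_one]
  · refine ⟨fun _ => 1, ?_⟩
    have h1 : toR (1 : GZ d).val * ((1 - (0 : ℝ)) • H + (0 : ℝ) • H1) *
        (toR (1 : GZ d).val)ᵀ = H := by
      rw [Units.val_one, toR_one]
      simp
    rw [h1]
    exact rb_std hH.pd hκ hK₀ hl hu
  · refine ⟨fun _ => 1, ?_⟩
    have h1 : toR g.val * ((1 - (1 : ℝ)) • H + (1 : ℝ) • H1) * (toR g.val)ᵀ = H' := by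
      rw [sub_self, zero_smul, zero_add, one_smul, hback]
    rw [h1]
    exact rb_std hH'.pd hκ hK₀ hl' hu'

/-- a bounded step is an elementary equivalence through bounded matrices -/
theorem Stp.elem {K : ℝ} {T : Matrix (Fin d) (Fin d) ℤ} {b b' : GZ d} (h : Stp K T b b')
    (hK : 0 ≤ K) : ∃ C D : Matrix (Fin d) (Fin d) ℤ,
      b.val * T * (b⁻¹ : GZ d).val = D * C ∧ b'.val * T * (b'⁻¹ : GZ d).val = C * D ∧
      bd K C ∧ bd (d * (K * K)) D := by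
  refine ⟨(b' * b⁻¹ : GZ d).val, b.val * T * (b'⁻¹ : GZ d).val, ?_, ?_, h.fwd, ?_⟩
  · simp only [Units.val_mul, mul_assoc]
    rw [← mul_assoc (b'⁻¹ : GZ d).val, ← Units.val_mul, inv_mul_cancel, Units.val_one, one_mul]
  · simp only [Units.val_mul, mul_assoc]
    rw [← mul_assoc (b⁻¹ : GZ d).val b.val, ← Units.val_mul, inv_mul_cancel, Units.val_one,
      one_mul]
  · have h1 : b.val * T * (b'⁻¹ : GZ d).val =
        (b.val * T * (b⁻¹ : GZ d).val) * (b * b'⁻¹ : GZ d).val := by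
      simp only [Units.val_mul, mul_assoc]
      rw [← mul_assoc (b⁻¹ : GZ d).val b.val, ← Units.val_mul, inv_mul_cancel, Units.val_one,
        one_mul]
    intro j k
    rw [h1, Matrix.mul_apply, Int.cast_sum]
    refine (Finset.abs_sum_le_sum_abs _ _).trans ?_
    refine (Finset.sum_le_card_nsmul _ _ (K * K) fun x _ => ?_).trans ?_
    · rw [Int.cast_mul, abs_mul]
      exact mul_le_mul (h.left j x) (h.bwd x k) (abs_nonneg _) hK
    · rw [Finset.card_univ, Fintype.card_fin, nsmul_eq_mul]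

end Pool.Agent.DEC.R
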