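import Pool.Agent.DEC.R.Gap

/-!
# Reduction theory (DEC-R, MP_59dda0_an): existence and robustness of reduced bases

* `exists_RB`: every positive definite form has a reduced basis with the constant `kapN d`;
* `RB.robust`: a reduced basis of `M` is reduced for all neighbours of `M` (same profile).
-/

set_option autoImplicit false

namespace Pool.Agent.DEC.R

open Matrix Finset

variable {d : ℕ}

/-- the constants of the existence theorem -/
def kapN : ℕ → ℕ
  | 0 => 1
  | (n + 1) => (n + 2) * kapN n ^ 2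

theorem one_le_kapN (n : ℕ) : 1 ≤ kapN n := by
  induction n with
  | zero => exact le_rfl
  | succ n ih =>
    rw [kapN]
    have : 1 ≤ kapN n ^ 2 := Nat.one_le_pow _ _ ih
    nlinarith

/-! ### basic facts on forms -/

theorem ip_eq_sum_ex (M : Matrix (Fin d) (Fin d) ℝ) (u v : Fin d → ℝ) :
    ip M u v = ∑ i, ∑ j, u i * M i j * v j := by
  simp only [ip, dotProduct, mulVec, Finset.mul_sum, mul_assoc]

theorem ip_conj_ex (C M : Matrix (Fin d) (Fin d) ℝ) (u v : Fin d → ℝ) :
    ip (C * M * Cᵀ) u v = ip M (u ᵥ* C) (v ᵥ* C) := by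
  simp only [ip, ← mulVec_mulVec, Matrix.dotProduct_mulVec, Matrix.mulVec_transpose]

theorem nrm_conj_ex (C M : Matrix (Fin d) (Fin d) ℝ) (u : Fin d → ℝ) :
    nrm (C * M * Cᵀ) u = nrm M (u ᵥ* C) := by
  rw [nrm, nrm, ip_conj_ex]

theorem PD.conj_ex {M C : Matrix (Fin d) (Fin d) ℝ} (h : PD M) (hC : IsUnit C.det) :
    PD (C * M * Cᵀ) := by
  refine ⟨?_, fun c hc => ?_⟩
  · rw [transpose_mul, transpose_mul, transpose_transpose, h.symm, Matrix.mul_assoc]
  · rw [ip_conj_ex]
    refine h.pos _ fun h0 => hc ?_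
    have h1 : (c ᵥ* C) ᵥ* C⁻¹ = c := by
      rw [vecMul_vecMul, mul_nonsing_inv _ hC, vecMul_one]
    rw [← h1, h0, zero_vecMul]

theorem toR_mul_ex (C D : Matrix (Fin d) (Fin d) ℤ) : toR (C * D) = toR C * toR D := by
  simp only [toR]
  exact Matrix.map_mul (f := Int.castRingHom ℝ)

theorem toR_det_ex (C : Matrix (Fin d) (Fin d) ℤ) : (toR C).det = (C.det : ℝ) := by
  have := RingHom.map_det (Int.castRingHom ℝ) C
  simpa [toR, RingHom.mapMatrix_apply] using this.symm

theorem toR_isUnit_ex {C : Matrix (Fin d) (Fin d) ℤ} (h : IsUnit C.det) : IsUnit (toR C).det := by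
  rw [toR_det_ex]
  exact h.map (Int.castRingHom ℝ)

/-- dual vectors: the coordinates are scalar products -/
theorem PD.dual_ex {M : Matrix (Fin d) (Fin d) ℝ} (h : PD M) (k : Fin d) :
    ∃ w : Fin d → ℝ, ∀ c, c k = ip M c w := by
  have hu : IsUnit M.det := by
    rw [isUnit_iff_ne_zero]
    intro h0
    obtain ⟨v, hv, hv0⟩ := Matrix.exists_mulVec_eq_zero_iff.2 h0
    have := h.pos v hv
    rw [ip, hv0, dotProduct_zero] at this
    exact lt_irrefl _ this
  refine ⟨M⁻¹ *ᵥ Pi.single k 1, fun c => ?_⟩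
  rw [ip, mulVec_mulVec, mul_nonsing_inv _ hu, one_mulVec, dotProduct_single, mul_one]

/-- a positive definite form is bounded below on the nonzero integer vectors -/
theorem PD.lower_ex {M : Matrix (Fin d) (Fin d) ℝ} (h : PD M) :
    ∃ m : ℝ, 0 < m ∧ ∀ c : Fin d → ℤ, c ≠ 0 →
      m ≤ ip M (fun i => (c i : ℝ)) (fun i => (c i : ℝ)) := by
  choose w hw using fun k => h.dual_ex k
  set B : ℝ := 1 + ∑ k, nrm M (w k) with hB
  have hB0 : 0 < B := by
    have : 0 ≤ ∑ k, nrm M (w k) := Finset.sum_nonneg fun k _ => nrm_nonneg _ _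
    linarith
  refine ⟨(1 / B) ^ 2, by positivity, fun c hc => ?_⟩
  obtain ⟨k, hk⟩ : ∃ k, c k ≠ 0 := by
    by_contra hne
    push Not at hne
    exact hc (funext hne)
  set u : Fin d → ℝ := fun i => (c i : ℝ) with hu
  have h1 : (1 : ℝ) ≤ |u k| := by
    have : 1 ≤ |c k| := Int.one_le_abs hk
    show (1 : ℝ) ≤ |((c k : ℤ) : ℝ)|
    exact_mod_cast this
  have h2 : |u k| ≤ nrm M u * nrm M (w k) := by
    rw [hw k u]
    exact h.cs _ _
  have h3 : nrm M (w k) ≤ B := by
    have := Finset.single_le_sum (f := fun k => nrm M (w k)) (fun k _ => nrm_nonneg _ _)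
      (Finset.mem_univ k)
    linarith
  have h4 := nrm_nonneg M u
  have h5 : 1 ≤ nrm M u * B := by
    calc (1 : ℝ) ≤ |u k| := h1
      _ ≤ nrm M u * nrm M (w k) := h2
      _ ≤ nrm M u * B := by gcongr
  have h6 : 1 / B ≤ nrm M u := by
    rw [div_le_iff₀ hB0]
    exact h5
  rw [← h.sq_nrm]
  have h7 : 0 ≤ 1 / B := by positivity
  gcongr

/-- the first row can be chosen almost shortest -/
theorem exists_near_min {M : Matrix (Fin (d + 1)) (Fin (d + 1)) ℝ} (h : PD M) :
    ∃ g : Matrix (Fin (d + 1)) (Fin (d + 1)) ℤ, IsUnit g.det ∧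
      ∀ g' : Matrix (Fin (d + 1)) (Fin (d + 1)) ℤ, IsUnit g'.det →
        ip M (toR g 0) (toR g 0) ≤ 2 * ip M (toR g' 0) (toR g' 0) := by
  obtain ⟨m, hm, hlow⟩ := h.lower_ex
  set s : Set ℝ := {x | ∃ g : Matrix (Fin (d + 1)) (Fin (d + 1)) ℤ, IsUnit g.det ∧
    x = ip M (toR g 0) (toR g 0)} with hs
  have hne : s.Nonempty := ⟨_, 1, by simp, rfl⟩
  have hbd : ∀ x ∈ s, m ≤ x := by
    rintro x ⟨g, hg, rfl⟩
    refine hlow (g 0) fun h0 => ?_
    have : g.det = 0 := Matrix.det_eq_zero_of_row_eq_zero 0 fun j => congrFun h0 j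
    rw [this] at hg
    exact not_isUnit_zero hg
  have hbelow : BddBelow s := ⟨m, hbd⟩
  have hinf : m ≤ sInf s := le_csInf hne hbd
  obtain ⟨x, ⟨g, hg, rfl⟩, hx⟩ := exists_lt_of_csInf_lt hne
    (show sInf s < 2 * sInf s by linarith)
  refine ⟨g, hg, fun g' hg' => hx.le.trans ?_⟩
  have := csInf_le hbelow ⟨g', hg', rfl⟩
  linarith

/-! ### the Schur complement -/

/-- Schur complement of the first entry -/
noncomputable def schur (M : Matrix (Fin (d + 1)) (Fin (d + 1)) ℝ) : Matrix (Fin d) (Fin d) ℝ :=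
  fun i j => M i.succ j.succ - M i.succ 0 * M 0 j.succ / M 0 0

/-- the coefficients of the projection to the first vector -/
noncomputable def mu (M : Matrix (Fin (d + 1)) (Fin (d + 1)) ℝ) (i : Fin d) : ℝ :=
  M i.succ 0 / M 0 0

theorem ip_schur {M : Matrix (Fin (d + 1)) (Fin (d + 1)) ℝ} (hs : Mᵀ = M) (h0 : M 0 0 ≠ 0)
    (u v : Fin (d + 1) → ℝ) :
    ip M u v = M 0 0 * (u 0 + ∑ i : Fin d, u i.succ * mu M i) *
      (v 0 + ∑ i : Fin d, v i.succ * mu M i) +
      ip (schur M) (fun i => u i.succ) (fun i => v i.succ) := by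
  have hs' : ∀ j : Fin d, M 0 j.succ = M j.succ 0 := fun j => congrFun (congrFun hs j.succ) 0
  have e1 : M 0 0 * (u 0 + ∑ i : Fin d, u i.succ * mu M i) *
      (v 0 + ∑ i : Fin d, v i.succ * mu M i) =
      u 0 * M 0 0 * v 0 + u 0 * ∑ j : Fin d, M 0 j.succ * v j.succ +
      (∑ i : Fin d, u i.succ * M i.succ 0) * v 0 +
      ∑ i : Fin d, ∑ j : Fin d, u i.succ * (M i.succ 0 * M 0 j.succ / M 0 0) * v j.succ := by
    have a1 : M 0 0 * ∑ i : Fin d, v i.succ * mu M i = ∑ j : Fin d, M 0 j.succ * v j.succ := by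
      rw [Finset.mul_sum]
      refine Finset.sum_congr rfl fun j _ => ?_
      rw [hs' j, mu]
      field_simp
    have a2 : M 0 0 * ∑ i : Fin d, u i.succ * mu M i = ∑ j : Fin d, u j.succ * M j.succ 0 := by
      rw [Finset.mul_sum]
      refine Finset.sum_congr rfl fun j _ => ?_
      rw [mu]
      field_simp
    have a3 : ∑ i : Fin d, ∑ j : Fin d, u i.succ * (M i.succ 0 * M 0 j.succ / M 0 0) * v j.succ =
        (∑ i : Fin d, u i.succ * mu M i) * ∑ j : Fin d, M 0 j.succ * v j.succ := by
      rw [Finset.sum_mul_sum]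
      refine Finset.sum_congr rfl fun i _ => Finset.sum_congr rfl fun j _ => ?_
      rw [mu]
      ring
    rw [a3, ← a1, ← a2]
    ring
  rw [e1, ip_eq_sum_ex, ip_eq_sum_ex, Fin.sum_univ_succ]
  simp only [Fin.sum_univ_succ (f := fun j => u 0 * M 0 j * v j), schur]
  have e2 : ∀ i : Fin d, ∑ j : Fin (d + 1), u i.succ * M i.succ j * v j = u i.succ * M i.succ 0 * v 0 +
      ∑ j : Fin d, u i.succ * M i.succ j.succ * v j.succ := fun i => Fin.sum_univ_succ _
  simp only [e2, Finset.sum_add_distrib]
  have e3 : ∑ i : Fin d, ∑ j : Fin d, u i.succ *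
      (M i.succ j.succ - M i.succ 0 * M 0 j.succ / M 0 0) * v j.succ =
      ∑ i : Fin d, ∑ j : Fin d, u i.succ * M i.succ j.succ * v j.succ -
      ∑ i : Fin d, ∑ j : Fin d, u i.succ * (M i.succ 0 * M 0 j.succ / M 0 0) * v j.succ := by
    simp only [← Finset.sum_sub_distrib]
    refine Finset.sum_congr rfl fun i _ => Finset.sum_congr rfl fun j _ => ?_
    ring
  rw [e3, Finset.mul_sum, Finset.sum_mul]
  simp only [← mul_assoc]
  ring

theorem PD.diag_pos_ex {M : Matrix (Fin d) (Fin d) ℝ} (h : PD M) (i : Fin d) : 0 < M i i := by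
  have := h.pos (Pi.single i 1) (by
    intro h0
    have := congrFun h0 i
    simp at this)
  simpa [ip] using this

theorem PD.schur {M : Matrix (Fin (d + 1)) (Fin (d + 1)) ℝ} (h : PD M) : PD (schur M) := by
  have h0 := (h.diag_pos_ex 0).ne'
  have hs' : ∀ i j, M i j = M j i := fun i j => congrFun (congrFun h.symm j) i
  refine ⟨?_, fun c hc => ?_⟩
  · ext i j
    simp only [transpose_apply, R.schur]
    rw [hs' j.succ i.succ, hs' j.succ 0, hs' 0 i.succ]
    ring
  · have h1 := h.pos (Fin.cons (-∑ i : Fin d, c i * mu M i) c) (by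
      intro h2
      apply hc
      funext i
      have := congrFun h2 i.succ
      simpa using this)
    rw [ip_schur h.symm h0] at h1
    simpa using h1

/-! ### existence -/

/-- the lower block matrix `[[1, 0], [t, g]]` -/
def lowM (t : Fin d → ℤ) (g : Matrix (Fin d) (Fin d) ℤ) :
    Matrix (Fin (d + 1)) (Fin (d + 1)) ℤ :=
  Matrix.of (Fin.cons (Fin.cons 1 0) fun i => Fin.cons (t i) (g i))

theorem lowM_zero_zero (t : Fin d → ℤ) (g : Matrix (Fin d) (Fin d) ℤ) : lowM t g 0 0 = 1 := rfl

theorem lowM_zero_succ (t : Fin d → ℤ) (g : Matrix (Fin d) (Fin d) ℤ) (j : Fin d) :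
    lowM t g 0 j.succ = 0 := rfl

theorem lowM_succ_zero (t : Fin d → ℤ) (g : Matrix (Fin d) (Fin d) ℤ) (i : Fin d) :
    lowM t g i.succ 0 = t i := rfl

theorem lowM_succ_succ (t : Fin d → ℤ) (g : Matrix (Fin d) (Fin d) ℤ) (i j : Fin d) :
    lowM t g i.succ j.succ = g i j := rfl

theorem lowM_det (t : Fin d → ℤ) (g : Matrix (Fin d) (Fin d) ℤ) : (lowM t g).det = g.det := by
  rw [Matrix.det_succ_row_zero, Fin.sum_univ_succ]
  simp only [lowM_zero_zero, lowM_zero_succ]
  have : (lowM t g).submatrix Fin.succ Fin.succ = g := by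
    ext i j
    simp [lowM_succ_succ]
  simp [this]

theorem exists_RB {M : Matrix (Fin d) (Fin d) ℝ} (hM : PD M) :
    ∃ (g : Matrix (Fin d) (Fin d) ℤ) (a : Fin d → ℝ), IsUnit g.det ∧
      RB (kapN d) (toR g * M * (toR g)ᵀ) a := by
  induction d with
  | zero =>
    refine ⟨1, fun _ => 1, by simp, ?_⟩
    exact ⟨fun i => i.elim0, fun i => i.elim0, fun i => i.elim0, fun _ k => k.elim0,
      fun i => i.elim0⟩
  | succ d ih =>
    obtain ⟨g0, hg0, hmin⟩ := exists_near_min hM
    set M1 := toR g0 * M * (toR g0)ᵀ with hM1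
    have hP : PD M1 := hM.conj_ex (toR_isUnit_ex hg0)
    obtain ⟨g', a', hg', hRB⟩ := ih hP.schur
    set κ : ℝ := (kapN d : ℝ) with hκ
    have hκ1 : 1 ≤ κ := by
      rw [hκ]
      exact_mod_cast one_le_kapN d
    set N := toR g' * schur M1 * (toR g')ᵀ with hN
    have hNP : PD N := hP.schur.conj_ex (toR_isUnit_ex hg')
    set A := M1 0 0 with hA
    have hA0 : 0 < A := hP.diag_pos_ex 0
    -- size reduction
    set s : Fin d → ℝ := fun i => ∑ j, (g' i j : ℝ) * mu M1 j with hs
    set t : Fin d → ℤ := fun i => - round (s i) with ht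
    set ν : Fin d → ℝ := fun i => (t i : ℝ) + s i with hν
    have hν2 : ∀ i, |ν i| ≤ 1 / 2 := by
      intro i
      have := abs_sub_round (s i)
      simp only [hν, ht]
      push_cast
      rwa [neg_add_eq_sub]
    set G := lowM t g' with hG
    have hGu : IsUnit G.det := by rw [hG, lowM_det]; exact hg'
    set M2 := toR G * M1 * (toR G)ᵀ with hM2
    have hP2 : PD M2 := hP.conj_ex (toR_isUnit_ex hGu)
    -- the form of `M2`
    have hip : ∀ u v : Fin (d + 1) → ℝ, ip M2 u v =
        A * (u 0 + ∑ i : Fin d, u i.succ * ν i) * (v 0 + ∑ i : Fin d, v i.succ * ν i) +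
        ip N (fun i => u i.succ) (fun i => v i.succ) := by
      have h1 : ∀ u : Fin (d + 1) → ℝ, (u ᵥ* toR G) 0 +
          ∑ j : Fin d, (u ᵥ* toR G) j.succ * mu M1 j = u 0 + ∑ i : Fin d, u i.succ * ν i := by
        intro u
        have a1 : (u ᵥ* toR G) 0 = u 0 + ∑ i : Fin d, u i.succ * (t i : ℝ) := by
          simp only [vecMul, dotProduct, Fin.sum_univ_succ, toR_apply, hG, lowM_zero_zero,
            lowM_succ_zero]
          simp
        have a2 : ∀ j : Fin d, (u ᵥ* toR G) j.succ = ∑ i : Fin d, u i.succ * (g' i j : ℝ) := by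
          intro j
          simp only [vecMul, dotProduct, Fin.sum_univ_succ, toR_apply, hG, lowM_zero_succ,
            lowM_succ_succ]
          simp
        rw [a1]
        simp only [a2, hν, hs, mul_add, Finset.sum_add_distrib, Finset.mul_sum, Finset.sum_mul]
        rw [add_assoc, Finset.sum_comm]
        simp only [mul_assoc]
      have h2 : ∀ u : Fin (d + 1) → ℝ, (fun j : Fin d => (u ᵥ* toR G) j.succ) =
          (fun i : Fin d => u i.succ) ᵥ* toR g' := by
        intro u
        funext j
        simp only [vecMul, dotProduct, Fin.sum_univ_succ, toR_apply, hG, lowM_zero_succ,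
          lowM_succ_succ]
        simp
      intro u v
      rw [hM2, ip_conj_ex, ip_schur hP.symm hA0.ne', h1, h1, h2, h2, hN, ip_conj_ex]
    -- near minimality
    have hmin2 : ∀ j : Fin d, A ≤ 2 * ip M2 (Pi.single j.succ 1) (Pi.single j.succ 1) := by
      intro j
      have h1 := hmin ((G * g0).submatrix (Equiv.swap 0 j.succ) id) (by
        rw [Matrix.det_permute, det_mul]
        exact IsUnit.mul ((Int.isUnit_iff).2 (by
          rcases Int.units_eq_one_or (Equiv.Perm.sign (Equiv.swap (0 : Fin (d + 1)) j.succ))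
            with h | h <;> simp [h])) (hGu.mul hg0))
      have h2 : toR ((G * g0).submatrix (Equiv.swap 0 j.succ) id) 0 =
          (Pi.single j.succ 1 ᵥ* toR G) ᵥ* toR g0 := by
        rw [vecMul_vecMul, ← toR_mul_ex]
        funext k
        simp [toR_apply]
      have h3 : A = ip M (toR g0 0) (toR g0 0) := by
        have : A = ip M1 (Pi.single 0 1) (Pi.single 0 1) := by simp [ip, hA]
        rw [this, hM1, ip_conj_ex]
        congr 1 <;> · funext k; simp
      rw [h3, hM2, ip_conj_ex, hM1, ip_conj_ex, ← h2]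
      exact h1
    set α := Real.sqrt A with hα
    have hα0 : 0 < α := Real.sqrt_pos.2 hA0
    have hαA : α ^ 2 = A := Real.sq_sqrt hA0.le
    have hip1 : ∀ j : Fin d, ip M2 (Pi.single j.succ 1) (Pi.single j.succ 1) =
        A * ν j ^ 2 + nrm N (Pi.single j 1) ^ 2 := by
      intro j
      have e1 : (fun i : Fin d => (Pi.single j.succ 1 : Fin (d + 1) → ℝ) i.succ) =
          Pi.single j 1 := by
        funext i
        by_cases hij : i = j
        · subst hij; simp
        · rw [Pi.single_eq_of_ne hij, Pi.single_eq_of_ne (by simpa using hij)]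
      have e2 : ∑ i : Fin d, (Pi.single j.succ 1 : Fin (d + 1) → ℝ) i.succ * ν i = ν j := by
        have : ∀ i : Fin d, (Pi.single j.succ 1 : Fin (d + 1) → ℝ) i.succ =
          (Pi.single j 1 : Fin d → ℝ) i := fun i => congrFun e1 i
        simp only [this]
        simp [Pi.single_apply]
      rw [hip, e1, e2, hNP.sq_nrm]
      simp
      ring
    have hipj : ∀ (j : Fin d) (c : Fin (d + 1) → ℝ), ip M2 (Pi.single j.succ 1) c =
        A * ν j * (c 0 + ∑ i : Fin d, c i.succ * ν i) +
        ip N (Pi.single j 1) (fun i => c i.succ) := by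
      intro j c
      have e1 : (fun i : Fin d => (Pi.single j.succ 1 : Fin (d + 1) → ℝ) i.succ) =
          Pi.single j 1 := by
        funext i
        by_cases hij : i = j
        · subst hij; simp
        · rw [Pi.single_eq_of_ne hij, Pi.single_eq_of_ne (by simpa using hij)]
      have e2 : ∑ i : Fin d, (Pi.single j.succ 1 : Fin (d + 1) → ℝ) i.succ * ν i = ν j := by
        have : ∀ i : Fin d, (Pi.single j.succ 1 : Fin (d + 1) → ℝ) i.succ =
          (Pi.single j 1 : Fin d → ℝ) i := fun i => congrFun e1 i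
        simp only [this]
        simp [Pi.single_apply]
      rw [hip, e1, e2]
      simp
    have hν4 : ∀ j, ν j ^ 2 ≤ 1 / 4 := by
      intro j
      have h1 := hν2 j
      have h2 := abs_nonneg (ν j)
      rw [← sq_abs]
      nlinarith
    have hαa : ∀ j, α ≤ 2 * κ * a' j := by
      intro j
      have h1 := hmin2 j
      rw [hip1] at h1
      have h2 := hν4 j
      have h3 := hRB.diag j
      have h4 := nrm_nonneg N (Pi.single j 1)
      have h5 : nrm N (Pi.single j 1) ^ 2 ≤ (κ * a' j) ^ 2 := by gcongr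
      have h6 := hRB.pos j
      refine abs_le_of_sq_le_sq' ?_ (by positivity) |>.2
      rw [hαA]
      nlinarith
    -- the norms
    have hn1 : ∀ c : Fin (d + 1) → ℝ, nrm N (fun i => c i.succ) ≤ nrm M2 c := by
      intro c
      refine Real.sqrt_le_sqrt ?_
      rw [hip]
      have : 0 ≤ A * (c 0 + ∑ i : Fin d, c i.succ * ν i) ^ 2 := by positivity
      nlinarith
    have hn2 : ∀ c : Fin (d + 1) → ℝ, α * |c 0 + ∑ i : Fin d, c i.succ * ν i| ≤ nrm M2 c := by
      intro c
      refine Real.le_sqrt_of_sq_le ?_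
      rw [hip, mul_pow, hαA, sq_abs]
      have : 0 ≤ ip N (fun i => c i.succ) (fun i => c i.succ) := hNP.nonneg _
      nlinarith
    have ht1 : ∀ (j : Fin d) (c : Fin (d + 1) → ℝ),
        |A * ν j * (c 0 + ∑ i : Fin d, c i.succ * ν i)| ≤ α / 2 * nrm M2 c := by
      intro j c
      have h1 := hn2 c
      have h2 := hν2 j
      rw [abs_mul, abs_mul, abs_of_pos hA0, ← hαA]
      calc α ^ 2 * |ν j| * |c 0 + ∑ i : Fin d, c i.succ * ν i| =
          α * |ν j| * (α * |c 0 + ∑ i : Fin d, c i.succ * ν i|) := by ring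
        _ ≤ α * (1 / 2) * nrm M2 c := by gcongr
        _ = α / 2 * nrm M2 c := by ring
    have hκ2 : 2 * κ ≤ (kapN (d + 1) : ℝ) := by
      rw [kapN]
      push_cast
      rw [← hκ]
      have hd : (0 : ℝ) ≤ d := Nat.cast_nonneg d
      nlinarith [mul_nonneg hd (sq_nonneg κ)]
    have hκ3 : 1 + d * κ ^ 2 ≤ (kapN (d + 1) : ℝ) := by
      rw [kapN]
      push_cast
      rw [← hκ]
      nlinarith
    have hK0 : (0 : ℝ) ≤ kapN (d + 1) := Nat.cast_nonneg _
    refine ⟨G * g0, Fin.cons α a', ?_, ?_⟩
    · rw [det_mul]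
      exact hGu.mul hg0
    have hE : toR (G * g0) * M * (toR (G * g0))ᵀ = M2 := by
      rw [toR_mul_ex, transpose_mul, hM2, hM1]
      simp only [Matrix.mul_assoc]
    rw [hE]
    refine ⟨fun i => ?_, fun i j hij => ?_, fun j => ?_, fun c k => ?_, fun i j hij c hc => ?_⟩
    · refine Fin.cases ?_ (fun i => ?_) i
      · simpa using hα0
      · simpa using hRB.pos i
    · revert hij
      refine Fin.cases ?_ (fun i => ?_) i
      · refine Fin.cases ?_ (fun j => ?_) j
        · intro _
          simp only [Fin.cons_zero]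
          nlinarith
        · intro _
          simp only [Fin.cons_zero, Fin.cons_succ]
          have := hRB.pos j
          exact (hαa j).trans (by gcongr)
      · refine Fin.cases ?_ (fun j => ?_) j
        · intro h
          exact absurd h (by simp)
        · intro h
          simp only [Fin.cons_succ]
          have h1 := hRB.mono i j (by simpa using h)
          have := hRB.pos j
          refine h1.trans ?_
          have : κ ≤ (kapN (d + 1) : ℝ) := by linarith
          gcongr
    · refine Fin.cases ?_ (fun j => ?_) j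
      · simp only [Fin.cons_zero]
        have h1 : nrm M2 (Pi.single 0 1) = α := by
          rw [nrm, hip, hα]
          congr 1
          have e1 : (fun i : Fin d => (Pi.single 0 1 : Fin (d + 1) → ℝ) i.succ) = 0 := by
            funext i
            simp
          rw [e1]
          simp [ip]
        rw [h1]
        nlinarith
      · simp only [Fin.cons_succ]
        have h6 := hRB.pos j
        have h1 : nrm M2 (Pi.single j.succ 1) ≤ 2 * κ * a' j := by
          refine Real.sqrt_le_iff.2 ⟨by positivity, ?_⟩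
          rw [hip1]
          have h2 := hν4 j
          have h3 := hRB.diag j
          have h4 := nrm_nonneg N (Pi.single j 1)
          have h5 : nrm N (Pi.single j 1) ^ 2 ≤ (κ * a' j) ^ 2 := by gcongr
          have h7 := hαa j
          have h8 : α ^ 2 ≤ (2 * κ * a' j) ^ 2 := by gcongr
          rw [hαA] at h8
          nlinarith
        exact h1.trans (by gcongr)
    · refine Fin.cases ?_ (fun k => ?_) k
      · simp only [Fin.cons_zero]
        have h1 := hn2 c
        have h2 : |c 0| ≤ |c 0 + ∑ i : Fin d, c i.succ * ν i| + ∑ i : Fin d, |c i.succ| * (1 / 2) := by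
          have e1 : c 0 = (c 0 + ∑ i : Fin d, c i.succ * ν i) - ∑ i : Fin d, c i.succ * ν i := by ring
          calc |c 0| = |(c 0 + ∑ i : Fin d, c i.succ * ν i) - ∑ i : Fin d, c i.succ * ν i| := by rw [← e1]
            _ ≤ |c 0 + ∑ i : Fin d, c i.succ * ν i| + |∑ i : Fin d, c i.succ * ν i| := abs_sub _ _
            _ ≤ _ := by
              gcongr
              refine (Finset.abs_sum_le_sum_abs _ _).trans ?_
              refine Finset.sum_le_sum fun i _ => ?_
              rw [abs_mul]
              have := hν2 i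
              gcongr
        have h3 : ∀ i : Fin d, α * (|c i.succ| * (1 / 2)) ≤ κ ^ 2 * nrm M2 c := by
          intro i
          have h4 := hRB.coef (fun i => c i.succ) i
          have h5 := hn1 c
          have h6 := hαa i
          have h7 := abs_nonneg (c i.succ)
          calc α * (|c i.succ| * (1 / 2)) ≤ (2 * κ * a' i) * (|c i.succ| * (1 / 2)) := by gcongr
            _ = κ * (|c i.succ| * a' i) := by ring
            _ ≤ κ * (κ * nrm N (fun i => c i.succ)) := by gcongr
            _ ≤ κ * (κ * nrm M2 c) := by gcongr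
            _ = _ := by ring
        calc |c 0| * α ≤ (|c 0 + ∑ i : Fin d, c i.succ * ν i| + ∑ i : Fin d, |c i.succ| * (1 / 2)) * α := by
              gcongr
          _ = α * |c 0 + ∑ i : Fin d, c i.succ * ν i| + ∑ i : Fin d, α * (|c i.succ| * (1 / 2)) := by
              rw [← Finset.mul_sum]
              ring
          _ ≤ nrm M2 c + ∑ _i : Fin d, κ ^ 2 * nrm M2 c :=
              add_le_add h1 (Finset.sum_le_sum fun i _ => h3 i)
          _ = (1 + d * κ ^ 2) * nrm M2 c := by
              rw [Finset.sum_const, Finset.card_univ, Fintype.card_fin, nsmul_eq_mul]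
              ring
          _ ≤ (kapN (d + 1) : ℝ) * nrm M2 c := by
              have := nrm_nonneg M2 c
              gcongr
      · simp only [Fin.cons_succ]
        have h4 := hRB.coef (fun i => c i.succ) k
        have h5 := hn1 c
        have h6 : κ ≤ (kapN (d + 1) : ℝ) := by linarith
        have := nrm_nonneg M2 c
        calc |c k.succ| * a' k ≤ κ * nrm N (fun i => c i.succ) := h4
          _ ≤ κ * nrm M2 c := by gcongr
          _ ≤ _ := by gcongr
    · revert hij hc
      have hnn := nrm_nonneg M2 c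
      refine Fin.cases ?_ (fun j => ?_) j
      · intro h
        exact absurd h (by simp)
      · refine Fin.cases ?_ (fun i => ?_) i
        · intro _ hc
          have hc' : (fun i : Fin d => c i.succ) = 0 := by
            funext i
            exact hc i.succ (by simp)
          simp only [Fin.cons_zero]
          rw [hipj, hc']
          have h1 := ht1 j c
          have h2 : ip N (Pi.single j 1) 0 = 0 := by simp [ip]
          rw [h2, add_zero]
          refine h1.trans ?_
          have h3 : α / 2 ≤ (kapN (d + 1) : ℝ) * α := by nlinarith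
          gcongr
        · intro hij hc
          simp only [Fin.cons_succ]
          rw [hipj]
          have h1 := ht1 j c
          have h2 := hRB.proj i j (by simpa using hij) (fun l => c l.succ)
            (fun l hl => hc l.succ (by simpa using hl))
          have h3 := hn1 c
          have h4 := hαa i
          have h5 := hRB.pos i
          calc _ ≤ |A * ν j * (c 0 + ∑ i : Fin d, c i.succ * ν i)| +
                |ip N (Pi.single j 1) (fun i => c i.succ)| := abs_add_le _ _
            _ ≤ α / 2 * nrm M2 c + κ * a' i * nrm N (fun l => c l.succ) := add_le_add h1 h2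
            _ ≤ (2 * κ * a' i) / 2 * nrm M2 c + κ * a' i * nrm M2 c := by gcongr
            _ = (2 * κ) * a' i * nrm M2 c := by ring
            _ ≤ _ := by gcongr

/-! ### robustness -/

theorem RB.robust {κ : ℝ} {M : Matrix (Fin d) (Fin d) ℝ} {a : Fin d → ℝ} (hM : PD M)
    (hκ : 1 ≤ κ) (h : RB κ M a) :
    ∃ ε : ℝ, 0 < ε ∧ ∀ M' : Matrix (Fin d) (Fin d) ℝ, PD M' →
      (∀ i j, |M' i j - M i j| < ε) → RB (2 * κ) M' a := by
  set K : ℝ := ∑ k, κ / a k with hK
  have hk0 : ∀ k, 0 < κ / a k := fun k => div_pos (by linarith) (h.pos k)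
  have hK0 : 0 ≤ K := Finset.sum_nonneg fun k _ => (hk0 k).le
  have hKk : ∀ k, κ / a k ≤ K := fun k =>
    Finset.single_le_sum (f := fun k => κ / a k) (fun k _ => (hk0 k).le) (Finset.mem_univ k)
  set ε : ℝ := 1 / (4 * (K ^ 2 + 1)) with hε
  have hε0 : 0 < ε := by positivity
  have hεK : ε * K ^ 2 ≤ 1 / 4 := by
    rw [hε, div_mul_eq_mul_div, div_le_div_iff₀ (by positivity) (by norm_num)]
    nlinarith [sq_nonneg K]
  refine ⟨ε, hε0, fun M' hM' hMM => ?_⟩
  -- the sum of the coordinates
  have hsum : ∀ c : Fin d → ℝ, ∑ k, |c k| ≤ K * nrm M c := by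
    intro c
    rw [hK, Finset.sum_mul]
    refine Finset.sum_le_sum fun k _ => ?_
    have h1 := h.coef c k
    have h2 := h.pos k
    rw [div_mul_eq_mul_div, le_div_iff₀ h2]
    exact h1
  -- the difference
  have hdiff : ∀ u v : Fin d → ℝ, |ip M' u v - ip M u v| ≤ ε * (∑ k, |u k|) * ∑ k, |v k| := by
    intro u v
    rw [ip_eq_sum_ex, ip_eq_sum_ex, ← Finset.sum_sub_distrib]
    refine (Finset.abs_sum_le_sum_abs _ _).trans ?_
    rw [mul_assoc, Finset.sum_mul_sum, Finset.mul_sum]
    refine Finset.sum_le_sum fun i _ => ?_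
    rw [← Finset.sum_sub_distrib, Finset.mul_sum]
    refine (Finset.abs_sum_le_sum_abs _ _).trans (Finset.sum_le_sum fun j _ => ?_)
    have e : u i * M' i j * v j - u i * M i j * v j = (M' i j - M i j) * (u i * v j) := by ring
    rw [e, abs_mul, abs_mul]
    have := (hMM i j).le
    gcongr
  have hsq : ∀ c : Fin d → ℝ, |ip M' c c - ip M c c| ≤ 1 / 4 * nrm M c ^ 2 := by
    intro c
    refine (hdiff c c).trans ?_
    have h1 := hsum c
    have h2 : 0 ≤ ∑ k, |c k| := Finset.sum_nonneg fun k _ => abs_nonneg _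
    have h3 := nrm_nonneg M c
    calc ε * (∑ k, |c k|) * ∑ k, |c k| ≤ ε * (K * nrm M c) * (K * nrm M c) := by gcongr
      _ = (ε * K ^ 2) * nrm M c ^ 2 := by ring
      _ ≤ 1 / 4 * nrm M c ^ 2 := by gcongr
  -- comparison of the norms
  have hup : ∀ c : Fin d → ℝ, nrm M' c ≤ 2 * nrm M c := by
    intro c
    have h1 := hsq c
    have h2 := nrm_nonneg M c
    refine Real.sqrt_le_iff.2 ⟨by positivity, ?_⟩
    have h3 := hM.sq_nrm c
    have h4 := (abs_le.1 h1).2
    nlinarith
  have hlo : ∀ c : Fin d → ℝ, nrm M c ≤ 4 / 3 * nrm M' c := by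
    intro c
    have h1 := hsq c
    have h2 := nrm_nonneg M' c
    have h5 := nrm_nonneg M c
    have h3 := hM.sq_nrm c
    have h6 := hM'.sq_nrm c
    have h4 := (abs_le.1 h1).1
    refine abs_le_of_sq_le_sq' ?_ (by positivity) |>.2
    nlinarith
  refine ⟨h.pos, fun i j hij => ?_, fun j => ?_, fun c k => ?_, fun i j hij c hc => ?_⟩
  · have h1 := h.mono i j hij
    have h2 := h.pos j
    nlinarith
  · have h1 := h.diag j
    have h2 := hup (Pi.single j 1)
    nlinarith
  · have h1 := h.coef c k
    have h2 := hlo c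
    have h3 := nrm_nonneg M' c
    calc |c k| * a k ≤ κ * nrm M c := h1
      _ ≤ κ * (4 / 3 * nrm M' c) := by gcongr
      _ ≤ 2 * κ * nrm M' c := by nlinarith
  · have h1 := h.proj i j hij c hc
    have h2 := hlo c
    have h3 := nrm_nonneg M' c
    have h5 := nrm_nonneg M c
    have h6 := h.pos i
    have h7 := hdiff (Pi.single j 1) c
    have h8 : ∑ k, |(Pi.single j 1 : Fin d → ℝ) k| = 1 := by
      rw [Finset.sum_eq_single j]
      · simp
      · intro b _ hb
        simp [hb]
      · intro hb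
        exact absurd (Finset.mem_univ j) hb
    rw [h8, mul_one] at h7
    have h9 := hsum c
    -- `ε K ≤ κ a_i / 2`
    have h10 : ε * K ≤ κ * a i / 2 := by
      have h11 := hKk i
      have h12 : κ ≤ K * a i := by
        rwa [div_le_iff₀ h6] at h11
      have h13 : 0 < K := lt_of_lt_of_le (hk0 i) h11
      have h14 : ε * K * K ≤ (κ * a i / 2) * K := by
        calc ε * K * K = ε * K ^ 2 := by ring
          _ ≤ 1 / 4 := hεK
          _ ≤ κ * κ / 2 := by nlinarith
          _ ≤ κ * (K * a i) / 2 := by gcongr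
          _ = (κ * a i / 2) * K := by ring
      exact le_of_mul_le_mul_right h14 h13
    have h15 : |ip M' (Pi.single j 1) c| ≤
        |ip M (Pi.single j 1) c| + |ip M' (Pi.single j 1) c - ip M (Pi.single j 1) c| := by
      have := abs_add_le (ip M (Pi.single j 1) c) (ip M' (Pi.single j 1) c - ip M (Pi.single j 1) c)
      simpa using this
    calc |ip M' (Pi.single j 1) c| ≤ _ := h15
      _ ≤ κ * a i * nrm M c + ε * ∑ k, |c k| := add_le_add h1 h7
      _ ≤ κ * a i * nrm M c + ε * (K * nrm M c) := by gcongr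
      _ = (κ * a i + ε * K) * nrm M c := by ring
      _ ≤ (κ * a i + κ * a i / 2) * (4 / 3 * nrm M' c) := by gcongr
      _ = 2 * κ * a i * nrm M' c := by ring

end Pool.Agent.DEC.R
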