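import Mathlib

/-!
# Bounded elementary equivalences (DEC-R, MP_59dda0_an; helper64)
-/

set_option autoImplicit false

namespace Pool.Agent.DEC.R

open Matrix

variable {d : ℕ}

/-- A bounded elementary equivalence between square integer matrices. -/
def Step (K : ℕ) (T T' : Matrix (Fin d) (Fin d) ℤ) : Prop :=
  ∃ C D : Matrix (Fin d) (Fin d) ℤ, T = D * C ∧ T' = C * D ∧ (∀ i j, |C i j| ≤ (K : ℤ)) ∧
    (∀ i j, |D i j| ≤ (K : ℤ)) ∧ (∀ i j, |T i j| ≤ (K : ℤ)) ∧ (∀ i j, |T' i j| ≤ (K : ℤ))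

theorem Step.mono {K K' : ℕ} (hK : K ≤ K') {T T' : Matrix (Fin d) (Fin d) ℤ} (h : Step K T T') :
    Step K' T T' := by
  obtain ⟨C, D, h1, h2, hC, hD, hT, hT'⟩ := h
  have h3 : (K : ℤ) ≤ (K' : ℤ) := by exact_mod_cast hK
  exact ⟨C, D, h1, h2, fun i j => (hC i j).trans h3, fun i j => (hD i j).trans h3,
    fun i j => (hT i j).trans h3, fun i j => (hT' i j).trans h3⟩

theorem Step.symm {K : ℕ} {T T' : Matrix (Fin d) (Fin d) ℤ} (h : Step K T T') : Step K T' T := by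
  obtain ⟨C, D, h1, h2, hC, hD, hT, hT'⟩ := h
  exact ⟨D, C, h2, h1, hD, hC, hT', hT⟩

theorem mul_entry_le {A B : Matrix (Fin d) (Fin d) ℤ} {a b : ℤ} (hA : ∀ i j, |A i j| ≤ a)
    (hB : ∀ i j, |B i j| ≤ b) (i j : Fin d) : |(A * B) i j| ≤ d * (a * b) := by
  rw [mul_apply]
  have ha : 0 ≤ a := (abs_nonneg _).trans (hA i j)
  calc |∑ k, A i k * B k j| ≤ ∑ k, |A i k * B k j| := Finset.abs_sum_le_sum_abs _ _
    _ ≤ ∑ _k : Fin d, a * b := Finset.sum_le_sum fun k _ => by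
        rw [abs_mul]
        exact mul_le_mul (hA i k) (hB k j) (abs_nonneg _) ha
    _ = d * (a * b) := by simp

/-- Conjugation by a unimodular matrix which is bounded together with its inverse. -/
theorem Step.of_unit {K : ℕ} {T T' : Matrix (Fin d) (Fin d) ℤ}
    (g : (Matrix (Fin d) (Fin d) ℤ)ˣ) (hg : ∀ i j, |(g : Matrix (Fin d) (Fin d) ℤ) i j| ≤ (K : ℤ))
    (hg' : ∀ i j, |((g⁻¹ : (Matrix (Fin d) (Fin d) ℤ)ˣ) : Matrix (Fin d) (Fin d) ℤ) i j| ≤ (K : ℤ))
    (hT : ∀ i j, |T i j| ≤ (K : ℤ)) (hT' : ∀ i j, |T' i j| ≤ (K : ℤ))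
    (h : (g : Matrix (Fin d) (Fin d) ℤ) * T = T' * g) : Step (K + d * (K * K)) T T' := by
  have hK : (K : ℤ) ≤ ((K + d * (K * K) : ℕ) : ℤ) := by
    push_cast
    have : (0 : ℤ) ≤ (d : ℤ) * (K * K) := by positivity
    linarith
  refine ⟨g, T * ((g⁻¹ : (Matrix (Fin d) (Fin d) ℤ)ˣ) : Matrix (Fin d) (Fin d) ℤ), ?_, ?_,
    fun i j => (hg i j).trans hK, fun i j => ?_, fun i j => (hT i j).trans hK,
    fun i j => (hT' i j).trans hK⟩
  · rw [Matrix.mul_assoc, Units.inv_mul, Matrix.mul_one]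
  · rw [← Matrix.mul_assoc, h, Matrix.mul_assoc, Units.mul_inv, Matrix.mul_one]
  · refine (mul_entry_le hT hg' i j).trans ?_
    push_cast
    have : (0 : ℤ) ≤ (K : ℤ) := by positivity
    linarith

theorem Step.chain_mono {K K' : ℕ} (hK : K ≤ K') {T T' : Matrix (Fin d) (Fin d) ℤ}
    (h : Relation.ReflTransGen (Step K) T T') : Relation.ReflTransGen (Step K') T T' := by
  induction h with
  | refl => exact Relation.ReflTransGen.refl
  | tail _ h2 ih => exact ih.tail (h2.mono hK)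

theorem Step.chain_symm {K : ℕ} {T T' : Matrix (Fin d) (Fin d) ℤ}
    (h : Relation.ReflTransGen (Step K) T T') : Relation.ReflTransGen (Step K) T' T := by
  induction h with
  | refl => exact Relation.ReflTransGen.refl
  | tail _ h2 ih => exact Relation.ReflTransGen.head h2.symm ih

end Pool.Agent.DEC.R
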