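import Pool.Agent.DEC.R.Conj
import Pool.Agent.DEC.R.Step
import Pool.Agent.DEC.R.Exist

/-!
# MP_59dda0_an, block DEC-R: Theorem C in its final form (natural number bounds)
-/

set_option autoImplicit false

namespace Pool.Agent.DEC.R

open Matrix Finset Polynomial

variable {d : ℕ}

/-- the bounds of the gap lemma as natural numbers -/
def tauN (d κ θ : ℕ) : ℕ → ℕ
  | 0 => 0
  | (n + 1) => (κ * θ + κ * (θ + d * κ * tauN d κ θ n)) * (κ ^ 2 * θ) ^ d

theorem tauG_cast (d κ θ n : ℕ) : tauG d (κ : ℝ) (θ : ℝ) n = (tauN d κ θ n : ℕ) := by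
  induction n with
  | zero => simp [tauG, tauN]
  | succ n ih =>
    rw [tauG, tauN, ih]
    push_cast
    ring

/-- the bound of Theorem C for bases -/
def KB (d κ ρ : ℕ) : ℕ := tauN d κ (κ ^ 2 * ρ) d + tauN d (2 * κ) ((2 * κ) ^ 6) d

/-- the bound of Theorem C for elementary equivalences -/
def KC (d κ ρ : ℕ) : ℕ := KB d κ ρ + d * (KB d κ ρ * KB d κ ρ)

theorem bd_int {K : ℕ} {C : Matrix (Fin d) (Fin d) ℤ} (h : bd (K : ℝ) C) (i j : Fin d) :
    |C i j| ≤ (K : ℤ) := by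
  have h1 := h i j
  rw [← Int.cast_abs] at h1
  exact_mod_cast h1

theorem bd_of_int {K : ℕ} {C : Matrix (Fin d) (Fin d) ℤ} (h : ∀ i j, |C i j| ≤ (K : ℤ)) :
    bd (K : ℝ) C := by
  intro i j
  have h1 := h i j
  rw [← Int.cast_abs]
  exact_mod_cast h1

/-- `T` has a metric between `1/K₀` and `K₀` -/
def HasMet (p : ℝ[X]) (K₀ : ℝ) (T : Matrix (Fin d) (Fin d) ℤ) : Prop :=
  ∃ H, Met p (toR T) H ∧ (∀ (c : Fin d → ℝ) (k : Fin d), |c k| ≤ K₀ * nrm H c) ∧
    ∀ j, nrm H (Pi.single j 1) ≤ K₀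

section Spectral

attribute [local instance] Matrix.linftyOpNormedRing Matrix.linftyOpNormedAlgebra

/-- eigenvalues are bounded by the row sums -/
theorem spectrum_le {s : ℕ} (T : Matrix (Fin d) (Fin d) ℤ) (hs : ∀ i j, |T i j| ≤ (s : ℤ)) :
    ∀ z ∈ spectrum ℂ ((toR T).map (Complex.ofRealHom)), ‖z‖ ≤ ((d * s + 1 : ℕ) : ℝ) := by
  intro z hz
  have h1 := spectrum.norm_le_norm_mul_of_mem hz
  have h2 : ‖(toR T).map (Complex.ofRealHom)‖ ≤ (d * s : ℕ) := by
    rw [Matrix.linfty_opNorm_def]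
    have h3 : (Finset.univ.sup fun i : Fin d =>
        ∑ j, ‖((toR T).map (Complex.ofRealHom)) i j‖₊) ≤ ((d * s : ℕ) : NNReal) := by
      refine Finset.sup_le fun i _ => ?_
      refine (Finset.sum_le_card_nsmul _ _ (s : NNReal) fun j _ => ?_).trans ?_
      · rw [← NNReal.coe_le_coe, coe_nnnorm]
        simp only [Matrix.map_apply, Complex.ofRealHom_eq_coe, Complex.norm_real, toR_apply,
          Real.norm_eq_abs, NNReal.coe_natCast]
        rw [← Int.cast_abs]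
        exact_mod_cast hs i j
      · rw [Finset.card_univ, Fintype.card_fin, nsmul_eq_mul]
        push_cast
        exact le_rfl
    exact_mod_cast h3
  have h3 : ‖(1 : Matrix (Fin d) (Fin d) ℂ)‖ ≤ 1 := by
    rw [Matrix.linfty_opNorm_def]
    have h4 : (Finset.univ.sup fun i : Fin d =>
        ∑ j, ‖(1 : Matrix (Fin d) (Fin d) ℂ) i j‖₊) ≤ 1 := by
      refine Finset.sup_le fun i _ => ?_
      rw [Finset.sum_eq_single i]
      · simp
      · intro j _ hj
        rw [Matrix.one_apply_ne hj.symm, nnnorm_zero]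
      · intro h
        exact absurd (Finset.mem_univ i) h
    exact_mod_cast h4
  refine h1.trans ?_
  calc ‖(toR T).map (Complex.ofRealHom)‖ * ‖(1 : Matrix (Fin d) (Fin d) ℂ)‖
      ≤ (d * s : ℕ) * 1 := mul_le_mul h2 h3 (norm_nonneg _) (Nat.cast_nonneg _)
    _ ≤ _ := by push_cast; linarith

end Spectral

/-- **Theorem C** in the words of elementary equivalences -/
theorem chain_step (hR : Robust d) {κ s K₀ : ℕ} (hκ : 1 ≤ κ) (hE : ExistRd d κ) (hK₀ : K₀ ≤ κ)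
    {p : ℝ[X]} {T T' : Matrix (Fin d) (Fin d) ℤ} {g : GZ d} (hT : g.val * T = T' * g.val)
    (hs : ∀ i j, |T i j| ≤ (s : ℤ)) (hH : HasMet p K₀ T) (hH' : HasMet p K₀ T') :
    Relation.ReflTransGen (Step (KC d κ (d * s + 1))) T T' := by
  obtain ⟨H, hH1, hH2, hH3⟩ := hH
  obtain ⟨H', hH1', hH2', hH3'⟩ := hH'
  set ρ : ℕ := d * s + 1 with hρ
  have hκ' : (1 : ℝ) ≤ κ := by exact_mod_cast hκ
  have hρ' : (1 : ℝ) ≤ (ρ : ℕ) := by
    have : 1 ≤ ρ := by omega
    exact_mod_cast this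
  have hK1 : tauG d (κ : ℝ) ((κ : ℝ) ^ 2 * (ρ : ℕ)) d ≤ (KB d κ ρ : ℕ) := by
    have e1 : ((κ : ℝ) ^ 2 * (ρ : ℕ)) = ((κ ^ 2 * ρ : ℕ) : ℝ) := by push_cast; ring
    rw [e1, tauG_cast]
    exact_mod_cast Nat.le_add_right _ _
  have hK2 : tauG d (2 * (κ : ℝ)) ((2 * (κ : ℝ)) ^ 6 * 1) d ≤ (KB d κ ρ : ℕ) := by
    have e1 : ((2 * (κ : ℝ)) ^ 6 * 1) = (((2 * κ) ^ 6 : ℕ) : ℝ) := by push_cast; ring
    have e2 : (2 * (κ : ℝ)) = ((2 * κ : ℕ) : ℝ) := by push_cast; ring
    rw [e1, e2, tauG_cast]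
    exact_mod_cast Nat.le_add_left _ _
  have hch := chain_conj' hR hκ' hE hT hH1 hH1' (K₀ := (K₀ : ℕ)) (by exact_mod_cast hK₀) hH2 hH3
    hH2' hH3' hρ' (fun H hH => hH.norm (by positivity) (spectrum_le T hs))
    (fun H hH => hH.norm_adj (by positivity) (spectrum_le T hs)) hK1 hK2
  have key : ∀ b c : GZ d, Relation.ReflTransGen (Stp (KB d κ ρ : ℕ) T) b c →
      Relation.ReflTransGen (Step (KC d κ ρ)) (b.val * T * (b⁻¹ : GZ d).val)
        (c.val * T * (c⁻¹ : GZ d).val) := by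
    intro b c h
    induction h with
    | refl => exact Relation.ReflTransGen.refl
    | tail _ h2 ih =>
      refine ih.tail ?_
      obtain ⟨C, D, h3, h4, h5, h6⟩ := h2.elem (Nat.cast_nonneg _)
      have hB : (KB d κ ρ : ℤ) ≤ (KC d κ ρ : ℕ) := by
        have : KB d κ ρ ≤ KC d κ ρ := Nat.le_add_right _ _
        exact_mod_cast this
      refine ⟨C, D, h3, h4, fun i j => (bd_int h5 i j).trans hB, fun i j => ?_,
        fun i j => (bd_int h2.left i j).trans hB, fun i j => (bd_int h2.right i j).trans hB⟩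
      have h7 : bd ((d * (KB d κ ρ * KB d κ ρ) : ℕ) : ℝ) D := by
        push_cast
        exact h6
      refine (bd_int h7 i j).trans ?_
      have : d * (KB d κ ρ * KB d κ ρ) ≤ KC d κ ρ := Nat.le_add_left _ _
      exact_mod_cast this
  have h1 := key 1 g hch
  have e1 : (1 : GZ d).val * T * ((1 : GZ d)⁻¹ : GZ d).val = T := by simp
  have e2 : g.val * T * (g⁻¹ : GZ d).val = T' := by
    rw [hT, mul_assoc, ← Units.val_mul, mul_inv_cancel, Units.val_one, mul_one]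
  rwa [e1, e2] at h1

theorem robust_all (d : ℕ) : Robust d := fun _ _ _ hM hκ h => by
  obtain ⟨ε, hε, h1⟩ := RB.robust hM hκ h
  exact ⟨ε, hε, h1⟩

theorem existRd_kapN (d : ℕ) : ExistRd d (kapN d : ℝ) := by
  intro H hH
  obtain ⟨g, a, hg, ha⟩ := exists_RB hH
  obtain ⟨b, hb⟩ := (Matrix.isUnit_iff_isUnit_det _).2 hg
  exact ⟨b, a, by rw [hb]; exact ha⟩

theorem existRd_of_le {d : ℕ} {κ : ℝ} (h : (kapN d : ℝ) ≤ κ) : ExistRd d κ := by
  intro H hH
  obtain ⟨b, hb⟩ := existRd_kapN d H hH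
  exact ⟨b, hb.weaken h⟩

/-- the constant of a reduced basis: `kapN d + K₀` -/
def kp (d K₀ : ℕ) : ℕ := kapN d + K₀

/-- the bound of Theorem C -/
def KCC (d s K₀ : ℕ) : ℕ := KC d (kp d K₀) (d * s + 1)

/-- **Theorem C**: conjugate matrices with metrics are joined by a chain of bounded elementary
equivalences -/
theorem chain_conj {s K₀ : ℕ} {p : ℝ[X]} {T T' : Matrix (Fin d) (Fin d) ℤ} {g : GZ d}
    (hT : g.val * T = T' * g.val) (hs : ∀ i j, |T i j| ≤ (s : ℤ)) (hH : HasMet p K₀ T)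
    (hH' : HasMet p K₀ T') : Relation.ReflTransGen (Step (KCC d s K₀)) T T' := by
  have h1 := one_le_kapN d
  refine chain_step (robust_all d) (κ := kp d K₀) ?_ (existRd_of_le ?_) (Nat.le_add_left _ _) hT hs
    hH hH'
  · unfold kp
    have : 1 ≤ kapN d := by exact_mod_cast h1
    omega
  · unfold kp
    push_cast
    have : (0 : ℝ) ≤ K₀ := Nat.cast_nonneg _
    linarith

end Pool.Agent.DEC.R
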