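import Pool.Agent.DEC.R.TDC
import Pool.Agent.DEC.MatForm

/-!
# DEC-R: the core of a nonnegative integral matrix and the trace and dimension condition

Every square matrix `A` over the natural numbers has a nonsingular integral core `T` (its action on
the lattice of integral vectors in the eventual range), and the trace-dimension condition for
`(A, B)` is the condition `TDC` for the cores.
-/

set_option autoImplicit false

open Matrix

namespace Pool.Agent.DEC.R

open Pool.Agent.FT (toQ evRange dimGroup restr TraceDimCondition evRange_inj evRange_inv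
  mem_evRange exists_root inv_pow_mem trace_pow_eq vecMulLinear_pow)
open Pool.Agent.DEC (zM IsInt isInt_vecMul)

/-- `T` is a core of `A`: the rows of `P` are a basis of the lattice of the eventual range, with
right inverse `Q`; the rows of `A ^ a` are the combinations `X` of them. -/
structure Core {a d : ℕ} (A : Matrix (Fin a) (Fin a) ℕ) (P : Matrix (Fin d) (Fin a) ℤ)
    (Q X : Matrix (Fin a) (Fin d) ℤ) (T : Matrix (Fin d) (Fin d) ℤ) : Prop where
  PA : P * zM A = T * P
  PQ : P * Q = 1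
  XP : zM A ^ a = X * P
  det : T.det ≠ 0

theorem core_iff {a d : ℕ} (A : Matrix (Fin a) (Fin a) ℕ) (P : Matrix (Fin d) (Fin a) ℤ)
    (Q X : Matrix (Fin a) (Fin d) ℤ) (T : Matrix (Fin d) (Fin d) ℤ) : Core A P Q X T ↔
    P * zM A = T * P ∧ P * Q = 1 ∧ zM A ^ a = X * P ∧ T.det ≠ 0 :=
  ⟨fun h => ⟨h.PA, h.PQ, h.XP, h.det⟩, fun h => ⟨h.1, h.2.1, h.2.2.1, h.2.2.2⟩⟩

/-- a nonzero determinant is certified by an inverse up to a nonzero integer -/
theorem det_ne_zero_iff {d : ℕ} (T : Matrix (Fin d) (Fin d) ℤ) :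
    T.det ≠ 0 ↔ ∃ (c : ℤ) (Y : Matrix (Fin d) (Fin d) ℤ), c ≠ 0 ∧ T * Y = c • 1 := by
  constructor
  · intro h
    exact ⟨T.det, T.adjugate, h, Matrix.mul_adjugate T⟩
  · rintro ⟨c, Y, hc, hY⟩ h
    have h1 := congrArg Matrix.det hY
    rw [Matrix.det_mul, h, zero_mul, Matrix.det_smul, Matrix.det_one, mul_one] at h1
    exact pow_ne_zero _ hc h1.symm

theorem qM_def {m n : Type} (T : Matrix m n ℤ) : qM T = Pool.Agent.DEC.qM T := rfl

theorem qM_mul {l m n : Type} [Fintype m] (A : Matrix l m ℤ) (B : Matrix m n ℤ) :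
    qM (A * B) = qM A * qM B := Pool.Agent.DEC.qM_mul A B

theorem qM_one {n : Type} [Fintype n] [DecidableEq n] : qM (1 : Matrix n n ℤ) = 1 :=
  Pool.Agent.DEC.qM_one

theorem qM_pow {n : Type} [Fintype n] [DecidableEq n] (A : Matrix n n ℤ) (k : ℕ) :
    qM (A ^ k) = qM A ^ k := Pool.Agent.DEC.qM_pow A k

theorem toQ_eq {n : Type} (A : Matrix n n ℕ) : toQ A = qM (zM A) := Pool.Agent.DEC.toQ_eq A

theorem isInt_mul {n m : ℕ} {v : Fin n → ℚ} (h : IsInt v) (A : Matrix (Fin n) (Fin m) ℤ) :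
    IsInt (v ᵥ* qM A) := isInt_vecMul h A

/-- the integral core exists -/
theorem exists_core {a : ℕ} (A : Matrix (Fin a) (Fin a) ℕ) :
    ∃ (d : ℕ) (P : Matrix (Fin d) (Fin a) ℤ) (Q X : Matrix (Fin a) (Fin d) ℤ)
      (T : Matrix (Fin d) (Fin d) ℤ), Core A P Q X T := by
  classical
  set W : Submodule ℚ (Fin a → ℚ) := evRange A with hWdef
  have hW : ∀ w ∈ W, w ᵥ* toQ A ∈ W := fun w hw => evRange_inv A hw
  let ι : (Fin a → ℤ) →ₗ[ℤ] (Fin a → ℚ) :=
    { toFun := fun z i => (z i : ℚ)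
      map_add' := fun x y => by
        funext i
        simp
      map_smul' := fun c x => by
        funext i
        simp }
  have hι : ∀ z i, ι z i = (z i : ℚ) := fun z i => rfl
  let S : Submodule ℤ (Fin a → ℤ) := (W.restrictScalars ℤ).comap ι
  have hS : ∀ z, z ∈ S ↔ ι z ∈ W := fun z => Iff.rfl
  -- the quotient is torsion free, so there is a retraction onto `S`
  have htf : Module.IsTorsionFree ℤ ((Fin a → ℤ) ⧸ S) := by
    constructor
    intro k hk x y hxy
    have hk0 : k ≠ 0 := by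
      rintro rfl
      exact absurd (hk.left (show (0 : ℤ) * 0 = 0 * 1 by simp)) (by norm_num)
    obtain ⟨x, rfl⟩ := Submodule.mkQ_surjective S x
    obtain ⟨y, rfl⟩ := Submodule.mkQ_surjective S y
    have h1 : k • (x - y) ∈ S := by
      have h2 : S.mkQ (k • x) = S.mkQ (k • y) := by
        rw [map_smul, map_smul]
        exact hxy
      rw [smul_sub]
      exact (Submodule.Quotient.eq S).1 h2
    have h3 : x - y ∈ S := by
      rw [hS] at h1 ⊢
      rw [map_smul] at h1
      have h4 : ι (x - y) = ((k : ℚ)⁻¹) • (k • ι (x - y)) := by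
        have : (k : ℚ) ≠ 0 := by exact_mod_cast hk0
        rw [← Int.cast_smul_eq_zsmul ℚ k (ι (x - y)), smul_smul, inv_mul_cancel₀ this, one_smul]
      rw [h4]
      exact W.smul_mem _ h1
    exact (Submodule.Quotient.eq S).2 h3
  obtain ⟨s, hs⟩ := Module.projective_lifting_property S.mkQ LinearMap.id S.mkQ_surjective
  have hs' : ∀ q, S.mkQ (s q) = q := fun q => LinearMap.congr_fun hs q
  let f : (Fin a → ℤ) →ₗ[ℤ] S := (LinearMap.id - s ∘ₗ S.mkQ).codRestrict S (fun z => by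
    have : S.mkQ (z - s (S.mkQ z)) = 0 := by rw [map_sub, hs', sub_self]
    exact (Submodule.Quotient.mk_eq_zero S).1 this)
  have hf : ∀ z : S, f (z : Fin a → ℤ) = z := by
    intro z
    apply Subtype.ext
    change (z : Fin a → ℤ) - s (S.mkQ (z : Fin a → ℤ)) = z
    have : S.mkQ (z : Fin a → ℤ) = 0 := (Submodule.Quotient.mk_eq_zero S).2 z.2
    rw [this, map_zero, sub_zero]
  -- the basis
  let bas := Module.finBasis ℤ S
  let r := Module.finrank ℤ S
  let R : Matrix (Fin r) (Fin a) ℤ := Matrix.of fun i => ((bas i : S) : Fin a → ℤ)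
  have hrepr : ∀ z : S, (z : Fin a → ℤ) = (fun j => bas.repr z j) ᵥ* R := by
    intro z
    funext k
    have h1 := congrArg (fun u : S => (u : Fin a → ℤ) k) (bas.sum_repr z)
    simp only [Submodule.coe_sum, Submodule.coe_smul, Finset.sum_apply, Pi.smul_apply,
      smul_eq_mul] at h1
    rw [← h1]
    rfl
  have hrowW : ∀ i : Fin r, qM R i ∈ W := fun i => (bas i).2
  have hRW : ∀ v : Fin r → ℚ, v ᵥ* qM R ∈ W := by
    intro v
    have : v ᵥ* qM R = ∑ i, v i • qM R i := by
      funext k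
      simp [Matrix.vecMul, dotProduct]
    rw [this]
    exact Submodule.sum_mem _ fun i _ => W.smul_mem _ (hrowW i)
  have hιvec : ∀ (z : Fin a → ℤ) (M : Matrix (Fin a) (Fin a) ℤ), ι (z ᵥ* M) = ι z ᵥ* qM M := by
    intro z M
    funext k
    rw [hι]
    simp only [Matrix.vecMul, dotProduct, qM, Matrix.map_apply]
    push_cast
    rfl
  have hSA : ∀ z : S, (z : Fin a → ℤ) ᵥ* zM A ∈ S := by
    intro z
    rw [hS, hιvec, ← toQ_eq]
    exact hW _ z.2
  have hSX : ∀ i : Fin a, (zM A ^ a) i ∈ S := by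
    intro i
    have e : (zM A ^ a) i = Pi.single i 1 ᵥ* zM A ^ a := by
      rw [Matrix.single_one_vecMul]
      rfl
    rw [hS, e, hιvec, qM_pow, ← toQ_eq]
    exact (mem_evRange A).mpr ⟨_, rfl⟩
  let T : Matrix (Fin r) (Fin r) ℤ := Matrix.of fun i j => bas.repr ⟨_, hSA (bas i)⟩ j
  let Q : Matrix (Fin a) (Fin r) ℤ := Matrix.of fun k j => bas.repr (f (Pi.single k 1)) j
  let X : Matrix (Fin a) (Fin r) ℤ := Matrix.of fun k j => bas.repr ⟨_, hSX k⟩ j
  have h1 : R * zM A = T * R := by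
    have : ∀ i, (R * zM A) i = (T * R) i := by
      intro i
      have e := hrepr ⟨_, hSA (bas i)⟩
      exact e
    exact Matrix.ext fun i j => congrFun (this i) j
  have h2 : R * Q = 1 := by
    ext i j
    have e1 : ((bas i : S) : Fin a → ℤ) = ∑ k, R i k • (Pi.single k 1 : Fin a → ℤ) := by
      funext k
      simp [R, Finset.sum_apply, Pi.single_apply]
    have e2 : f ((bas i : S) : Fin a → ℤ) = ∑ k, R i k • f (Pi.single k 1) := by
      conv_lhs => rw [e1]
      rw [map_sum]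
      exact Finset.sum_congr rfl fun k _ => map_smul _ _ _
    rw [hf] at e2
    have e3 := congrArg (fun u => bas.repr u j) e2
    simp only [map_sum, map_smul, Finsupp.coe_finsetSum, Finset.sum_apply, Finsupp.coe_smul,
      Pi.smul_apply, smul_eq_mul, Module.Basis.repr_self] at e3
    rw [Matrix.one_apply, Matrix.mul_apply]
    rw [Finsupp.single_apply] at e3
    exact e3.symm
  have h3 : zM A ^ a = X * R := by
    have : ∀ i, (zM A ^ a) i = (X * R) i := by
      intro i
      have e := hrepr ⟨_, hSX i⟩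
      exact e
    exact Matrix.ext fun i j => congrFun (this i) j
  have R1 : qM R * toQ A = qM T * qM R := by rw [toQ_eq, ← qM_mul, h1, qM_mul]
  have R2 : qM R * qM Q = 1 := by rw [← qM_mul, h2, qM_one]
  have hinj : ∀ v : Fin r → ℚ, v ᵥ* qM R = 0 → v = 0 := by
    intro v hv
    have := congrArg (fun u => u ᵥ* qM Q) hv
    simpa only [Matrix.vecMul_vecMul, R2, Matrix.vecMul_one, Matrix.zero_vecMul] using this
  refine ⟨r, R, Q, X, T, h1, h2, h3, ?_⟩
  intro h0
  have hdet : (qM T).det = 0 := by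
    have e : (qM T).det = ((T.det : ℤ) : ℚ) := ((Int.castRingHom ℚ).map_det T).symm
    rw [e, h0]
    simp
  obtain ⟨v, hv0, hv⟩ := Matrix.exists_vecMul_eq_zero_iff.2 hdet
  apply hv0
  apply hinj
  refine evRange_inj A (hRW v) (k := 1) ?_
  rw [pow_one, Matrix.vecMul_vecMul, R1, ← Matrix.vecMul_vecMul, hv, Matrix.zero_vecMul]

section core

variable {a d : ℕ} {A : Matrix (Fin a) (Fin a) ℕ} {P : Matrix (Fin d) (Fin a) ℤ}
  {Q X : Matrix (Fin a) (Fin d) ℤ} {T : Matrix (Fin d) (Fin d) ℤ}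

/-- the embedding of the core -/
def emb (P : Matrix (Fin d) (Fin a) ℤ) : (Fin d → ℚ) →ₗ[ℚ] (Fin a → ℚ) := (qM P).vecMulLinear

theorem emb_apply (P : Matrix (Fin d) (Fin a) ℤ) (v : Fin d → ℚ) : emb P v = v ᵥ* qM P := rfl

theorem Core.back (h : Core A P Q X T) (v : Fin d → ℚ) : emb P v ᵥ* qM Q = v := by
  rw [emb_apply, Matrix.vecMul_vecMul, ← qM_mul, h.PQ, qM_one, Matrix.vecMul_one]

theorem Core.inj (h : Core A P Q X T) : Function.Injective (emb P) := by
  intro v w hvw
  rw [← h.back v, hvw, h.back w]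

theorem Core.comm (h : Core A P Q X T) (v : Fin d → ℚ) :
    emb P v ᵥ* toQ A = emb P (v ᵥ* qM T) := by
  rw [emb_apply, emb_apply, Matrix.vecMul_vecMul, Matrix.vecMul_vecMul, toQ_eq, ← qM_mul, h.PA,
    qM_mul]

theorem Core.comm_pow (h : Core A P Q X T) (v : Fin d → ℚ) (k : ℕ) :
    emb P v ᵥ* toQ A ^ k = emb P (v ᵥ* qM T ^ k) := by
  induction k with
  | zero => rw [pow_zero, pow_zero, Matrix.vecMul_one, Matrix.vecMul_one]
  | succ k ih => rw [pow_succ, ← Matrix.vecMul_vecMul, ih, h.comm, Matrix.vecMul_vecMul, ← pow_succ]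

theorem Core.unit (h : Core A P Q X T) (k : ℕ) : IsUnit ((qM T) ^ k).det := by
  rw [Matrix.det_pow]
  refine (isUnit_iff_ne_zero.2 ?_).pow k
  have e : (qM T).det = ((T.det : ℤ) : ℚ) := ((Int.castRingHom ℚ).map_det T).symm
  rw [e]
  exact_mod_cast h.det

theorem Core.root (h : Core A P Q X T) (v : Fin d → ℚ) (k : ℕ) : ∃ u, u ᵥ* qM T ^ k = v :=
  ⟨v ᵥ* (qM T ^ k)⁻¹, by
    rw [Matrix.vecMul_vecMul, Matrix.nonsing_inv_mul _ (h.unit k), Matrix.vecMul_one]⟩

theorem Core.emb_mem (h : Core A P Q X T) (v : Fin d → ℚ) : emb P v ∈ evRange A := by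
  obtain ⟨u, rfl⟩ := h.root v a
  rw [← h.comm_pow]
  exact (mem_evRange A).mpr ⟨_, rfl⟩

theorem Core.exists_emb (h : Core A P Q X T) {w : Fin a → ℚ} (hw : w ∈ evRange A) :
    ∃ v, emb P v = w := by
  obtain ⟨u, rfl⟩ := (mem_evRange A).mp hw
  refine ⟨u ᵥ* qM X, ?_⟩
  rw [emb_apply, Matrix.vecMul_vecMul, ← qM_mul, ← h.XP, qM_pow, toQ_eq]

theorem Core.emb_back (h : Core A P Q X T) {w : Fin a → ℚ} (hw : w ∈ evRange A) :
    emb P (w ᵥ* qM Q) = w := by
  obtain ⟨v, rfl⟩ := h.exists_emb hw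
  rw [h.back]

theorem Core.dimGroup_iff (h : Core A P Q X T) (v : Fin d → ℚ) :
    emb P v ∈ dimGroup A ↔ v ∈ DG T := by
  constructor
  · rintro ⟨-, k, z, hz⟩
    have h1 : emb P (v ᵥ* qM T ^ k) = fun j => (z j : ℚ) := by
      rw [← h.comm_pow]
      exact funext hz
    have h2 : IsInt (v ᵥ* qM T ^ k) := by
      rw [← h.back (v ᵥ* qM T ^ k), h1]
      exact isInt_mul ⟨z, fun j => rfl⟩ Q
    obtain ⟨z', hz'⟩ := h2
    exact ⟨k, z', hz'⟩
  · rintro ⟨k, z, hz⟩
    refine ⟨h.emb_mem v, k, ?_⟩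
    change IsInt _
    rw [h.comm_pow]
    exact isInt_mul ⟨z, hz⟩ P

/-- traces of conjugate powers -/
theorem trace_pow_conj {V V' : Type} [AddCommGroup V] [Module ℚ V] [AddCommGroup V']
    [Module ℚ V'] (f : Module.End ℚ V) (g : Module.End ℚ V') (e : V ≃ₗ[ℚ] V')
    (he : ∀ v, e (f v) = g (e v)) (n : ℕ) :
    LinearMap.trace ℚ V' (g ^ n) = LinearMap.trace ℚ V (f ^ n) := by
  have h1 : ∀ n v, e ((f ^ n) v) = (g ^ n) (e v) := by
    intro n
    induction n with
    | zero => intro v; rfl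
    | succ n ih =>
      intro v
      rw [pow_succ, pow_succ, Module.End.mul_apply, Module.End.mul_apply, ih, he]
  have h2 : g ^ n = e.conj (f ^ n) := by
    apply LinearMap.ext
    intro w
    obtain ⟨v, rfl⟩ := e.surjective w
    rw [LinearEquiv.conj_apply_apply, LinearEquiv.symm_apply_apply, h1]
  rw [h2, LinearMap.trace_conj']

/-- traces on subspaces of the core -/
theorem Core.trace_sub (h : Core A P Q X T) (W : Submodule ℚ (Fin a → ℚ))
    (W' : Submodule ℚ (Fin d → ℚ)) (hW : ∀ w ∈ W, w ᵥ* toQ A ∈ W)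
    (hW' : ∀ w ∈ W', w ᵥ* qM T ∈ W') (hm : ∀ w, w ∈ W ↔ ∃ v ∈ W', emb P v = w) (n : ℕ) :
    LinearMap.trace ℚ W ((restr A W hW) ^ n) = LinearMap.trace ℚ W' ((res T W' hW') ^ n) := by
  let i : W' →ₗ[ℚ] W := ((emb P) ∘ₗ W'.subtype).codRestrict W (fun v => (hm _).2 ⟨v, v.2, rfl⟩)
  have hi : ∀ v : W', ((i v : W) : Fin a → ℚ) = emb P v := fun v => rfl
  let e : W' ≃ₗ[ℚ] W := LinearEquiv.ofBijective i ⟨fun v w hvw => by
    apply Subtype.ext
    apply h.inj
    exact congrArg Subtype.val hvw, fun w => by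
    obtain ⟨v, hv, hvw⟩ := (hm _).1 w.2
    exact ⟨⟨v, hv⟩, Subtype.ext hvw⟩⟩
  refine trace_pow_conj (res T W' hW') (restr A W hW) e (fun v => ?_) n
  apply Subtype.ext
  exact (h.comm v).symm

theorem res_pow_val (W : Submodule ℚ (Fin d → ℚ)) (hW : ∀ w ∈ W, w ᵥ* qM T ∈ W) (k : ℕ) (x : W) :
    (((res T W hW) ^ k) x : Fin d → ℚ) = (x : Fin d → ℚ) ᵥ* (qM T) ^ k := by
  induction k generalizing x with
  | zero => simp
  | succ k ih =>
    rw [pow_succ, Module.End.mul_apply, ih, pow_succ', ← Matrix.vecMul_vecMul]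
    rfl

/-- the traces of positive powers of a matrix and of its core agree -/
theorem Core.trace_pow (h : Core A P Q X T) {n : ℕ} (hn : 0 < n) :
    (T ^ n).trace = (((A ^ n).trace : ℕ) : ℤ) := by
  have h1 := trace_pow_eq (M := Fin a → ℚ) (W := Fin d → ℚ) (toQ A).vecMulLinear
    (qM T).vecMulLinear (emb P) h.inj (fun w => h.comm w) a (fun f => by
      refine ⟨f ᵥ* qM X, ?_⟩
      rw [vecMulLinear_pow, emb_apply, Matrix.vecMul_vecMul, ← qM_mul, ← h.XP, qM_pow, toQ_eq]
      rfl) n hn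
  rw [vecMulLinear_pow, vecMulLinear_pow, Pool.Agent.DEC.trace_vecMulLinear,
    Pool.Agent.DEC.trace_vecMulLinear, toQ_eq, ← qM_pow, ← qM_pow] at h1
  rw [qM_def, qM_def, Pool.Agent.DEC.trace_qM, Pool.Agent.DEC.trace_qM, ← Pool.Agent.DEC.zM_pow,
    Pool.Agent.DEC.trace_zM] at h1
  exact_mod_cast h1.symm

/-- a polynomial relation for `A` up to a power of `A` holds exactly for the core -/
theorem Core.aeval_eq_zero (h : Core A P Q X T) {m : Polynomial ℤ} {k : ℕ}
    (hm : Polynomial.aeval (zM A) (Polynomial.X ^ k * m) = 0) : Polynomial.aeval T m = 0 := by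
  have hpow : ∀ j : ℕ, P * zM A ^ j = T ^ j * P := by
    intro j
    induction j with
    | zero => rw [pow_zero, pow_zero, Matrix.mul_one, Matrix.one_mul]
    | succ j ih => rw [pow_succ, ← Matrix.mul_assoc, ih, Matrix.mul_assoc, h.PA, ← Matrix.mul_assoc,
        ← pow_succ]
  have hp : ∀ p : Polynomial ℤ, P * Polynomial.aeval (zM A) p = Polynomial.aeval T p * P := by
    intro p
    induction p using Polynomial.induction_on' with
    | add p q hp hq => rw [map_add, map_add, Matrix.mul_add, hp, hq, Matrix.add_mul]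
    | monomial j c =>
      rw [Polynomial.aeval_monomial, Polynomial.aeval_monomial, ← Algebra.smul_def,
        ← Algebra.smul_def, Matrix.mul_smul, hpow, Matrix.smul_mul]
  have h1 : Polynomial.aeval T (Polynomial.X ^ k * m) = 0 := by
    have h2 := hp (Polynomial.X ^ k * m)
    rw [hm, Matrix.mul_zero] at h2
    have h3 := congrArg (fun M => M * Q) h2
    simp only [Matrix.zero_mul] at h3
    rw [Matrix.mul_assoc, h.PQ, Matrix.mul_one] at h3
    exact h3.symm
  rw [map_mul, map_pow, Polynomial.aeval_X] at h1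
  have h4 : (T ^ k).adjugate * (T ^ k * Polynomial.aeval T m) = 0 := by rw [h1, Matrix.mul_zero]
  rw [← Matrix.mul_assoc, Matrix.adjugate_mul, Matrix.smul_mul, Matrix.one_mul] at h4
  have h5 : (T ^ k).det ≠ 0 := by
    rw [Matrix.det_pow]
    exact pow_ne_zero _ h.det
  exact (smul_eq_zero.1 h4).resolve_left h5

end core

/-- **The trace-dimension condition is the condition `TDC` for the cores.** -/
theorem traceDim_iff_tdc {a b d e : ℕ} {A : Matrix (Fin a) (Fin a) ℕ}
    {B : Matrix (Fin b) (Fin b) ℕ} {P : Matrix (Fin d) (Fin a) ℤ} {Q X : Matrix (Fin a) (Fin d) ℤ}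
    {T : Matrix (Fin d) (Fin d) ℤ} {P' : Matrix (Fin e) (Fin b) ℤ}
    {Q' X' : Matrix (Fin b) (Fin e) ℤ} {S : Matrix (Fin e) (Fin e) ℤ} (hA : Core A P Q X T)
    (hB : Core B P' Q' X' S) :
    TraceDimCondition A B ↔ TDC T S (fun n => (S ^ n).trace = 0) := by
  constructor
  · rintro ⟨W, U, hW, hU, ψ, hUW, hWe, hψ, hker, hdim, htr⟩
    have hψk : ∀ (k : ℕ), ∀ u ∈ W, ψ (u ᵥ* toQ A ^ k) = ψ u ᵥ* toQ B ^ k := by
      intro k
      induction k with
      | zero => intro u _; simp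
      | succ k ih =>
        intro u hu
        rw [pow_succ, ← Matrix.vecMul_vecMul, hψ _ (inv_pow_mem A hW k hu), ih u hu,
          Matrix.vecMul_vecMul, ← pow_succ]
    have hψe : ∀ w ∈ W, ψ w ∈ evRange B := by
      intro w hw
      obtain ⟨w', hw', rfl⟩ := exists_root A hW hWe b hw
      rw [hψk b w' hw']
      exact (mem_evRange B).mpr ⟨_, rfl⟩
    have hW' : ∀ w ∈ W.comap (emb P), w ᵥ* qM T ∈ W.comap (emb P) := by
      intro w hw
      rw [Submodule.mem_comap, ← hA.comm]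
      exact hW _ hw
    have hU' : ∀ w ∈ U.comap (emb P), w ᵥ* qM T ∈ U.comap (emb P) := by
      intro w hw
      rw [Submodule.mem_comap, ← hA.comm]
      exact hU _ hw
    let ψ' : (Fin d → ℚ) →ₗ[ℚ] (Fin e → ℚ) := (qM Q').vecMulLinear ∘ₗ ψ ∘ₗ emb P
    have hψ'1 : ∀ v, ψ' v = ψ (emb P v) ᵥ* qM Q' := fun v => rfl
    have hψ'2 : ∀ v, emb P v ∈ W → emb P' (ψ' v) = ψ (emb P v) := fun v hv =>
      hB.emb_back (hψe _ hv)
    refine ⟨W.comap (emb P), U.comap (emb P), hW', hU', ψ', Submodule.comap_mono hUW,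
      fun v hv => ?_, fun v hv => ?_, fun y => ?_, fun n hn h0 => ?_⟩
    · apply hB.inj
      rw [hψ'2 _ (by rw [← hA.comm]; exact hW _ hv), ← hB.comm, hψ'2 _ hv, ← hA.comm, hψ _ hv]
    · rw [Submodule.mem_comap, ← hker _ hv, ← hψ'2 _ hv]
      constructor
      · intro h
        rw [h, map_zero]
      · intro h
        apply hB.inj
        rw [h, map_zero]
    · rw [← hB.dimGroup_iff, hdim]
      constructor
      · rintro ⟨w, hw, hwd, hwy⟩
        obtain ⟨v, rfl⟩ := hA.exists_emb (hWe hw)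
        refine ⟨v, hw, (hA.dimGroup_iff v).1 hwd, ?_⟩
        apply hB.inj
        rw [hψ'2 _ hw, hwy]
      · rintro ⟨v, hv, hvd, rfl⟩
        exact ⟨emb P v, hv, (hA.dimGroup_iff v).2 hvd, (hψ'2 _ hv).symm⟩
    · have h1 : (B ^ n).trace = 0 := by
        have h2 := hB.trace_pow hn
        rw [h0] at h2
        exact_mod_cast h2.symm
      rw [← hA.trace_sub U (U.comap (emb P)) hU hU' (fun w => ⟨fun hw => by
        obtain ⟨v, rfl⟩ := hA.exists_emb (hWe (hUW hw))
        exact ⟨v, hw, rfl⟩, fun ⟨v, hv, hvw⟩ => by rw [← hvw]; exact hv⟩) n]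
      exact (htr n hn h1).2
  · rintro ⟨W', U', hW', hU', ψ', hUW, hψ', hker, hdim, htr⟩
    have hmem : ∀ (V : Submodule ℚ (Fin d → ℚ)) (w : Fin a → ℚ),
        w ∈ V.map (emb P) ↔ ∃ v ∈ V, emb P v = w := fun V w => Submodule.mem_map
    have hW : ∀ w ∈ W'.map (emb P), w ᵥ* toQ A ∈ W'.map (emb P) := by
      intro w hw
      obtain ⟨v, hv, rfl⟩ := (hmem _ _).1 hw
      exact (hmem _ _).2 ⟨v ᵥ* qM T, hW' v hv, (hA.comm v).symm⟩
    have hU : ∀ w ∈ U'.map (emb P), w ᵥ* toQ A ∈ U'.map (emb P) := by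
      intro w hw
      obtain ⟨v, hv, rfl⟩ := (hmem _ _).1 hw
      exact (hmem _ _).2 ⟨v ᵥ* qM T, hU' v hv, (hA.comm v).symm⟩
    let ψ : (Fin a → ℚ) →ₗ[ℚ] (Fin b → ℚ) := emb P' ∘ₗ ψ' ∘ₗ (qM Q).vecMulLinear
    have hψ1 : ∀ v, ψ (emb P v) = emb P' (ψ' v) := by
      intro v
      change emb P' (ψ' (emb P v ᵥ* qM Q)) = _
      rw [hA.back]
    -- the traces
    have hsurj : ∀ y : Fin e → ℚ, ∃ w ∈ W', ψ' w = y := by
      have h1 : ∀ j : Fin e, ∃ w ∈ W', ψ' w = Pi.single j 1 := by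
        intro j
        obtain ⟨w, hw, -, hwy⟩ := (hdim (Pi.single j 1)).1 ⟨0, Pi.single j 1, fun i => by
          rw [pow_zero, Matrix.vecMul_one]
          rcases eq_or_ne i j with rfl | hij
          · simp
          · simp [Pi.single_eq_of_ne hij]⟩
        exact ⟨w, hw, hwy⟩
      choose w hw hwy using h1
      intro y
      refine ⟨∑ j, y j • w j, Submodule.sum_mem _ fun j _ => Submodule.smul_mem _ _ (hw j), ?_⟩
      rw [map_sum]
      funext k
      rw [Finset.sum_apply, Finset.sum_eq_single k]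
      · rw [map_smul, hwy]
        simp
      · intro j _ hj
        rw [map_smul, hwy]
        simp [Pi.single_eq_of_ne hj.symm]
      · simp
    have htrW : ∀ n : ℕ, 0 < n → (S ^ n).trace = 0 →
        LinearMap.trace ℚ W' ((res T W' hW') ^ n) = 0 := by
      intro n hn h0
      let g : W' →ₗ[ℚ] (Fin e → ℚ) := ψ' ∘ₗ W'.subtype
      have hg : ∀ w : W', g w = ψ' w := fun w => rfl
      have hcomm : ∀ (k : ℕ) (w : W'), g (((res T W' hW') ^ k) w) =
          (((qM S).vecMulLinear : Module.End ℚ (Fin e → ℚ)) ^ k) (g w) := by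
        intro k
        induction k with
        | zero => intro w; rfl
        | succ k ih =>
          intro w
          rw [pow_succ, pow_succ, Module.End.mul_apply, Module.End.mul_apply, ih]
          congr 1
          exact hψ' w w.2
      let U'' : Submodule ℚ W' := U'.comap W'.subtype
      have hU''mem : ∀ w : W', w ∈ U'' ↔ g w = 0 := fun w => (hker w w.2).symm
      have hU''inv : ∀ w ∈ U'', ((res T W' hW') ^ n) w ∈ U'' := by
        intro w hw
        rw [hU''mem] at hw ⊢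
        rw [hcomm, hw, map_zero]
      have t2 := Pool.Agent.DEC.trace_ker_add ((res T W' hW') ^ n)
        (((qM S).vecMulLinear : Module.End ℚ (Fin e → ℚ)) ^ n) g (fun y => by
          obtain ⟨w, hw, hwy⟩ := hsurj y
          exact ⟨⟨w, hw⟩, hwy⟩) (hcomm n) U'' hU''mem hU''inv
      rw [vecMulLinear_pow, Pool.Agent.DEC.trace_vecMulLinear, ← qM_pow, qM_def,
        Pool.Agent.DEC.trace_qM, h0, Int.cast_zero, add_zero] at t2
      rw [t2]
      let ee : U'' ≃ₗ[ℚ] U' := Submodule.comapSubtypeEquivOfLe hUW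
      have hee : ∀ u : U'', ((ee u : U') : Fin d → ℚ) = ((u : W') : Fin d → ℚ) := fun u => rfl
      have hcj : ∀ u : U'', ee ((((res T W' hW') ^ n).restrict hU''inv) u) =
          ((res T U' hU') ^ n) (ee u) := by
        intro u
        apply Subtype.ext
        rw [hee, res_pow_val, hee]
        exact res_pow_val W' hW' n (u : W')
      have t3 := trace_pow_conj (V := U'') (V' := U') (((res T W' hW') ^ n).restrict hU''inv)
        ((res T U' hU') ^ n) ee hcj 1
      rw [pow_one, pow_one] at t3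
      rw [← t3]
      exact htr n hn h0
    refine ⟨W'.map (emb P), U'.map (emb P), hW, hU, ψ, Submodule.map_mono hUW, ?_, ?_, ?_, ?_, ?_⟩
    · intro w hw
      obtain ⟨v, hv, rfl⟩ := (hmem _ _).1 hw
      exact hA.emb_mem v
    · intro w hw
      obtain ⟨v, hv, rfl⟩ := (hmem _ _).1 hw
      rw [hA.comm, hψ1, hψ1, hψ' v hv, hB.comm]
    · intro w hw
      obtain ⟨v, hv, rfl⟩ := (hmem _ _).1 hw
      rw [hψ1]
      constructor
      · intro h
        refine (hmem _ _).2 ⟨v, (hker v hv).1 (hB.inj (by rw [h, map_zero])), rfl⟩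
      · intro h
        obtain ⟨u, hu, huv⟩ := (hmem _ _).1 h
        rw [← hA.inj huv, (hker u (hUW hu)).2 hu, map_zero]
    · intro y
      constructor
      · intro hy
        obtain ⟨y', rfl⟩ := hB.exists_emb hy.1
        obtain ⟨v, hv, hvd, rfl⟩ := (hdim y').1 ((hB.dimGroup_iff y').1 hy)
        exact ⟨emb P v, (hmem _ _).2 ⟨v, hv, rfl⟩, (hA.dimGroup_iff v).2 hvd, hψ1 v⟩
      · rintro ⟨w, hw, hwd, rfl⟩
        obtain ⟨v, hv, rfl⟩ := (hmem _ _).1 hw
        rw [hψ1, hB.dimGroup_iff]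
        exact (hdim _).2 ⟨v, hv, (hA.dimGroup_iff v).1 hwd, rfl⟩
    · intro n hn h0
      have h1 : (S ^ n).trace = 0 := by
        rw [hB.trace_pow hn, h0]
        rfl
      refine ⟨?_, ?_⟩
      · rw [hA.trace_sub (W'.map (emb P)) W' hW hW' (fun w => hmem _ _) n]
        exact htrW n hn h1
      · rw [hA.trace_sub (U'.map (emb P)) U' hU hU' (fun w => hmem _ _) n]
        exact htr n hn h1

end Pool.Agent.DEC.R
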