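import Mathlib

/-!
# DEC-R: a matrix without nontrivial Jordan blocks for nonzero eigenvalues (helper64)

If the complex matrix of `A` has no nontrivial Jordan block for a nonzero eigenvalue, then
`A ^ k * m(A) = 0` for some `k` and some separable integral polynomial `m`.
-/

set_option autoImplicit false

open Matrix Polynomial

namespace Pool.Agent.DEC.R



theorem ker_pow_eq {V : Type*} [AddCommGroup V] [Module ℂ V] (g : Module.End ℂ V)
    (h : ∀ v, g (g v) = 0 → g v = 0) (k : ℕ) : ∀ v, (g ^ (k + 1)) v = 0 → g v = 0 := by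
  induction k with
  | zero =>
    intro v hv
    simpa using hv
  | succ k ih =>
    intro v hv
    apply ih v
    rw [pow_succ', Module.End.mul_apply]
    apply h
    rw [pow_succ', pow_succ', Module.End.mul_apply, Module.End.mul_apply] at hv
    exact hv

/-- an endomorphism without nontrivial Jordan blocks for nonzero eigenvalues is killed by
`X ^ n * q` when `q` vanishes at the nonzero eigenvalues -/
theorem aeval_eq_zero_of_roots {V : Type*} [AddCommGroup V] [Module ℂ V] [FiniteDimensional ℂ V]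
    (f : Module.End ℂ V)
    (h : ∀ μ : ℂ, μ ≠ 0 → ∀ v, (f - μ • (1 : Module.End ℂ V)) ((f - μ • (1 : Module.End ℂ V)) v) = 0 →
      (f - μ • (1 : Module.End ℂ V)) v = 0)
    (q : ℂ[X]) (hq : ∀ μ : ℂ, ∀ v : V, v ≠ 0 → f v = μ • v → q.eval μ = 0) :
    aeval f (X ^ (Module.finrank ℂ V) * q) = 0 := by
  have key : ∀ μ : ℂ, f.maxGenEigenspace μ ≤
      LinearMap.ker (aeval f (X ^ (Module.finrank ℂ V) * q)) := by
    intro μ v hv
    rw [LinearMap.mem_ker]
    by_cases hμ : μ = 0
    · subst hμ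
      rw [Module.End.maxGenEigenspace_eq_genEigenspace_finrank, Module.End.mem_genEigenspace_nat,
        LinearMap.mem_ker, zero_smul, sub_zero] at hv
      rw [mul_comm, map_mul, Module.End.mul_apply, map_pow, aeval_X, hv, map_zero]
    · rw [Module.End.mem_maxGenEigenspace] at hv
      obtain ⟨k, hk⟩ := hv
      have h1 : (f - μ • (1 : Module.End ℂ V)) v = 0 := by
        apply ker_pow_eq _ (h μ hμ) k v
        rw [pow_succ', Module.End.mul_apply, hk, map_zero]
      have h2 : f v = μ • v := by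
        rw [LinearMap.sub_apply, LinearMap.smul_apply, Module.End.one_apply, sub_eq_zero] at h1
        exact h1
      by_cases hv0 : v = 0
      · rw [hv0, map_zero]
      · rw [map_mul, Module.End.mul_apply, Module.End.aeval_apply_of_hasEigenvector
          (Module.End.hasEigenvector_iff.2 ⟨Module.End.mem_eigenspace_iff.2 h2, hv0⟩),
          hq μ v hv0 h2, zero_smul, map_zero]
  have htop : (⊤ : Submodule ℂ V) ≤ LinearMap.ker (aeval f (X ^ (Module.finrank ℂ V) * q)) := by
    rw [← Module.End.iSup_maxGenEigenspace_eq_top f]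
    exact iSup_le key
  ext v
  exact htop (Submodule.mem_top (x := v))

/-- a separable integral polynomial with the same roots -/
theorem exists_separable (c : ℤ[X]) (hc : c ≠ 0) : ∃ m : ℤ[X],
    (m.map (Int.castRingHom ℚ)).Separable ∧
      ∀ μ : ℂ, aeval μ c = 0 → aeval μ m = 0 := by
  classical
  set cQ : ℚ[X] := c.map (Int.castRingHom ℚ) with hcQ
  have hcQ0 : cQ ≠ 0 := by
    rw [hcQ, Ne, Polynomial.map_eq_zero_iff (RingHom.injective_int _)]
    exact hc
  set r : ℚ[X] := UniqueFactorizationMonoid.radical cQ with hr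
  have hsep : r.Separable := by
    rw [PerfectField.separable_iff_squarefree]
    exact UniqueFactorizationMonoid.squarefree_radical
  obtain ⟨b, hb, hm⟩ := IsLocalization.integerNormalization_spec (nonZeroDivisors ℤ) r
  set m := IsLocalization.integerNormalization (nonZeroDivisors ℤ) r with hmdef
  have hb0 : (b : ℤ) ≠ 0 := nonZeroDivisors.ne_zero hb
  have hm2 : m.map (Int.castRingHom ℚ) = C (b : ℚ) * r := by
    have h1 : m.map (Int.castRingHom ℚ) = m.map (algebraMap ℤ ℚ) := rfl
    rw [h1, hm]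
    ext i
    simp
  refine ⟨m, ?_, ?_⟩
  · rw [hm2]
    have hu : IsUnit (C (b : ℚ)) := by
      rw [Polynomial.isUnit_C]
      exact isUnit_iff_ne_zero.2 (by exact_mod_cast hb0)
    have hass : Associated r (C (b : ℚ) * r) := by
      rw [mul_comm]
      exact associated_mul_unit_right r _ hu
    rw [PerfectField.separable_iff_squarefree] at hsep ⊢
    exact hsep.squarefree_of_dvd hass.symm.dvd
  · intro μ hμ
    obtain ⟨n, hn⟩ := UniqueFactorizationMonoid.exists_dvd_radical_self_pow hcQ0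
    have e1 : aeval μ cQ = 0 := by
      rw [hcQ]
      have : aeval μ (c.map (Int.castRingHom ℚ)) = aeval μ c := by
        exact aeval_map_algebraMap ℚ μ c
      rw [this, hμ]
    obtain ⟨s, hs⟩ := hn
    have e2 : aeval μ (r ^ n) = 0 := by
      rw [hr, hs, map_mul, e1, zero_mul]
    have e3 : aeval μ r = 0 := by
      rw [map_pow] at e2
      exact eq_zero_of_pow_eq_zero e2
    have e4 : aeval μ (m.map (Int.castRingHom ℚ)) = aeval μ m := aeval_map_algebraMap ℚ μ m
    rw [← e4, hm2, map_mul, e3, mul_zero]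

theorem diagER_of_diagNZ {n : ℕ} (A : Matrix (Fin n) (Fin n) ℕ)
    (h : ∀ μ : ℂ, μ ≠ 0 → ∀ v : Fin n → ℂ,
      (A.map (Nat.cast : ℕ → ℂ) - μ • (1 : Matrix (Fin n) (Fin n) ℂ)) *ᵥ
        ((A.map (Nat.cast : ℕ → ℂ) - μ • (1 : Matrix (Fin n) (Fin n) ℂ)) *ᵥ v) = 0 →
      (A.map (Nat.cast : ℕ → ℂ) - μ • (1 : Matrix (Fin n) (Fin n) ℂ)) *ᵥ v = 0) :
    ∃ (m : ℤ[X]) (k : ℕ), (m.map (Int.castRingHom ℚ)).Separable ∧
      aeval (A.map (Nat.cast : ℕ → ℤ)) (X ^ k * m) = 0 := by
  set AC : Matrix (Fin n) (Fin n) ℂ := A.map (Nat.cast : ℕ → ℂ) with hAC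
  set Z : Matrix (Fin n) (Fin n) ℤ := A.map (Nat.cast : ℕ → ℤ) with hZ
  have hAC2 : AC = Z.map (Int.castRingHom ℂ) := by
    ext i j
    simp [hAC, hZ]
  set f : Module.End ℂ (Fin n → ℂ) := Matrix.toLin' AC with hf
  obtain ⟨m, hm, hroots⟩ := exists_separable Z.charpoly Z.charpoly_monic.ne_zero
  refine ⟨m, n, hm, ?_⟩
  have hfv : ∀ (μ : ℂ) (v : Fin n → ℂ), (f - μ • (1 : Module.End ℂ (Fin n → ℂ))) v =
      (AC - μ • (1 : Matrix (Fin n) (Fin n) ℂ)) *ᵥ v := by
    intro μ v
    rw [LinearMap.sub_apply, LinearMap.smul_apply, Module.End.one_apply, Matrix.sub_mulVec,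
      Matrix.smul_mulVec, Matrix.one_mulVec, hf, Matrix.toLin'_apply]
  have h1 : aeval f (X ^ (Module.finrank ℂ (Fin n → ℂ)) * m.map (Int.castRingHom ℂ)) = 0 := by
    apply aeval_eq_zero_of_roots f
    · intro μ hμ v hv
      rw [hfv, hfv] at hv
      rw [hfv]
      exact h μ hμ v hv
    · intro μ v hv0 hv
      have hev : f.HasEigenvalue μ := Module.End.hasEigenvalue_of_hasEigenvector
        (Module.End.hasEigenvector_iff.2 ⟨Module.End.mem_eigenspace_iff.2 hv, hv0⟩)
      rw [Module.End.hasEigenvalue_iff_isRoot_charpoly, hf, Matrix.charpoly_toLin', hAC2,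
        Matrix.charpoly_map] at hev
      have h2 : aeval μ Z.charpoly = 0 := by
        rw [Polynomial.IsRoot.def, Polynomial.eval_map] at hev
        exact hev
      have h3 := hroots μ h2
      rw [Polynomial.eval_map]
      exact h3
  rw [Module.finrank_fin_fun] at h1
  have h2 : aeval AC (X ^ n * m.map (Int.castRingHom ℂ)) = 0 := by
    have h3 : Matrix.toLinAlgEquiv' (aeval AC (X ^ n * m.map (Int.castRingHom ℂ))) = 0 := by
      have h4 := Polynomial.aeval_algHom_apply
        (Matrix.toLinAlgEquiv' : Matrix (Fin n) (Fin n) ℂ ≃ₐ[ℂ] Module.End ℂ (Fin n → ℂ)).toAlgHom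
        AC (X ^ n * m.map (Int.castRingHom ℂ))
      exact h4.symm.trans h1
    exact (map_eq_zero_iff _ (AlgEquiv.injective _)).1 h3
  have h5 : X ^ n * m.map (Int.castRingHom ℂ) = (X ^ n * m).map (Int.castRingHom ℂ) := by
    rw [Polynomial.map_mul, Polynomial.map_pow, Polynomial.map_X]
  rw [h5, Polynomial.aeval_def, Polynomial.eval₂_map] at h2
  have h6 := Polynomial.hom_eval₂ (X ^ n * m) (algebraMap ℤ (Matrix (Fin n) (Fin n) ℤ))
    (Int.castRingHom ℂ).mapMatrix Z
  have h7 : ((Int.castRingHom ℂ).mapMatrix : Matrix (Fin n) (Fin n) ℤ →+* _).comp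
      (algebraMap ℤ (Matrix (Fin n) (Fin n) ℤ)) =
      (algebraMap ℂ (Matrix (Fin n) (Fin n) ℂ)).comp (Int.castRingHom ℂ) := RingHom.ext_int _ _
  have h8 : (Int.castRingHom ℂ).mapMatrix Z = AC := by
    rw [hAC2]
    rfl
  rw [h7, h8, h2] at h6
  have h9 : ∀ M : Matrix (Fin n) (Fin n) ℤ, (Int.castRingHom ℂ).mapMatrix M = 0 → M = 0 := by
    intro M hM
    ext i j
    have h10 := congrFun (congrFun hM i) j
    exact Int.cast_injective (α := ℂ) (h10.trans Int.cast_zero.symm)
  exact h9 _ h6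

end Pool.Agent.DEC.R
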