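import Mathlib
import Pool.Agent.DEC.R.Met

/-!
# Existence of metrics with explicit bounds (DEC-R, MP_59dda0_an; helper36)
-/

set_option autoImplicit false

namespace Pool.Agent.DEC.R

open Matrix Finset Polynomial

variable {d : ℕ}

/-- The spectral projection (as a Lagrange polynomial in `A`). -/
noncomputable def prj (Λ : Finset ℂ) (A : Matrix (Fin d) (Fin d) ℂ) (z : ℂ) :
    Matrix (Fin d) (Fin d) ℂ := aeval A (Lagrange.basis Λ id z)

theorem sum_prj {Λ : Finset ℂ} {A : Matrix (Fin d) (Fin d) ℂ}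
    (hF : aeval A (∏ z ∈ Λ, (X - C z)) = 0) : ∑ z ∈ Λ, prj Λ A z = 1 := by
  rcases Λ.eq_empty_or_nonempty with h | h
  · subst h
    simp only [Finset.prod_empty, map_one] at hF
    rw [Finset.sum_empty, hF]
  · unfold prj
    rw [← map_sum, Lagrange.sum_basis (Set.injOn_id _) h, map_one]

theorem basis_eq (Λ : Finset ℂ) (z : ℂ) :
    Lagrange.basis Λ id z =
      C (∏ w ∈ Λ.erase z, (z - w))⁻¹ * ∏ w ∈ Λ.erase z, (X - C w) := by
  rw [Lagrange.basis]
  simp only [Lagrange.basisDivisor, id]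
  rw [Finset.prod_mul_distrib, ← map_prod, Finset.prod_inv_distrib]

theorem mul_prj {Λ : Finset ℂ} {A : Matrix (Fin d) (Fin d) ℂ}
    (hF : aeval A (∏ z ∈ Λ, (X - C z)) = 0) {z : ℂ} (hz : z ∈ Λ) :
    A * prj Λ A z = z • prj Λ A z := by
  have h1 : (X - C z) * Lagrange.basis Λ id z =
      C (∏ w ∈ Λ.erase z, (z - w))⁻¹ * ∏ w ∈ Λ, (X - C w) := by
    rw [basis_eq, ← Finset.mul_prod_erase Λ _ hz]
    ring
  have h2 := congrArg (aeval A) h1
  rw [map_mul, map_mul, hF, mul_zero, map_sub, aeval_X, aeval_C, sub_mul,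
    Algebra.algebraMap_eq_smul_one, smul_mul_assoc, one_mul, sub_eq_zero] at h2
  exact h2

theorem aeval_mul_prj {Λ : Finset ℂ} {A : Matrix (Fin d) (Fin d) ℂ}
    (hF : aeval A (∏ z ∈ Λ, (X - C z)) = 0) {z : ℂ} (hz : z ∈ Λ) (q : ℂ[X]) :
    aeval A q * prj Λ A z = (q.eval z) • prj Λ A z := by
  induction q using Polynomial.induction_on' with
  | add p q hp hq => rw [map_add, add_mul, hp, hq, eval_add, add_smul]
  | monomial n a =>
    have hn : ∀ n : ℕ, A ^ n * prj Λ A z = z ^ n • prj Λ A z := by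
      intro n
      induction n with
      | zero => simp
      | succ n ih => rw [pow_succ, mul_assoc, mul_prj hF hz, mul_smul_comm, ih, smul_smul,
          pow_succ']
    rw [aeval_monomial, eval_monomial, mul_assoc, hn, Algebra.algebraMap_eq_smul_one,
      smul_mul_assoc, one_mul, smul_smul]

/-- complexification of a real matrix -/
noncomputable def cx (M : Matrix (Fin d) (Fin d) ℝ) : Matrix (Fin d) (Fin d) ℂ :=
  M.map Complex.ofRealHom

/-- the real part -/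
def rePart (M : Matrix (Fin d) (Fin d) ℂ) : Matrix (Fin d) (Fin d) ℝ := M.map Complex.re

theorem rePart_cx_mul (M : Matrix (Fin d) (Fin d) ℝ) (N : Matrix (Fin d) (Fin d) ℂ) :
    rePart (cx M * N) = M * rePart N := by
  ext i j
  simp [rePart, cx, Matrix.mul_apply]

theorem rePart_mul_cx (M : Matrix (Fin d) (Fin d) ℝ) (N : Matrix (Fin d) (Fin d) ℂ) :
    rePart (N * cx M) = rePart N * M := by
  ext i j
  simp [rePart, cx, Matrix.mul_apply]

theorem cx_aeval (M : Matrix (Fin d) (Fin d) ℝ) (p : ℝ[X]) :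
    cx (aeval M p) = aeval (cx M) (p.map Complex.ofRealHom) := by
  have h := Polynomial.map_aeval_eq_aeval_map (S := Matrix (Fin d) (Fin d) ℝ)
    (φ := Complex.ofRealHom) (ψ := (Complex.ofRealHom).mapMatrix) (by
      ext r i j
      simp [Matrix.algebraMap_matrix_apply]
      split_ifs <;> simp) p M
  exact h

/-- The complex form. -/
noncomputable def Hc (Λ : Finset ℂ) (A : Matrix (Fin d) (Fin d) ℂ) : Matrix (Fin d) (Fin d) ℂ :=
  ∑ z ∈ Λ, prj Λ A z * (prj Λ A z)ᴴ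

theorem Hc_adj {Λ : Finset ℂ} {T : Matrix (Fin d) (Fin d) ℝ}
    (hF : aeval (cx T) (∏ z ∈ Λ, (X - C z)) = 0) {p : ℝ[X]}
    (hp : ∀ z ∈ Λ, aeval z p = (starRingEnd ℂ) z) :
    cx T * Hc Λ (cx T) = Hc Λ (cx T) * cx (aeval T p)ᵀ := by
  have h0 : cx (aeval T p)ᵀ = (cx (aeval T p))ᴴ := by
    ext i j
    simp [cx]
  rw [h0, Hc, Finset.mul_sum, Finset.sum_mul]
  refine Finset.sum_congr rfl fun z hz => ?_
  rw [← mul_assoc, mul_prj hF hz, mul_assoc, ← conjTranspose_mul, cx_aeval, aeval_mul_prj hF hz]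
  have h1 : (p.map Complex.ofRealHom).eval z = (starRingEnd ℂ) z := by
    rw [← hp z hz, eval_map, aeval_def]
    rfl
  rw [h1, conjTranspose_smul, smul_mul_assoc, mul_smul_comm]
  simp

theorem ip_Hc (Λ : Finset ℂ) (A : Matrix (Fin d) (Fin d) ℂ) (c : Fin d → ℝ) :
    ip (rePart (Hc Λ A)) c c =
      ∑ z ∈ Λ, ∑ j, ‖((fun i => (c i : ℂ)) ᵥ* prj Λ A z) j‖ ^ 2 := by
  have h1 : ∀ M : Matrix (Fin d) (Fin d) ℂ,
      ip (rePart M) c c = ((fun i => (c i : ℂ)) ⬝ᵥ (M *ᵥ (fun i => (c i : ℂ)))).re := by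
    intro M
    simp [ip, dotProduct, mulVec, rePart]
  have h2 : ∀ M : Matrix (Fin d) (Fin d) ℂ,
      (fun i => (c i : ℂ)) ⬝ᵥ ((M * Mᴴ) *ᵥ (fun i => (c i : ℂ))) =
        ((∑ j, ‖((fun i => (c i : ℂ)) ᵥ* M) j‖ ^ 2 : ℝ) : ℂ) := by
    intro M
    have h3 : Mᴴ *ᵥ (fun i => (c i : ℂ)) = star ((fun i => (c i : ℂ)) ᵥ* M) := by
      rw [star_vecMul]
      congr 1
      ext i
      simp
    rw [← mulVec_mulVec, h3, dotProduct_mulVec, dotProduct]
    push_cast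
    refine Finset.sum_congr rfl fun j _ => ?_
    rw [Pi.star_apply, Complex.star_def, Complex.mul_conj, Complex.normSq_eq_norm_sq]
    push_cast
    rfl
  rw [h1, Hc, Matrix.sum_mulVec, dotProduct_sum]
  rw [Finset.sum_congr rfl fun z _ => h2 (prj Λ A z), ← Complex.ofReal_sum, Complex.ofReal_re]

theorem rePart_Hc_symm (Λ : Finset ℂ) (A : Matrix (Fin d) (Fin d) ℂ) :
    (rePart (Hc Λ A))ᵀ = rePart (Hc Λ A) := by
  have h : (Hc Λ A)ᴴ = Hc Λ A := by
    rw [Hc, conjTranspose_sum]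
    refine Finset.sum_congr rfl fun z _ => ?_
    rw [conjTranspose_mul, conjTranspose_conjTranspose]
  ext i j
  have h1 := congrFun (congrFun h i) j
  rw [conjTranspose_apply] at h1
  have h2 := congrArg Complex.re h1
  simpa [rePart] using h2

theorem lower_Hc {Λ : Finset ℂ} {A : Matrix (Fin d) (Fin d) ℂ}
    (hF : aeval A (∏ z ∈ Λ, (X - C z)) = 0) (c : Fin d → ℝ) :
    c ⬝ᵥ c ≤ (Λ.card : ℝ) * ip (rePart (Hc Λ A)) c c := by
  rw [ip_Hc, Finset.sum_comm, Finset.mul_sum, dotProduct]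
  refine Finset.sum_le_sum fun j _ => ?_
  have h1 : (c j : ℂ) = ∑ z ∈ Λ, ((fun i => (c i : ℂ)) ᵥ* prj Λ A z) j := by
    have h2 : (fun i => (c i : ℂ)) ᵥ* (1 : Matrix (Fin d) (Fin d) ℂ) = fun i => (c i : ℂ) :=
      vecMul_one _
    rw [← sum_prj hF] at h2
    have h3 := congrFun h2 j
    rw [← h3, Matrix.vecMul_sum, Finset.sum_apply]
  have h4 : |c j| ≤ ∑ z ∈ Λ, ‖((fun i => (c i : ℂ)) ᵥ* prj Λ A z) j‖ := by
    rw [← Real.norm_eq_abs, ← Complex.norm_real, h1]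
    exact norm_sum_le _ _
  calc c j * c j = |c j| ^ 2 := by rw [sq_abs, sq]
    _ ≤ (∑ z ∈ Λ, ‖((fun i => (c i : ℂ)) ᵥ* prj Λ A z) j‖) ^ 2 :=
        pow_le_pow_left₀ (abs_nonneg _) h4 2
    _ ≤ _ := sq_sum_le_card_mul_sum_sq

theorem upper_Hc {Λ : Finset ℂ} {A : Matrix (Fin d) (Fin d) ℂ} {K : ℝ}
    (hK2 : ∀ z ∈ Λ, ∀ i j, ‖prj Λ A z i j‖ ≤ K) (c : Fin d → ℝ) :
    ip (rePart (Hc Λ A)) c c ≤ (Λ.card : ℝ) * (d * (d * K ^ 2)) * (c ⬝ᵥ c) := by
  rw [ip_Hc]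
  have h1 : ∀ z ∈ Λ, ∑ j, ‖((fun i => (c i : ℂ)) ᵥ* prj Λ A z) j‖ ^ 2 ≤
      (d * (d * K ^ 2)) * (c ⬝ᵥ c) := by
    intro z hz
    have h2 : ∀ j : Fin d, ‖((fun i => (c i : ℂ)) ᵥ* prj Λ A z) j‖ ^ 2 ≤
        (d * K ^ 2) * (c ⬝ᵥ c) := by
      intro j
      have h3 : ‖((fun i => (c i : ℂ)) ᵥ* prj Λ A z) j‖ ≤ ∑ i, |c i| * K := by
        rw [vecMul, dotProduct]
        refine (norm_sum_le _ _).trans (Finset.sum_le_sum fun i _ => ?_)
        rw [norm_mul, Complex.norm_real, Real.norm_eq_abs]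
        exact mul_le_mul_of_nonneg_left (hK2 z hz i j) (abs_nonneg _)
      calc ‖((fun i => (c i : ℂ)) ᵥ* prj Λ A z) j‖ ^ 2 ≤ (∑ i, |c i| * K) ^ 2 :=
            pow_le_pow_left₀ (norm_nonneg _) h3 2
        _ ≤ ((Finset.univ : Finset (Fin d)).card : ℝ) * ∑ i, (|c i| * K) ^ 2 :=
            sq_sum_le_card_mul_sum_sq
        _ = (d * K ^ 2) * (c ⬝ᵥ c) := by
            rw [Finset.card_univ, Fintype.card_fin, dotProduct, Finset.mul_sum, Finset.mul_sum]
            refine Finset.sum_congr rfl fun i _ => ?_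
            rw [mul_pow, sq_abs]
            ring
    calc ∑ j, ‖((fun i => (c i : ℂ)) ᵥ* prj Λ A z) j‖ ^ 2
        ≤ ∑ _j : Fin d, (d * K ^ 2) * (c ⬝ᵥ c) := Finset.sum_le_sum fun j _ => h2 j
      _ = (d * (d * K ^ 2)) * (c ⬝ᵥ c) := by
          rw [Finset.sum_const, Finset.card_univ, Fintype.card_fin, nsmul_eq_mul, mul_assoc,
            mul_assoc, mul_assoc]
  calc ∑ z ∈ Λ, ∑ j, ‖((fun i => (c i : ℂ)) ᵥ* prj Λ A z) j‖ ^ 2
      ≤ ∑ _z ∈ Λ, (d * (d * K ^ 2)) * (c ⬝ᵥ c) := Finset.sum_le_sum h1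
    _ = _ := by
        rw [Finset.sum_const, nsmul_eq_mul]
        ring

/-- Entries of `∏ (A - w)`. -/
theorem entries_prod {A : Matrix (Fin d) (Fin d) ℂ} {a E : ℝ} (ha : 0 ≤ a) (hE : d * a ≤ E)
    (hE1 : 1 ≤ E) (S : Finset ℂ) (hS : ∀ w ∈ S, ∀ i j, ‖(A - w • 1) i j‖ ≤ a) (i j : Fin d) :
    ‖(aeval A (∏ w ∈ S, (X - C w))) i j‖ ≤ E ^ S.card := by
  classical
  induction S using Finset.induction_on generalizing i j with
  | empty =>
    simp only [Finset.prod_empty, map_one, Finset.card_empty, pow_zero]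
    rw [Matrix.one_apply]
    split_ifs <;> simp
  | insert w S hw ih =>
    rw [Finset.prod_insert hw, map_mul, map_sub, aeval_X, aeval_C,
      Algebra.algebraMap_eq_smul_one, Finset.card_insert_of_notMem hw, Matrix.mul_apply]
    calc ‖∑ k, (A - w • 1) i k * (aeval A (∏ w ∈ S, (X - C w))) k j‖
        ≤ ∑ k, ‖(A - w • 1) i k * (aeval A (∏ w ∈ S, (X - C w))) k j‖ := norm_sum_le _ _
      _ ≤ ∑ _k : Fin d, a * E ^ S.card := by
          refine Finset.sum_le_sum fun k _ => ?_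
          rw [norm_mul]
          refine mul_le_mul (hS w (Finset.mem_insert_self w S) i k)
            (ih (fun v hv => hS v (Finset.mem_insert_of_mem hv)) k j) (norm_nonneg _) ha
      _ = d * a * E ^ S.card := by
          rw [Finset.sum_const, Finset.card_univ, Fintype.card_fin, nsmul_eq_mul, mul_assoc]
      _ ≤ E * E ^ S.card := mul_le_mul_of_nonneg_right hE (by positivity)
      _ = E ^ (S.card + 1) := by rw [pow_succ']

/-- Entries of the spectral projections. -/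
theorem entries_prj {Λ : Finset ℂ} {A : Matrix (Fin d) (Fin d) ℂ} {a E b : ℝ} (ha : 0 ≤ a)
    (hE : d * a ≤ E) (hE1 : 1 ≤ E) (hb : 0 ≤ b) (hcard : Λ.card ≤ d)
    (hS : ∀ w ∈ Λ, ∀ i j, ‖(A - w • 1) i j‖ ≤ a) {z : ℂ} (hz : z ∈ Λ)
    (hz2 : 1 ≤ b * ‖∏ w ∈ Λ.erase z, (z - w)‖) (i j : Fin d) :
    ‖prj Λ A z i j‖ ≤ b * E ^ d := by
  rw [prj, basis_eq, map_mul, aeval_C, Algebra.algebraMap_eq_smul_one, smul_mul_assoc, one_mul,
    Matrix.smul_apply, smul_eq_mul, norm_mul, norm_inv]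
  have h1 : ‖∏ w ∈ Λ.erase z, (z - w)‖⁻¹ ≤ b := by
    have h0 : 0 < ‖∏ w ∈ Λ.erase z, (z - w)‖ := by
      rcases (norm_nonneg (∏ w ∈ Λ.erase z, (z - w))).eq_or_lt with h | h
      · rw [← h, mul_zero] at hz2
        linarith
      · exact h
    rw [inv_le_iff_one_le_mul₀ h0]
    linarith
  have h2 := entries_prod ha hE hE1 (Λ.erase z)
    (fun w hw => hS w (Finset.mem_of_mem_erase hw)) i j
  refine mul_le_mul h1 (h2.trans (pow_le_pow_right₀ hE1 ?_)) (norm_nonneg _) hb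
  exact ((Finset.card_erase_lt_of_mem hz).le).trans hcard

/-- The constant of `met_of_spec`. -/
def KM0 (d s b : ℕ) : ℕ := d * (d * (d * (b * (d * (s + d * s) + 1) ^ d) ^ 2)) + d

theorem met_of_spec {d s b : ℕ} (T : Matrix (Fin d) (Fin d) ℤ) (hs : ∀ i j, |T i j| ≤ (s : ℤ))
    {Λ : Finset ℂ} (hcard : Λ.card ≤ d)
    (hF : aeval (T.map (Int.castRingHom ℂ)) (∏ z ∈ Λ, (X - C z)) = 0)
    (hz : ∀ z ∈ Λ, ‖z‖ ≤ d * s)
    (hb : ∀ z ∈ Λ, 1 ≤ (b : ℝ) * ‖∏ w ∈ Λ.erase z, (z - w)‖) {p : ℝ[X]}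
    (hp : ∀ z ∈ Λ, aeval z p = (starRingEnd ℂ) z) :
    ∃ H : Matrix (Fin d) (Fin d) ℝ, Met p (toR T) H ∧
      (∀ c, c ⬝ᵥ c ≤ (KM0 d s b : ℝ) * ip H c c) ∧
      (∀ c, ip H c c ≤ (KM0 d s b : ℝ) * (c ⬝ᵥ c)) := by
  have hA : cx (toR T) = T.map (Int.castRingHom ℂ) := by
    ext i j
    simp [cx, toR]
  rw [← hA] at hF
  have hcardR : (Λ.card : ℝ) ≤ d := by exact_mod_cast hcard
  have hdot : ∀ c : Fin d → ℝ, 0 ≤ c ⬝ᵥ c := fun c =>
    Finset.sum_nonneg fun i _ => mul_self_nonneg _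
  have hipnn : ∀ c : Fin d → ℝ, 0 ≤ ip (rePart (Hc Λ (cx (toR T)))) c c := by
    intro c
    rw [ip_Hc]
    exact Finset.sum_nonneg fun _ _ => Finset.sum_nonneg fun _ _ => sq_nonneg _
  have hK1 : (d : ℝ) ≤ KM0 d s b := by
    unfold KM0
    push_cast
    have : (0 : ℝ) ≤ d * (d * (d * (b * (d * (s + d * s) + 1) ^ d) ^ 2)) := by positivity
    linarith
  have hlow : ∀ c, c ⬝ᵥ c ≤ (KM0 d s b : ℝ) * ip (rePart (Hc Λ (cx (toR T)))) c c := fun c =>
    (lower_Hc hF c).trans (mul_le_mul_of_nonneg_right (hcardR.trans hK1) (hipnn c))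
  refine ⟨rePart (Hc Λ (cx (toR T))), ⟨⟨rePart_Hc_symm _ _, fun c hc => ?_⟩, ?_⟩, hlow, ?_⟩
  · have hcc : 0 < c ⬝ᵥ c := by
      rcases (hdot c).eq_or_lt with h | h
      · exact absurd (dotProduct_self_eq_zero.mp h.symm) hc
      · exact h
    rcases (hipnn c).eq_or_lt with h | h
    · have := hlow c
      rw [← h, mul_zero] at this
      linarith
    · exact h
  · have h := congrArg rePart (Hc_adj hF hp)
    rw [rePart_cx_mul, rePart_mul_cx] at h
    exact h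
  · intro c
    have hKb : ∀ z ∈ Λ, ∀ i j, ‖prj Λ (cx (toR T)) z i j‖ ≤
        (b : ℝ) * ((d * (s + d * s) + 1 : ℝ)) ^ d := by
      intro z hzΛ i j
      refine entries_prj (a := s + d * s) (by positivity) (by linarith) ?_ (by positivity)
        hcard ?_ hzΛ (hb z hzΛ) i j
      · have : (0 : ℝ) ≤ d * (s + d * s) := by positivity
        linarith
      · intro w hw i j
        have h1 : ‖(cx (toR T)) i j‖ ≤ s := by
          have h2 : (cx (toR T)) i j = ((T i j : ℝ) : ℂ) := by simp [cx, toR]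
          rw [h2, Complex.norm_real, Real.norm_eq_abs, ← Int.cast_abs]
          exact_mod_cast hs i j
        have h3 : ‖(w • (1 : Matrix (Fin d) (Fin d) ℂ)) i j‖ ≤ d * s := by
          rw [Matrix.smul_apply, Matrix.one_apply, smul_eq_mul]
          split_ifs
          · rw [mul_one]
            exact hz w hw
          · simp
            positivity
        rw [Matrix.sub_apply]
        exact (norm_sub_le _ _).trans (add_le_add h1 h3)
    have h1 := upper_Hc hKb c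
    refine h1.trans (mul_le_mul_of_nonneg_right ?_ (hdot c))
    unfold KM0
    push_cast
    have h2 : (Λ.card : ℝ) * (d * (d * ((b : ℝ) * (d * (s + d * s) + 1) ^ d) ^ 2)) ≤
        d * (d * (d * ((b : ℝ) * (d * (s + d * s) + 1) ^ d) ^ 2)) :=
      mul_le_mul_of_nonneg_right hcardR (by positivity)
    have h3 : (0 : ℝ) ≤ d := by positivity
    linarith

end Pool.Agent.DEC.R
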