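import Mathlib

/-!
# Reduction theory (DEC-R, MP_59dda0_an): the spectrum of an integer matrix

* `exists_conj_poly`: complex conjugation of the roots is a real polynomial;
* `spec_le`: the eigenvalues are bounded;
* `exists_spec`: the roots of the minimal polynomial, with an explicit lower bound for the values
  of the derivative (resultant).
-/

set_option autoImplicit false

namespace Pool.Agent.DEC.R

open Matrix Polynomial

theorem exists_conj_poly (m : ℤ[X]) (hm : m ≠ 0) : ∃ p : ℝ[X], ∀ z : ℂ, aeval z m = 0 →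
    aeval z p = (starRingEnd ℂ) z := by
  classical
  have hinj : Function.Injective (Int.castRingHom ℂ) := Int.cast_injective
  have hmC : m.map (Int.castRingHom ℂ) ≠ 0 := (Polynomial.map_ne_zero_iff hinj).2 hm
  set S : Finset ℂ := (m.map (Int.castRingHom ℂ)).roots.toFinset with hS
  have hmem : ∀ z : ℂ, z ∈ S ↔ aeval z m = 0 := by
    intro z
    rw [hS, Multiset.mem_toFinset, mem_roots hmC, IsRoot.def, eval_map, aeval_def]
    have : algebraMap ℤ ℂ = Int.castRingHom ℂ := rfl
    rw [this]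
  have hconj : ∀ z : ℂ, aeval z m = 0 → aeval ((starRingEnd ℂ) z) m = 0 := by
    intro z hz
    have h1 := congrArg (starRingEnd ℂ) hz
    rw [map_zero, aeval_def, hom_eval₂] at h1
    rw [aeval_def]
    have h2 : (starRingEnd ℂ).comp (algebraMap ℤ ℂ) = algebraMap ℤ ℂ := RingHom.ext_int _ _
    rwa [h2] at h1
  set q : ℂ[X] := Lagrange.interpolate S id (fun z => (starRingEnd ℂ) z) with hq
  have hqz : ∀ z ∈ S, q.eval z = (starRingEnd ℂ) z := by
    intro z hz
    exact Lagrange.eval_interpolate_at_node (fun z => (starRingEnd ℂ) z)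
      (Function.injective_id.injOn (s := (S : Set ℂ))) hz
  set p : ℝ[X] := ∑ n ∈ Finset.range (q.natDegree + 1), C (q.coeff n).re * X ^ n with hp
  refine ⟨p, fun z hz => ?_⟩
  have hzS := (hmem z).2 hz
  have hzS' := (hmem _).2 (hconj z hz)
  have e1 : aeval z p = ∑ n ∈ Finset.range (q.natDegree + 1), ((q.coeff n).re : ℂ) * z ^ n := by
    rw [hp, map_sum]
    refine Finset.sum_congr rfl fun n _ => ?_
    simp
  have e2 : q.eval z = ∑ n ∈ Finset.range (q.natDegree + 1), q.coeff n * z ^ n :=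
    eval_eq_sum_range z
  have e3 : (starRingEnd ℂ) (q.eval ((starRingEnd ℂ) z)) =
      ∑ n ∈ Finset.range (q.natDegree + 1), (starRingEnd ℂ) (q.coeff n) * z ^ n := by
    rw [eval_eq_sum_range, map_sum]
    refine Finset.sum_congr rfl fun n _ => ?_
    simp
  have e4 : (2 : ℂ) * aeval z p = q.eval z + (starRingEnd ℂ) (q.eval ((starRingEnd ℂ) z)) := by
    rw [e1, e2, e3, ← Finset.sum_add_distrib, Finset.mul_sum]
    refine Finset.sum_congr rfl fun n _ => ?_
    have : (2 : ℂ) * ((q.coeff n).re : ℂ) = q.coeff n + (starRingEnd ℂ) (q.coeff n) := by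
      rw [Complex.add_conj]
      push_cast
      ring
    rw [← mul_assoc, this]
    ring
  rw [hqz z hzS, hqz _ hzS', Complex.conj_conj] at e4
  have h2 : (2 : ℂ) ≠ 0 := two_ne_zero
  refine mul_left_cancel₀ h2 ?_
  rw [e4]
  ring

variable {d : ℕ}

theorem norm_le_of_det (T : Matrix (Fin d) (Fin d) ℤ) (s : ℕ) (hs : ∀ i j, |T i j| ≤ (s : ℤ))
    (z : ℂ) (h : (Matrix.scalar (Fin d) z - T.map (Int.castRingHom ℂ)).det = 0) :
    ‖z‖ ≤ d * s := by
  obtain ⟨v, hv, hv0⟩ := Matrix.exists_mulVec_eq_zero_iff.2 h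
  have hne : (Finset.univ : Finset (Fin d)).Nonempty := by
    by_contra hne
    rw [Finset.not_nonempty_iff_eq_empty] at hne
    apply hv
    funext i
    have := Finset.mem_univ i
    rw [hne] at this
    simp at this
  obtain ⟨i, -, hi⟩ := Finset.exists_max_image Finset.univ (fun i => ‖v i‖) hne
  have hvi : 0 < ‖v i‖ := by
    rcases (norm_nonneg (v i)).eq_or_lt with h0 | h0
    · exfalso
      apply hv
      funext j
      have h1 := hi j (Finset.mem_univ j)
      rw [← h0] at h1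
      exact norm_le_zero_iff.1 h1
    · exact h0
  have h1 : z * v i = ∑ j, (T i j : ℂ) * v j := by
    have h2 := congrFun hv0 i
    rw [Matrix.sub_mulVec, Pi.sub_apply, Pi.zero_apply, sub_eq_zero] at h2
    have h3 : (Matrix.scalar (Fin d) z *ᵥ v) i = z * v i := by
      simp [Matrix.mulVec, dotProduct, Matrix.diagonal_apply]
    rw [h3] at h2
    rw [h2]
    simp [Matrix.mulVec, dotProduct]
  have h2 : ‖z‖ * ‖v i‖ ≤ (d * s) * ‖v i‖ := by
    rw [← norm_mul, h1]
    refine (norm_sum_le _ _).trans ?_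
    calc ∑ j, ‖(T i j : ℂ) * v j‖ ≤ ∑ _j : Fin d, (s : ℝ) * ‖v i‖ := by
          refine Finset.sum_le_sum fun j _ => ?_
          rw [norm_mul]
          have h3 : ‖(T i j : ℂ)‖ ≤ s := by
            rw [Complex.norm_intCast]
            exact_mod_cast hs i j
          have h4 := hi j (Finset.mem_univ j)
          gcongr
      _ = (d * s) * ‖v i‖ := by
          rw [Finset.sum_const, Finset.card_univ, Fintype.card_fin, nsmul_eq_mul]
          ring
  exact le_of_mul_le_mul_right h2 hvi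

theorem spec_le (T : Matrix (Fin d) (Fin d) ℤ) (s : ℕ) (hs : ∀ i j, |T i j| ≤ (s : ℤ)) :
    ∀ z ∈ spectrum ℂ (T.map (Int.castRingHom ℂ)), ‖z‖ ≤ d * s := by
  intro z hz
  refine norm_le_of_det T s hs z ?_
  by_contra h
  rw [spectrum.mem_iff] at hz
  apply hz
  rw [Matrix.isUnit_iff_isUnit_det]
  exact isUnit_iff_ne_zero.2 h

/-- the constant of the lower bound -/
def BG (d s : ℕ) : ℕ := (2 * d * s + 1) ^ (d * d)

theorem aeval_mapMatrix_sp {R : Type*} [CommRing R] (T : Matrix (Fin d) (Fin d) ℤ) (f : ℤ[X]) :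
    aeval (T.map (Int.castRingHom R)) (f.map (Int.castRingHom R)) =
      (aeval T f).map (Int.castRingHom R) := by
  have h1 : (aeval T f).map (Int.castRingHom R) = (Int.castRingHom R).mapMatrix (aeval T f) := rfl
  rw [h1, aeval_def, aeval_def, eval₂_map, hom_eval₂]
  congr 1
  exact RingHom.ext_int _ _

theorem exists_spec (T : Matrix (Fin d) (Fin d) ℤ) (s : ℕ) (hs : ∀ i j, |T i j| ≤ (s : ℤ))
    (m : ℤ[X]) (hm : (m.map (Int.castRingHom ℚ)).Separable) (hT : aeval T m = 0) :
    ∃ Λ : Finset ℂ, Λ.card ≤ d ∧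
      aeval (T.map (Int.castRingHom ℂ)) (∏ z ∈ Λ, (X - C z)) = 0 ∧
      (∀ z ∈ Λ, aeval z m = 0 ∧ ‖z‖ ≤ d * s) ∧
      (∀ z ∈ Λ, 1 ≤ (BG d s : ℝ) * ‖∏ w ∈ Λ.erase z, (z - w)‖) := by
  classical
  have hinjQ : Function.Injective (Int.castRingHom ℚ) := Int.cast_injective
  have hinjC : Function.Injective (Int.castRingHom ℂ) := Int.cast_injective
  set TQ := T.map (Int.castRingHom ℚ) with hTQ
  set TC := T.map (Int.castRingHom ℂ) with hTC
  set μ := minpoly ℚ TQ with hμ
  have hint : IsIntegral ℚ TQ := Matrix.isIntegral TQ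
  have hμm : μ.Monic := minpoly.monic hint
  -- the charpoly
  have hcQ : TQ.charpoly = T.charpoly.map (Int.castRingHom ℚ) := Matrix.charpoly_map T _
  have hcC : TC.charpoly = T.charpoly.map (Int.castRingHom ℂ) := Matrix.charpoly_map T _
  have hdvd1 : μ ∣ T.charpoly.map (algebraMap ℤ ℚ) := by
    have : T.charpoly.map (algebraMap ℤ ℚ) = TQ.charpoly := hcQ.symm
    rw [this]
    exact minpoly.dvd ℚ TQ (Matrix.aeval_self_charpoly TQ)
  obtain ⟨f, hf⟩ := IsIntegrallyClosed.eq_map_mul_C_of_dvd ℚ (Matrix.charpoly_monic T) hdvd1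
  rw [hμm.leadingCoeff, C_1, mul_one] at hf
  have hfQ : f.map (Int.castRingHom ℚ) = μ := hf
  have hfm : f.Monic := by
    refine (Function.Injective.monic_map_iff hinjQ).2 ?_
    rw [hfQ]
    exact hμm
  -- `m` kills `TQ`
  have hmQ : μ ∣ m.map (Int.castRingHom ℚ) := by
    refine minpoly.dvd ℚ TQ ?_
    rw [hTQ, aeval_mapMatrix_sp, hT]
    ext i j
    simp
  have hsep : μ.Separable := hm.of_dvd hmQ
  -- over `ℂ`
  have hcomp : ∀ g : ℤ[X], g.map (Int.castRingHom ℂ) =
      (g.map (Int.castRingHom ℚ)).map (algebraMap ℚ ℂ) := by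
    intro g
    rw [Polynomial.map_map]
    congr 1
  set fC := f.map (Int.castRingHom ℂ) with hfC
  have hfCμ : fC = μ.map (algebraMap ℚ ℂ) := by rw [hfC, hcomp, hfQ]
  have hfCm : fC.Monic := hfm.map _
  have hfC0 : fC ≠ 0 := hfCm.ne_zero
  have hsepC : fC.Separable := by
    rw [hfCμ]
    exact hsep.map
  have hnodup : fC.roots.Nodup := nodup_roots hsepC
  have hsplit : fC.Splits := IsAlgClosed.splits fC
  set Λ := fC.roots.toFinset with hΛ
  have hΛval : Λ.val = fC.roots := by
    rw [hΛ, Multiset.toFinset_val, hnodup.dedup]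
  have hprod : ∏ z ∈ Λ, (X - C z) = fC := by
    have h1 : ∏ z ∈ Λ, (X - C z) = (fC.roots.map fun a => X - C a).prod := by
      rw [← hΛval]
      rfl
    rw [h1]
    exact (hsplit.eq_prod_roots_of_monic hfCm).symm
  have hmemΛ : ∀ z, z ∈ Λ ↔ fC.eval z = 0 := by
    intro z
    rw [hΛ, Multiset.mem_toFinset, mem_roots hfC0, IsRoot.def]
  have hcard : Λ.card ≤ d := by
    have h1 : Λ.card ≤ fC.natDegree := (Multiset.toFinset_card_le _).trans (card_roots' fC)
    have h2 : fC ∣ TC.charpoly := by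
      rw [hcC, hcomp, hfCμ]
      exact Polynomial.map_dvd _ hdvd1
    have h3 := natDegree_le_of_dvd h2 (Matrix.charpoly_monic TC).ne_zero
    rw [Matrix.charpoly_natDegree_eq_dim, Fintype.card_fin] at h3
    exact h1.trans h3
  have hkill : aeval TC fC = 0 := by
    have h1 : aeval TQ μ = 0 := minpoly.aeval ℚ TQ
    rw [← hfQ, hTQ, aeval_mapMatrix_sp] at h1
    have h2 : aeval T f = 0 := by
      ext i j
      have h3 := congrFun (congrFun h1 i) j
      simpa using h3
    rw [hTC, hfC, aeval_mapMatrix_sp, h2]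
    ext i j
    simp
  have hroots : ∀ z ∈ Λ, aeval z m = 0 ∧ ‖z‖ ≤ d * s := by
    intro z hz
    have hz0 := (hmemΛ z).1 hz
    refine ⟨?_, norm_le_of_det T s hs z ?_⟩
    · have h1 : fC ∣ m.map (Int.castRingHom ℂ) := by
        rw [hcomp, hfCμ]
        exact Polynomial.map_dvd _ hmQ
      obtain ⟨g, hg⟩ := h1
      have h2 : aeval z m = (m.map (Int.castRingHom ℂ)).eval z := by
        rw [eval_map, aeval_def]
        rfl
      rw [h2, hg, eval_mul, hz0, zero_mul]
    · have h1 : fC ∣ TC.charpoly := by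
        rw [hcC, hcomp, hfCμ]
        exact Polynomial.map_dvd _ hdvd1
      obtain ⟨g, hg⟩ := h1
      rw [← Matrix.eval_charpoly, ← hTC, hg, eval_mul, hz0, zero_mul]
  refine ⟨Λ, hcard, by rw [hprod]; exact hkill, hroots, ?_⟩
  -- the derivative
  have hder : ∀ z ∈ Λ, (derivative fC).eval z = ∏ w ∈ Λ.erase z, (z - w) := by
    intro z hz
    have h1 : fC = (Λ.val.map fun a => X - C a).prod := hprod.symm
    rw [h1, eval_multiset_prod_X_sub_C_derivative hz]
    rfl
  have hres : ((resultant f (derivative f) : ℤ) : ℂ) = ∏ z ∈ Λ, ∏ w ∈ Λ.erase z, (z - w) := by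
    have h1 : ((resultant f (derivative f) : ℤ) : ℂ) =
        resultant fC (derivative fC) f.natDegree (derivative f).natDegree := by
      rw [hfC, derivative_map, resultant_map_map]
      rfl
    have h2 : f.natDegree = fC.natDegree := (hfm.natDegree_map _).symm
    rw [h1, h2, resultant_eq_prod_eval fC (derivative fC) _ (by
      rw [hfC, derivative_map]
      exact natDegree_map_le) hsplit, hfCm.leadingCoeff, one_pow, one_mul, ← hΛval]
    exact Finset.prod_congr rfl fun z hz => hder z hz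
  have hDne : ∀ z ∈ Λ, ∏ w ∈ Λ.erase z, (z - w) ≠ 0 := by
    intro z _
    refine Finset.prod_ne_zero_iff.2 fun w hw => ?_
    exact sub_ne_zero.2 (Finset.ne_of_mem_erase hw).symm
  have hone : 1 ≤ ∏ z ∈ Λ, ‖∏ w ∈ Λ.erase z, (z - w)‖ := by
    rw [← norm_prod, ← hres, Complex.norm_intCast]
    have h1 : resultant f (derivative f) ≠ 0 := by
      intro h0
      rw [h0, Int.cast_zero] at hres
      exact Finset.prod_ne_zero_iff.2 hDne hres.symm
    exact_mod_cast Int.one_le_abs h1
  set B : ℝ := 2 * d * s + 1 with hB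
  have hB1 : 1 ≤ B := by
    have : (0 : ℝ) ≤ 2 * d * s := by positivity
    linarith
  have hDle : ∀ z ∈ Λ, ‖∏ w ∈ Λ.erase z, (z - w)‖ ≤ B ^ d := by
    intro z hz
    rw [norm_prod]
    calc ∏ w ∈ Λ.erase z, ‖z - w‖ ≤ ∏ _w ∈ Λ.erase z, B := by
          refine Finset.prod_le_prod (fun _ _ => norm_nonneg _) fun w hw => ?_
          have h1 := (hroots z hz).2
          have h2 := (hroots w (Finset.mem_of_mem_erase hw)).2
          have h3 := norm_sub_le z w
          rw [hB]
          linarith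
      _ = B ^ (Λ.erase z).card := by rw [Finset.prod_const]
      _ ≤ B ^ d := pow_le_pow_right₀ hB1 ((Finset.card_le_card (Finset.erase_subset z Λ)).trans hcard)
  intro z hz
  have h1 : ∏ w ∈ Λ.erase z, ‖∏ y ∈ Λ.erase w, (w - y)‖ ≤ B ^ (d * d) := by
    calc ∏ w ∈ Λ.erase z, ‖∏ y ∈ Λ.erase w, (w - y)‖ ≤ ∏ _w ∈ Λ.erase z, B ^ d :=
          Finset.prod_le_prod (fun _ _ => norm_nonneg _) fun w hw =>
            hDle w (Finset.mem_of_mem_erase hw)
      _ = (B ^ d) ^ (Λ.erase z).card := by rw [Finset.prod_const]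
      _ ≤ (B ^ d) ^ d := pow_le_pow_right₀ (one_le_pow₀ hB1)
          ((Finset.card_le_card (Finset.erase_subset z Λ)).trans hcard)
      _ = B ^ (d * d) := by rw [← pow_mul]
  have h2 := Finset.mul_prod_erase Λ (fun z => ‖∏ w ∈ Λ.erase z, (z - w)‖) hz
  rw [← h2] at hone
  have hBG : (BG d s : ℝ) = B ^ (d * d) := by
    rw [BG, hB]
    push_cast
    rfl
  rw [hBG, mul_comm]
  refine hone.trans ?_
  exact mul_le_mul_of_nonneg_left h1 (norm_nonneg _)

end Pool.Agent.DEC.R
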