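import Mathlib
import Pool.Agent.DEC.R.MetE
import Pool.Agent.DEC.R.Spec
import Pool.Agent.DEC.R.ConjN

/-!
# `exists_met`: metrics with explicit bounds for all integral matrices killed by a given
squarefree polynomial (DEC-R, MP_59dda0_an; helper36)
-/

set_option autoImplicit false

namespace Pool.Agent.DEC.R

open Matrix Finset Polynomial

variable {d : ℕ}

theorem sep_of_squarefree {m : ℤ[X]} (hm : Squarefree m) :
    (m.map (Int.castRingHom ℚ)).Separable := by
  have hm0 : m ≠ 0 := hm.ne_zero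
  rw [PerfectField.separable_iff_squarefree]
  intro g hg
  have hmQ : m.map (Int.castRingHom ℚ) ≠ 0 :=
    (Polynomial.map_ne_zero_iff (Int.castRingHom ℚ).injective_int).mpr hm0
  have hg0 : g ≠ 0 := by
    rintro rfl
    rw [mul_zero, zero_dvd_iff] at hg
    exact hmQ hg
  set G := IsLocalization.integerNormalization (nonZeroDivisors ℤ) g with hG
  obtain ⟨c, hc0, hc⟩ := IsLocalization.integerNormalization_spec (nonZeroDivisors ℤ) g
  have hc0' : (c : ℚ) ≠ 0 := by
    exact_mod_cast (mem_nonZeroDivisors_iff_ne_zero.mp hc0)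
  have hdvd : G.primPart.map (Int.castRingHom ℚ) ∣ g := by
    have h1 : G.map (Int.castRingHom ℚ) = C (c : ℚ) * g := by
      rw [hG]
      have := hc
      rw [Algebra.smul_def, Polynomial.algebraMap_apply] at this
      simpa using this
    have h2 : G.primPart.map (Int.castRingHom ℚ) ∣ G.map (Int.castRingHom ℚ) :=
      Polynomial.map_dvd _ (G.primPart_dvd)
    rw [h1] at h2
    exact (IsUnit.dvd_mul_left (isUnit_C.mpr (isUnit_iff_ne_zero.mpr hc0'))).mp h2
  have hdvd2 : (G.primPart * G.primPart).map (Int.castRingHom ℚ) ∣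
      m.map (Int.castRingHom ℚ) := by
    rw [Polynomial.map_mul]
    exact (mul_dvd_mul hdvd hdvd).trans hg
  have hprim : (G.primPart * G.primPart).IsPrimitive :=
    (G.isPrimitive_primPart).mul (G.isPrimitive_primPart)
  have h3 := (IsPrimitive.Int.dvd_iff_map_cast_dvd_map_cast _ m hprim).mpr hdvd2
  exact isUnit_or_eq_zero_of_isUnit_integerNormalization_primPart hg0 (hm _ h3)

/-- The constant of `exists_met`. -/
def KM (d s : ℕ) : ℕ := KM0 d s (BG d s) + 1

/-- All integral matrices killed by `m` (separable over `ℚ`) have metrics with the same adjoint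
polynomial, with bounds depending only on `d` and the size of the entries. -/
theorem exists_met' {m : ℤ[X]} (hm : (m.map (Int.castRingHom ℚ)).Separable) :
    ∃ p : ℝ[X], ∀ (d : ℕ) (T : Matrix (Fin d) (Fin d) ℤ) (s : ℕ), aeval T m = 0 →
      (∀ i j, |T i j| ≤ (s : ℤ)) → ∃ H, Met p (toR T) H ∧
        (∀ c, c ⬝ᵥ c ≤ (KM d s : ℝ) * ip H c c) ∧ (∀ c, ip H c c ≤ (KM d s : ℝ) * (c ⬝ᵥ c)) := by
  have hm0 : m ≠ 0 := by
    rintro rfl
    rw [Polynomial.map_zero] at hm
    exact not_separable_zero hm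
  obtain ⟨p, hp⟩ := exists_conj_poly m hm0
  refine ⟨p, fun d T s hT hs => ?_⟩
  obtain ⟨Λ, hcard, hF, hz, hb⟩ := exists_spec T s hs m hm hT
  obtain ⟨H, hH, h1, h2⟩ := met_of_spec T hs hcard hF (fun z hzΛ => (hz z hzΛ).2) hb
    (fun z hzΛ => hp z (hz z hzΛ).1)
  have hK : (KM0 d s (BG d s) : ℝ) ≤ KM d s := by
    unfold KM
    push_cast
    linarith
  refine ⟨H, hH, fun c => (h1 c).trans ?_, fun c => (h2 c).trans ?_⟩
  · exact mul_le_mul_of_nonneg_right hK (hH.pd.nonneg c)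
  · exact mul_le_mul_of_nonneg_right hK (Finset.sum_nonneg fun i _ => mul_self_nonneg _)

theorem one_le_KM (d s : ℕ) : 1 ≤ KM d s := by
  unfold KM
  omega

/-- The form used in `chain_conj`. -/
theorem exists_met {m : ℤ[X]} (hm : (m.map (Int.castRingHom ℚ)).Separable) :
    ∃ p : ℝ[X], ∀ (d : ℕ) (T : Matrix (Fin d) (Fin d) ℤ) (s : ℕ), aeval T m = 0 →
      (∀ i j, |T i j| ≤ (s : ℤ)) → HasMet p (KM d s : ℝ) T := by
  obtain ⟨p, hp⟩ := exists_met' hm
  refine ⟨p, fun d T s hT hs => ?_⟩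
  obtain ⟨H, hH, h1, h2⟩ := hp d T s hT hs
  have hK1 : (1 : ℝ) ≤ KM d s := by exact_mod_cast one_le_KM d s
  refine ⟨H, hH, fun c k => ?_, fun j => ?_⟩
  · refine abs_le_of_sq_le_sq (a := c k) (b := (KM d s : ℝ) * nrm H c) ?_ ?_
    · rw [mul_pow, hH.pd.sq_nrm]
      have h3 : c k ^ 2 ≤ c ⬝ᵥ c := by
        rw [dotProduct, sq]
        exact Finset.single_le_sum (f := fun i => c i * c i) (fun i _ => mul_self_nonneg _)
          (Finset.mem_univ k)
      have h4 := hH.pd.nonneg c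
      nlinarith [h1 c, mul_nonneg (mul_nonneg (sub_nonneg.mpr hK1) (le_trans zero_le_one hK1)) h4]
    · exact mul_nonneg (le_trans zero_le_one hK1) (nrm_nonneg H c)
  · have h3 := h2 (Pi.single j 1)
    have h4 : (Pi.single j (1 : ℝ) : Fin d → ℝ) ⬝ᵥ Pi.single j 1 = 1 := by simp
    rw [h4, mul_one] at h3
    rw [nrm]
    refine Real.sqrt_le_iff.mpr ⟨le_trans zero_le_one hK1, h3.trans ?_⟩
    nlinarith

/-- Every integral matrix has entries bounded by a natural number. -/
theorem exists_entry_bound (T : Matrix (Fin d) (Fin d) ℤ) :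
    ∃ s : ℕ, ∀ i j, |T i j| ≤ (s : ℤ) := by
  refine ⟨∑ i, ∑ j, (T i j).natAbs, fun i j => ?_⟩
  rw [Int.abs_eq_natAbs]
  have h1 : (T i j).natAbs ≤ ∑ j, (T i j).natAbs :=
    Finset.single_le_sum (f := fun j => (T i j).natAbs) (fun _ _ => Nat.zero_le _)
      (Finset.mem_univ j)
  have h2 : ∑ j, (T i j).natAbs ≤ ∑ i, ∑ j, (T i j).natAbs :=
    Finset.single_le_sum (f := fun i => ∑ j, (T i j).natAbs) (fun _ _ => Nat.zero_le _)
      (Finset.mem_univ i)
  exact_mod_cast h1.trans h2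

/-- One `p` for everything: with bounds, and without (`exists_met0`). -/
theorem exists_met_all {m : ℤ[X]} (hm : (m.map (Int.castRingHom ℚ)).Separable) :
    ∃ p : ℝ[X], (∀ (d : ℕ) (T : Matrix (Fin d) (Fin d) ℤ) (s : ℕ), aeval T m = 0 →
      (∀ i j, |T i j| ≤ (s : ℤ)) → HasMet p (KM d s : ℝ) T) ∧
      ∀ (d : ℕ) (T : Matrix (Fin d) (Fin d) ℤ), aeval T m = 0 → ∃ H, Met p (toR T) H := by
  obtain ⟨p, hp⟩ := exists_met hm
  refine ⟨p, hp, fun d T hT => ?_⟩
  obtain ⟨s, hs⟩ := exists_entry_bound T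
  obtain ⟨H, hH, _⟩ := hp d T s hT hs
  exact ⟨H, hH⟩

/-- **Theorem C**, final form: `T` and `T'` integral, conjugate over `GL_d(ℤ)`, killed by a
polynomial separable over `ℚ`, entries at most `s`. -/
theorem chain_conj_sep {s : ℕ} {m : ℤ[X]} (hm : (m.map (Int.castRingHom ℚ)).Separable)
    {T T' : Matrix (Fin d) (Fin d) ℤ} {g : GZ d} (hT : g.val * T = T' * g.val)
    (hs : ∀ i j, |T i j| ≤ (s : ℤ)) (hs' : ∀ i j, |T' i j| ≤ (s : ℤ)) (h0 : aeval T m = 0) :
    Relation.ReflTransGen (Step (KCC d s (KM d s))) T T' := by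
  have h0' : aeval T' m = 0 := by
    have h1 := mul_aeval_of_mul hT m
    rw [h0, mul_zero] at h1
    have h2 : aeval T' m * g.val * g.inv = 0 := by rw [← h1, zero_mul]
    rwa [mul_assoc, g.val_inv, mul_one] at h2
  obtain ⟨p, hp⟩ := exists_met hm
  exact chain_conj hT hs (hp d T s h0 hs) (hp d T' s h0' hs')

end Pool.Agent.DEC.R
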