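import Pool.Agent.DEC.R.SE2
import Pool.Agent.DEC.R.ConjN
import Pool.Agent.DEC.R.SEq

/-!
# Theorem SE: shift equivalent matrices are joined by a chain of bounded elementary equivalences
(DEC-R, MP_59dda0_an; helper64)
-/

set_option autoImplicit false

namespace Pool.Agent.DEC.R

open Matrix Polynomial

variable {d : ℕ}

/-- Bound for the matrices of the lattice chain. -/
def KS1 (d s : ℕ) : ℕ := tauN d (kapN d) (kapN d ^ 2 * (d * s + 1)) d

/-- Bound for the inclusions of the lattice chain. -/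
def KS2 (d s : ℕ) : ℕ := tauN d (kapN d) (kapN d ^ 6 * (d.factorial * s ^ d)) d + 1

/-- Bound for the steps of the lattice chain. -/
def KSM (d s : ℕ) : ℕ :=
  KS1 d s + KS2 d s + d * (KS1 d s * (d.factorial * KS2 d s ^ d))

/-- The bound of Theorem SE; `K₀` bounds the metrics of the matrices with entries at most
`s + KS1 d s`. -/
def KSE (d s K₀ : ℕ) : ℕ := KSM d s + KCC d (s + KS1 d s) K₀

theorem det_entry_le {T : Matrix (Fin d) (Fin d) ℤ} {s : ℕ} (hs : ∀ i j, |T i j| ≤ (s : ℤ)) :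
    |T.det| ≤ ((d.factorial * s ^ d : ℕ) : ℤ) := by
  have h := Matrix.det_le (A := T) (abv := (AbsoluteValue.abs : AbsoluteValue ℤ ℤ))
    (x := (s : ℤ)) hs
  rw [Fintype.card_fin, nsmul_eq_mul] at h
  push_cast
  exact h

theorem aeval_zero_of_mul {m : ℤ[X]} {U T S : Matrix (Fin d) (Fin d) ℤ} (hU : U.det ≠ 0)
    (h : U * T = S * U) (hm : aeval T m = 0) : aeval S m = 0 := by
  have h1 : U * aeval T m = aeval S m * U := by
    induction m using Polynomial.induction_on' with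
    | add p q hp hq => exact mul_aeval_of_mul h _
    | monomial n a => exact mul_aeval_of_mul h _
  rw [hm, Matrix.mul_zero] at h1
  apply mul_right_cancel_of_det hU
  rw [← h1, Matrix.zero_mul]

/-- **Theorem SE**. -/
theorem chain_SE {m : ℤ[X]} {p : ℝ[X]} {s K₀ : ℕ}
    (hK₀ : ∀ T : Matrix (Fin d) (Fin d) ℤ, aeval T m = 0 →
      (∀ i j, |T i j| ≤ ((s + KS1 d s : ℕ) : ℤ)) → HasMet p K₀ T)
    {T S R U : Matrix (Fin d) (Fin d) ℤ} {l : ℕ} (hT : T.det ≠ 0) (hm : aeval T m = 0)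
    (hsT : ∀ i j, |T i j| ≤ (s : ℤ)) (hsS : ∀ i j, |S i j| ≤ (s : ℤ)) (hUT : U * T = S * U)
    (hRU : R * U = T ^ l) : Relation.ReflTransGen (Step (KSE d s K₀)) T S := by
  have hκ : (1 : ℝ) ≤ (kapN d : ℕ) := by exact_mod_cast one_le_kapN d
  have hρ : (1 : ℝ) ≤ ((d * s + 1 : ℕ) : ℝ) := by
    have : 1 ≤ d * s + 1 := by omega
    exact_mod_cast this
  have hle : (s : ℤ) ≤ ((s + KS1 d s : ℕ) : ℤ) := by exact_mod_cast Nat.le_add_right _ _
  have hle1 : ((KS1 d s : ℕ) : ℤ) ≤ ((s + KS1 d s : ℕ) : ℤ) := by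
    exact_mod_cast Nat.le_add_left _ _
  have hMT : HasMet p K₀ T := hK₀ T hm fun i j => (hsT i j).trans hle
  obtain ⟨H, hH, -, -⟩ := id hMT
  have hU : U.det ≠ 0 := by
    intro h0
    have h4 : R.det * U.det = (T ^ l).det := by rw [← Matrix.det_mul, hRU]
    rw [h0, mul_zero, Matrix.det_pow] at h4
    exact pow_ne_zero _ hT h4.symm
  have hmS : aeval S m = 0 := aeval_zero_of_mul hU hUT hm
  obtain ⟨T0, Tl, g, v, hg, hv, hgT, hvS, hT0, hTl, hch⟩ :=
    chain_mid (κ := (kapN d : ℕ)) (ρ := ((d * s + 1 : ℕ) : ℝ))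
      (δ := ((d.factorial * s ^ d : ℕ) : ℝ)) (K1 := KS1 d s) (K2 := KS2 d s) hκ hρ
      (existRd_kapN d) (by unfold KS2; omega)
      (by
        have e1 : ((kapN d : ℕ) : ℝ) ^ 2 * ((d * s + 1 : ℕ) : ℝ) =
            ((kapN d ^ 2 * (d * s + 1) : ℕ) : ℝ) := by push_cast; ring
        rw [e1, tauG_cast]
        exact le_rfl)
      (by
        have e1 : ((kapN d : ℕ) : ℝ) ^ 6 * ((d.factorial * s ^ d : ℕ) : ℝ) =
            ((kapN d ^ 6 * (d.factorial * s ^ d) : ℕ) : ℝ) := by push_cast; ring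
        rw [e1, tauG_cast]
        unfold KS2
        push_cast
        linarith)
      hH (hH.norm (by positivity) (spectrum_le T hsT))
      (by
        rw [← Int.cast_abs]
        exact_mod_cast det_entry_le hsT)
      hT hUT hRU
  obtain ⟨g', hg'⟩ := (Matrix.isUnit_iff_isUnit_det _).2 hg
  obtain ⟨v', hv'⟩ := (Matrix.isUnit_iff_isUnit_det _).2 hv
  have hm0 : aeval T0 m = 0 := aeval_zero_of_mul hg.ne_zero hgT hm
  have hml : aeval Tl m = 0 := aeval_zero_of_mul hv.ne_zero hvS hmS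
  have h1 : Relation.ReflTransGen (Step (KCC d (s + KS1 d s) K₀)) T T0 :=
    chain_conj (g := g') (by rw [hg']; exact hgT) (fun i j => (hsT i j).trans hle) hMT
      (hK₀ T0 hm0 fun i j => (hT0 i j).trans hle1)
  have h2 : Relation.ReflTransGen (Step (KCC d (s + KS1 d s) K₀)) S Tl :=
    chain_conj (g := v') (by rw [hv']; exact hvS) (fun i j => (hsS i j).trans hle)
      (hK₀ S hmS fun i j => (hsS i j).trans hle)
      (hK₀ Tl hml fun i j => (hTl i j).trans hle1)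
  have l1 : KCC d (s + KS1 d s) K₀ ≤ KSE d s K₀ := Nat.le_add_left _ _
  have l2 : KSM d s ≤ KSE d s K₀ := Nat.le_add_right _ _
  exact ((Step.chain_mono l1 h1).trans (Step.chain_mono l2 hch)).trans
    (Step.chain_symm (Step.chain_mono l1 h2))

/-- **Theorem SE** for the relation `SE`. -/
theorem SE.chain {m : ℤ[X]} {p : ℝ[X]} {s K₀ : ℕ}
    (hK₀ : ∀ T : Matrix (Fin d) (Fin d) ℤ, aeval T m = 0 →
      (∀ i j, |T i j| ≤ ((s + KS1 d s : ℕ) : ℤ)) → HasMet p K₀ T)
    {T S : Matrix (Fin d) (Fin d) ℤ} (h : SE T S) (hT : T.det ≠ 0) (hm : aeval T m = 0)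
    (hsT : ∀ i j, |T i j| ≤ (s : ℤ)) (hsS : ∀ i j, |S i j| ≤ (s : ℤ)) :
    Relation.ReflTransGen (Step (KSE d s K₀)) T S := by
  obtain ⟨l, R, U, -, h2, h3, -⟩ := h
  exact chain_SE hK₀ hT hm hsT hsS h2 h3

/-- A chain of steps is a shift equivalence. -/
theorem SE.of_chain {K : ℕ} {T S : Matrix (Fin d) (Fin d) ℤ}
    (h : Relation.ReflTransGen (Step K) T S) : SE T S := by
  induction h with
  | refl => exact SE.refl T
  | tail _ h2 ih =>
    obtain ⟨C, D, h3, h4, -⟩ := h2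
    exact ih.trans (SE.of_elem h3 h4)

end Pool.Agent.DEC.R
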