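import Pool.Agent.DEC.R.FinC
import Pool.Agent.DEC.R.BC
import Pool.Agent.DEC.R.SE
import Pool.Agent.DEC.R.MetF

/-!
# DEC-R: the condition is equivalent to the bounded condition (helper78)
-/

set_option autoImplicit false

namespace Pool.Agent.DEC.R

open Matrix Finset Polynomial

variable {d : ℕ}

theorem SE.det_ne {T S : Matrix (Fin d) (Fin d) ℤ} (h : SE T S) (hT : T.det ≠ 0) :
    ∃ R : Matrix (Fin d) (Fin d) ℤ, R.det ≠ 0 ∧ R * T = S * R := by
  obtain ⟨l, R, U, h1, h2, h3, h4⟩ := h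
  refine ⟨U, ?_, h2⟩
  intro h0
  have h5 : (T ^ l).det = 0 := by rw [← h3, Matrix.det_mul, h0, mul_zero]
  rw [Matrix.det_pow] at h5
  exact pow_ne_zero _ hT h5

theorem SE.det_ne' {T S : Matrix (Fin d) (Fin d) ℤ} (h : SE T S) (hT : T.det ≠ 0) : S.det ≠ 0 := by
  obtain ⟨R, hR, h1⟩ := h.det_ne hT
  intro h0
  have h2 := congrArg Matrix.det h1
  rw [Matrix.det_mul, Matrix.det_mul, h0, zero_mul] at h2
  exact mul_ne_zero hR hT h2

theorem SE.spectrum_le {T S : Matrix (Fin d) (Fin d) ℤ} (h : SE T S) (hT : T.det ≠ 0) {s : ℕ}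
    (hs : ∀ i j, |T i j| ≤ (s : ℤ)) :
    ∀ z ∈ spectrum ℂ ((toR S).map (Complex.ofRealHom)), ‖z‖ ≤ ((d * s + 1 : ℕ) : ℝ) := by
  obtain ⟨R, hR, h1⟩ := h.det_ne hT
  intro z hz
  refine Pool.Agent.DEC.R.spectrum_le T hs z ?_
  rw [spectrum.mem_iff, Matrix.isUnit_iff_isUnit_det] at hz ⊢
  intro hu
  apply hz
  have hmap : ∀ A B : Matrix (Fin d) (Fin d) ℤ, (toR (A * B)).map (Complex.ofRealHom) =
      (toR A).map (Complex.ofRealHom) * (toR B).map (Complex.ofRealHom) := by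
    intro A B
    rw [toR_mul, Matrix.map_mul]
  have h2 := congrArg (fun M => (toR M).map (Complex.ofRealHom)) h1
  simp only [hmap] at h2
  set RC := (toR R).map (Complex.ofRealHom) with hRC
  set TC := (toR T).map (Complex.ofRealHom) with hTC
  set SC := (toR S).map (Complex.ofRealHom) with hSC
  have hRd : RC.det ≠ 0 := by
    have e1 : RC.det = ((R.det : ℝ) : ℂ) := by
      rw [hRC, ← toR_det]
      exact (RingHom.map_det Complex.ofRealHom (toR R)).symm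
    rw [e1]
    exact_mod_cast hR
  have h3 : RC * (algebraMap ℂ (Matrix (Fin d) (Fin d) ℂ) z - TC) =
      (algebraMap ℂ (Matrix (Fin d) (Fin d) ℂ) z - SC) * RC := by
    rw [Matrix.mul_sub, Matrix.sub_mul, h2, ← Algebra.commutes z RC]
  have h4 := congrArg Matrix.det h3
  rw [Matrix.det_mul, Matrix.det_mul, mul_comm] at h4
  have h5 := mul_right_cancel₀ hRd h4
  rw [← h5]
  exact hu

/-- A bound for the entries of a matrix. -/
theorem exists_bound {e : ℕ} (T : Matrix (Fin d) (Fin e) ℤ) : ∃ s : ℕ, ∀ i j, |T i j| ≤ (s : ℤ) := by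
  refine ⟨∑ i, ∑ j, (T i j).natAbs, fun i j => ?_⟩
  have h1 : (T i j).natAbs ≤ ∑ j, (T i j).natAbs :=
    Finset.single_le_sum (f := fun j => (T i j).natAbs) (fun _ _ => Nat.zero_le _)
      (Finset.mem_univ j)
  have h2 : ∑ j, (T i j).natAbs ≤ ∑ i, ∑ j, (T i j).natAbs :=
    Finset.single_le_sum (f := fun i => ∑ j, (T i j).natAbs) (fun _ _ => Nat.zero_le _)
      (Finset.mem_univ i)
  rw [Int.abs_eq_natAbs]
  exact_mod_cast h1.trans h2

/-- **The bound of the reduction theorem.** -/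
def KF (d e s : ℕ) : ℕ :=
  KSE d (s + KS1 d s) (KM d (s + KS1 d s + KS1 d (s + KS1 d s))) +
    KSE e (s + KS1 d s) (KM e (s + KS1 d s + KS1 e (s + KS1 d s)))

/-- The bounded condition implies the condition. -/
theorem BCond.cond {K : ℕ} {T : Matrix (Fin d) (Fin d) ℤ} {e : ℕ}
    {S : Matrix (Fin e) (Fin e) ℤ} {Nz : ℕ → Prop} (h : BCond K T S Nz) : Cond T S Nz := by
  obtain ⟨n, h, T', h1, h2, h3, h4, h5⟩ := h
  exact ⟨n, h, T', SE.of_chain h1, h2, h3, SE.of_chain h4, h5⟩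

/-- The condition implies the bounded condition. -/
theorem Cond.bCond {m : ℤ[X]} (hm : (m.map (Int.castRingHom ℚ)).Separable) {s : ℕ}
    {T : Matrix (Fin d) (Fin d) ℤ} {e : ℕ} {S : Matrix (Fin e) (Fin e) ℤ} {Nz : ℕ → Prop}
    (hT : T.det ≠ 0) (hS : S.det ≠ 0) (hmT : aeval T m = 0) (hsT : ∀ i j, |T i j| ≤ (s : ℤ))
    (hsS : ∀ i j, |S i j| ≤ (s : ℤ)) (h : Cond T S Nz) : BCond (KF d e s) T S Nz := by
  obtain ⟨n, h, T', h1, l1, l2, h4, h5⟩ := h
  obtain ⟨p, hp⟩ := exists_met hm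
  have hT' : T'.det ≠ 0 := h1.det_ne' hT
  have hmT' : aeval T' m = 0 := h1.aeval_eq_zero hT' m hmT
  obtain ⟨s', hs'⟩ := exists_bound T'
  obtain ⟨H, hH, -, -⟩ := hp d T' s' hmT' hs'
  have hspec := h1.spectrum_le hT hsT
  have hρ : (1 : ℝ) ≤ ((d * s + 1 : ℕ) : ℝ) := by
    have : 1 ≤ d * s + 1 := by omega
    exact_mod_cast this
  obtain ⟨g, g', T'', e1, e2, e3, a1, a2, b1, b2, c1, c2, hb⟩ := exists_bdd_block hρ hH
    (fun H hH => hH.norm (by positivity) hspec) (fun H hH => hH.norm_adj (by positivity) hspec)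
    n (n + e) (Nat.le_add_right _ _) h l1 l2
  have hb' : ∀ i j, |T'' i j| ≤ ((KS1 d s : ℕ) : ℤ) := by
    refine bd_int ?_
    have e1 : ((kapN d : ℕ) : ℝ) ^ 2 * ((d * s + 1 : ℕ) : ℝ) =
        ((kapN d ^ 2 * (d * s + 1) : ℕ) : ℝ) := by push_cast; ring
    rw [e1, tauG_cast] at hb
    exact hb
  have hle1 : (s : ℤ) ≤ ((s + KS1 d s : ℕ) : ℤ) := by exact_mod_cast Nat.le_add_right _ _
  have hle2 : ((KS1 d s : ℕ) : ℤ) ≤ ((s + KS1 d s : ℕ) : ℤ) := by
    exact_mod_cast Nat.le_add_left _ _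
  have hSE : SE T T'' := h1.trans (SE.of_conj e1 e2 e3)
  have k1 : Relation.ReflTransGen (Step (KSE d (s + KS1 d s)
      (KM d (s + KS1 d s + KS1 d (s + KS1 d s))))) T T'' :=
    hSE.chain (fun T hT hs => hp d T _ hT hs) hT hmT (fun i j => (hsT i j).trans hle1)
      (fun i j => (hb' i j).trans hle2)
  obtain ⟨f1, f2⟩ := blk_conj h e1 e3 a1 a2 b1 l1 c2
  have f3 : blk g' n e h * blk g n e h = 1 := mul_eq_one_comm.mp f1
  have hSE2 : SE (blk T'' n e h) S := (SE.of_conj f1 f3 f2).symm.trans h4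
  have hdet : (blk T'' n e h).det ≠ 0 := hSE2.symm.det_ne' hS
  have hmB : aeval (blk T'' n e h) m = 0 := by
    rw [blk_aeval h c1 c2, hSE.aeval_eq_zero (hSE.det_ne' hT) m hmT]
    rfl
  have k2 : Relation.ReflTransGen (Step (KSE e (s + KS1 d s)
      (KM e (s + KS1 d s + KS1 e (s + KS1 d s))))) (blk T'' n e h) S :=
    hSE2.chain (fun T hT hs => hp e T _ hT hs) hdet hmB (fun i j => (hb' _ _).trans hle2)
      (fun i j => (hsS i j).trans hle1)
  refine ⟨n, h, T'', Step.chain_mono (Nat.le_add_right _ _) k1, c1, c2,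
    Step.chain_mono (Nat.le_add_left _ _) k2, fun k hk hN => ?_⟩
  have h6 : g * T' ^ k = T'' ^ k * g := by
    clear hk hN
    induction k with
    | zero => rw [pow_zero, pow_zero, Matrix.mul_one, Matrix.one_mul]
    | succ k ih => rw [pow_succ, ← Matrix.mul_assoc, ih, Matrix.mul_assoc, e3, pow_succ,
        Matrix.mul_assoc]
  have z0 : ∀ {A : Matrix (Fin d) (Fin d) ℤ}, LT A n → LT A (0 + n) := fun {A} hA => by
    rw [Nat.zero_add]; exact hA
  rw [blk_trace_conj (n := 0) (e := n) (by omega) e1 h6 (LT_zero _) (z0 a1) (LT_zero _)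
    (LT_zero _) (z0 (c1.pow k))]
  exact h5 k hk hN

/-- **The reduction theorem.** -/
theorem cond_iff_bCond {m : ℤ[X]} (hm : (m.map (Int.castRingHom ℚ)).Separable) {s : ℕ}
    {T : Matrix (Fin d) (Fin d) ℤ} {e : ℕ} {S : Matrix (Fin e) (Fin e) ℤ} {Nz : ℕ → Prop}
    (hT : T.det ≠ 0) (hS : S.det ≠ 0) (hmT : aeval T m = 0) (hsT : ∀ i j, |T i j| ≤ (s : ℤ))
    (hsS : ∀ i j, |S i j| ≤ (s : ℤ)) : Cond T S Nz ↔ BCond (KF d e s) T S Nz :=
  ⟨fun h => h.bCond hm hT hS hmT hsT hsS, fun h => h.cond⟩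

end Pool.Agent.DEC.R
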