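import Pool.Agent.DEC.R.SE
import Pool.Agent.DEC.R.MetE

/-!
# The bounds of DEC-R are primitive recursive (MP_59dda0_an; helper64)
-/

set_option autoImplicit false

namespace Pool.Agent.DEC.R

variable {α : Type*} [Primcodable α]

theorem pr_pow {f g : α → ℕ} (hf : Primrec f) (hg : Primrec g) : Primrec fun a => f a ^ g a :=
  (Primrec₂.unpaired'.1 Nat.Primrec.pow).comp hf hg

theorem pr_add {f g : α → ℕ} (hf : Primrec f) (hg : Primrec g) : Primrec fun a => f a + g a :=
  Primrec.nat_add.comp hf hg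

theorem pr_mul {f g : α → ℕ} (hf : Primrec f) (hg : Primrec g) : Primrec fun a => f a * g a :=
  Primrec.nat_mul.comp hf hg

theorem pr_factorial {f : α → ℕ} (hf : Primrec f) : Primrec fun a => (f a).factorial := by
  have h1 : Primrec Nat.factorial := by
    have h2 : Primrec fun n : ℕ => Nat.rec (motive := fun _ => ℕ) 1
        (fun k y => (k + 1) * y) n := by
      refine (Primrec.nat_rec (α := ℕ) (f := fun _ => 1) (g := fun _ p => (p.1 + 1) * p.2)
        (Primrec.const 1) ?_).comp Primrec.id Primrec.id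
      exact pr_mul (Primrec.succ.comp (Primrec.fst.comp Primrec.snd))
        (Primrec.snd.comp Primrec.snd)
    refine h2.of_eq fun n => ?_
    induction n with
    | zero => rfl
    | succ n ih =>
      simp only at ih ⊢
      rw [ih, Nat.factorial_succ]
  exact h1.comp hf

theorem pr_kapN {f : α → ℕ} (hf : Primrec f) : Primrec fun a => kapN (f a) := by
  have h1 : Primrec kapN := by
    have h2 : Primrec fun n : ℕ => Nat.rec (motive := fun _ => ℕ) 1
        (fun k y => (k + 2) * y ^ 2) n := by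
      refine (Primrec.nat_rec (α := ℕ) (f := fun _ => 1) (g := fun _ p => (p.1 + 2) * p.2 ^ 2)
        (Primrec.const 1) ?_).comp Primrec.id Primrec.id
      exact pr_mul (pr_add (Primrec.fst.comp Primrec.snd) (Primrec.const 2))
        (pr_pow (Primrec.snd.comp Primrec.snd) (Primrec.const 2))
    refine h2.of_eq fun n => ?_
    induction n with
    | zero => rfl
    | succ n ih =>
      simp only at ih ⊢
      rw [ih, kapN]
  exact h1.comp hf

theorem pr_tauN {fd fκ fθ fn : α → ℕ} (hd : Primrec fd) (hκ : Primrec fκ) (hθ : Primrec fθ)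
    (hn : Primrec fn) : Primrec fun a => tauN (fd a) (fκ a) (fθ a) (fn a) := by
  have h2 : Primrec fun a : α => Nat.rec (motive := fun _ => ℕ) 0
      (fun _ y => (fκ a * fθ a + fκ a * (fθ a + fd a * fκ a * y)) * (fκ a ^ 2 * fθ a) ^ fd a)
      (fn a) := by
    refine (Primrec.nat_rec (α := α) (f := fun _ => 0)
      (g := fun a p => (fκ a * fθ a + fκ a * (fθ a + fd a * fκ a * p.2)) *
        (fκ a ^ 2 * fθ a) ^ fd a) (Primrec.const 0) ?_).comp Primrec.id hn
    have kd : Primrec fun q : α × (ℕ × ℕ) => fd q.1 := hd.comp Primrec.fst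
    have kκ : Primrec fun q : α × (ℕ × ℕ) => fκ q.1 := hκ.comp Primrec.fst
    have kθ : Primrec fun q : α × (ℕ × ℕ) => fθ q.1 := hθ.comp Primrec.fst
    have ky : Primrec fun q : α × (ℕ × ℕ) => q.2.2 := Primrec.snd.comp Primrec.snd
    exact pr_mul (pr_add (pr_mul kκ kθ) (pr_mul kκ (pr_add kθ (pr_mul (pr_mul kd kκ) ky))))
      (pr_pow (pr_mul (pr_pow kκ (Primrec.const 2)) kθ) kd)
  refine h2.of_eq fun a => ?_
  generalize fn a = n
  induction n with
  | zero => rfl
  | succ n ih =>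
    simp only at ih ⊢
    rw [ih, tauN]

theorem pr_KB {fd fκ fρ : α → ℕ} (hd : Primrec fd) (hκ : Primrec fκ) (hρ : Primrec fρ) :
    Primrec fun a => KB (fd a) (fκ a) (fρ a) := by
  unfold KB
  have h2 : Primrec fun a => 2 * fκ a := pr_mul (Primrec.const 2) hκ
  exact pr_add (pr_tauN hd hκ (pr_mul (pr_pow hκ (Primrec.const 2)) hρ) hd)
    (pr_tauN hd h2 (pr_pow h2 (Primrec.const 6)) hd)

theorem pr_KC {fd fκ fρ : α → ℕ} (hd : Primrec fd) (hκ : Primrec fκ) (hρ : Primrec fρ) :
    Primrec fun a => KC (fd a) (fκ a) (fρ a) := by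
  unfold KC
  have h := pr_KB hd hκ hρ
  exact pr_add h (pr_mul hd (pr_mul h h))

theorem pr_kp {fd fK : α → ℕ} (hd : Primrec fd) (hK : Primrec fK) :
    Primrec fun a => kp (fd a) (fK a) := by
  unfold kp
  exact pr_add (pr_kapN hd) hK

theorem pr_KCC {fd fs fK : α → ℕ} (hd : Primrec fd) (hs : Primrec fs) (hK : Primrec fK) :
    Primrec fun a => KCC (fd a) (fs a) (fK a) := by
  unfold KCC
  exact pr_KC hd (pr_kp hd hK) (pr_add (pr_mul hd hs) (Primrec.const 1))

theorem pr_KS1 {fd fs : α → ℕ} (hd : Primrec fd) (hs : Primrec fs) :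
    Primrec fun a => KS1 (fd a) (fs a) := by
  unfold KS1
  have h := pr_kapN hd
  exact pr_tauN hd h (pr_mul (pr_pow h (Primrec.const 2))
    (pr_add (pr_mul hd hs) (Primrec.const 1))) hd

theorem pr_KS2 {fd fs : α → ℕ} (hd : Primrec fd) (hs : Primrec fs) :
    Primrec fun a => KS2 (fd a) (fs a) := by
  unfold KS2
  have h := pr_kapN hd
  exact pr_add (pr_tauN hd h (pr_mul (pr_pow h (Primrec.const 6))
    (pr_mul (pr_factorial hd) (pr_pow hs hd))) hd) (Primrec.const 1)

theorem pr_KSM {fd fs : α → ℕ} (hd : Primrec fd) (hs : Primrec fs) :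
    Primrec fun a => KSM (fd a) (fs a) := by
  unfold KSM
  have h1 := pr_KS1 hd hs
  have h2 := pr_KS2 hd hs
  exact pr_add (pr_add h1 h2) (pr_mul hd (pr_mul h1 (pr_mul (pr_factorial hd) (pr_pow h2 hd))))

theorem pr_KSE {fd fs fK : α → ℕ} (hd : Primrec fd) (hs : Primrec fs) (hK : Primrec fK) :
    Primrec fun a => KSE (fd a) (fs a) (fK a) := by
  unfold KSE
  exact pr_add (pr_KSM hd hs) (pr_KCC hd (pr_add hs (pr_KS1 hd hs)) hK)

theorem pr_KM0 {fd fs fb : α → ℕ} (hd : Primrec fd) (hs : Primrec fs) (hb : Primrec fb) :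
    Primrec fun a => KM0 (fd a) (fs a) (fb a) := by
  unfold KM0
  exact pr_add (pr_mul hd (pr_mul hd (pr_mul hd (pr_pow (pr_mul hb (pr_pow
    (pr_add (pr_mul hd (pr_add hs (pr_mul hd hs))) (Primrec.const 1)) hd))
    (Primrec.const 2))))) hd

end Pool.Agent.DEC.R
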