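import Pool.Agent.DEC.R.SE
import Pool.Agent.DEC.R.MetF
import Pool.Agent.DEC.R.PrimK

/-!
# Theorem SE without hypotheses on metrics, and its bound (DEC-R, MP_59dda0_an; helper64)
-/

set_option autoImplicit false

namespace Pool.Agent.DEC.R

open Matrix Polynomial

variable {d : ℕ}

/-- The bound of Theorem SE as a function of the size and of the entries. -/
def KSF (d s : ℕ) : ℕ := KSE d s (KM d (s + KS1 d s))

/-- **Theorem SE**: shift equivalent nonsingular integral matrices, killed by a polynomial which is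
separable over `ℚ`, are joined by a chain of bounded elementary equivalences. -/
theorem SE.chain_sep {m : ℤ[X]} (hsep : (m.map (Int.castRingHom ℚ)).Separable) {s : ℕ}
    {T S : Matrix (Fin d) (Fin d) ℤ} (h : SE T S) (hT : T.det ≠ 0) (hm : aeval T m = 0)
    (hsT : ∀ i j, |T i j| ≤ (s : ℤ)) (hsS : ∀ i j, |S i j| ≤ (s : ℤ)) :
    Relation.ReflTransGen (Step (KSF d s)) T S := by
  obtain ⟨p, hp⟩ := exists_met hsep
  exact h.chain (p := p) (fun T' h1 h2 => hp d T' _ h1 h2) hT hm hsT hsS

variable {α : Type*} [Primcodable α]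

theorem pr_BG {fd fs : α → ℕ} (hd : Primrec fd) (hs : Primrec fs) :
    Primrec fun a => BG (fd a) (fs a) := by
  unfold BG
  exact pr_pow (pr_add (pr_mul (pr_mul (Primrec.const 2) hd) hs) (Primrec.const 1))
    (pr_mul hd hd)

theorem pr_KM {fd fs : α → ℕ} (hd : Primrec fd) (hs : Primrec fs) :
    Primrec fun a => KM (fd a) (fs a) := by
  unfold KM
  exact pr_add (pr_KM0 hd hs (pr_BG hd hs)) (Primrec.const 1)

theorem pr_KSF {fd fs : α → ℕ} (hd : Primrec fd) (hs : Primrec fs) :
    Primrec fun a => KSF (fd a) (fs a) := by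
  unfold KSF
  exact pr_KSE hd hs (pr_KM hd (pr_add hs (pr_KS1 hd hs)))

end Pool.Agent.DEC.R
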