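import Pool.Agent.DEC.R.FinD
import Pool.Agent.DEC.R.SEF

/-!
# The bound `KF` is primitive recursive (DEC-R, MP_59dda0_an; helper64)
-/

set_option autoImplicit false

namespace Pool.Agent.DEC.R

variable {α : Type*} [Primcodable α]

theorem pr_KF {fd fe fs : α → ℕ} (hd : Primrec fd) (he : Primrec fe) (hs : Primrec fs) :
    Primrec fun a => KF (fd a) (fe a) (fs a) := by
  unfold KF
  have h1 := pr_add hs (pr_KS1 hd hs)
  exact pr_add (pr_KSE hd h1 (pr_KM hd (pr_add h1 (pr_KS1 hd h1))))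
    (pr_KSE he h1 (pr_KM he (pr_add h1 (pr_KS1 he h1))))

end Pool.Agent.DEC.R
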