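import Pool.Agent.DEC.R.Prom
import Pool.Agent.DEC.R.Cert
import Pool.Agent.DEC.R.Blocks
import Pool.Agent.DEC.R.Core
import Pool.Agent.DEC.R.PrimF
import Pool.Agent.DEC.R.FinD
import Pool.Agent.DEC.YesRE

/-!
# DEC-R: finite-to-one factor codes are decidable when the domain is diagonalizable (helper78)
-/

set_option autoImplicit false

namespace Pool.Agent.DEC.R

open Matrix Polynomial Pool.Agent.DEC
open Pool.Agent.FT (IsPrimitive HasEntropy edgeShift PeriodCondition TraceDimCondition)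

section Codes

variable {α : Type*} [Primcodable α]

/-- the witness of a core: the size, an integer and the matrices `P, Q, X, T, Y` -/
abbrev CW := ℕ × ℤ × List IM

/-- the `i`-th matrix of a witness -/
def cm (w : CW) (i : ℕ) : IM := w.2.2.getD i []

/-- the matrix `T` of the witness -/
def cT (w : CW) : Matrix (Fin w.1) (Fin w.1) ℤ := toMat w.1 w.1 (cm w 3)

/-- the conditions on the witness of a core, on codes -/
def CoreC (c : ℕ × IM) (w : CW) : Prop :=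
  toMat w.1 c.1 (mmul w.1 c.1 c.1 (cm w 0) (DEC.nrm c.1 c.1 c.2)) =
    toMat w.1 c.1 (mmul w.1 w.1 c.1 (cm w 3) (cm w 0)) ∧
  toMat w.1 w.1 (mmul w.1 c.1 w.1 (cm w 0) (cm w 1)) = toMat w.1 w.1 (mone w.1) ∧
  toMat c.1 c.1 (mpow c.1 (DEC.nrm c.1 c.1 c.2) c.1) = toMat c.1 c.1 (mmul c.1 w.1 c.1 (cm w 2) (cm w 0)) ∧
  w.2.1 ≠ 0 ∧
  toMat w.1 w.1 (mmul w.1 w.1 w.1 (cm w 3) (cm w 4)) = toMat w.1 w.1 (msmul w.1 w.1 w.2.1 (mone w.1))

theorem cCm {w : α → CW} (hw : Computable w) (i : ℕ) : Computable fun x => cm (w x) i := by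
  have h : Primrec fun w : CW => cm w i :=
    (Primrec.list_getD ([] : IM)).comp (Primrec.snd.comp Primrec.snd) (Primrec.const i)
  exact h.to_comp.comp hw

theorem re_coreC {c : α → ℕ × IM} {w : α → CW} (hc : Computable c) (hw : Computable w) :
    REPred fun x => CoreC (c x) (w x) := by
  have h1 : Computable fun x => (c x).1 := Computable.fst.comp hc
  have h2 : Computable fun x => (c x).2 := Computable.snd.comp hc
  have h3 : Computable fun x => (w x).1 := Computable.fst.comp hw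
  have h4 : Computable fun x => (w x).2.1 := Computable.fst.comp (Computable.snd.comp hw)
  refine re_and (re_matEq h3 h1 (cMmul h3 h1 h1 (cCm hw 0) (cNrm h1 h1 h2))
    (cMmul h3 h3 h1 (cCm hw 3) (cCm hw 0))) ?_
  refine re_and (re_matEq h3 h3 (cMmul h3 h1 h3 (cCm hw 0) (cCm hw 1)) (cMone h3)) ?_
  refine re_and (re_matEq h1 h1 (cMpow h1 (cNrm h1 h1 h2) h1)
    (cMmul h1 h3 h1 (cCm hw 2) (cCm hw 0))) ?_
  refine re_and (re_ne h4 (Computable.const 0)) ?_
  exact re_matEq h3 h3 (cMmul h3 h3 h3 (cCm hw 3) (cCm hw 4)) (cMsmul h3 h3 h4 (cMone h3))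

end Codes

theorem CoreC.core {c : ℕ × IM} {w : CW} (h : CoreC c w) :
    Core (cM c) (toMat w.1 c.1 (cm w 0)) (toMat c.1 w.1 (cm w 1)) (toMat c.1 w.1 (cm w 2))
      (cT w) := by
  obtain ⟨h1, h2, h3, h4, h5⟩ := h
  refine ⟨?_, ?_, ?_, ?_⟩
  · rw [toMat_mmul, toMat_mmul, toMat_nrm] at h1
    exact h1
  · rw [toMat_mmul, toMat_mone] at h2
    exact h2
  · rw [toMat_mmul, toMat_mpow, toMat_nrm] at h3
    exact h3
  · rw [toMat_mmul, toMat_msmul, toMat_mone] at h5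
    exact (det_ne_zero_iff _).2 ⟨w.2.1, _, h4, h5⟩

theorem exists_coreC (c : ℕ × IM) : ∃ w : CW, CoreC c w := by
  obtain ⟨r, P, Q, X, T, h⟩ := exists_core (cM c)
  obtain ⟨N, Y, hN, hY⟩ := (det_ne_zero_iff T).1 h.det
  refine ⟨(r, N, [ofMat P, ofMat Q, ofMat X, ofMat T, ofMat Y]), ?_, ?_, ?_, hN, ?_⟩
  · change toMat r c.1 (mmul r c.1 c.1 (ofMat P) (DEC.nrm c.1 c.1 c.2)) =
      toMat r c.1 (mmul r r c.1 (ofMat T) (ofMat P))
    rw [toMat_mmul, toMat_mmul, toMat_nrm, toMat_ofMat, toMat_ofMat]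
    exact h.PA
  · change toMat r r (mmul r c.1 r (ofMat P) (ofMat Q)) = toMat r r (mone r)
    rw [toMat_mmul, toMat_mone, toMat_ofMat, toMat_ofMat]
    exact h.PQ
  · change toMat c.1 c.1 (mpow c.1 (DEC.nrm c.1 c.1 c.2) c.1) =
      toMat c.1 c.1 (mmul c.1 r c.1 (ofMat X) (ofMat P))
    rw [toMat_mmul, toMat_mpow, toMat_nrm, toMat_ofMat, toMat_ofMat]
    exact h.XP
  · change toMat r r (mmul r r r (ofMat T) (ofMat Y)) = toMat r r (msmul r r N (mone r))
    rw [toMat_mmul, toMat_msmul, toMat_mone, toMat_ofMat, toMat_ofMat]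
    exact hY

/-- the witness of the certificate `No`: the witnesses of the cores and a bound -/
abbrev NW := (CW × CW) × ℕ

/-- the certificate `No` -/
def No (e : (ℕ × IM) × (ℕ × IM)) : Prop :=
  ∃ q : NW, CoreC e.1 q.1.1 ∧ CoreC e.2 q.1.2 ∧
    norm q.1.1.1 q.1.1.1 (cm q.1.1 3) ∈ mats q.1.1.1 q.1.1.1 q.2 ∧
    norm q.1.2.1 q.1.2.1 (cm q.1.2 3) ∈ mats q.1.2.1 q.1.2.1 q.2 ∧
    ¬ BCond (KF q.1.1.1 q.1.2.1 q.2) (cT q.1.1) (cT q.1.2) (fun n => (cT q.1.2 ^ n).trace = 0)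

theorem abs_of_mem {n s : ℕ} {L : IM} (h : norm n n L ∈ mats n n s) (i j : Fin n) :
    |toMat n n L i j| ≤ (s : ℤ) := by
  rw [← toMat_norm, toMat_apply]
  exact abs_ent_le_of_mem_mats h _ _

theorem mem_of_abs {n s : ℕ} {L : IM} (h : ∀ i j, |toMat n n L i j| ≤ (s : ℤ)) :
    norm n n L ∈ mats n n s := by
  have h1 : norm n n L = ofMat (toMat n n L) := by
    unfold norm ofMat
    refine mk_congr fun i hi j hj => ?_
    rw [dif_pos (And.intro hi hj)]
    rfl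
  rw [h1]
  exact ofMat_mem_mats _ h

theorem re_no : REPred No := by
  set β := ((ℕ × IM) × (ℕ × IM)) × NW with hβ
  have e1 : Computable fun p : β => p.1.1 := Computable.fst.comp Computable.fst
  have e2 : Computable fun p : β => p.1.2 := Computable.snd.comp Computable.fst
  have q1 : Primrec fun p : β => p.2.1.1 := Primrec.fst.comp (Primrec.fst.comp Primrec.snd)
  have q2 : Primrec fun p : β => p.2.1.2 := Primrec.snd.comp (Primrec.fst.comp Primrec.snd)
  have q3 : Primrec fun p : β => p.2.2 := Primrec.snd.comp Primrec.snd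
  have r1 : Primrec fun p : β => p.2.1.1.1 := Primrec.fst.comp q1
  have r2 : Primrec fun p : β => p.2.1.2.1 := Primrec.fst.comp q2
  have m1 : Primrec fun p : β => cm p.2.1.1 3 :=
    (Primrec.list_getD ([] : IM)).comp (Primrec.snd.comp (Primrec.snd.comp q1)) (Primrec.const 3)
  have m2 : Primrec fun p : β => cm p.2.1.2 3 :=
    (Primrec.list_getD ([] : IM)).comp (Primrec.snd.comp (Primrec.snd.comp q2)) (Primrec.const 3)
  have n1 : REPred fun p : β => norm p.2.1.1.1 p.2.1.1.1 (cm p.2.1.1 3) ∈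
      mats p.2.1.1.1 p.2.1.1.1 p.2.2 :=
    re_of_primrec (pMem (pNorm r1 r1 m1) (primrec_mats.comp (Primrec.pair r1 (Primrec.pair r1 q3))))
  have n2 : REPred fun p : β => norm p.2.1.2.1 p.2.1.2.1 (cm p.2.1.2 3) ∈
      mats p.2.1.2.1 p.2.1.2.1 p.2.2 :=
    re_of_primrec (pMem (pNorm r2 r2 m2) (primrec_mats.comp (Primrec.pair r2 (Primrec.pair r2 q3))))
  have hNz : REPred fun q : β × ℕ => (cT q.1.2.1.2 ^ q.2).trace = 0 := by
    have h : REPred fun q : β × ℕ =>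
        mtrace q.1.2.1.2.1 (mpow q.1.2.1.2.1 (cm q.1.2.1.2 3) q.2) = 0 :=
      re_eq (cMtrace (r2.to_comp.comp Computable.fst)
        (cMpow (r2.to_comp.comp Computable.fst) (m2.to_comp.comp Computable.fst) Computable.snd))
        (Computable.const 0)
    refine h.of_eq fun q => ?_
    rw [mtrace_eq, toMat_mpow]
    rfl
  have hB : REPred fun p : β => ¬ BCond (KF p.2.1.1.1 p.2.1.2.1 p.2.2)
      (toMat p.2.1.1.1 p.2.1.1.1 (cm p.2.1.1 3)) (toMat p.2.1.2.1 p.2.1.2.1 (cm p.2.1.2 3))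
      (fun n => (cT p.2.1.2 ^ n).trace = 0) :=
    re_notB r1.to_comp r2.to_comp (pr_KF r1 r2 q3).to_comp m1.to_comp m2.to_comp hNz
  exact re_exists (R := fun (e : (ℕ × IM) × (ℕ × IM)) (q : NW) => CoreC e.1 q.1.1 ∧
    CoreC e.2 q.1.2 ∧ norm q.1.1.1 q.1.1.1 (cm q.1.1 3) ∈ mats q.1.1.1 q.1.1.1 q.2 ∧
    norm q.1.2.1 q.1.2.1 (cm q.1.2 3) ∈ mats q.1.2.1 q.1.2.1 q.2 ∧
    ¬ BCond (KF q.1.1.1 q.1.2.1 q.2) (cT q.1.1) (cT q.1.2)
      (fun n => (cT q.1.2 ^ n).trace = 0))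
    (re_and (re_coreC e1 q1.to_comp) (re_and (re_coreC e2 q2.to_comp)
      (re_and n1 (re_and n2 hB))))

theorem no_of_not {c d : ℕ × IM} (h : ¬ TraceDimCondition (cM c) (cM d)) : No (c, d) := by
  obtain ⟨w, hw⟩ := exists_coreC c
  obtain ⟨v, hv⟩ := exists_coreC d
  obtain ⟨s1, hs1⟩ := exists_bound (cT w)
  obtain ⟨s2, hs2⟩ := exists_bound (cT v)
  have l1 : (s1 : ℤ) ≤ ((s1 + s2 : ℕ) : ℤ) := by exact_mod_cast Nat.le_add_right _ _
  have l2 : (s2 : ℤ) ≤ ((s1 + s2 : ℕ) : ℤ) := by exact_mod_cast Nat.le_add_left _ _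
  refine ⟨((w, v), s1 + s2), hw, hv, mem_of_abs fun i j => (hs1 i j).trans l1,
    mem_of_abs fun i j => (hs2 i j).trans l2, fun hB => h ?_⟩
  exact (traceDim_iff_tdc hw.core hv.core).2
    ((TDC_iff_Cond hw.core.det hv.core.det).2 hB.cond)

/-- The eventual part of `A` is diagonalizable: some separable polynomial `m` and some power of
the variable satisfy `A ^ k * m(A) = 0`. -/
def DiagER {a : ℕ} (A : Matrix (Fin a) (Fin a) ℕ) : Prop :=
  ∃ (m : ℤ[X]) (k : ℕ), (m.map (Int.castRingHom ℚ)).Separable ∧ aeval (zM A) (X ^ k * m) = 0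

theorem not_of_no {c d : ℕ × IM} (hd : DiagER (cM c)) (h : No (c, d)) :
    ¬ TraceDimCondition (cM c) (cM d) := by
  obtain ⟨m, k, hm, hk⟩ := hd
  obtain ⟨⟨⟨w, v⟩, s⟩, hw, hv, b1, b2, hB⟩ := h
  intro ht
  apply hB
  have h1 := (TDC_iff_Cond hw.core.det hv.core.det).1 ((traceDim_iff_tdc hw.core hv.core).1 ht)
  exact h1.bCond hm hw.core.det hv.core.det (hw.core.aeval_eq_zero hk)
    (fun i j => abs_of_mem b1 i j) (fun i j => abs_of_mem b2 i j)

/-- **The fallback theorem.** -/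
theorem fallback (hC : Criterion) :
    ∃ f : (ℕ × IM) × (ℕ × IM) → Bool, Computable f ∧ ∀ c d : ℕ × IM, IsPrimitive (cM c) →
      IsPrimitive (cM d) → DiagER (cM c) → (f (c, d) = true ↔
        ∃ φ : edgeShift (cM c) → edgeShift (cM d), FT.IsFactorCode φ ∧
          ∀ y, {x | φ x = y}.Finite) := by
  have c11 : Computable fun e : (ℕ × IM) × (ℕ × IM) => e.1.1 :=
    Computable.fst.comp Computable.fst
  have c12 : Computable fun e : (ℕ × IM) × (ℕ × IM) => e.1.2 :=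
    Computable.snd.comp Computable.fst
  have c21 : Computable fun e : (ℕ × IM) × (ℕ × IM) => e.2.1 :=
    Computable.fst.comp Computable.snd
  have c22 : Computable fun e : (ℕ × IM) × (ℕ × IM) => e.2.2 :=
    Computable.snd.comp Computable.snd
  refine promise_final hC (Prom := fun e => DiagER (cM e.1))
    (Yes := fun e => YesRE.Yes e.1.1 e.2.1 e.1.2 e.2.2) (No := No)
    (YesRE.re_yes c11 c21 c12 c22) re_no ?_ ?_ ?_
  · intro c d _ hd
    exact YesRE.yes_iff c.1 d.1 c.2 d.2 hd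
  · intro c d _ _ h
    exact no_of_not h
  · intro c d _ _ hp h
    exact not_of_no hp h

end Pool.Agent.DEC.R
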