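import Pool.Agent.DEC.R.Lin

/-!
# DEC-R: a metric for which all reduced bases are adapted to a flag (helper78)
-/

set_option autoImplicit false

namespace Pool.Agent.DEC.R

open Matrix Finset

variable {d : ℕ}

/-- Section 5: for a two-step flag of `T`-stable coordinate subspaces there is a form with the same
adjoint for which every `κ`-reduced basis is adapted to the flag. -/
theorem exists_flag_metric {H T P : Matrix (Fin d) (Fin d) ℝ} (h : PD H) (hadj : T * H = H * Pᵀ)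
    {κ : ℝ} (hκ : 1 ≤ κ) (n₁ n₂ : ℕ) (h12 : n₁ ≤ n₂) (hn : n₂ ≤ d)
    (hT1 : ∀ l m : Fin d, l.1 < n₁ → n₁ ≤ m.1 → T l m = 0)
    (hP1 : ∀ l m : Fin d, l.1 < n₁ → n₁ ≤ m.1 → P l m = 0)
    (hT2 : ∀ l m : Fin d, l.1 < n₂ → n₂ ≤ m.1 → T l m = 0)
    (hP2 : ∀ l m : Fin d, l.1 < n₂ → n₂ ≤ m.1 → P l m = 0) :
    ∃ H' : Matrix (Fin d) (Fin d) ℝ, PD H' ∧ T * H' = H' * Pᵀ ∧
      ∀ (g g' : Matrix (Fin d) (Fin d) ℤ) (a : Fin d → ℝ), g' * g = 1 →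
        RB κ (toR g * H' * (toR g)ᵀ) a →
        (∀ l m : Fin d, l.1 < n₁ → n₁ ≤ m.1 → g l m = 0) ∧
        (∀ l m : Fin d, l.1 < n₂ → n₂ ≤ m.1 → g l m = 0) := by
  obtain ⟨δ, hδ, hco⟩ := h.coord
  set R0 : ℝ := ∑ l : Fin d, nrm H (Pi.single l 1) with hR0
  have hR0n : 0 ≤ R0 := Finset.sum_nonneg (fun l _ => nrm_nonneg _ _)
  have hR0l : ∀ l : Fin d, nrm H (Pi.single l 1) ≤ R0 := fun l =>
    Finset.single_le_sum (f := fun l => nrm H (Pi.single l 1)) (fun i _ => nrm_nonneg _ _)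
      (Finset.mem_univ l)
  set τ₁ : ℝ := 1 + (κ ^ 3 * R0) ^ 2 / δ with hτ₁
  have hτ₁1 : 1 ≤ τ₁ := by
    have : 0 ≤ (κ ^ 3 * R0) ^ 2 / δ := by positivity
    linarith
  have hτ₁δ : (κ ^ 3 * R0) ^ 2 < τ₁ * δ := by
    rw [hτ₁, add_mul, div_mul_cancel₀ _ hδ.ne']
    linarith
  obtain ⟨H1, hH1, hadj1, hge1, hle1, heq1, hbig1⟩ :=
    exists_scaled h hadj n₁ hT1 hP1 τ₁ hτ₁1
  set τ₂ : ℝ := 1 + (κ ^ 3 * (Real.sqrt τ₁ * R0)) ^ 2 / δ with hτ₂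
  have hτ₂1 : 1 ≤ τ₂ := by
    have : 0 ≤ (κ ^ 3 * (Real.sqrt τ₁ * R0)) ^ 2 / δ := by positivity
    linarith
  have hτ₂δ : (κ ^ 3 * (Real.sqrt τ₁ * R0)) ^ 2 < τ₂ * δ := by
    rw [hτ₂, add_mul, div_mul_cancel₀ _ hδ.ne']
    linarith
  obtain ⟨H2, hH2, hadj2, hge2, hle2, heq2, hbig2⟩ :=
    exists_scaled hH1 hadj1 n₂ hT2 hP2 τ₂ hτ₂1
  have hone : ∀ (x : ℤ), x ≠ 0 → (1 : ℝ) ≤ (x : ℝ) ^ 2 := by
    intro x hx
    have h1 : 1 ≤ |x| := Int.one_le_abs hx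
    have h2 : (1 : ℝ) ≤ |(x : ℝ)| := by exact_mod_cast h1
    rw [← sq_abs]
    nlinarith
  refine ⟨H2, hH2, hadj2, fun g g' a hg hRB => ⟨?_, ?_⟩⟩
  · intro l m hl hm
    refine adapted (R := R0) hκ g g' hg hRB n₁ (h12.trans hn) ?_ ?_ l m hl hm
    · intro l hl
      have hs1 : ∀ k : Fin d, n₁ ≤ k.1 → (Pi.single l 1 : Fin d → ℝ) k = 0 := by
        intro k hk
        rw [Pi.single_eq_of_ne]
        rintro rfl
        omega
      have hs2 : ∀ k : Fin d, n₂ ≤ k.1 → (Pi.single l 1 : Fin d → ℝ) k = 0 :=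
        fun k hk => hs1 k (h12.trans hk)
      unfold nrm
      rw [heq2 _ hs2, heq1 _ hs1]
      exact hR0l l
    · rintro c ⟨k, hk, hck⟩
      refine Real.lt_sqrt_of_sq_lt ?_
      have h1 := hbig1 δ hco (fun k => (c k : ℝ)) k hk
      have h2 := hge2 (fun k => (c k : ℝ))
      have h3 := hone _ hck
      have h4 : τ₁ * δ ≤ τ₁ * (δ * (c k : ℝ) ^ 2) := by
        have : δ ≤ δ * (c k : ℝ) ^ 2 := by nlinarith
        gcongr
      linarith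
  · intro l m hl hm
    refine adapted (R := Real.sqrt τ₁ * R0) hκ g g' hg hRB n₂ hn ?_ ?_ l m hl hm
    · intro l hl
      have hs2 : ∀ k : Fin d, n₂ ≤ k.1 → (Pi.single l 1 : Fin d → ℝ) k = 0 := by
        intro k hk
        rw [Pi.single_eq_of_ne]
        rintro rfl
        omega
      unfold nrm
      rw [heq2 _ hs2]
      calc Real.sqrt (ip H1 (Pi.single l 1) (Pi.single l 1))
          ≤ Real.sqrt (τ₁ * ip H (Pi.single l 1) (Pi.single l 1)) := Real.sqrt_le_sqrt (hle1 _)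
        _ = Real.sqrt τ₁ * nrm H (Pi.single l 1) := by
          rw [Real.sqrt_mul (by linarith), nrm]
        _ ≤ Real.sqrt τ₁ * R0 := by
          have := hR0l l
          gcongr
    · rintro c ⟨k, hk, hck⟩
      refine Real.lt_sqrt_of_sq_lt ?_
      have hco1 : ∀ (c : Fin d → ℝ) (k : Fin d), δ * c k ^ 2 ≤ ip H1 c c :=
        fun c k => (hco c k).trans (hge1 c)
      have h1 := hbig2 δ hco1 (fun k => (c k : ℝ)) k hk
      have h3 := hone _ hck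
      have h4 : τ₂ * δ ≤ τ₂ * (δ * (c k : ℝ) ^ 2) := by
        have : δ ≤ δ * (c k : ℝ) ^ 2 := by nlinarith
        gcongr
      linarith

end Pool.Agent.DEC.R
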