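import Pool.Agent.DEC.R.SEq
import Pool.Agent.DEC.R.FlagM
import Pool.Agent.DEC.R.Conj
import Pool.Agent.DEC.R.Exist

/-!
# DEC-R: bounded block triangular forms (helper78)
-/

set_option autoImplicit false

namespace Pool.Agent.DEC.R

open Matrix Finset Polynomial

variable {d : ℕ}

theorem LT_zero (A : Matrix (Fin d) (Fin d) ℤ) : LT A 0 := fun l _ hl => absurd hl (Nat.not_lt_zero _)

/-- The inverse of a unimodular block triangular matrix is block triangular. -/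
theorem LT.inv {g g' : Matrix (Fin d) (Fin d) ℤ} {n : ℕ} (hg : LT g n) (h1 : g * g' = 1) :
    LT g' n := by
  rcases Nat.eq_zero_or_pos n with rfl | hn
  · exact LT_zero _
  have h2 : g' * g = 1 := mul_eq_one_comm.mp h1
  have hch : aeval g g.charpoly = 0 := Matrix.aeval_self_charpoly g
  have hX : g.charpoly = g.charpoly.divX * X + C (g.charpoly.coeff 0) :=
    (Polynomial.divX_mul_X_add _).symm
  rw [hX, map_add, map_mul, aeval_X, aeval_C] at hch
  have h3 : g.charpoly.coeff 0 • g' = - aeval g g.charpoly.divX := by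
    have h4 : (aeval g g.charpoly.divX * g + algebraMap ℤ _ (g.charpoly.coeff 0)) * g' = 0 := by
      rw [hch, Matrix.zero_mul]
    rw [Matrix.add_mul, Matrix.mul_assoc, h1, Matrix.mul_one, Algebra.algebraMap_eq_smul_one,
      Matrix.smul_mul, Matrix.one_mul] at h4
    exact eq_neg_of_add_eq_zero_right h4
  have hc0 : g.charpoly.coeff 0 ≠ 0 := by
    intro h0
    have h5 := Matrix.det_eq_sign_charpoly_coeff g
    rw [h0, mul_zero] at h5
    have h6 : g.det * g'.det = 1 := by rw [← det_mul, h1, det_one]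
    rw [h5, zero_mul] at h6
    exact zero_ne_one h6
  intro l m hl hm
  have h7 := aeval_block (T := g) (i := n - 1)
    (fun l m hl hm => hg l m (by omega) (by omega)) g.charpoly.divX l m (by omega) (by omega)
  have h8 := congrFun (congrFun h3 l) m
  rw [Matrix.neg_apply, h7, neg_zero, Matrix.smul_apply, smul_eq_mul] at h8
  exact (mul_eq_zero.mp h8).resolve_left hc0

/-- Existence of a bounded block triangular conjugate. -/
theorem exists_bdd_block {p : ℝ[X]} {ρ : ℝ} (hρ : 1 ≤ ρ) {T : Matrix (Fin d) (Fin d) ℤ}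
    {H : Matrix (Fin d) (Fin d) ℝ} (hH : Met p (toR T) H)
    (hn : ∀ H, Met p (toR T) H → ∀ u, nrm H (u ᵥ* toR T) ≤ ρ * nrm H u)
    (hn' : ∀ H, Met p (toR T) H → ∀ u, nrm H (u ᵥ* aeval (toR T) p) ≤ ρ * nrm H u)
    (n₁ n₂ : ℕ) (h12 : n₁ ≤ n₂) (hnd : n₂ ≤ d) (h1 : LT T n₁) (h2 : LT T n₂) :
    ∃ g g' T' : Matrix (Fin d) (Fin d) ℤ, g * g' = 1 ∧ g' * g = 1 ∧ g * T = T' * g ∧
      LT g n₁ ∧ LT g n₂ ∧ LT g' n₁ ∧ LT g' n₂ ∧ LT T' n₁ ∧ LT T' n₂ ∧
      bd (tauG d (kapN d) ((kapN d) ^ 2 * ρ) d) T' := by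
  have hκ : (1 : ℝ) ≤ (kapN d : ℝ) := by exact_mod_cast one_le_kapN d
  have hblk : ∀ n : ℕ, LT T n → (∀ l m : Fin d, l.1 < n → n ≤ m.1 → toR T l m = 0) ∧
      ∀ l m : Fin d, l.1 < n → n ≤ m.1 → aeval (toR T) p l m = 0 := by
    intro n hT
    have h3 : ∀ l m : Fin d, l.1 < n → n ≤ m.1 → toR T l m = 0 := by
      intro l m hl hm
      rw [toR_apply, hT l m hl hm, Int.cast_zero]
    refine ⟨h3, fun l m hl hm => ?_⟩
    exact aeval_block (T := toR T) (i := n - 1)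
      (fun l m hl' hm' => h3 l m (by omega) (by omega)) p l m (by omega) (by omega)
  obtain ⟨H', hpd, hadj, had⟩ := exists_flag_metric hH.pd hH.adj hκ n₁ n₂ h12 hnd
    (hblk n₁ h1).1 (hblk n₁ h1).2 (hblk n₂ h2).1 (hblk n₂ h2).2
  have hMet : Met p (toR T) H' := ⟨hpd, hadj⟩
  obtain ⟨g, a, hg, hRB⟩ := exists_RB hpd
  have hgu : IsUnit g := (Matrix.isUnit_iff_isUnit_det g).mpr hg
  obtain ⟨G, hG⟩ := hgu
  set g' : Matrix (Fin d) (Fin d) ℤ := (G⁻¹ : (Matrix (Fin d) (Fin d) ℤ)ˣ).val with hg'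
  have e1 : g * g' = 1 := by rw [← hG, hg', Units.mul_inv]
  have e2 : g' * g = 1 := by rw [← hG, hg', Units.inv_mul]
  obtain ⟨l1, l2⟩ := had g g' a e2 hRB
  have l1 : LT g n₁ := l1
  have l2 : LT g n₂ := l2
  refine ⟨g, g', g * T * g', e1, e2, ?_, l1, l2, l1.inv e1, l2.inv e1,
    (l1.mul h1).mul (l1.inv e1), (l2.mul h2).mul (l2.inv e1), ?_⟩
  · rw [Matrix.mul_assoc (g * T), e2, Matrix.mul_one]
  · refine bd_of_met hκ hρ hMet (hn _ hMet) (hn' _ hMet) (B := g) ?_ ?_ hRB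
    · rw [toR_det]
      exact hg.map (Int.castRingHom ℝ)
    · rw [Matrix.mul_assoc (g * T), e2, Matrix.mul_one]

/-- Blocks of a conjugate by a block triangular unimodular matrix. -/
theorem blk_conj {g g' T T' : Matrix (Fin d) (Fin d) ℤ} {n e : ℕ} (h : n + e ≤ d)
    (h1 : g * g' = 1) (h3 : g * T = T' * g) (lg : LT g n) (lg2 : LT g (n + e))
    (lg' : LT g' n) (lT : LT T n) (lT2 : LT T' (n + e)) :
    blk g n e h * blk g' n e h = 1 ∧ blk g n e h * blk T n e h = blk T' n e h * blk g n e h := by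
  refine ⟨?_, ?_⟩
  · rw [← blk_mul h lg' lg2, h1, blk_one]
  · rw [← blk_mul h lT lg2, h3, blk_mul h lg lT2]

/-- The trace of a diagonal block does not change. -/
theorem blk_trace_conj {g g' T T' : Matrix (Fin d) (Fin d) ℤ} {n e : ℕ} (h : n + e ≤ d)
    (h1 : g * g' = 1) (h3 : g * T = T' * g) (lg : LT g n) (lg2 : LT g (n + e))
    (lg' : LT g' n) (lT : LT T n) (lT2 : LT T' (n + e)) :
    (blk T' n e h).trace = (blk T n e h).trace := by
  obtain ⟨e1, e2⟩ := blk_conj h h1 h3 lg lg2 lg' lT lT2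
  have e3 : blk T' n e h = blk g n e h * (blk T n e h * blk g' n e h) := by
    rw [← Matrix.mul_assoc, e2, Matrix.mul_assoc, e1, Matrix.mul_one]
  have e4 : blk g' n e h * blk g n e h = 1 := mul_eq_one_comm.mp e1
  rw [e3, Matrix.trace_mul_comm, Matrix.mul_assoc, e4, Matrix.mul_one]

end Pool.Agent.DEC.R
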