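import Pool.Agent.DEC.R.Gap

/-!
# DEC-R: scaled metrics and flags (helper78)

`H` is a positive definite form, `V_n` the span of the first `n` coordinate vectors, `T` a matrix
with `H`-adjoint `P`, both preserving `V_n`.  Scaling the orthogonal complement of `V_n` by a large
factor gives a form for which `T` still has adjoint `P` and every reduced basis is adapted to
`V_n`.
-/

set_option autoImplicit false

namespace Pool.Agent.DEC.R

open Matrix Finset

variable {d : ℕ}

theorem ip_sub_left (M : Matrix (Fin d) (Fin d) ℝ) (u u' v : Fin d → ℝ) :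
    ip M (u - u') v = ip M u v - ip M u' v := by
  simp [ip, sub_dotProduct]

theorem ip_sub_right (M : Matrix (Fin d) (Fin d) ℝ) (u v v' : Fin d → ℝ) :
    ip M u (v - v') = ip M u v - ip M u v' := by
  simp [ip, mulVec_sub, dotProduct_sub]

theorem ip_conjB (M B : Matrix (Fin d) (Fin d) ℝ) (u v : Fin d → ℝ) :
    ip (B * M * Bᵀ) u v = ip M (u ᵥ* B) (v ᵥ* B) := by
  unfold ip
  rw [← mulVec_mulVec, ← mulVec_mulVec, mulVec_transpose, dotProduct_mulVec]

/-- A positive definite matrix is invertible. -/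
theorem PD.isUnit {M : Matrix (Fin d) (Fin d) ℝ} (h : PD M) : IsUnit M.det := by
  rw [isUnit_iff_ne_zero]
  intro h0
  obtain ⟨v, hv, hv0⟩ := exists_mulVec_eq_zero_iff.mpr h0
  have := h.pos v hv
  simp [ip, hv0] at this

/-- Lower bound by the coordinates. -/
theorem PD.coord {M : Matrix (Fin d) (Fin d) ℝ} (h : PD M) :
    ∃ δ : ℝ, 0 < δ ∧ ∀ (c : Fin d → ℝ) (k : Fin d), δ * c k ^ 2 ≤ ip M c c := by
  classical
  have hu := h.isUnit
  have hinv : M * M⁻¹ = 1 := mul_nonsing_inv M hu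
  set w : Fin d → Fin d → ℝ := fun k => M⁻¹ *ᵥ Pi.single k 1 with hw
  have hck : ∀ (c : Fin d → ℝ) (k : Fin d), ip M c (w k) = c k := by
    intro c k
    simp only [ip, hw]
    rw [mulVec_mulVec, hinv, one_mulVec, dotProduct_single]
    simp
  refine ⟨(1 + ∑ k, ip M (w k) (w k))⁻¹, ?_, fun c k => ?_⟩
  · have : 0 ≤ ∑ k, ip M (w k) (w k) := Finset.sum_nonneg (fun k _ => h.nonneg _)
    positivity
  · have h0 : 0 ≤ ∑ k, ip M (w k) (w k) := Finset.sum_nonneg (fun k _ => h.nonneg _)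
    have h1 : ip M (w k) (w k) ≤ ∑ k, ip M (w k) (w k) :=
      Finset.single_le_sum (f := fun k => ip M (w k) (w k)) (fun i _ => h.nonneg _)
        (Finset.mem_univ k)
    have h2 := h.cs c (w k)
    rw [hck] at h2
    have h3 : c k ^ 2 ≤ ip M c c * ip M (w k) (w k) := by
      have h4 : c k ^ 2 ≤ (nrm M c * nrm M (w k)) ^ 2 := by
        rw [← sq_abs (c k)]
        have := abs_nonneg (c k)
        gcongr
      rwa [mul_pow, h.sq_nrm, h.sq_nrm] at h4
    have h5 := h.nonneg c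
    rw [inv_mul_le_iff₀ (by positivity)]
    nlinarith

/-- The orthogonal projection onto the span of the first `n` coordinate vectors. -/
theorem PD.exists_proj {H : Matrix (Fin d) (Fin d) ℝ} (h : PD H) (n : ℕ) :
    ∃ π : Matrix (Fin d) (Fin d) ℝ, (∀ (c : Fin d → ℝ) (k : Fin d), n ≤ k.1 → (c ᵥ* π) k = 0) ∧
      ∀ c u : Fin d → ℝ, (∀ k : Fin d, n ≤ k.1 → u k = 0) → ip H (c - c ᵥ* π) u = 0 := by
  classical
  let ι := {l : Fin d // l.1 < n}
  let E : Matrix (Fin d) ι ℝ := fun i j => if i = j.1 then 1 else 0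
  let G : Matrix ι ι ℝ := Eᵀ * H * E
  have hE : ∀ (w : ι → ℝ), w ≠ 0 → E *ᵥ w ≠ 0 := by
    intro w hw h0
    apply hw
    funext j
    have h1 := congrFun h0 j.1
    simp only [mulVec, dotProduct, E, Pi.zero_apply] at h1
    rw [Finset.sum_eq_single j] at h1
    · simpa using h1
    · intro b _ hb
      rw [if_neg (fun e => hb (Subtype.ext e.symm)), zero_mul]
    · intro hj
      exact absurd (Finset.mem_univ _) hj
  have hG : IsUnit G.det := by
    rw [isUnit_iff_ne_zero]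
    intro h0
    obtain ⟨w, hw, hw0⟩ := exists_mulVec_eq_zero_iff.mpr h0
    have h1 := h.pos (E *ᵥ w) (hE w hw)
    have h2 : ip H (E *ᵥ w) (E *ᵥ w) = w ⬝ᵥ (G *ᵥ w) := by
      simp only [ip, G]
      rw [mulVec_mulVec, ← mulVec_mulVec w (Eᵀ * H) E, ← mulVec_mulVec _ Eᵀ H,
        dotProduct_mulVec w Eᵀ, vecMul_transpose, mulVec_mulVec]
    rw [h2, hw0, dotProduct_zero] at h1
    exact lt_irrefl _ h1
  refine ⟨H * E * G⁻¹ * Eᵀ, fun c k hk => ?_, fun c u hu => ?_⟩
  · rw [← vecMul_vecMul]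
    simp only [vecMul, dotProduct, transpose_apply, E]
    apply Finset.sum_eq_zero
    intro j _
    rw [if_neg, mul_zero]
    rintro rfl
    exact absurd j.2 (not_lt.mpr hk)
  · have hu' : u = E *ᵥ (fun j : ι => u j.1) := by
      funext k
      simp only [mulVec, dotProduct, E]
      by_cases hk : k.1 < n
      · rw [Finset.sum_eq_single ⟨k, hk⟩]
        · simp
        · intro b _ hb
          rw [if_neg (fun e => hb (Subtype.ext e.symm)), zero_mul]
        · intro hj
          exact absurd (Finset.mem_univ _) hj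
      · rw [hu k (not_lt.mp hk), Finset.sum_eq_zero]
        intro j _
        rw [if_neg, zero_mul]
        rintro rfl
        exact hk j.2
    set w : ι → ℝ := fun j : ι => u j.1
    rw [hu', ip_sub_left, sub_eq_zero]
    unfold ip
    rw [dotProduct_mulVec c, dotProduct_mulVec (c ᵥ* H) E, dotProduct_mulVec (c ᵥ* (H * E * G⁻¹ * Eᵀ)),
      dotProduct_mulVec _ E]
    congr 1
    simp only [vecMul_vecMul]
    congr 1
    calc H * E = H * E * (G⁻¹ * G) := by rw [nonsing_inv_mul G hG, Matrix.mul_one]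
      _ = H * E * G⁻¹ * Eᵀ * (H * E) := by simp only [G, Matrix.mul_assoc]
      _ = _ := by simp only [Matrix.mul_assoc]

/-- The scaled form. -/
noncomputable def scl (H π : Matrix (Fin d) (Fin d) ℝ) (τ : ℝ) : Matrix (Fin d) (Fin d) ℝ :=
  τ • H - (τ - 1) • (π * H * πᵀ)

theorem ip_scl (H π : Matrix (Fin d) (Fin d) ℝ) (τ : ℝ) (u v : Fin d → ℝ) :
    ip (scl H π τ) u v = τ * ip H u v - (τ - 1) * ip H (u ᵥ* π) (v ᵥ* π) := by
  rw [← ip_conjB]
  simp [ip, scl, sub_mulVec, smul_mulVec, dotProduct_sub, dotProduct_smul]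

/-- Scaling lemma. -/
theorem exists_scaled {H T P : Matrix (Fin d) (Fin d) ℝ} (h : PD H) (hadj : T * H = H * Pᵀ)
    (n : ℕ) (hT : ∀ l m : Fin d, l.1 < n → n ≤ m.1 → T l m = 0)
    (hP : ∀ l m : Fin d, l.1 < n → n ≤ m.1 → P l m = 0) (τ : ℝ) (hτ : 1 ≤ τ) :
    ∃ H' : Matrix (Fin d) (Fin d) ℝ, PD H' ∧ T * H' = H' * Pᵀ ∧
      (∀ u : Fin d → ℝ, ip H u u ≤ ip H' u u) ∧ (∀ u : Fin d → ℝ, ip H' u u ≤ τ * ip H u u) ∧
      (∀ u : Fin d → ℝ, (∀ k : Fin d, n ≤ k.1 → u k = 0) → ip H' u u = ip H u u) ∧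
      ∀ δ : ℝ, (∀ (c : Fin d → ℝ) (k : Fin d), δ * c k ^ 2 ≤ ip H c c) →
        ∀ (c : Fin d → ℝ) (k : Fin d), n ≤ k.1 → τ * (δ * c k ^ 2) ≤ ip H' c c := by
  obtain ⟨π, h1, h2⟩ := h.exists_proj n
  have horth : ∀ c : Fin d → ℝ, ip H c c =
      ip H (c ᵥ* π) (c ᵥ* π) + ip H (c - c ᵥ* π) (c - c ᵥ* π) := by
    intro c
    have h3 := h2 c (c ᵥ* π) (h1 c)
    rw [ip_sub_left] at h3
    have h4 := h.comm c (c ᵥ* π)
    rw [ip_sub_left, ip_sub_right, ip_sub_right]
    linarith
  have huniq : ∀ c v : Fin d → ℝ, (∀ k : Fin d, n ≤ k.1 → v k = 0) →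
      (∀ u : Fin d → ℝ, (∀ k : Fin d, n ≤ k.1 → u k = 0) → ip H (c - v) u = 0) → c ᵥ* π = v := by
    intro c v hv hv'
    by_contra hne
    have hd : c ᵥ* π - v ≠ 0 := sub_ne_zero.mpr hne
    have h3 := h.pos _ hd
    have hs : ∀ k : Fin d, n ≤ k.1 → (c ᵥ* π - v) k = 0 := by
      intro k hk
      simp [h1 c k hk, hv k hk]
    have h4 := hv' _ hs
    have h5 := h2 c _ hs
    have h6 : ip H (c ᵥ* π - v) (c ᵥ* π - v) = 0 := by
      have : c ᵥ* π - v = (c - v) - (c - c ᵥ* π) := by abel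
      nth_rewrite 1 [this]
      rw [ip_sub_left, h4, h5, sub_zero]
    linarith
  have hTv : ∀ u : Fin d → ℝ, (∀ k : Fin d, n ≤ k.1 → u k = 0) →
      ∀ k : Fin d, n ≤ k.1 → (u ᵥ* T) k = 0 := by
    intro u hu k hk
    simp only [vecMul, dotProduct]
    apply Finset.sum_eq_zero
    intro l _
    by_cases hl : l.1 < n
    · rw [hT l k hl hk, mul_zero]
    · rw [hu l (not_lt.mp hl), zero_mul]
  have hPv : ∀ u : Fin d → ℝ, (∀ k : Fin d, n ≤ k.1 → u k = 0) →
      ∀ k : Fin d, n ≤ k.1 → (u ᵥ* P) k = 0 := by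
    intro u hu k hk
    simp only [vecMul, dotProduct]
    apply Finset.sum_eq_zero
    intro l _
    by_cases hl : l.1 < n
    · rw [hP l k hl hk, mul_zero]
    · rw [hu l (not_lt.mp hl), zero_mul]
  have hadj' : ∀ u v : Fin d → ℝ, ip H (u ᵥ* T) v = ip H u (v ᵥ* P) := by
    intro u v
    unfold ip
    rw [dotProduct_mulVec, dotProduct_mulVec, vecMul_vecMul, hadj, ← mulVec_transpose P,
      ← vecMul_vecMul, dotProduct_mulVec]
  have hcomm : T * π = π * T := by
    apply Matrix.ext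
    intro i j
    have h3 : (Pi.single i 1 : Fin d → ℝ) ᵥ* T ᵥ* π = (Pi.single i 1 : Fin d → ℝ) ᵥ* π ᵥ* T := by
      apply huniq
      · exact hTv _ (h1 _)
      · intro u hu
        rw [← sub_vecMul, hadj']
        exact h2 _ _ (hPv u hu)
    rw [vecMul_vecMul, vecMul_vecMul] at h3
    have h4 := congrFun h3 j
    simpa using h4
  refine ⟨scl H π τ, ⟨?_, ?_⟩, ?_, ?_, ?_, ?_, ?_⟩
  · simp only [scl, transpose_sub, transpose_smul, transpose_mul, transpose_transpose, h.symm,
      Matrix.mul_assoc]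
  · intro c hc
    rw [ip_scl]
    have h3 := horth c
    have h4 := h.pos c hc
    have h5 := h.nonneg (c - c ᵥ* π)
    have h6 := h.nonneg (c ᵥ* π)
    nlinarith
  · have h3 : π * H * πᵀ * Pᵀ = π * (T * H) * πᵀ := by
      calc π * H * πᵀ * Pᵀ = π * H * (P * π)ᵀ := by rw [transpose_mul, Matrix.mul_assoc]
        _ = π * H * (π * P)ᵀ := by
          congr 2
          -- `P` commutes with `π` as well
          apply Matrix.ext
          intro i j
          have h3 : (Pi.single i 1 : Fin d → ℝ) ᵥ* P ᵥ* π =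
              (Pi.single i 1 : Fin d → ℝ) ᵥ* π ᵥ* P := by
            apply huniq
            · exact hPv _ (h1 _)
            · intro u hu
              rw [← sub_vecMul, h.comm, ← hadj', h.comm]
              exact h2 _ _ (hTv u hu)
          rw [vecMul_vecMul, vecMul_vecMul] at h3
          have h4 := congrFun h3 j
          simpa using h4
        _ = π * (H * Pᵀ) * πᵀ := by rw [transpose_mul]; simp only [Matrix.mul_assoc]
        _ = _ := by rw [← hadj]
    rw [scl, Matrix.mul_sub, Matrix.sub_mul, Matrix.mul_smul, Matrix.smul_mul, Matrix.mul_smul,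
      Matrix.smul_mul, hadj, h3]
    congr 2
    calc T * (π * H * πᵀ) = (T * π) * H * πᵀ := by simp only [Matrix.mul_assoc]
      _ = _ := by rw [hcomm]; simp only [Matrix.mul_assoc]
  · intro u
    rw [ip_scl]
    have h3 := horth u
    have h5 := h.nonneg (u - u ᵥ* π)
    nlinarith
  · intro u
    rw [ip_scl]
    have h6 := h.nonneg (u ᵥ* π)
    nlinarith
  · intro u hu
    have h3 : u ᵥ* π = u := huniq u u hu (by intro v _; simp [ip])
    rw [ip_scl, h3]
    ring
  · intro δ hδ c k hk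
    rw [ip_scl]
    have h3 := horth c
    have h6 := h.nonneg (c ᵥ* π)
    have h7 := hδ (c - c ᵥ* π) k
    have h8 : (c - c ᵥ* π) k = c k := by simp [h1 c k hk]
    rw [h8] at h7
    nlinarith

end Pool.Agent.DEC.R
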