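import Pool.Agent.DEC.R.Flag
import Pool.Agent.DEC.R.Bound

/-!
# DEC-R: support lemma and adapted bases (helper78)
-/

set_option autoImplicit false

namespace Pool.Agent.DEC.R

open Matrix Finset

variable {d : ℕ}

/-- If the first `n` rows are supported on the first `l < n` columns, the determinant is zero. -/
theorem det_zero_of_support (C : Matrix (Fin d) (Fin d) ℝ) (n l : ℕ) (hln : l < n) (hn : n ≤ d)
    (h : ∀ j k : Fin d, j.1 < n → l ≤ k.1 → C j k = 0) : C.det = 0 := by
  classical
  let A : Matrix (Fin l) (Fin n) ℝ := fun k j =>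
    C (Fin.castLE hn j) (Fin.castLE (hln.le.trans hn) k)
  have hk : LinearMap.ker A.mulVecLin ≠ ⊥ := by
    apply LinearMap.ker_ne_bot_of_finrank_lt
    simpa using hln
  obtain ⟨w, hw, hw0⟩ := Submodule.exists_mem_ne_zero_of_ne_bot hk
  rw [LinearMap.mem_ker] at hw
  rw [← exists_vecMul_eq_zero_iff]
  refine ⟨fun i => if hi : i.1 < n then w ⟨i.1, hi⟩ else 0, ?_, ?_⟩
  · intro h0
    apply hw0
    funext j
    have := congrFun h0 (Fin.castLE hn j)
    simpa using this
  · funext k
    simp only [vecMul, dotProduct, Pi.zero_apply]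
    by_cases hkl : k.1 < l
    · have h1 := congrFun hw ⟨k.1, hkl⟩
      simp only [mulVecLin_apply, mulVec, dotProduct, A, Pi.zero_apply] at h1
      refine Eq.trans ?_ h1
      symm
      apply Finset.sum_of_injOn (Fin.castLE hn)
      · intro a _ b _ hab
        exact Fin.castLE_injective hn hab
      · intro a _
        exact Finset.mem_coe.mpr (Finset.mem_univ _)
      · intro i _ hi
        have : ¬ i.1 < n := by
          intro hin
          apply hi
          exact ⟨⟨i.1, hin⟩, by simp, by ext; simp⟩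
        rw [dif_neg this, zero_mul]
      · intro a _
        rw [dif_pos (by simp : (Fin.castLE hn a).1 < n), mul_comm]
        rfl
    · apply Finset.sum_eq_zero
      intro i _
      by_cases hi : i.1 < n
      · rw [h i k hi (not_lt.mp hkl), mul_zero]
      · rw [dif_neg hi, zero_mul]

/-- The integral version. -/
theorem det_zero_of_support_int (C : Matrix (Fin d) (Fin d) ℤ) (n l : ℕ) (hln : l < n)
    (hn : n ≤ d) (h : ∀ j k : Fin d, j.1 < n → l ≤ k.1 → C j k = 0) : C.det = 0 := by
  have h1 := det_zero_of_support (toR C) n l hln hn (fun j k hj hk => by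
    rw [toR_apply, h j k hj hk, Int.cast_zero])
  rw [toR_det] at h1
  exact_mod_cast h1

/-- A reduced basis for a form with a large gap at `n` is adapted to the first `n` coordinates. -/
theorem adapted {κ R : ℝ} {H : Matrix (Fin d) (Fin d) ℝ} (hκ : 1 ≤ κ)
    (g g' : Matrix (Fin d) (Fin d) ℤ) (hg : g' * g = 1) {a : Fin d → ℝ}
    (h : RB κ (toR g * H * (toR g)ᵀ) a) (n : ℕ) (hn : n ≤ d)
    (hR : ∀ l : Fin d, l.1 < n → nrm H (Pi.single l 1) ≤ R)
    (hbig : ∀ c : Fin d → ℤ, (∃ k : Fin d, n ≤ k.1 ∧ c k ≠ 0) →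
      κ ^ 3 * R < nrm H (fun k => (c k : ℝ))) (l m : Fin d) (hl : l.1 < n) (hm : n ≤ m.1) :
    g l m = 0 := by
  by_contra hne
  have hrow : ∀ j : Fin d, nrm (toR g * H * (toR g)ᵀ) (Pi.single j 1) =
      nrm H (fun k => (g j k : ℝ)) := by
    intro j
    unfold nrm
    rw [ip_conjB]
    have : (Pi.single j 1 : Fin d → ℝ) ᵥ* toR g = fun k => (g j k : ℝ) := by
      funext k
      simp [toR]
    rw [this]
  -- some standard vector `e_j`, `j < n`, needs a basis vector of index `≥ l`
  have hex : ∃ j k : Fin d, j.1 < n ∧ l.1 ≤ k.1 ∧ g' j k ≠ 0 := by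
    by_contra hcon
    push Not at hcon
    have h0 : g'.det = 0 := det_zero_of_support_int g' n l.1 hl hn (fun j k hj hk => hcon j k hj hk)
    have h1 : g'.det * g.det = 1 := by rw [← det_mul, hg, det_one]
    rw [h0, zero_mul] at h1
    exact zero_ne_one h1
  obtain ⟨j, k, hj, hk, hjk⟩ := hex
  have h1 : nrm (toR g * H * (toR g)ᵀ) (fun k => (g' j k : ℝ)) = nrm H (Pi.single j 1) := by
    unfold nrm
    rw [ip_conjB]
    have : (fun k => (g' j k : ℝ)) ᵥ* toR g = (Pi.single j 1 : Fin d → ℝ) := by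
      have h2 : toR g' * toR g = 1 := by rw [← toR_mul, hg, toR_one]
      have h3 : (fun k => (g' j k : ℝ)) = (Pi.single j 1 : Fin d → ℝ) ᵥ* toR g' := by
        funext k
        simp [toR]
      rw [h3, vecMul_vecMul, h2, vecMul_one]
    rw [this]
  have h2 := h.coef (fun k => (g' j k : ℝ)) k
  rw [h1] at h2
  have h3 : (1 : ℝ) ≤ |(g' j k : ℝ)| := by
    have : 1 ≤ |g' j k| := Int.one_le_abs hjk
    exact_mod_cast this
  have h4 := h.pos k
  have h5 := hR j hj
  have h6 : a k ≤ κ * R := by
    calc a k = 1 * a k := (one_mul _).symm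
      _ ≤ |(g' j k : ℝ)| * a k := by gcongr
      _ ≤ κ * nrm H (Pi.single j 1) := h2
      _ ≤ κ * R := by gcongr
  have h7 := h.mono l k (by rw [Fin.le_def]; exact hk)
  have h8 := h.diag l
  rw [hrow] at h8
  have h9 := hbig (g l) ⟨m, hm, hne⟩
  have h10 : κ * a l ≤ κ ^ 3 * R := by
    calc κ * a l ≤ κ * (κ * a k) := by gcongr
      _ ≤ κ * (κ * (κ * R)) := by gcongr
      _ = κ ^ 3 * R := by ring
  linarith

end Pool.Agent.DEC.R
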