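import Pool.Agent.DEC.Glue2

/-!
# DEC-R: the decision theorem under a promise (helper78)
-/

set_option autoImplicit false

namespace Pool.Agent.DEC.R

open Pool.Agent.DEC
open Pool.Agent.FT (IsPrimitive HasEntropy edgeShift PeriodCondition)

/-- If one of two recursively enumerable predicates always holds, then a total computable function
chooses one of them. -/
theorem total_choice {α : Type*} [Primcodable α] {Y N : α → Prop} (hY : REPred Y) (hN : REPred N)
    (h : ∀ a, Y a ∨ N a) :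
    ∃ f : α → Bool, Computable f ∧ (∀ a, f a = true → Y a) ∧ ∀ a, f a = false → N a := by
  obtain ⟨k, pk, hk⟩ := Partrec.merge' (hY.map (Computable.const true).to₂)
    (hN.map (Computable.const false).to₂)
  have hmem : ∀ a b, b ∈ k a → (b = true ∧ Y a) ∨ (b = false ∧ N a) := by
    intro a b hb
    have := (hk a).1 b hb
    simp only [Part.mem_map_iff, Part.mem_assert_iff, Part.mem_some_iff, exists_prop,
      and_true, exists_const] at this
    rcases this with ⟨h, e⟩ | ⟨h, e⟩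
    · exact Or.inl ⟨e.symm, h⟩
    · exact Or.inr ⟨e.symm, h⟩
  have hdom : ∀ a, (k a).Dom := by
    intro a
    refine (hk a).2.2 ?_
    rcases h a with h | h
    · left
      simpa [Part.assert] using h
    · right
      simpa [Part.assert] using h
  refine ⟨fun a => (k a).get (hdom a), ?_, ?_, ?_⟩
  · refine Partrec.of_eq pk fun a => ?_
    exact (Part.some_get (hdom a)).symm
  · intro a ha
    rcases hmem a _ (Part.get_mem (hdom a)) with ⟨-, h1⟩ | ⟨h1, -⟩
    · exact h1
    · exact absurd (ha.symm.trans h1) (by decide)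
  · intro a ha
    rcases hmem a _ (Part.get_mem (hdom a)) with ⟨h1, -⟩ | ⟨-, h1⟩
    · exact absurd (ha.symm.trans h1) (by decide)
    · exact h1

/-- The decision theorem under a promise. -/
theorem promise_final (hC : Criterion) {Prom Yes No : (ℕ × IM) × (ℕ × IM) → Prop}
    (hY : REPred Yes) (hN : REPred No)
    (h1 : ∀ c d : ℕ × IM, IsPrimitive (cM c) → IsPrimitive (cM d) →
      (Yes (c, d) ↔ FT.TraceDimCondition (cM c) (cM d)))
    (h2 : ∀ c d : ℕ × IM, IsPrimitive (cM c) → IsPrimitive (cM d) →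
      ¬ FT.TraceDimCondition (cM c) (cM d) → No (c, d))
    (h3 : ∀ c d : ℕ × IM, IsPrimitive (cM c) → IsPrimitive (cM d) → Prom (c, d) → No (c, d) →
      ¬ FT.TraceDimCondition (cM c) (cM d)) :
    ∃ f : (ℕ × IM) × (ℕ × IM) → Bool, Computable f ∧ ∀ c d : ℕ × IM, IsPrimitive (cM c) →
      IsPrimitive (cM d) → Prom (c, d) → (f (c, d) = true ↔
        ∃ φ : edgeShift (cM c) → edgeShift (cM d), FT.IsFactorCode φ ∧
          ∀ y, {x | φ x = y}.Finite) := by
  classical
  set p : (ℕ × IM) × (ℕ × IM) → Prop := fun e => (IsPrimitive (cM e.1) ∧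
    PosInt (cM e.1) (cM e.2) ∧ Yes e) ∧ (IsPrimitive (cM e.2) ∧
      PeriodCondition (edgeShift (cM e.1)) (edgeShift (cM e.2))) with hp
  set q : (ℕ × IM) × (ℕ × IM) → Prop := fun e => ¬ IsPrimitive (cM e.1) ∨
    (¬ IsPrimitive (cM e.2) ∨ ((IsPrimitive (cM e.1) ∧ IsPrimitive (cM e.2) ∧
      (RowLt (cM e.1) (cM e.2) ∨ RowLt (cM e.2) (cM e.1))) ∨
    (No e ∨ ¬ PeriodCondition (edgeShift (cM e.1)) (edgeShift (cM e.2))))) with hq
  have c11 : Computable fun e : (ℕ × IM) × (ℕ × IM) => e.1.1 :=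
    Computable.fst.comp Computable.fst
  have c12 : Computable fun e : (ℕ × IM) × (ℕ × IM) => e.1.2 :=
    Computable.snd.comp Computable.fst
  have c21 : Computable fun e : (ℕ × IM) × (ℕ × IM) => e.2.1 :=
    Computable.fst.comp Computable.snd
  have c22 : Computable fun e : (ℕ × IM) × (ℕ × IM) => e.2.2 :=
    Computable.snd.comp Computable.snd
  have r1 : REPred fun e : (ℕ × IM) × (ℕ × IM) => IsPrimitive (cM e.1) :=
    re_isPrimitive c11 c12
  have r2 : REPred fun e : (ℕ × IM) × (ℕ × IM) => IsPrimitive (cM e.2) :=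
    re_isPrimitive c21 c22
  have r3 : REPred fun e : (ℕ × IM) × (ℕ × IM) => PosInt (cM e.1) (cM e.2) :=
    re_entropy_eq c11 c21 c12 c22
  have r4 : REPred fun e : (ℕ × IM) × (ℕ × IM) => RowLt (cM e.1) (cM e.2) :=
    re_rowLt c11 c21 c12 c22
  have r5 : REPred fun e : (ℕ × IM) × (ℕ × IM) => RowLt (cM e.2) (cM e.1) :=
    re_rowLt c21 c11 c22 c12
  have r6 : REPred fun e : (ℕ × IM) × (ℕ × IM) => ¬ IsPrimitive (cM e.1) :=
    re_not_isPrimitive c11 c12
  have r7 : REPred fun e : (ℕ × IM) × (ℕ × IM) => ¬ IsPrimitive (cM e.2) :=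
    re_not_isPrimitive c21 c22
  have r8 : REPred fun e : (ℕ × IM) × (ℕ × IM) => IsPrimitive (cM e.2) ∧
      PeriodCondition (edgeShift (cM e.1)) (edgeShift (cM e.2)) := re_period c11 c21 c12 c22
  have r9 : REPred fun e : (ℕ × IM) × (ℕ × IM) =>
      ¬ PeriodCondition (edgeShift (cM e.1)) (edgeShift (cM e.2)) :=
    re_not_period c11 c21 c12 c22
  have rp : REPred p := re_and (re_and r1 (re_and r3 hY)) r8
  have rq : REPred q := re_or r6 (re_or r7 (re_or (re_and r1 (re_and r2 (re_or r4 r5)))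
    (re_or hN r9)))
  have hpq : ∀ e, p e ∨ q e := by
    rintro ⟨c, d⟩
    by_cases hc : IsPrimitive (cM c)
    · by_cases hd : IsPrimitive (cM d)
      · by_cases hs : SameEnt (cM c) (cM d)
        · by_cases ht : FT.TraceDimCondition (cM c) (cM d)
          · by_cases hper : PeriodCondition (edgeShift (cM c)) (edgeShift (cM d))
            · exact Or.inl ⟨⟨hc, (entropy_eq_iff hc hd).1 hs, (h1 c d hc hd).2 ht⟩, hd, hper⟩
            · exact Or.inr (Or.inr (Or.inr (Or.inr (Or.inr hper))))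
          · exact Or.inr (Or.inr (Or.inr (Or.inr (Or.inl (h2 c d hc hd ht)))))
        · exact Or.inr (Or.inr (Or.inr (Or.inl ⟨hc, hd, (entropy_ne_iff hc hd).1 hs⟩)))
      · exact Or.inr (Or.inr (Or.inl hd))
    · exact Or.inr (Or.inl hc)
  obtain ⟨f, hf, hf1, hf2⟩ := total_choice rp rq hpq
  refine ⟨f, hf, fun c d hc hd hpr => ?_⟩
  rw [finIff _ _ hc hd]
  constructor
  · intro h
    obtain ⟨⟨-, h5, h6⟩, -, h7⟩ := hf1 _ h
    have hs : SameEnt (cM c) (cM d) := (entropy_eq_iff hc hd).2 h5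
    exact ⟨hs, (hC _ _ hc hd hs).2 ⟨(h1 c d hc hd).1 h6, h7⟩⟩
  · rintro ⟨hs, hcode⟩
    by_contra hne
    have h4 : f (c, d) = false := by
      rcases hfc : f (c, d) with _ | _
      · rfl
      · exact absurd hfc hne
    obtain ⟨h5, h6⟩ := (hC _ _ hc hd hs).1 hcode
    rcases hf2 _ h4 with h7 | h7 | ⟨-, -, h7⟩ | h7 | h7
    · exact h7 hc
    · exact h7 hd
    · exact (entropy_ne_iff hc hd).2 h7 hs
    · exact h3 c d hc hd hpr h7 h5
    · exact h7 h6

end Pool.Agent.DEC.R
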