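import Mathlib

/-!
# Lattice chains of a shift equivalence (DEC-R, MP_59dda0_an; helper64)

`gcrd`: greatest common right divisors of integer matrices; `lattice_chain`: a shift equivalence of
nonsingular matrices gives a chain of elementary equivalences.
-/

set_option autoImplicit false

namespace Pool.Agent.DEC.R

open Matrix

variable {d : ℕ}

/-- Greatest common right divisor of two integer matrices. -/
theorem gcrd (B1 B2 : Matrix (Fin d) (Fin d) ℤ) :
    ∃ B X Y P Q : Matrix (Fin d) (Fin d) ℤ, B1 = X * B ∧ B2 = Y * B ∧ B = P * B1 + Q * B2 := by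
  classical
  set N : Submodule ℤ (Fin d → ℤ) :=
    LinearMap.range (B1.vecMulLinear) ⊔ LinearMap.range (B2.vecMulLinear) with hN
  obtain ⟨n, b⟩ := Submodule.basisOfPid (Pi.basisFun ℤ (Fin d)) N
  have hn : n ≤ d := by
    have h1 : Module.finrank ℤ N = n := by
      rw [Module.finrank_eq_card_basis b, Fintype.card_fin]
    have h2 := Submodule.finrank_le N
    rw [h1] at h2
    simpa using h2
  let B : Matrix (Fin d) (Fin d) ℤ := fun i => if h : i.1 < n then (b ⟨i.1, h⟩ : Fin d → ℤ) else 0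
  have hBN : ∀ i, B i ∈ N := by
    intro i
    by_cases h : i.1 < n
    · have : B i = (b ⟨i.1, h⟩ : Fin d → ℤ) := by simp only [B, h, dif_pos]
      rw [this]
      exact (b ⟨i.1, h⟩).2
    · have : B i = 0 := by simp only [B, h, dif_neg, not_false_iff]
      rw [this]
      exact N.zero_mem
  have hNB : ∀ v ∈ N, ∃ c : Fin d → ℤ, v = c ᵥ* B := by
    intro v hv
    have h1 : v ∈ Submodule.span ℤ (Set.range B) := by
      have h2 : (⟨v, hv⟩ : N) ∈ Submodule.span ℤ (Set.range b) := by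
        rw [b.span_eq]; trivial
      have h3 : (N.subtype) ⟨v, hv⟩ ∈ Submodule.map N.subtype (Submodule.span ℤ (Set.range b)) :=
        Submodule.mem_map_of_mem h2
      rw [Submodule.map_span] at h3
      refine Submodule.span_mono ?_ h3
      rintro _ ⟨_, ⟨k, rfl⟩, rfl⟩
      refine ⟨⟨k.1, lt_of_lt_of_le k.2 hn⟩, ?_⟩
      simp [B]
    have h4 : v ∈ LinearMap.range B.vecMulLinear := by
      rw [range_vecMulLinear]
      exact h1
    obtain ⟨c, hc⟩ := h4
    exact ⟨c, hc.symm⟩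
  have h1 : ∀ i, ∃ c : Fin d → ℤ, B1 i = c ᵥ* B := by
    intro i
    refine hNB _ (Submodule.mem_sup_left ⟨Pi.single i 1, ?_⟩)
    simp
    rfl
  have h2 : ∀ i, ∃ c : Fin d → ℤ, B2 i = c ᵥ* B := by
    intro i
    refine hNB _ (Submodule.mem_sup_right ⟨Pi.single i 1, ?_⟩)
    simp
    rfl
  have h3 : ∀ i, ∃ p q : Fin d → ℤ, B i = p ᵥ* B1 + q ᵥ* B2 := by
    intro i
    obtain ⟨x, ⟨p, hp⟩, y, ⟨q, hq⟩, hxy⟩ := Submodule.mem_sup.1 (hBN i)
    exact ⟨p, q, by rw [← hxy, ← hp, ← hq]; rfl⟩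
  choose X hX using h1
  choose Y hY using h2
  choose P Q hPQ using h3
  refine ⟨B, X, Y, P, Q, ?_, ?_, ?_⟩
  · ext i j
    exact congrFun (hX i) j
  · ext i j
    exact congrFun (hY i) j
  · ext i j
    exact congrFun (hPQ i) j

theorem mul_right_cancel_of_det {A A' B : Matrix (Fin d) (Fin d) ℤ} (hB : B.det ≠ 0)
    (h : A * B = A' * B) : A = A' := by
  have h1 : (A * B) * B.adjugate = (A' * B) * B.adjugate := by rw [h]
  rw [Matrix.mul_assoc, Matrix.mul_assoc, Matrix.mul_adjugate, Matrix.mul_smul, Matrix.mul_smul,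
    Matrix.mul_one, Matrix.mul_one] at h1
  ext i j
  have h2 := congrFun (congrFun h1 i) j
  simp only [Matrix.smul_apply, smul_eq_mul] at h2
  exact mul_left_cancel₀ hB h2

/-- The lattice chain of a shift equivalence. -/
theorem lattice_chain {T S R U : Matrix (Fin d) (Fin d) ℤ} {l : ℕ} (hT : T.det ≠ 0)
    (hUT : U * T = S * U) (hRU : R * U = T ^ l) :
    ∃ B Ti C D : ℕ → Matrix (Fin d) (Fin d) ℤ, (∀ i, (B i).det ≠ 0) ∧
      (∀ i, B i * T = Ti i * B i) ∧ (∀ i, B (i + 1) = C i * B i) ∧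
      (∀ i, B i * T = D i * B (i + 1)) ∧ (∀ i, Ti i = D i * C i) ∧
      (∀ i, Ti (i + 1) = C i * D i) ∧ (∀ i, (C i).det ≠ 0) ∧ (∀ i, |(C i).det| ≤ |T.det|) ∧
      IsUnit (B 0).det ∧ ∃ V : Matrix (Fin d) (Fin d) ℤ, IsUnit V.det ∧ B l = V * U := by
  choose B X Y P Q h1 h2 h3 using fun i : ℕ => gcrd (T ^ i) U
  have hB : ∀ i, (B i).det ≠ 0 := by
    intro i h0
    have h4 : (T ^ i).det = (X i).det * (B i).det := by rw [← Matrix.det_mul, ← h1]
    rw [h0, mul_zero, Matrix.det_pow] at h4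
    exact pow_ne_zero _ hT h4
  let Ti : ℕ → Matrix (Fin d) (Fin d) ℤ := fun i => P i * T * X i + Q i * S * Y i
  let C : ℕ → Matrix (Fin d) (Fin d) ℤ := fun i => P (i + 1) * T * X i + Q (i + 1) * Y i
  let D : ℕ → Matrix (Fin d) (Fin d) ℤ := fun i => P i * X (i + 1) + Q i * S * Y (i + 1)
  have hTi : ∀ i, B i * T = Ti i * B i := by
    intro i
    calc B i * T = (P i * T ^ i + Q i * U) * T := by rw [← h3]
      _ = P i * (T * T ^ i) + Q i * (U * T) := by
        rw [Matrix.add_mul, Matrix.mul_assoc, Matrix.mul_assoc, ← pow_succ, pow_succ']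
      _ = P i * (T * (X i * B i)) + Q i * (S * (Y i * B i)) := by rw [hUT, ← h1, ← h2]
      _ = Ti i * B i := by simp only [Ti, Matrix.add_mul, Matrix.mul_assoc]
  have hC : ∀ i, B (i + 1) = C i * B i := by
    intro i
    calc B (i + 1) = P (i + 1) * T ^ (i + 1) + Q (i + 1) * U := h3 (i + 1)
      _ = P (i + 1) * (T * (X i * B i)) + Q (i + 1) * (Y i * B i) := by
        rw [← h1, ← h2, pow_succ']
      _ = C i * B i := by simp only [C, Matrix.add_mul, Matrix.mul_assoc]
  have hD : ∀ i, B i * T = D i * B (i + 1) := by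
    intro i
    calc B i * T = (P i * T ^ i + Q i * U) * T := by rw [← h3]
      _ = P i * (T ^ (i + 1)) + Q i * (U * T) := by
        rw [Matrix.add_mul, Matrix.mul_assoc, Matrix.mul_assoc, ← pow_succ]
      _ = P i * (X (i + 1) * B (i + 1)) + Q i * (S * (Y (i + 1) * B (i + 1))) := by
        rw [hUT, ← h1, ← h2]
      _ = D i * B (i + 1) := by simp only [D, Matrix.add_mul, Matrix.mul_assoc]
  have hDC : ∀ i, Ti i = D i * C i := by
    intro i
    apply mul_right_cancel_of_det (hB i)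
    rw [← hTi, hD, Matrix.mul_assoc, ← hC]
  have hCD : ∀ i, Ti (i + 1) = C i * D i := by
    intro i
    apply mul_right_cancel_of_det (hB (i + 1))
    rw [← hTi, Matrix.mul_assoc, ← hD, ← Matrix.mul_assoc, ← hC]
  have hdet : ∀ i, (D i).det * (C i).det = T.det := by
    intro i
    rw [← Matrix.det_mul, ← hDC]
    have h4 : (B i).det * T.det = (Ti i).det * (B i).det := by
      rw [← Matrix.det_mul, ← Matrix.det_mul, hTi]
    rw [mul_comm] at h4
    exact (mul_right_cancel₀ (hB i) h4).symm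
  have hC0 : ∀ i, (C i).det ≠ 0 := by
    intro i h0
    apply hT
    rw [← hdet i, h0, mul_zero]
  have hD0 : ∀ i, (D i).det ≠ 0 := by
    intro i h0
    apply hT
    rw [← hdet i, h0, zero_mul]
  refine ⟨B, Ti, C, D, hB, hTi, hC, hD, hDC, hCD, hC0, ?_, ?_, P l * R + Q l, ?_, ?_⟩
  · intro i
    rw [← hdet i, abs_mul]
    exact le_mul_of_one_le_left (abs_nonneg _) (Int.one_le_abs (hD0 i))
  · have h4 := h1 0
    rw [pow_zero] at h4
    have h5 : (X 0).det * (B 0).det = 1 := by rw [← Matrix.det_mul, ← h4, Matrix.det_one]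
    exact IsUnit.of_mul_eq_one _ (by rw [mul_comm]; exact h5)
  · have hU : U.det ≠ 0 := by
      intro h0
      have h4 : R.det * U.det = (T ^ l).det := by rw [← Matrix.det_mul, hRU]
      rw [h0, mul_zero, Matrix.det_pow] at h4
      exact pow_ne_zero _ hT h4.symm
    have h5 : B l = (P l * R + Q l) * U := by
      rw [Matrix.add_mul, Matrix.mul_assoc, hRU]
      exact h3 l
    have h6 : Y l * (P l * R + Q l) = 1 := by
      apply mul_right_cancel_of_det hU
      rw [Matrix.mul_assoc, ← h5, ← h2 l, Matrix.one_mul]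
    have h7 : (Y l).det * (P l * R + Q l).det = 1 := by rw [← Matrix.det_mul, h6, Matrix.det_one]
    exact IsUnit.of_mul_eq_one _ (by rw [mul_comm]; exact h7)
  · rw [Matrix.add_mul, Matrix.mul_assoc, hRU]
    exact h3 l

end Pool.Agent.DEC.R
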