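import Pool.Agent.DEC.R.SE1
import Pool.Agent.DEC.R.Step
import Pool.Agent.DEC.R.Met
import Pool.Agent.DEC.R.Chain

/-!
# Bounded chains for shift equivalences (DEC-R, MP_59dda0_an; helper64)
-/

set_option autoImplicit false

namespace Pool.Agent.DEC.R

open Matrix Polynomial

variable {d : ℕ}

theorem toR_det_ne {B : Matrix (Fin d) (Fin d) ℤ} (hB : B.det ≠ 0) : IsUnit (toR B).det := by
  rw [toR_det]
  exact isUnit_iff_ne_zero.2 (by exact_mod_cast hB)

/-- Transport of a metric to a sublattice. -/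
theorem met_lattice {p : ℝ[X]} {T T1 B : Matrix (Fin d) (Fin d) ℤ}
    {H : Matrix (Fin d) (Fin d) ℝ} (h : Met p (toR T) H) (hB : B.det ≠ 0)
    (hBT : B * T = T1 * B) : Met p (toR T1) (toR B * H * (toR B)ᵀ) :=
  h.conj' (toR_det_ne hB) (by rw [← toR_mul, ← toR_mul, hBT])

theorem nrm_lattice {T T1 B : Matrix (Fin d) (Fin d) ℤ} {H : Matrix (Fin d) (Fin d) ℝ} {ρ : ℝ}
    (hN : ∀ u, nrm H (u ᵥ* toR T) ≤ ρ * nrm H u) (hBT : B * T = T1 * B) (u : Fin d → ℝ) :
    nrm (toR B * H * (toR B)ᵀ) (u ᵥ* toR T1) ≤ ρ * nrm (toR B * H * (toR B)ᵀ) u := by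
  rw [nrm_vconj, nrm_vconj, vecMul_vecMul, ← toR_mul, ← hBT, toR_mul, ← vecMul_vecMul]
  exact hN _

/-- **(N)** for a metric in the sense of `Met`. -/
theorem bound_met {p : ℝ[X]} {κ ρ : ℝ} {M : Matrix (Fin d) (Fin d) ℝ} {a : Fin d → ℝ}
    {T : Matrix (Fin d) (Fin d) ℤ} (hM : Met p (toR T) M) (hκ : 1 ≤ κ) (hρ : 1 ≤ ρ)
    (h : RB κ M a) (hN : ∀ u, nrm M (u ᵥ* toR T) ≤ ρ * nrm M u) (j k : Fin d) :
    |(T j k : ℝ)| ≤ tauG d κ (κ ^ 2 * ρ) d := by
  refine bound_N' hM.pd hκ hρ h T (aeval (toR T) p) (fun u v => hM.ip_adj u v) ?_ hN ?_ j k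
  · intro i hi l m hl hm
    refine aeval_block (i := (i : ℕ)) ?_ p l m hl hm
    intro l' m' hl' hm'
    rw [toR_apply, hi l' m' hl' hm', Int.cast_zero]
  · intro u
    rw [hM.nrm_adj]
    exact hN u

theorem adj_entry_le {C : Matrix (Fin d) (Fin d) ℤ} {K : ℕ} (hK : 1 ≤ K)
    (hC : ∀ i j, |C i j| ≤ (K : ℤ)) (i j : Fin d) :
    |C.adjugate i j| ≤ ((d.factorial * K ^ d : ℕ) : ℤ) := by
  rw [Matrix.adjugate_apply]
  have h := Matrix.det_le (A := C.updateRow j (Pi.single i 1)) (abv := (AbsoluteValue.abs : AbsoluteValue ℤ ℤ))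
    (x := (K : ℤ)) (by
      intro a b
      show |C.updateRow j (Pi.single i 1) a b| ≤ (K : ℤ)
      by_cases ha : a = j
      · subst ha
        rw [Matrix.updateRow_self]
        by_cases hb : b = i
        · subst hb
          rw [Pi.single_eq_same, abs_one]
          exact_mod_cast hK
        · rw [Pi.single_eq_of_ne hb, abs_zero]
          positivity
      · rw [Matrix.updateRow_ne ha]
        exact hC a b)
  rw [Fintype.card_fin, nsmul_eq_mul] at h
  push_cast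
  exact h

/-- The cofactor of a bounded factorisation is bounded. -/
theorem cofactor_le {C D T : Matrix (Fin d) (Fin d) ℤ} {K1 K2 : ℕ} (hK : 1 ≤ K2)
    (hC : ∀ i j, |C i j| ≤ (K2 : ℤ)) (hT : ∀ i j, |T i j| ≤ (K1 : ℤ)) (hdet : C.det ≠ 0)
    (h : T = D * C) (i j : Fin d) :
    |D i j| ≤ ((d * (K1 * (d.factorial * K2 ^ d)) : ℕ) : ℤ) := by
  have h1 : T * C.adjugate = C.det • D := by
    rw [h, Matrix.mul_assoc, Matrix.mul_adjugate, Matrix.mul_smul, Matrix.mul_one]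
  have h2 : |D i j| ≤ |(T * C.adjugate) i j| := by
    rw [h1, Matrix.smul_apply, smul_eq_mul, abs_mul]
    exact le_mul_of_one_le_left (abs_nonneg _) (Int.one_le_abs hdet)
  refine h2.trans ((mul_entry_le hT (adj_entry_le hK hC) i j).trans ?_)
  push_cast
  exact le_rfl

theorem cast_abs_le {x : ℤ} {K : ℕ} {r : ℝ} (h : |(x : ℝ)| ≤ r) (hr : r ≤ K) : |x| ≤ (K : ℤ) := by
  have : |(x : ℝ)| ≤ (K : ℝ) := h.trans hr
  rw [← Int.cast_abs] at this
  exact_mod_cast this

/-- The middle part of the chain of a shift equivalence. -/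
theorem chain_mid {p : ℝ[X]} {κ ρ δ : ℝ} {K1 K2 : ℕ} (hκ : 1 ≤ κ) (hρ : 1 ≤ ρ)
    (hE : ExistRd d κ) (hK2 : 1 ≤ K2) (h1 : tauG d κ (κ ^ 2 * ρ) d ≤ K1)
    (h2 : tauG d κ (κ ^ 6 * δ) d ≤ K2) {T S R U : Matrix (Fin d) (Fin d) ℤ} {l : ℕ}
    {H : Matrix (Fin d) (Fin d) ℝ} (hM : Met p (toR T) H)
    (hN : ∀ u, nrm H (u ᵥ* toR T) ≤ ρ * nrm H u) (hδ : |(T.det : ℝ)| ≤ δ)
    (hT : T.det ≠ 0) (hUT : U * T = S * U) (hRU : R * U = T ^ l) :
    ∃ T0 Tl g v : Matrix (Fin d) (Fin d) ℤ, IsUnit g.det ∧ IsUnit v.det ∧ g * T = T0 * g ∧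
      v * S = Tl * v ∧ (∀ i j, |T0 i j| ≤ (K1 : ℤ)) ∧ (∀ i j, |Tl i j| ≤ (K1 : ℤ)) ∧
      Relation.ReflTransGen (Step (K1 + K2 + d * (K1 * (d.factorial * K2 ^ d)))) T0 Tl := by
  obtain ⟨B, Ti, C, D, hB, hTi, hC, hD, hDC, hCD, hC0, hCd, hB0, V, hV, hBl⟩ :=
    lattice_chain hT hUT hRU
  have hex : ∀ i, ∃ b : GZ d, Rd κ (toR (B i) * H * (toR (B i))ᵀ) b := fun i =>
    hE _ (pd_conj hM.pd (toR_det_ne (hB i)))
  choose b hb using hex
  have bdet : ∀ i, IsUnit ((b i).val).det := fun i =>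
    (Matrix.isUnit_iff_isUnit_det _).1 (b i).isUnit
  have binv : ∀ i, (b i)⁻¹.val * (b i).val = 1 := fun i => Units.inv_mul (b i)
  have binv' : ∀ i, (b i).val * (b i)⁻¹.val = 1 := fun i => Units.mul_inv (b i)
  let B' : ℕ → Matrix (Fin d) (Fin d) ℤ := fun i => (b i).val * B i
  let T' : ℕ → Matrix (Fin d) (Fin d) ℤ := fun i => (b i).val * Ti i * (b i)⁻¹.val
  let C' : ℕ → Matrix (Fin d) (Fin d) ℤ := fun i => (b (i + 1)).val * C i * (b i)⁻¹.val
  let D' : ℕ → Matrix (Fin d) (Fin d) ℤ := fun i => (b i).val * D i * (b (i + 1))⁻¹.val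
  have hB'0 : ∀ i, (B' i).det ≠ 0 := by
    intro i
    rw [Matrix.det_mul]
    exact mul_ne_zero (bdet i).ne_zero (hB i)
  have hT' : ∀ i, B' i * T = T' i * B' i := by
    intro i
    calc B' i * T = (b i).val * (B i * T) := by simp only [B', Matrix.mul_assoc]
      _ = (b i).val * (Ti i * B i) := by rw [hTi]
      _ = (b i).val * (Ti i * (((b i)⁻¹.val * (b i).val) * B i)) := by
        rw [binv, Matrix.one_mul]
      _ = T' i * B' i := by simp only [T', B', Matrix.mul_assoc]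
  have hC' : ∀ i, B' (i + 1) = C' i * B' i := by
    intro i
    calc B' (i + 1) = (b (i + 1)).val * (C i * B i) := by simp only [B', hC]
      _ = (b (i + 1)).val * (C i * (((b i)⁻¹.val * (b i).val) * B i)) := by
        rw [binv, Matrix.one_mul]
      _ = C' i * B' i := by simp only [C', B', Matrix.mul_assoc]
  have hDC' : ∀ i, T' i = D' i * C' i := by
    intro i
    calc T' i = (b i).val * (D i * C i) * (b i)⁻¹.val := by simp only [T', hDC]
      _ = (b i).val * (D i * (((b (i + 1))⁻¹.val * (b (i + 1)).val) * C i)) * (b i)⁻¹.val := by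
        rw [binv, Matrix.one_mul]
      _ = D' i * C' i := by simp only [D', C', Matrix.mul_assoc]
  have hCD' : ∀ i, T' (i + 1) = C' i * D' i := by
    intro i
    calc T' (i + 1) = (b (i + 1)).val * (C i * D i) * (b (i + 1))⁻¹.val := by
          simp only [T', hCD]
      _ = (b (i + 1)).val * (C i * (((b i)⁻¹.val * (b i).val) * D i)) * (b (i + 1))⁻¹.val := by
        rw [binv, Matrix.one_mul]
      _ = C' i * D' i := by simp only [D', C', Matrix.mul_assoc]
  have hRB : ∀ i, ∃ a, RB κ (toR (B' i) * H * (toR (B' i))ᵀ) a := by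
    intro i
    obtain ⟨a, ha⟩ := hb i
    refine ⟨a, ?_⟩
    have : toR (B' i) * H * (toR (B' i))ᵀ =
        toR (b i).val * (toR (B i) * H * (toR (B i))ᵀ) * (toR (b i).val)ᵀ := by
      simp only [B', toR_mul, Matrix.transpose_mul, Matrix.mul_assoc]
    rw [this]
    exact ha
  have hTK : ∀ i j k, |T' i j k| ≤ (K1 : ℤ) := by
    intro i j k
    obtain ⟨a, ha⟩ := hRB i
    exact cast_abs_le (bound_met (met_lattice hM (hB'0 i) (hT' i)) hκ hρ ha
      (fun u => nrm_lattice hN (hT' i) u) j k) h1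
  have habs : ∀ i, |((b i).val).det| = 1 := by
    intro i
    rcases Int.isUnit_iff.1 (bdet i) with h | h
    · rw [h]; simp
    · rw [h]; simp
  have habs' : ∀ i, |((b i)⁻¹.val).det| = 1 := by
    intro i
    have h3 : IsUnit ((b i)⁻¹.val).det := (Matrix.isUnit_iff_isUnit_det _).1 ((b i)⁻¹).isUnit
    rcases Int.isUnit_iff.1 h3 with h | h
    · rw [h]; simp
    · rw [h]; simp
  have hCdet : ∀ i, |(C' i).det| = |(C i).det| := by
    intro i
    simp only [C', Matrix.det_mul, abs_mul, habs, habs', one_mul, mul_one]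
  have hC'0 : ∀ i, (C' i).det ≠ 0 := by
    intro i h0
    have h3 := hCdet i
    rw [h0, abs_zero] at h3
    exact hC0 i (abs_eq_zero.1 h3.symm)
  have hCK : ∀ i j k, |C' i j k| ≤ (K2 : ℤ) := by
    intro i j k
    obtain ⟨a, ha⟩ := hRB i
    obtain ⟨a', ha'⟩ := hRB (i + 1)
    refine cast_abs_le (bound_S (δ := δ) (pd_conj hM.pd (toR_det_ne (hB'0 i))) hκ ha (a' := a')
      ?_ (hC'0 i) ?_ j k) h2
    · have e1 : toR (B' (i + 1)) = toR (C' i) * toR (B' i) := by rw [hC' i, toR_mul]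
      have : toR (C' i) * (toR (B' i) * H * (toR (B' i))ᵀ) * (toR (C' i))ᵀ =
          toR (B' (i + 1)) * H * (toR (B' (i + 1)))ᵀ := by
        rw [e1, Matrix.transpose_mul]
        generalize toR (C' i) = c
        generalize toR (B' i) = e
        simp only [Matrix.mul_assoc]
      rw [this]
      exact ha'
    · refine le_trans ?_ hδ
      rw [← Int.cast_abs, ← Int.cast_abs, hCdet]
      exact_mod_cast hCd i
  have hDK : ∀ i j k, |D' i j k| ≤ ((d * (K1 * (d.factorial * K2 ^ d)) : ℕ) : ℤ) := fun i =>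
    cofactor_le hK2 (hCK i) (hTK i) (hC'0 i) (hDC' i)
  set K := K1 + K2 + d * (K1 * (d.factorial * K2 ^ d)) with hKdef
  have le1 : (K1 : ℤ) ≤ (K : ℤ) := by exact_mod_cast (show K1 ≤ K by omega)
  have le2 : (K2 : ℤ) ≤ (K : ℤ) := by exact_mod_cast (show K2 ≤ K by omega)
  have le3 : ((d * (K1 * (d.factorial * K2 ^ d)) : ℕ) : ℤ) ≤ (K : ℤ) := by
    exact_mod_cast (show d * (K1 * (d.factorial * K2 ^ d)) ≤ K by omega)
  have hstep : ∀ i, Step K (T' i) (T' (i + 1)) := fun i =>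
    ⟨C' i, D' i, hDC' i, hCD' i, fun j k => (hCK i j k).trans le2,
      fun j k => (hDK i j k).trans le3, fun j k => (hTK i j k).trans le1,
      fun j k => (hTK (i + 1) j k).trans le1⟩
  have hchain : ∀ i, Relation.ReflTransGen (Step K) (T' 0) (T' i) := by
    intro i
    induction i with
    | zero => exact Relation.ReflTransGen.refl
    | succ i ih => exact ih.tail (hstep i)
  refine ⟨T' 0, T' l, B' 0, (b l).val * V, ?_, ?_, hT' 0, ?_, hTK 0, hTK l, hchain l⟩
  · rw [Matrix.det_mul]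
    exact (bdet 0).mul hB0
  · rw [Matrix.det_mul]
    exact (bdet l).mul hV
  · have hU : U.det ≠ 0 := by
      intro h0
      have h4 : R.det * U.det = (T ^ l).det := by rw [← Matrix.det_mul, hRU]
      rw [h0, mul_zero, Matrix.det_pow] at h4
      exact pow_ne_zero _ hT h4.symm
    apply mul_right_cancel_of_det hU
    have h5 : B' l = (b l).val * V * U := by
      simp only [B', hBl, Matrix.mul_assoc]
    calc (b l).val * V * S * U = (b l).val * V * (U * T) := by rw [hUT, Matrix.mul_assoc]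
      _ = B' l * T := by rw [h5, Matrix.mul_assoc ((b l).val * V) U T]
      _ = T' l * B' l := hT' l
      _ = T' l * ((b l).val * V) * U := by rw [h5, Matrix.mul_assoc (T' l)]

end Pool.Agent.DEC.R
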