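import Mathlib

/-!
# Loop cutting (DEC-R, MP_59dda0_an; helper64)
-/

set_option autoImplicit false

namespace Pool.Agent.DEC.R

/-- A walk of length `n` for the relation `r`. -/
def IsWalk {W : Type*} (r : W → W → Prop) (n : ℕ) (f : ℕ → W) : Prop :=
  ∀ i < n, r (f i) (f (i + 1))

theorem exists_walk_of_reflTransGen {W : Type*} {r : W → W → Prop} {a b : W}
    (h : Relation.ReflTransGen r a b) : ∃ (n : ℕ) (f : ℕ → W), f 0 = a ∧ f n = b ∧ IsWalk r n f := by
  induction h with
  | refl => exact ⟨0, fun _ => a, rfl, rfl, fun i hi => absurd hi (by omega)⟩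
  | @tail b c _ hbc ih =>
    obtain ⟨n, f, h0, hn, hw⟩ := ih
    refine ⟨n + 1, fun i => if i ≤ n then f i else c, ?_, ?_, ?_⟩
    · simp [h0]
    · simp
    · intro i hi
      by_cases hin : i < n
      · have h1 : i ≤ n := hin.le
        have h2 : i + 1 ≤ n := hin
        simp only [h1, h2, if_true]
        exact hw i hin
      · have : i = n := by omega
        subst this
        simp only [le_refl, if_true]
        rw [if_neg (by omega), hn]
        exact hbc

/-- A shortest walk has length less than the number of nodes. -/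
theorem exists_short_walk {W : Type*} [Finite W] {r : W → W → Prop} {a b : W}
    (h : Relation.ReflTransGen r a b) :
    ∃ (n : ℕ) (f : ℕ → W), n < Nat.card W ∧ f 0 = a ∧ f n = b ∧ IsWalk r n f := by
  classical
  have hex : ∃ n, ∃ f : ℕ → W, f 0 = a ∧ f n = b ∧ IsWalk r n f :=
    exists_walk_of_reflTransGen h
  obtain ⟨f, h0, hn, hw⟩ := Nat.find_spec hex
  set n := Nat.find hex with hndef
  have hmin : ∀ m, m < n → ¬ ∃ f : ℕ → W, f 0 = a ∧ f m = b ∧ IsWalk r m f :=
    fun m hm => Nat.find_min hex hm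
  refine ⟨n, f, ?_, h0, hn, hw⟩
  have hinj : Function.Injective (fun i : Fin (n + 1) => f i.1) := by
    have key : ∀ i j : ℕ, i < j → j ≤ n → f i ≠ f j := by
      intro i j hij hj he
      apply hmin (n - (j - i)) (by omega)
      refine ⟨fun l => if l ≤ i then f l else f (l + (j - i)), ?_, ?_, ?_⟩
      · simp [h0]
      · by_cases h1 : n - (j - i) ≤ i
        · have h2 : n - (j - i) = i := by omega
          simp only [h1, if_true]
          rw [h2, he]
          have : j = n := by omega
          rw [this, hn]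
        · simp only [h1, if_false]
          rw [show n - (j - i) + (j - i) = n by omega, hn]
      · intro l hl
        by_cases h1 : l + 1 ≤ i
        · have h2 : l ≤ i := by omega
          simp only [h1, h2, if_true]
          exact hw l (by omega)
        · by_cases h2 : l ≤ i
          · have h3 : l = i := by omega
            subst h3
            simp only [le_refl, if_true, h1, if_false]
            rw [he, show l + 1 + (j - l) = j + 1 by omega]
            exact hw j (by omega)
          · simp only [h1, h2, if_false]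
            rw [show l + 1 + (j - i) = l + (j - i) + 1 by omega]
            exact hw _ (by omega)
    intro i j hij
    by_contra hne
    rcases lt_or_gt_of_ne (fun h => hne (Fin.ext h) : i.1 ≠ j.1) with h1 | h1
    · exact key _ _ h1 (by omega) hij
    · exact key _ _ h1 (by omega) hij.symm
  have := Nat.card_le_card_of_injective _ hinj
  simpa using this

/-- The product `g (m-1) * ... * g 0`. -/
def lprod {Mo : Type*} [Monoid Mo] (g : ℕ → Mo) : ℕ → Mo
  | 0 => 1
  | (m + 1) => g m * lprod g m

theorem short_labelled {V Mo F : Type*} [Finite V] [Finite F] [Monoid Mo] [Monoid F]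
    (φ : Mo →* F) (R : V → Mo → V → Prop) {n : ℕ} (v : ℕ → V) (g : ℕ → Mo)
    (hR : ∀ i < n, R (v i) (g i) (v (i + 1))) :
    ∃ (m : ℕ) (v' : ℕ → V) (g' : ℕ → Mo), m < Nat.card V * Nat.card F ∧ v' 0 = v 0 ∧
      v' m = v n ∧ (∀ i < m, R (v' i) (g' i) (v' (i + 1))) ∧ φ (lprod g' m) = φ (lprod g n) := by
  classical
  let r : V × F → V × F → Prop := fun a b => ∃ w, R a.1 w b.1 ∧ b.2 = φ w * a.2
  have h1 : Relation.ReflTransGen r (v 0, 1) (v n, φ (lprod g n)) := by
    have : ∀ k ≤ n, Relation.ReflTransGen r (v 0, 1) (v k, φ (lprod g k)) := by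
      intro k
      induction k with
      | zero => intro _; simp only [lprod, map_one]; exact Relation.ReflTransGen.refl
      | succ k ih =>
        intro hk
        refine (ih (by omega)).tail ⟨g k, hR k (by omega), ?_⟩
        simp [lprod]
    exact this n le_rfl
  obtain ⟨m, f, hm, h0, hn, hw⟩ := exists_short_walk h1
  have hw' : ∀ i, ∃ w, i < m → R (f i).1 w (f (i + 1)).1 ∧ (f (i + 1)).2 = φ w * (f i).2 := by
    intro i
    by_cases hi : i < m
    · obtain ⟨w, hw1⟩ := hw i hi
      exact ⟨w, fun _ => hw1⟩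
    · exact ⟨1, fun h => absurd h hi⟩
  choose g' hg' using hw'
  refine ⟨m, fun i => (f i).1, g', ?_, ?_, ?_, fun i hi => (hg' i hi).1, ?_⟩
  · simpa [Nat.card_prod] using hm
  · simp [h0]
  · simp [hn]
  · have : ∀ k ≤ m, φ (lprod g' k) = (f k).2 := by
      intro k
      induction k with
      | zero => intro _; simp [lprod, h0]
      | succ k ih =>
        intro hk
        rw [lprod, map_mul, ih (by omega), (hg' k (by omega)).2]
    rw [this m le_rfl, hn]

theorem lprod_bound {d : ℕ} {K : ℕ} (g : ℕ → Matrix (Fin d) (Fin d) ℤ) (m : ℕ)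
    (hg : ∀ i < m, ∀ a b, |g i a b| ≤ K) (a b : Fin d) : |lprod g m a b| ≤ ((d * K : ℕ) : ℤ) ^ m := by
  induction m generalizing a b with
  | zero =>
    simp only [lprod, Matrix.one_apply, pow_zero]
    split_ifs <;> simp
  | succ m ih =>
    rw [lprod, Matrix.mul_apply]
    have h1 : ∀ c, |g m a c * lprod g m c b| ≤ (K : ℤ) * ((d * K : ℕ) : ℤ) ^ m := by
      intro c
      rw [abs_mul]
      exact mul_le_mul (hg m (by omega) a c) (ih (fun i hi => hg i (by omega)) c b) (abs_nonneg _)
        (by positivity)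
    calc |∑ c, g m a c * lprod g m c b| ≤ ∑ c, |g m a c * lprod g m c b| :=
          Finset.abs_sum_le_sum_abs _ _
      _ ≤ ∑ _c : Fin d, (K : ℤ) * ((d * K : ℕ) : ℤ) ^ m := Finset.sum_le_sum fun c _ => h1 c
      _ = ((d * K : ℕ) : ℤ) ^ (m + 1) := by
        simp only [Finset.sum_const, Finset.card_univ, Fintype.card_fin, nsmul_eq_mul]
        push_cast
        ring

/-- Integer matrices with entries bounded by `K`. -/
def BMat (d K : ℕ) : Type := {T : Matrix (Fin d) (Fin d) ℤ // ∀ a b, |T a b| ≤ K}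

/-- The coding of a bounded matrix by natural numbers `< 2 K + 1`. -/
def BMat.code {d K : ℕ} (T : BMat d K) : Fin d → Fin d → Fin (2 * K + 1) :=
  fun a b => ⟨(T.1 a b + K).toNat, by have := abs_le.mp (T.2 a b); omega⟩

theorem BMat.code_injective {d K : ℕ} : Function.Injective (BMat.code (d := d) (K := K)) := by
  intro S T h
  apply Subtype.ext
  ext a b
  have h1 := congrArg Fin.val (congrFun (congrFun h a) b)
  simp only [BMat.code] at h1
  have h2 := abs_le.mp (S.2 a b)
  have h3 := abs_le.mp (T.2 a b)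
  omega

instance {d K : ℕ} : Finite (BMat d K) := Finite.of_injective _ BMat.code_injective

theorem BMat.card_le (d K : ℕ) : Nat.card (BMat d K) ≤ (2 * K + 1) ^ (d * d) := by
  have h := Nat.card_le_card_of_injective _ (BMat.code_injective (d := d) (K := K))
  refine h.trans (le_of_eq ?_)
  simp [Nat.card_eq_fintype_card, ← pow_mul]

theorem card_marks (d n : ℕ) [NeZero n] :
    Nat.card (Matrix (Fin d) (Fin d) (ZMod n)) = n ^ (d * d) := by
  have : Nat.card (Matrix (Fin d) (Fin d) (ZMod n)) = Nat.card (Fin d → Fin d → ZMod n) := rfl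
  rw [this]
  simp [Nat.card_eq_fintype_card, ZMod.card, ← pow_mul]

/-- One bounded step: `g T = T' g` with `g` unimodular, all entries bounded by `K`. -/
def BStep {d : ℕ} (K : ℕ) (T g T' : Matrix (Fin d) (Fin d) ℤ) : Prop :=
  (∀ a b, |T a b| ≤ K) ∧ (∀ a b, |T' a b| ≤ K) ∧ (∀ a b, |g a b| ≤ K) ∧ IsUnit g.det ∧
    g * T = T' * g

theorem lprod_conj {d : ℕ} (v : ℕ → Matrix (Fin d) (Fin d) ℤ) (g : ℕ → Matrix (Fin d) (Fin d) ℤ)
    (m : ℕ) (h : ∀ i < m, g i * v i = v (i + 1) * g i) : lprod g m * v 0 = v m * lprod g m := by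
  induction m with
  | zero => simp [lprod]
  | succ m ih =>
    rw [lprod, Matrix.mul_assoc, ih (fun i hi => h i (by omega)), ← Matrix.mul_assoc,
      h m (by omega), Matrix.mul_assoc]

theorem lprod_det {d : ℕ} (g : ℕ → Matrix (Fin d) (Fin d) ℤ) (m : ℕ)
    (h : ∀ i < m, IsUnit (g i).det) : IsUnit (lprod g m).det := by
  induction m with
  | zero => simp [lprod]
  | succ m ih =>
    rw [lprod, Matrix.det_mul]
    exact (h m (by omega)).mul (ih fun i hi => h i (by omega))

/-- Length of the walks that are needed. -/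
def nNodes (d K n : ℕ) : ℕ := (2 * K + 1) ^ (d * d) * n ^ (d * d)

/-- Loop cutting with marks modulo `n`: a chain of bounded steps of any length can be replaced by a
chain of at most `nNodes d K n` steps with the same total matrix modulo `n`. -/
theorem short_chain {d K n : ℕ} [NeZero n] {r : ℕ} (v g : ℕ → Matrix (Fin d) (Fin d) ℤ)
    (h : ∀ i < r, BStep K (v i) (g i) (v (i + 1))) :
    ∃ (m : ℕ) (v' g' : ℕ → Matrix (Fin d) (Fin d) ℤ), m ≤ nNodes d K n ∧ v' 0 = v 0 ∧
      v' m = v r ∧ (∀ i < m, BStep K (v' i) (g' i) (v' (i + 1))) ∧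
      (lprod g' m).map (Int.cast : ℤ → ZMod n) = (lprod g r).map (Int.cast : ℤ → ZMod n) := by
  classical
  rcases Nat.eq_zero_or_pos r with hr | hr
  · subst hr
    exact ⟨0, v, g, Nat.zero_le _, rfl, rfl, fun i hi => absurd hi (by omega), rfl⟩
  have hb : ∀ i ≤ r, ∀ a b, |v i a b| ≤ K := by
    intro i hi
    rcases Nat.lt_or_ge i r with h1 | h1
    · exact (h i h1).1
    · have : i = (r - 1) + 1 := by omega
      rw [this]
      exact (h (r - 1) (by omega)).2.1
  let V := BMat d K
  let vv : ℕ → V := fun i => if hi : i ≤ r then ⟨v i, hb i hi⟩ else ⟨v 0, hb 0 (by omega)⟩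
  let φ : Matrix (Fin d) (Fin d) ℤ →* Matrix (Fin d) (Fin d) (ZMod n) :=
    ((Int.castRingHom (ZMod n)).mapMatrix : _ →+* _).toMonoidHom
  let R : V → Matrix (Fin d) (Fin d) ℤ → V → Prop := fun a w b => BStep K a.1 w b.1
  have hvv : ∀ i ≤ r, (vv i).1 = v i := by
    intro i hi
    show (if hi : i ≤ r then (⟨v i, hb i hi⟩ : V) else ⟨v 0, hb 0 (by omega)⟩).1 = v i
    rw [dif_pos hi]
  obtain ⟨m, v', g', hm, h0, hn, hw, hφ⟩ := short_labelled φ R vv g (n := r) (by
    intro i hi
    show BStep K (vv i).1 (g i) (vv (i + 1)).1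
    rw [hvv i hi.le, hvv (i + 1) hi]
    exact h i hi)
  refine ⟨m, fun i => (v' i).1, g', ?_, ?_, ?_, fun i hi => hw i hi, ?_⟩
  · refine hm.le.trans ?_
    rw [card_marks]
    exact Nat.mul_le_mul_right _ (BMat.card_le d K)
  · simp only [h0]
    exact hvv 0 (by omega)
  · simp only [hn]
    exact hvv r le_rfl
  · exact hφ

/-- The bound of the short transporter. -/
def KShort (d K n : ℕ) : ℕ := (d * K + 1) ^ nNodes d K n

/-- COROLLARY of Theorem C with marks. -/
theorem short_conj {d K n : ℕ} [NeZero n] {r : ℕ} (v g : ℕ → Matrix (Fin d) (Fin d) ℤ)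
    (h : ∀ i < r, BStep K (v i) (g i) (v (i + 1))) :
    ∃ w : Matrix (Fin d) (Fin d) ℤ, IsUnit w.det ∧ w * v 0 = v r * w ∧
      w.map (Int.cast : ℤ → ZMod n) = (lprod g r).map (Int.cast : ℤ → ZMod n) ∧
      ∀ a b, |w a b| ≤ KShort d K n := by
  obtain ⟨m, v', g', hm, h0, hn, hw, hφ⟩ := short_chain (n := n) v g h
  refine ⟨lprod g' m, lprod_det _ _ fun i hi => (hw i hi).2.2.2.1, ?_, hφ, fun a b => ?_⟩
  · rw [← h0, ← hn]
    exact lprod_conj v' g' m fun i hi => (hw i hi).2.2.2.2
  · refine (lprod_bound (K := K) g' m (fun i hi => (hw i hi).2.2.1) a b).trans ?_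
    rw [KShort]
    push_cast
    calc ((d : ℤ) * K) ^ m ≤ ((d : ℤ) * K + 1) ^ m := pow_le_pow_left₀ (by positivity) (by omega) _
      _ ≤ ((d : ℤ) * K + 1) ^ nNodes d K n := pow_le_pow_right₀ (by
        have : (0 : ℤ) ≤ (d : ℤ) * K := by positivity
        omega) hm

end Pool.Agent.DEC.R
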