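import Mathlib

/-!
# DEC-R: the trace and dimension condition for integral matrices with nonzero determinant
-/

set_option autoImplicit false

open Matrix

namespace Pool.Agent.DEC.R

/-- an integral matrix over `ℚ` -/
def qM {m n : Type} (T : Matrix m n ℤ) : Matrix m n ℚ := T.map (Int.cast : ℤ → ℚ)

/-- the dimension group of a nonsingular matrix: the rational row vectors that some power of `T`
makes integral -/
def DG {d : ℕ} (T : Matrix (Fin d) (Fin d) ℤ) : Set (Fin d → ℚ) :=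
  {v | ∃ (k : ℕ) (z : Fin d → ℤ), ∀ j, (v ᵥ* qM T ^ k) j = (z j : ℚ)}

/-- the endomorphism `w ↦ w T` of an invariant subspace of row vectors -/
def res {d : ℕ} (T : Matrix (Fin d) (Fin d) ℤ) (W : Submodule ℚ (Fin d → ℚ))
    (hW : ∀ w ∈ W, w ᵥ* qM T ∈ W) : Module.End ℚ W :=
  ((qM T).vecMulLinear).restrict hW

/-- the dimension condition with the trace condition on the kernel -/
def TDC {d e : ℕ} (T : Matrix (Fin d) (Fin d) ℤ) (S : Matrix (Fin e) (Fin e) ℤ) (Nz : ℕ → Prop) :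
    Prop :=
  ∃ (W U : Submodule ℚ (Fin d → ℚ)) (_ : ∀ w ∈ W, w ᵥ* qM T ∈ W)
    (hU : ∀ w ∈ U, w ᵥ* qM T ∈ U) (ψ : (Fin d → ℚ) →ₗ[ℚ] (Fin e → ℚ)),
    U ≤ W ∧ (∀ w ∈ W, ψ (w ᵥ* qM T) = ψ w ᵥ* qM S) ∧ (∀ w ∈ W, ψ w = 0 ↔ w ∈ U) ∧
    (∀ y, y ∈ DG S ↔ ∃ w ∈ W, w ∈ DG T ∧ ψ w = y) ∧
    ∀ n : ℕ, 0 < n → Nz n → LinearMap.trace ℚ U ((res T U hU) ^ n) = 0

end Pool.Agent.DEC.R
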